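import Pool.Agent.RCone.Dens

/-! # Clocked payloads and the linear criterion (helper70, MP_a8de0d_lc) -/

namespace RCone

open Language

variable {X Y W V : Type}

/-- pairs of a payload letter (or nothing) and a clock letter -/
abbrev PC (X : Type) := Option X × Sym

/-- the payload -/
def pay (w : List (PC X)) : List X := w.flatMap fun z => z.1.toList

/-- clock not valid at a stage of `A`, or payload in `L` -/
def padL (L : Language X) (A : Set ℕ) : Language (PC X) :=
  {w | w.map Prod.snd ∈ H A ∨ pay w ∈ L}

theorem flatMap_snd (w : List (PC X)) : (w.flatMap fun z => [z.2]) = w.map Prod.snd := by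
  induction w with
  | nil => rfl
  | cons a w ih => rw [List.flatMap_cons, ih]; rfl

theorem geq_padL [Finite X] [Finite Y] {K : Language Y} {L : Language X} {A : Set ℕ}
    (h₁ : Geq K L) (h₂ : Geq K (H A)) : Geq K (padL L A) := by
  have e : padL L A = comapL (H A) (fun z : PC X => [z.2]) +
      comapL L (fun z : PC X => z.1.toList) := by
    ext w
    rw [Language.mem_add, mem_comapL, mem_comapL, flatMap_snd]
    rfl
  rw [e]
  exact (h₂.trans (Geq.comap _ _)).union (h₁.trans (Geq.comap _ _))

/-- the words of `L` of length at most `n` -/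
def trunc (L : Language X) (n : ℕ) : Language X := {x | x ∈ L ∧ x.length ≤ n}

theorem card_prefDFA' (y : List X) :
    Fintype.card (Option (Fin (y.length + 1))) = y.length + 2 := by
  rw [Fintype.card_option, Fintype.card_fin]

theorem length_pay (w : List (PC X)) : (pay w).length ≤ w.length := by
  unfold pay
  induction w with
  | nil => simp
  | cons a w ih =>
    rw [List.flatMap_cons, List.length_append, List.length_cons]
    have : a.1.toList.length ≤ 1 := by
      cases a.1 <;> simp
    omega

theorem exists_pad (κ : List Sym) (x : List X) (hx : x.length ≤ κ.length) :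
    ∃ w : List (PC X), w.map Prod.snd = κ ∧ pay w = x := by
  induction κ generalizing x with
  | nil =>
    have : x = [] := List.length_eq_zero_iff.mp (Nat.le_zero.mp hx)
    exact ⟨[], rfl, by rw [this]; rfl⟩
  | cons k κ ih =>
    cases x with
    | nil =>
      obtain ⟨w, h1, h2⟩ := ih [] (Nat.zero_le _)
      exact ⟨(none, k) :: w, by rw [List.map_cons, h1], by
        unfold pay at h2 ⊢
        rw [List.flatMap_cons, h2]
        rfl⟩
    | cons a x =>
      obtain ⟨w, h1, h2⟩ := ih x (by simpa using hx)
      exact ⟨(some a, k) :: w, by rw [List.map_cons, h1], by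
        unfold pay at h2 ⊢
        rw [List.flatMap_cons, h2]
        rfl⟩

/-- a valid clock of length `n` recovers the truncation at a linear cost -/
theorem trunc_of_padL [Finite X] (L : Language X) {A : Set ℕ} {κ : List Sym} (hκ : κ ∉ H A) :
    GeqS (κ.length + 2) 1 (padL L A) (trunc L κ.length) := by
  have hacc : ∀ h : List (PC X), h ∈ ((prefDFA κ {κ.length}).comap (Prod.snd : PC X → Sym)).accepts
      ↔ h.map Prod.snd = κ := by
    intro h
    rw [DFA.accepts_comap]
    change h.map Prod.snd ∈ (prefDFA κ {κ.length}).accepts ↔ _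
    rw [prefDFA_accepts]
    constructor
    · rintro ⟨h1, h2⟩
      exact h1.eq_of_length h2
    · intro h1
      rw [h1]
      exact ⟨List.prefix_refl _, rfl⟩
  refine ⟨⟨PC X, inferInstance, ((prefDFA κ {κ.length}).comap (Prod.snd : PC X → Sym)).accepts,
    isRegular_of_dfa _, fun z => [z], fun z => z.1.toList⟩, ⟨⟨_, inferInstance, _, rfl, ?_⟩, ?_⟩, ?_⟩
  · rw [card_prefDFA']
  · intro z
    refine ⟨le_rfl, ?_⟩
    change z.1.toList.length ≤ 1
    cases z.1 <;> simp
  · ext x
    constructor
    · rintro ⟨h, h1, h2, h3⟩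
      have h1' := (hacc h).mp h1
      have h2' : h.flatMap (fun z : PC X => [z]) ∈ padL L A := h2
      rw [flatMap_single] at h2'
      have h3' : pay h = x := h3
      refine ⟨?_, ?_⟩
      · rcases h2' with h4 | h4
        · rw [h1'] at h4
          exact absurd h4 hκ
        · rw [← h3']
          exact h4
      · rw [← h3', ← h1', List.length_map]
        exact length_pay h
    · rintro ⟨hx, hl⟩
      obtain ⟨w, h1, h2⟩ := exists_pad κ x hl
      refine ⟨w, (hacc w).mpr h1, ?_, h2⟩
      change w.flatMap (fun z : PC X => [z]) ∈ padL L A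
      rw [flatMap_single]
      right
      rw [h2]
      exact hx

/-- the finitely many exceptions before stage `b` -/
def excL (L : Language X) (A : Set ℕ) (b : ℕ) : Language (PC X) :=
  {w | ¬ ∃ a ∈ A, a < b ∧ w.map Prod.snd = rul (zz (2 * a)) ∧ pay w ∉ L}

theorem padL_sub_excL {L : Language X} {A : Set ℕ} {b : ℕ} {w : List (PC X)}
    (hw : w ∈ padL L A) : w ∈ excL L A b := by
  rintro ⟨a, ha, _, h1, h2⟩
  rcases hw with h | h
  · rw [h1] at h
    exact rul_zz_not_mem ha h
  · exact h2 h

/-- before stage `b` the exceptions decide, if `b` is not a stage of `A` -/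
theorem exc_pump [Finite X] (τ : Transducer (PC X) V) (L : Language X) (A : Set ℕ) :
    ∃ N₀, ∀ b, N₀ ≤ b → b ∉ A → ∀ y : List V, y.length ≤ T (2 * b) →
      y ∈ τ.image (excL L A b) → y ∈ τ.image (padL L A) := by
  obtain ⟨c, hc⟩ := exists_pump τ.inv
  obtain ⟨N₀, hN₀⟩ := growth c
  refine ⟨N₀, fun b hb hbA y hy hmem => ?_⟩
  obtain ⟨h, hK, hL, hψ⟩ := hmem
  by_cases hpad : h.flatMap τ.φ ∈ padL L A
  · exact ⟨h, hK, hpad, hψ⟩
  set w := h.flatMap τ.φ with hw
  have h1 : w.map Prod.snd ∉ H A := fun hc => hpad (Or.inl hc)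
  have h2 : pay w ∉ L := fun hc => hpad (Or.inr hc)
  obtain ⟨a, haA, hwa⟩ := not_mem_H h1
  have hab : b < a := by
    by_contra hcon
    have hne : a ≠ b := fun he => hbA (he ▸ haA)
    exact hL ⟨a, haA, by omega, hwa, h2⟩
  have hwlen : w.length = T (2 * a) := by
    have := congrArg List.length hwa
    rwa [List.length_map] at this
  have hgr := hN₀ (2 * b) (by omega)
  have hbig : 2 ^ (c * Fintype.card (Option (Fin (y.length + 1)))) ≤ w.length := by
    rw [card_prefDFA', hwlen]
    calc 2 ^ (c * (y.length + 2)) ≤ 2 ^ E (2 * b + 2) := by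
          apply Nat.pow_le_pow_right (by norm_num)
          refine le_trans ?_ hgr
          exact Nat.mul_le_mul_left _ (by omega)
      _ ≤ T (2 * b + 2) := le_T _
      _ ≤ T (2 * a) := T_mono.monotone (by omega)
  obtain ⟨i, j, hij, hj, hw2⟩ := hc _ (prefDFA y {y.length}) (fun n => w.take n) w.length hbig
  have hx1 : w.take i ++ w.drop i ∈ τ.inv.image (prefDFA y {y.length}).accepts := by
    rw [List.take_append_drop]
    refine ⟨h, hK, ?_, rfl⟩
    rw [prefDFA_accepts]
    have h7 : h.flatMap τ.inv.φ = y := hψ
    rw [h7]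
    exact ⟨List.prefix_refl _, rfl⟩
  obtain ⟨g, hgK, hgL, hgψ⟩ := (hw2 _).mp hx1
  have hgy : g.flatMap τ.ψ = y := by
    rw [prefDFA_accepts] at hgL
    exact hgL.1.eq_of_length hgL.2
  have hgφ : g.flatMap τ.φ = w.take j ++ w.drop i := hgψ
  refine ⟨g, hgK, ?_, hgy⟩
  left
  rintro hcon
  obtain ⟨a', ha', hx'⟩ := not_mem_H (show ¬ (g.flatMap τ.φ).map Prod.snd ∈ H A from
    fun hmem => by exact hmem hcon)
  have hlen : T (2 * a') = T (2 * a) + (j - i) := by
    have h8 := congrArg List.length hx'
    rw [List.length_map, hgφ, List.length_append, List.length_take, List.length_drop] at h8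
    have h9 : min j w.length + (w.length - i) = T (2 * a') := h8
    rw [Nat.min_eq_left hj, hwlen] at h9
    rw [hwlen] at hj
    omega
  rw [hwlen] at hj
  rcases le_or_gt a' a with hle | hgt
  · have h10 := T_mono.monotone (show 2 * a' ≤ 2 * a by omega)
    omega
  · have h10 := T_mono.monotone (show 2 * a + 1 ≤ 2 * a' by omega)
    have h11 := T_succ (2 * a)
    omega

/-- automaton for a language which contains all long words -/
theorem exists_dfa_large [Finite W] {F : Language W} (t : ℕ) (hF : ∀ w, t < w.length → w ∈ F) :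
    ∃ (σ : Type) (_ : Fintype σ) (M : DFA W σ), M.accepts = F ∧ Fintype.card σ ≤ nsh W t + 1 := by
  classical
  have hft : Fintype {w : List W // w.length ≤ t} := Fintype.ofFinite _
  let M : DFA W (Option {w : List W // w.length ≤ t}) :=
    ⟨fun s a => s.bind fun w => if h : (w.1 ++ [a]).length ≤ t then some ⟨w.1 ++ [a], h⟩ else none,
      some ⟨[], Nat.zero_le _⟩, {s | s = none ∨ ∃ w, s = some w ∧ w.1 ∈ F}⟩
  have hev : ∀ x : List W, M.eval x = if h : x.length ≤ t then some ⟨x, h⟩ else none := by
    intro x
    induction x using List.reverseRecOn with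
    | nil => rfl
    | append_singleton x a ih =>
      rw [DFA.eval_append_singleton, ih]
      by_cases hx : x.length ≤ t
      · rw [dif_pos hx]
        rfl
      · rw [dif_neg hx, dif_neg]
        · rfl
        · rw [List.length_append]
          omega
  refine ⟨_, inferInstance, M, ?_, ?_⟩
  · ext x
    change M.eval x ∈ M.accept ↔ _
    rw [hev]
    by_cases hx : x.length ≤ t
    · rw [dif_pos hx]
      constructor
      · rintro (h | ⟨w, h1, h2⟩)
        · exact absurd h (by simp)
        · have := Option.some.inj h1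
          rw [← this] at h2
          exact h2
      · intro h
        exact Or.inr ⟨_, rfl, h⟩
    · rw [dif_neg hx]
      exact ⟨fun _ => hF x (by omega), fun _ => Or.inl rfl⟩
  · rw [Fintype.card_option, nsh, Nat.card_eq_fintype_card]

theorem nsh_le [Finite W] (t : ℕ) : nsh W t ≤ (Nat.card W + 1) ^ t := by
  have hW : Fintype W := Fintype.ofFinite _
  have hft : Fintype {w : List W // w.length ≤ t} := Fintype.ofFinite _
  rw [nsh, Nat.card_eq_fintype_card, Nat.card_eq_fintype_card]
  have h1 : Fintype.card (Fin t → Option W) = (Fintype.card W + 1) ^ t := by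
    rw [Fintype.card_fun, Fintype.card_option, Fintype.card_fin]
  rw [← h1]
  refine Fintype.card_le_of_injective (fun w => fun i : Fin t => w.1[i.val]?) ?_
  intro w w' hww
  apply Subtype.ext
  apply List.ext_getElem?
  intro i
  by_cases hi : i < t
  · exact congrFun hww ⟨i, hi⟩
  · have h2 := w.2
    have h3 := w'.2
    rw [List.getElem?_eq_none (by omega), List.getElem?_eq_none (by omega)]

end RCone
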