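import Pool.Agent.RCone.RankHard

/-! # Approximations with advice (helper70, MP_a8de0d_lc) -/

namespace RCone

open Language

variable {X Y W V : Type}

/-- `K` approximates `P` with advice: for every `k` there is a constant `C` such that for
infinitely many `n` there are a number `m` with `m ^ k ≤ C (n + 1)`, a transduction `κ` with `m`
states and labels of length at most `C`, and an advice word `c` of length `n`, such that a word
over pairs with second component `c` is in `κ(K)` if and only if its payload is in `P`. -/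
def AdvApprox (K : Language Y) (P : Language W) : Prop :=
  ∀ k : ℕ, ∃ C : ℕ, ∀ N : ℕ, ∃ n, N ≤ n ∧ ∃ m, m ^ k ≤ C * (n + 1) ∧
    ∃ κ : Transducer Y (PC W), Sized κ m C ∧ ∃ c : List Sym, c.length = n ∧
      ∀ w : List (PC W), w.map Prod.snd = c → (w ∈ κ.image K ↔ pay w ∈ P)

/-- `K` approximates `P` in quadratic size -/
def QuadApprox (K : Language Y) (P : Language W) : Prop :=
  ∃ C : ℕ, ∀ N : ℕ, ∃ n, N ≤ n ∧ ∃ τ : Transducer Y W, Sized τ (C * (n + 1) ^ 2) C ∧
    ∀ x : List W, x.length ≤ n → (x ∈ τ.image K ↔ x ∈ P)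

/-- **Covers need approximations with advice** -/
theorem between_or_adv [Finite X] [Finite Y] [Finite W] {L₁ : Language X} {L₂ : Language Y}
    {P : Language W} (hG : Geq L₁ goldstine) (hP : Geq L₁ P) (h : Geq L₁ L₂) {x₀ : List Y}
    (hx : x₀ ∈ L₂) : (∃ M : Language (Option (Y ⊕ PC W)), Between L₁ M L₂) ∨
      AdvApprox L₂ P := by
  by_cases hb : Between L₁ (join L₂ (padL P evens)) L₂
  · exact Or.inl ⟨_, hb⟩
  right
  have h1 : Geq L₁ (join L₂ (padL P evens)) :=
    h.join (geq_padL hP (hG.trans (goldstine_geq_H periodic_evens)))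
  have h2 : Geq (join L₂ (padL P evens)) L₂ := join_left _ _
  by_cases h3 : Geq L₂ (join L₂ (padL P evens))
  · obtain ⟨κ, hκ⟩ := h3.trans (join_right L₂ (padL P evens))
    obtain ⟨m₀, B₀, _, hs₀⟩ := exists_sized κ
    intro k
    refine ⟨max (m₀ ^ k) B₀, fun N => ⟨T (2 * (2 * N)), ?_, m₀, ?_, κ,
      hs₀.mono le_rfl (le_max_right _ _), rul (zz (2 * (2 * N))), rfl, fun w hw => ?_⟩⟩
    · have h4 : 2 * (2 * N) ≤ T (2 * (2 * N)) := T_mono.id_le (2 * (2 * N))
      omega
    · calc m₀ ^ k ≤ max (m₀ ^ k) B₀ := le_max_left _ _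
        _ ≤ _ := Nat.le_mul_of_pos_right _ (Nat.succ_pos _)
    · rw [hκ]
      constructor
      · rintro (h4 | h4)
        · rw [hw] at h4
          exact absurd h4 (rul_zz_not_mem (by simp [evens]))
        · exact h4
      · exact fun h4 => Or.inr h4
  · have h4 : Geq (join L₂ (padL P evens)) L₁ := by
      by_contra hcon
      exact hb ⟨⟨h1, hcon⟩, h2, h3⟩
    intro k
    obtain ⟨C, N₀, hC⟩ := case_above hx (h4.trans hP) k
    obtain ⟨m₁, B₁, _, hs₁⟩ := exists_sized (tauComap fun z : PC W => z.1.toList)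
    set B := max B₁ C with hB
    set c₁ := (nsh W (B + B) + 1) * m₁ with hc₁
    refine ⟨max (c₁ ^ k * C) B, fun N => ⟨T (2 * (2 * (N + N₀) + 1)), ?_, ?_⟩⟩
    · have : 2 * (2 * (N + N₀) + 1) ≤ T (2 * (2 * (N + N₀) + 1)) := T_mono.id_le _
      omega
    obtain ⟨m, hm, τ, hs, hτ⟩ := hC (2 * (N + N₀) + 1) (by omega) (by simp [evens])
    obtain ⟨κ, hκ, hκi⟩ := exists_comp τ (tauComap fun z : PC W => z.1.toList)
      (hs.mono le_rfl (le_max_right B₁ _)) (hs₁.mono le_rfl (le_max_left _ C))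
    refine ⟨(nsh W (B + B) + 1) * (m * m₁), ?_, κ, hκ.mono le_rfl (le_max_right _ _),
      List.replicate _ none, List.length_replicate, fun w hw => ?_⟩
    · have h5 : (nsh W (B + B) + 1) * (m * m₁) = c₁ * m := by rw [hc₁]; ring
      rw [h5, mul_pow]
      calc c₁ ^ k * m ^ k ≤ c₁ ^ k * (C * (T (2 * (2 * (N + N₀) + 1)) + 1)) :=
            Nat.mul_le_mul_left _ hm
        _ = (c₁ ^ k * C) * (T (2 * (2 * (N + N₀) + 1)) + 1) := by ring
        _ ≤ _ := Nat.mul_le_mul_right _ (le_max_left _ _)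
    · rw [hκi, tauComap_image, mem_comapL]
      apply hτ
      have h5 := congrArg List.length hw
      rw [List.length_map, List.length_replicate] at h5
      have h6 := length_pay w
      rw [h5] at h6
      exact h6

/-- the transduction which supplies the advice -/
def tauAdv (W : Type) [Finite W] (c : List Sym) : Transducer (PC W) W where
  Z := PC W
  finZ := inferInstance
  K := ((prefDFA c {c.length}).comap (Prod.snd : PC W → Sym)).accepts
  regK := isRegular_of_dfa _
  φ := fun z => [z]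
  ψ := fun z => z.1.toList

theorem tauAdv_sized [Finite W] (c : List Sym) : Sized (tauAdv W c) (c.length + 2) 1 := by
  refine ⟨⟨_, inferInstance, _, rfl, ?_⟩, ?_⟩
  · rw [card_prefDFA']
  · intro z
    refine ⟨le_rfl, ?_⟩
    change z.1.toList.length ≤ 1
    cases z.1 <;> simp

theorem mem_tauAdv [Finite W] (c : List Sym) (L : Language (PC W)) (x : List W) :
    x ∈ (tauAdv W c).image L ↔ ∃ w : List (PC W), w.map Prod.snd = c ∧ w ∈ L ∧ pay w = x := by
  have hacc : ∀ h : List (PC W), h ∈ ((prefDFA c {c.length}).comap (Prod.snd : PC W → Sym)).accepts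
      ↔ h.map Prod.snd = c := by
    intro h
    rw [DFA.accepts_comap]
    change h.map Prod.snd ∈ (prefDFA c {c.length}).accepts ↔ _
    rw [prefDFA_accepts]
    constructor
    · rintro ⟨h1, h2⟩
      exact h1.eq_of_length h2
    · intro h1
      rw [h1]
      exact ⟨List.prefix_refl _, rfl⟩
  constructor
  · rintro ⟨h, h1, h2, h3⟩
    have h2' : h.flatMap (fun z : PC W => [z]) ∈ L := h2
    rw [flatMap_single] at h2'
    exact ⟨h, (hacc h).mp h1, h2', h3⟩
  · rintro ⟨w, h1, h2, h3⟩
    refine ⟨w, (hacc w).mpr h1, ?_, h3⟩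
    change w.flatMap (fun z : PC W => [z]) ∈ L
    rw [flatMap_single]
    exact h2

theorem AdvApprox.quad [Finite W] {K : Language Y} {P : Language W} (h : AdvApprox K P) :
    QuadApprox K P := by
  obtain ⟨C, hC⟩ := h 1
  set B := C + 1 with hB
  refine ⟨(nsh (PC W) (B + B) + 1) * (C * 2) + B, fun N => ?_⟩
  obtain ⟨n, hn, m, hm, κ, hκ, c, hc, hw⟩ := hC N
  rw [pow_one] at hm
  obtain ⟨τ, hτ, hτi⟩ := exists_comp κ (tauAdv W c) (hκ.mono le_rfl (Nat.le_succ C))
    ((tauAdv_sized c).mono le_rfl (Nat.le_add_left 1 C))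
  refine ⟨n, hn, τ, hτ.mono ?_ (Nat.le_add_left _ _), fun x hx => ?_⟩
  · rw [hc]
    calc (nsh (PC W) (B + B) + 1) * (m * (n + 2))
        ≤ (nsh (PC W) (B + B) + 1) * ((C * (n + 1)) * (2 * (n + 1))) := by
          gcongr
          omega
      _ = ((nsh (PC W) (B + B) + 1) * (C * 2)) * (n + 1) ^ 2 := by ring
      _ ≤ _ := Nat.mul_le_mul_right _ (Nat.le_add_right _ _)
  · rw [hτi, mem_tauAdv]
    constructor
    · rintro ⟨w, h1, h2, rfl⟩
      exact (hw w h1).mp h2
    · intro h1
      obtain ⟨w, h2, h3⟩ := exists_pad c x (by rw [hc]; exact hx)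
      exact ⟨w, h2, (hw w h2).mpr (by rw [h3]; exact h1), h3⟩

theorem not_quadApprox {D : Dev} (hD : D.Mono) {K : Language Y} {P : Language X}
    (hK : PolyBy D K) (hP : Hard D P) : ¬ QuadApprox K P := by
  rintro ⟨C₀, h₀⟩
  obtain ⟨C, e, hC⟩ := hK C₀
  obtain ⟨N, hN⟩ := hP (C * (C₀ + 1) ^ e + C) (2 * e)
  obtain ⟨n, hn, τ, hs, hτ⟩ := h₀ N
  obtain ⟨R, hR, hRτ⟩ := hC X _ n τ hs
  refine hN n hn ⟨R, hD _ _ _ _ _ _ ?_ (Nat.le_add_left _ _) hR, fun x hx => ?_⟩
  · have h1 : C₀ * (n + 1) ^ 2 + n + 1 ≤ (C₀ + 1) * (n + 1) ^ 2 := by nlinarith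
    calc C * (C₀ * (n + 1) ^ 2 + n + 1) ^ e ≤ C * ((C₀ + 1) * (n + 1) ^ 2) ^ e :=
          Nat.mul_le_mul_left _ (Nat.pow_le_pow_left h1 _)
      _ = (C * (C₀ + 1) ^ e) * (n + 1) ^ (2 * e) := by rw [mul_pow, ← pow_mul]; ring
      _ ≤ _ := Nat.mul_le_mul_right _ (Nat.le_add_right _ _)
  · rw [hRτ x hx]
    exact hτ x hx

/-! ### the families -/

theorem GrD_le {k k' : ℕ} (h : k ≤ k') {m B : ℕ} {R : Language X} (hR : GrDev k m B R) :
    GrDev k' m B R := by
  obtain ⟨N, hN, rule, rk, S, h1, h2, h3, h4⟩ := hR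
  exact ⟨N, hN, rule, rk, S, h1, h2, h3.trans h, h4⟩

theorem PolyBy.gr_mono {k k' : ℕ} (h : k ≤ k') {K : Language Y} (hK : PolyBy (GrD k) K) :
    PolyBy (GrD k') K := by
  intro B
  obtain ⟨C, e, hC⟩ := hK B
  refine ⟨C, e, fun X m n τ hs => ?_⟩
  obtain ⟨R, hR, hx⟩ := hC X m n τ hs
  exact ⟨R, GrD_le h hR, hx⟩

/-- `RankFam k Y L`: the languages of index `k`.  Index `0` contains the iterated counter
languages and the even palindromes, the index does not change under rational transductions and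
substitutions of iterated counter languages, and it is `k + j + 1` for a substitution of languages
of index `j` into a language of index `k`. -/
inductive RankFam : ℕ → ∀ Y : Type, Language Y → Prop
  | iter {Y : Type} {L : Language Y} : IterCounter Y L → RankFam 0 Y L
  | pal : RankFam 0 Bool palLang
  | mono {k k' : ℕ} {Y : Type} {L : Language Y} : RankFam k Y L → k ≤ k' → RankFam k' Y L
  | image {k : ℕ} {Y X : Type} [Finite Y] [Finite X] {L : Language Y} (τ : Transducer Y X) :
      RankFam k Y L → RankFam k X (τ.image L)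
  | substIter {k : ℕ} {Y W : Type} [Finite Y] [Finite W] {K : Language Y}
      (f : Y → Language W) : RankFam k Y K → (∀ y, IterCounter W (f y)) →
      RankFam k W (substL K f)
  | subst {k j : ℕ} {Y W : Type} [Finite Y] [Finite W] {K : Language Y} (f : Y → Language W) :
      RankFam k Y K → (∀ y, RankFam j W (f y)) → RankFam (k + j + 1) W (substL K f)

theorem RankFam.polyBy {k : ℕ} {Y : Type} {L : Language Y} (h : RankFam k Y L) :
    PolyBy (GrD k) L := by
  induction h with
  | iter h => exact h.polyBy.nfa_lin.lin_gr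
  | pal => exact polyBy_pal.lin_gr
  | mono _ hk ih => exact ih.gr_mono hk
  | image τ _ ih => exact ih.of_geq (GrD_mono _) ⟨τ, rfl⟩
  | substIter f _ hf ih => exact ih.subst (GrD_mono _) fun y => (hf y).polyBy
  | subst f _ _ ih ihf => exact ih.subst_gr ihf

/-! ### nested palindromes dominate the palindromes -/

/-- control of the transduction from nested palindromes to palindromes -/
def KNest : Language (Bool ⊕ Bool) :=
  allL (fun z => z.isLeft) * (oneL (fun z => z = Sum.inr false) *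
    (allL (fun z => z.isLeft) * oneL (fun z => z = Sum.inr true)))

def phNest (x₀ : List (Bool ⊕ Bool)) : Bool ⊕ Bool → List (Bool ⊕ Bool)
  | Sum.inl b => [Sum.inl b]
  | Sum.inr false => Sum.inr false :: (x₀ ++ [Sum.inr false])
  | Sum.inr true => Sum.inr true :: Sum.inr false :: (x₀ ++ [Sum.inr false])

def psNest : Bool ⊕ Bool → List Bool
  | Sum.inl b => [b]
  | Sum.inr _ => []

/-- from nested palindromes to palindromes -/
def tauNest (x₀ : List (Bool ⊕ Bool)) : Transducer (Bool ⊕ Bool) Bool where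
  Z := Bool ⊕ Bool
  finZ := inferInstance
  K := KNest
  regK := mul_regular (allL_regular _) (mul_regular (oneL_regular _) (mul_regular (allL_regular _)
    (oneL_regular _)))
  φ := phNest x₀
  ψ := psNest

theorem mem_left {b : List (Bool ⊕ Bool)} : b ∈ allL (fun z : Bool ⊕ Bool => z.isLeft) ↔
    ∃ g : List Bool, b = g.map Sum.inl := by
  constructor
  · intro hh
    induction b with
    | nil => exact ⟨[], rfl⟩
    | cons z h ih =>
      obtain ⟨g, hg⟩ := ih (fun z hz => hh z (List.mem_cons_of_mem _ hz))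
      cases z with
      | inl a => exact ⟨a :: g, by simp [hg]⟩
      | inr a => exact absurd (hh _ List.mem_cons_self) (by simp)
  · rintro ⟨g, rfl⟩ z hz
    obtain ⟨a, _, rfl⟩ := List.mem_map.mp hz
    rfl

theorem tauNest_fm (x₀ : List (Bool ⊕ Bool)) (u : List Bool) :
    (u.map Sum.inl).flatMap (phNest x₀) = u.map Sum.inl ∧
    (u.map Sum.inl).flatMap psNest = u := by
  induction u with
  | nil => exact ⟨rfl, rfl⟩
  | cons a u ih =>
    constructor
    · rw [List.map_cons, List.flatMap_cons, ih.1]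
      rfl
    · rw [List.map_cons, List.flatMap_cons, ih.2]
      rfl

theorem nest_geq_pal (k : ℕ) : Geq (nestPal Bool (k + 1)) palLang := by
  set x₀ : List (Bool ⊕ Bool) := wd (m := 0) (k := k) (fun _ => false) with hx₀
  have hx₀m : x₀ ∈ nestPal Bool k := wd_mem _
  refine ⟨tauNest x₀, ?_⟩
  have hφ : ∀ u v : List Bool, (u.map Sum.inl ++ ([Sum.inr false] ++ (v.map Sum.inl ++
      [Sum.inr true]))).flatMap (phNest x₀) = u.map Sum.inl ++ Sum.inr false ::
        (x₀ ++ Sum.inr false :: (v.map Sum.inl ++ Sum.inr true :: Sum.inr false ::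
          (x₀ ++ [Sum.inr false]))) := by
    intro u v
    rw [List.flatMap_append, List.flatMap_append, List.flatMap_append, (tauNest_fm x₀ u).1,
      (tauNest_fm x₀ v).1]
    have h1 : ([Sum.inr false] : List (Bool ⊕ Bool)).flatMap (phNest x₀) =
      Sum.inr false :: (x₀ ++ [Sum.inr false]) := by simp [phNest, psNest]
    have h2 : ([Sum.inr true] : List (Bool ⊕ Bool)).flatMap (phNest x₀) =
      Sum.inr true :: Sum.inr false :: (x₀ ++ [Sum.inr false]) := by simp [phNest, psNest]
    rw [h1, h2]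
    simp
  have hψ : ∀ u v : List Bool, (u.map Sum.inl ++ ([Sum.inr false] ++ (v.map Sum.inl ++
      [Sum.inr true]))).flatMap psNest = u ++ v := by
    intro u v
    rw [List.flatMap_append, List.flatMap_append, List.flatMap_append, (tauNest_fm x₀ u).2,
      (tauNest_fm x₀ v).2]
    have h1 : ([Sum.inr false] : List (Bool ⊕ Bool)).flatMap psNest = [] := by
      simp [phNest, psNest]
    have h2 : ([Sum.inr true] : List (Bool ⊕ Bool)).flatMap psNest = [] := by
      simp [phNest, psNest]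
    rw [h1, h2]
    simp
  ext y
  constructor
  · rintro ⟨h, hK, hL, rfl⟩
    obtain ⟨a, ha, b, hb, rfl⟩ := Language.mem_mul.mp hK
    obtain ⟨d, hd, e, he, rfl⟩ := Language.mem_mul.mp hb
    obtain ⟨f, hf, g, hg, rfl⟩ := Language.mem_mul.mp he
    obtain ⟨u, rfl⟩ := mem_left.mp ha
    obtain ⟨v, rfl⟩ := mem_left.mp hf
    rw [mem_oneL_eq] at hd hg
    subst hd hg
    change (u.map Sum.inl ++ ([Sum.inr false] ++ (v.map Sum.inl ++
      [Sum.inr true]))).flatMap (phNest x₀) ∈ nestPal Bool (k + 1) at hL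
    rw [hφ] at hL
    obtain ⟨u', v', x', y', hx', hy', heq⟩ := hL
    unfold arm at heq
    simp only [List.append_assoc, List.cons_append] at heq
    obtain ⟨rfl, h1⟩ := inl_split heq
    obtain ⟨_, h2⟩ := nest_prefix k hx₀m hx' h1
    have h3 := (List.cons.inj h2).2
    obtain ⟨rfl, _⟩ := inl_split h3
    change (u.map Sum.inl ++ ([Sum.inr false] ++ (u.reverse.map Sum.inl ++
      [Sum.inr true]))).flatMap psNest ∈ palLang
    rw [hψ]
    exact ⟨u, rfl⟩
  · rintro ⟨u, rfl⟩
    refine ⟨u.map Sum.inl ++ ([Sum.inr false] ++ (u.reverse.map Sum.inl ++ [Sum.inr true])),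
      ?_, ?_, hψ _ _⟩
    · exact Language.append_mem_mul (mem_left.mpr ⟨_, rfl⟩) (Language.append_mem_mul
        (mem_oneL_eq.mpr rfl) (Language.append_mem_mul (mem_left.mpr ⟨_, rfl⟩)
          (mem_oneL_eq.mpr rfl)))
    · change (u.map Sum.inl ++ ([Sum.inr false] ++ (u.reverse.map Sum.inl ++
        [Sum.inr true]))).flatMap (phNest x₀) ∈ nestPal Bool (k + 1)
      rw [hφ]
      refine ⟨u, [], x₀, x₀, hx₀m, hx₀m, ?_⟩
      unfold arm
      simp

/-- density from a hardness result -/
theorem between_of_hardD [Finite X] [Finite Y] [Finite W] {D : Dev} (hD : D.Mono)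
    {L₁ : Language X} {L₂ : Language Y} {P : Language W} (hK : PolyBy D L₂) (hH : Hard D P)
    (hG : Geq L₁ goldstine) (hP : Geq L₁ P) (h : Geq L₁ L₂) (hne : L₂ ≠ ⊥) :
    ∃ M : Language (Option (Y ⊕ PC W)), Between L₁ M L₂ := by
  obtain ⟨x₀, hx⟩ : ∃ x₀, x₀ ∈ L₂ := by
    by_contra hc
    push Not at hc
    exact hne (by
      ext x
      exact ⟨fun hx => absurd hx (hc x), fun hx => absurd hx (by exact fun h => h)⟩)
  rcases between_or_adv hG hP h hx with h1 | h1
  · exact h1
  · exact absurd h1.quad (not_quadApprox hD hK hH)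

/-- **Density at each level** -/
theorem between_rank [Finite X] [Finite Y] {k : ℕ} {L₁ : Language X} {L₂ : Language Y}
    (hI : RankFam k Y L₂) (hne : L₂ ≠ ⊥) (h : Geq L₁ L₂) (hP : Geq L₁ (nestPal Bool (k + 1))) :
    ∃ M : Language (Option (Y ⊕ PC (Bool ⊕ Bool))), Between L₁ M L₂ :=
  between_of_hardD (GrD_mono k) hI.polyBy (hard_nest k)
    (hP.trans ((nest_geq_pal k).trans pal_geq_goldstine)) hP h hne

end RCone
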