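import Pool.Agent.RCone.Lang

/-! # `{a^n b^m : n ≠ m}` dominates Goldstine's language (helper70, MP_a8de0d_lc) -/

namespace RCone

open Language

/-- `{a^n b^m : n ≠ m}`, where `a = false`, `b = true` -/
def neqLang : Language Bool :=
  {w | ∃ n m : ℕ, n ≠ m ∧ w = List.replicate n false ++ List.replicate m true}

abbrev ZN := Option (Fin 3 × Bool)

def phN : ZN → List Bool
  | none => [false]
  | some (p, g) => if p = 0 then (if g then [false] else []) else
      if p = 1 then (if g then [] else [true]) else []

def psN : ZN → List Bool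
  | none => []
  | some (_, g) => [g]

/-- empty, or a word of phase `p` ending with `b` -/
def blocksL (p : Fin 3) : Language ZN :=
  oneOrL + allL (fun z => ∃ g, z = some (p, g)) * oneL (fun z => z = some (p, true))
where
  oneOrL : Language ZN := allL (fun _ => False)

def KN : Language ZN :=
  blocksL 0 * (oneL (fun z => z = none) * (allL (fun z => z = some (1, false)) *
    (oneL (fun z => z = some (1, true)) * blocksL 2)))

theorem blocksL_regular (p : Fin 3) : (blocksL p).IsRegular :=
  (allL_regular _).add (mul_regular (allL_regular _) (oneL_regular _))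

def tauN : Transducer Bool Bool where
  Z := ZN
  finZ := inferInstance
  K := KN
  regK := mul_regular (blocksL_regular _) (mul_regular (oneL_regular _)
    (mul_regular (allL_regular _) (mul_regular (oneL_regular _) (blocksL_regular _))))
  φ := phN
  ψ := psN

theorem exists_enc_of_last (w : List Bool) : ∃ ns, w ++ [true] = enc ns := by
  obtain ⟨ns, k, rfl⟩ := exists_enc w
  refine ⟨ns ++ [k], ?_⟩
  rw [enc_append, enc_cons]
  simp [enc]

theorem mem_blocksL {p : Fin 3} {h : List ZN} : h ∈ blocksL p ↔
    ∃ ns, h = (enc ns).map fun g => some (p, g) := by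
  constructor
  · rintro (h0 | hm)
    · refine ⟨[], ?_⟩
      cases h with
      | nil => rfl
      | cons z h => exact absurd (h0 z List.mem_cons_self) id
    · obtain ⟨a, ha, b, ⟨z, rfl, rfl⟩, rfl⟩ := Language.mem_mul.mp hm
      have : ∃ w : List Bool, a = w.map fun g => some (p, g) := by
        clear hm
        induction a with
        | nil => exact ⟨[], rfl⟩
        | cons z a ih =>
          obtain ⟨w, hw⟩ := ih fun z hz => ha z (List.mem_cons_of_mem _ hz)
          obtain ⟨g, hg⟩ := ha z List.mem_cons_self
          exact ⟨g :: w, by rw [hw, hg]; rfl⟩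
      obtain ⟨w, rfl⟩ := this
      obtain ⟨ns, hns⟩ := exists_enc_of_last w
      refine ⟨ns, ?_⟩
      rw [← hns, List.map_append]
      rfl
  · rintro ⟨ns, rfl⟩
    rcases List.eq_nil_or_concat ns with rfl | ⟨ms, n, rfl⟩
    · left
      intro z hz
      simp [enc] at hz
    · right
      rw [List.concat_eq_append, enc_append, enc_cons]
      refine Language.mem_mul.mpr ⟨(enc ms ++ List.replicate n false).map (fun g => some (p, g)),
        ?_, [some (p, true)], ⟨_, rfl, rfl⟩, ?_⟩
      · intro z hz
        obtain ⟨g, _, rfl⟩ := List.mem_map.mp hz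
        exact ⟨g, rfl⟩
      · simp [enc]

theorem psN_map (p : Fin 3) (w : List Bool) :
    (w.map fun g => (some (p, g) : ZN)).flatMap psN = w := by
  induction w with
  | nil => rfl
  | cons a w ih => rw [List.map_cons, List.flatMap_cons, ih]; rfl

theorem phN_map2 (w : List Bool) : (w.map fun g => (some (2, g) : ZN)).flatMap phN = [] := by
  induction w with
  | nil => rfl
  | cons a w ih => rw [List.map_cons, List.flatMap_cons, ih]; simp [phN]

theorem phN_enc (ns : List ℕ) : ((enc ns).map fun g => (some (0, g) : ZN)).flatMap phN =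
    List.replicate ns.length false := by
  induction ns with
  | nil => rfl
  | cons n ns ih =>
    rw [enc_cons, List.map_append, List.flatMap_append, List.map_cons, List.flatMap_cons, ih]
    have h1 : ((List.replicate n false).map fun g => (some (0, g) : ZN)).flatMap phN = [] := by
      induction n with
      | zero => rfl
      | succ n ihn =>
        rw [List.replicate_succ, List.map_cons, List.flatMap_cons, ihn]
        simp [phN]
    rw [h1, List.length_cons, List.replicate_succ]
    simp [phN]

theorem rep_facts (n : ℕ) : (List.replicate n (some ((1 : Fin 3), false) : ZN)).flatMap phN =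
    List.replicate n true ∧
    (List.replicate n (some ((1 : Fin 3), false) : ZN)).flatMap psN = List.replicate n false := by
  induction n with
  | zero => exact ⟨rfl, rfl⟩
  | succ n ih =>
    constructor
    · rw [List.replicate_succ, List.flatMap_cons, ih.1, List.replicate_succ]
      simp [phN]
    · rw [List.replicate_succ, List.flatMap_cons, ih.2, List.replicate_succ]
      simp [psN]

/-- the control word -/
def wN (ns : List ℕ) (n : ℕ) (ms : List ℕ) : List ZN :=
  ((enc ns).map fun g => some (0, g)) ++ ([none] ++ (List.replicate n (some (1, false)) ++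
    ([some (1, true)] ++ ((enc ms).map fun g => some (2, g)))))

theorem mem_KN {h : List ZN} : h ∈ KN ↔ ∃ ns n ms, h = wN ns n ms := by
  constructor
  · intro hK
    obtain ⟨a, ha, b, hb, rfl⟩ := Language.mem_mul.mp hK
    obtain ⟨c, ⟨z, rfl, rfl⟩, d, hd, rfl⟩ := Language.mem_mul.mp hb
    obtain ⟨e, he, f, hf, rfl⟩ := Language.mem_mul.mp hd
    obtain ⟨g, ⟨z, rfl, rfl⟩, k, hk, rfl⟩ := Language.mem_mul.mp hf
    obtain ⟨ns, rfl⟩ := mem_blocksL.mp ha
    obtain ⟨ms, rfl⟩ := mem_blocksL.mp hk
    have : e = List.replicate e.length (some (1, false)) := List.eq_replicate_iff.mpr ⟨rfl, he⟩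
    exact ⟨ns, e.length, ms, by rw [wN, ← this]⟩
  · rintro ⟨ns, n, ms, rfl⟩
    refine Language.append_mem_mul (mem_blocksL.mpr ⟨ns, rfl⟩) (Language.append_mem_mul
      ⟨_, rfl, rfl⟩ (Language.append_mem_mul ?_ (Language.append_mem_mul ⟨_, rfl, rfl⟩
        (mem_blocksL.mpr ⟨ms, rfl⟩))))
    intro z hz
    exact (List.mem_replicate.mp hz).2

theorem wN_ph (ns : List ℕ) (n : ℕ) (ms : List ℕ) : (wN ns n ms).flatMap phN =
    List.replicate (ns.length + 1) false ++ List.replicate n true := by
  rw [wN, List.flatMap_append, List.flatMap_append, List.flatMap_append, List.flatMap_append,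
    phN_enc, (rep_facts n).1, phN_map2, List.replicate_succ']
  simp [phN]

theorem wN_ps (ns : List ℕ) (n : ℕ) (ms : List ℕ) : (wN ns n ms).flatMap psN =
    enc (ns ++ n :: ms) := by
  rw [wN, List.flatMap_append, List.flatMap_append, List.flatMap_append, List.flatMap_append,
    psN_map, (rep_facts n).2, psN_map, enc_append, enc_cons]
  simp [psN]

theorem mem_neqLang (n m : ℕ) :
    List.replicate n false ++ List.replicate m true ∈ neqLang ↔ n ≠ m := by
  constructor
  · rintro ⟨n', m', hne, h⟩
    have h1 := congrArg (List.count false) h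
    have h2 := congrArg (List.count true) h
    simp [List.count_replicate] at h1 h2
    omega
  · intro h
    exact ⟨n, m, h, rfl⟩

/-- a list of numbers which is not `[1, 2, ..., k]` has a wrong entry -/
theorem exists_wrong (ns : List ℕ) : ∀ s, ns ≠ List.range' s ns.length →
    ∃ as n bs, ns = as ++ n :: bs ∧ as.length + s ≠ n := by
  induction ns with
  | nil => intro s h; exact absurd rfl h
  | cons n ns ih =>
    intro s h
    by_cases hn : n = s
    · subst hn
      have h' : ns ≠ List.range' (n + 1) ns.length := by
        intro hc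
        apply h
        rw [List.length_cons, List.range'_succ, ← hc]
      obtain ⟨as, m, bs, e, hm⟩ := ih (n + 1) h'
      refine ⟨n :: as, m, bs, by rw [e]; rfl, ?_⟩
      rw [List.length_cons]
      omega
    · exact ⟨[], n, ns, rfl, by simpa using fun h => hn h.symm⟩

theorem neq_geq_goldstine : Geq neqLang goldstine := by
  refine ⟨tauN, ?_⟩
  ext y
  constructor
  · rintro ⟨h, hK, hL, rfl⟩
    obtain ⟨ns, n, ms, rfl⟩ := mem_KN.mp hK
    have h1 : (wN ns n ms).flatMap phN ∈ neqLang := hL
    rw [wN_ph, mem_neqLang] at h1
    change (wN ns n ms).flatMap psN ∈ goldstine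
    rw [wN_ps, mem_goldstine_enc]
    intro hc
    apply h1
    have h2 := congrArg (fun l : List ℕ => l[ns.length]?) hc
    have h3 : ns.length < (ns ++ n :: ms).length := by simp
    beta_reduce at h2
    rw [List.getElem?_append_right le_rfl, List.getElem?_range' h3] at h2
    simp at h2
    omega
  · rintro ⟨ns, rfl, hns⟩
    obtain ⟨as, n, bs, rfl, hn⟩ := exists_wrong ns 1 hns
    refine ⟨wN as n bs, mem_KN.mpr ⟨_, _, _, rfl⟩, ?_, wN_ps _ _ _⟩
    change (wN as n bs).flatMap phN ∈ neqLang
    rw [wN_ph, mem_neqLang]
    exact hn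

end RCone
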