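import Pool.Agent.RCone.Main
import Pool.Agent.RCone.Neq

/-! # The Boolean algebra of clocks (helper70, MP_a8de0d_lc) -/

namespace RCone

open Language

variable {X Y W : Type}

/-- `M` is strictly between `L₁` and `L₂` in the rational order. -/
def Between (L₁ : Language X) (M : Language Y) (L₂ : Language W) : Prop :=
  (Geq L₁ M ∧ ¬ Geq M L₁) ∧ (Geq M L₂ ∧ ¬ Geq L₂ M)

theorem Periodic.add_mul {A : Set ℕ} {p : ℕ} (h : ∀ n, n ∈ A ↔ n + p ∈ A) (k n : ℕ) :
    n ∈ A ↔ n + k * p ∈ A := by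
  induction k with
  | zero => simp
  | succ k ih => rw [ih, h, Nat.succ_mul, ← add_assoc]

theorem periodic_empty : Periodic (∅ : Set ℕ) := ⟨1, Nat.one_pos, fun n => by simp⟩

theorem periodic_univ : Periodic (Set.univ : Set ℕ) := ⟨1, Nat.one_pos, fun n => by simp⟩

theorem H_geq_iff {A B : Set ℕ} (hA : Periodic A) (hB : Periodic B) :
    Geq (H B) (H A) ↔ A ⊆ B := by
  constructor
  · intro h
    by_contra hcon
    obtain ⟨a, ha, hb⟩ := Set.not_subset.mp hcon
    obtain ⟨p, hp, hpA⟩ := hA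
    obtain ⟨q, hq, hqB⟩ := hB
    refine not_geq (A := A) (B := B) ?_ h
    intro n
    refine ⟨a + n * (p * q), ?_, ?_, ?_⟩
    · have : 0 < p * q := Nat.mul_pos hp hq
      nlinarith
    · have h1 := (Periodic.add_mul hpA (n * q) a).mp ha
      rwa [mul_assoc, mul_comm q p] at h1
    · intro hc
      apply hb
      have h1 := (Periodic.add_mul hqB (n * p) a).mpr
      rw [mul_assoc] at h1
      exact h1 hc
  · exact fun h => H_geq_H hA h

theorem H_empty : H ∅ = ⊤ := by
  ext y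
  constructor
  · intro _; trivial
  · rintro _ ⟨z, _, _, a, ha, _⟩
    exact ha

theorem exists_larger {A : Set ℕ} (hA : Periodic A) (hne : A ≠ Set.univ) :
    ∃ C, Periodic C ∧ A ⊆ C ∧ ¬ C ⊆ A ∧ ¬ Set.univ ⊆ C := by
  obtain ⟨p, hp, hpA⟩ := hA
  obtain ⟨r, hr⟩ := (Set.ne_univ_iff_exists_notMem A).mp hne
  refine ⟨A ∪ {n | n % (2 * p) = r % (2 * p)}, ⟨2 * p, by omega, ?_⟩, Set.subset_union_left,
    ?_, ?_⟩
  · intro n
    have h1 : n ∈ A ↔ n + 2 * p ∈ A := Periodic.add_mul hpA 2 n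
    simp only [Set.mem_union, Set.mem_setOf_eq, Nat.add_mod_right]
    rw [← h1]
  · intro h
    exact hr (h (Or.inr rfl))
  · intro h
    have h1 := h (Set.mem_univ (r + p))
    rcases h1 with h1 | h1
    · exact hr ((hpA r).mpr h1)
    · rw [Set.mem_setOf_eq] at h1
      have h2 : (r + p) ≡ r [MOD 2 * p] := h1
      have h3 : p ≡ 0 [MOD 2 * p] := by
        have h4 : r + p ≡ r + 0 [MOD 2 * p] := by simpa using h2
        exact Nat.ModEq.add_left_cancel' r h4
      rw [Nat.modEq_zero_iff_dvd] at h3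
      have := Nat.le_of_dvd hp h3
      omega

theorem between_of_le_H [Finite X] [Finite W] {L₁ : Language X} (h₁ : Geq L₁ goldstine)
    {L₂ : Language W} {A : Set ℕ} (hA : Periodic A) (hne : A ≠ Set.univ) (h₂ : Geq (H A) L₂) :
    ∃ M : Language Sym, Between L₁ M L₂ := by
  obtain ⟨C, hC, hAC, hCA, hUC⟩ := exists_larger hA hne
  refine ⟨H C, ⟨h₁.trans (goldstine_geq_H hC), ?_⟩, ((H_geq_iff hA hC).mpr hAC).trans h₂, ?_⟩
  · intro h
    exact hUC ((H_geq_iff periodic_univ hC).mp (h.trans (h₁.trans (goldstine_geq_H periodic_univ))))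
  · intro h
    exact hCA ((H_geq_iff hC hA).mp (h₂.trans h))

end RCone
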