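import Pool.Agent.RCone.NfaC

/-! # Density above one-counter languages (helper70, MP_a8de0d_lc) -/

namespace RCone

open Language

variable {X Y W V : Type}

/-- For infinitely many `n` some transduction of size linear in `n` maps `L₂` to a language which
agrees with `L₁` on the words of length at most `n`. -/
def LinApprox (L₂ : Language Y) (L₁ : Language X) : Prop :=
  ∃ C, ∀ N, ∃ n, N ≤ n ∧ ∃ τ : Transducer Y X, Sized τ (C * (n + 1)) C ∧
    ∀ x : List X, x.length ≤ n → (x ∈ τ.image L₂ ↔ x ∈ L₁)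

theorem linApprox_of_criterion {L₁ : Language X} {L₂ : Language Y}
    (h : (∃ C, ∀ N, ∃ n, N ≤ n ∧ GeqS (C * (n + 1)) C L₂ (trunc L₁ n)) ∨
    (∀ k, ∃ C, ∀ N, ∃ n, N ≤ n ∧ ∃ m, m ^ k ≤ C * (n + 1) ∧ ∃ τ : Transducer Y X, Sized τ m C ∧
      ∀ x : List X, x.length ≤ n → (x ∈ τ.image L₂ ↔ x ∈ L₁))) : LinApprox L₂ L₁ := by
  rcases h with ⟨C, hC⟩ | h
  · refine ⟨C, fun N => ?_⟩
    obtain ⟨n, hn, τ, hs, hτ⟩ := hC N
    refine ⟨n, hn, τ, hs, fun x hx => ?_⟩
    rw [hτ]
    exact ⟨fun h => h.1, fun h => ⟨h, hx⟩⟩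
  · obtain ⟨C, hC⟩ := h 1
    refine ⟨C, fun N => ?_⟩
    obtain ⟨n, hn, m, hm, τ, hs, hτ⟩ := hC N
    rw [pow_one] at hm
    exact ⟨n, hn, τ, hs.mono hm le_rfl, hτ⟩

theorem LinApprox.of_geq [Finite Y] {K : Language W} {L₂ : Language Y} {L₁ : Language X}
    (hK : Geq K L₂) (h : LinApprox L₂ L₁) : LinApprox K L₁ := by
  obtain ⟨ρ, hρ⟩ := hK
  obtain ⟨m₀, B₀, _, hs₀⟩ := exists_sized ρ
  obtain ⟨C, hC⟩ := h
  set B := max B₀ C with hB
  refine ⟨max B ((nsh Y (B + B) + 1) * (m₀ * C)), fun N => ?_⟩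
  obtain ⟨n, hn, τ, hs, hτ⟩ := hC N
  obtain ⟨κ, hκ, hκi⟩ := exists_comp ρ τ (hs₀.mono le_rfl (le_max_left _ C))
    (hs.mono le_rfl (le_max_right B₀ _))
  refine ⟨n, hn, κ, hκ.mono ?_ (le_max_left _ _), fun x hx => ?_⟩
  · calc (nsh Y (B + B) + 1) * (m₀ * (C * (n + 1)))
        = ((nsh Y (B + B) + 1) * (m₀ * C)) * (n + 1) := by ring
      _ ≤ _ := Nat.mul_le_mul_right _ (le_max_right _ _)
  · rw [hκi, hρ]
    exact hτ x hx

theorem LinApprox.comap [Finite X] [Finite W] {L₂ : Language Y} {L₁ : Language X}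
    (h : LinApprox L₂ L₁) (f : W → X) : LinApprox L₂ (comapL L₁ fun z => [f z]) := by
  obtain ⟨m₀, B₀, _, hs₀⟩ := exists_sized (tauComap fun z : W => [f z])
  obtain ⟨C, hC⟩ := h
  set B := max B₀ C with hB
  refine ⟨max B ((nsh X (B + B) + 1) * (C * m₀)), fun N => ?_⟩
  obtain ⟨n, hn, τ, hs, hτ⟩ := hC N
  obtain ⟨κ, hκ, hκi⟩ := exists_comp τ (tauComap fun z : W => [f z])
    (hs.mono le_rfl (le_max_right B₀ _)) (hs₀.mono le_rfl (le_max_left _ C))
  refine ⟨n, hn, κ, hκ.mono ?_ (le_max_left _ _), fun x hx => ?_⟩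
  · calc (nsh X (B + B) + 1) * (C * (n + 1) * m₀)
        = ((nsh X (B + B) + 1) * (C * m₀)) * (n + 1) := by ring
      _ ≤ _ := Nat.mul_le_mul_right _ (le_max_right _ _)
  · rw [hκi, tauComap_image, mem_comapL, mem_comapL]
    apply hτ
    have : (x.flatMap fun z => [f z]).length = x.length := by
      induction x with
      | nil => rfl
      | cons a x ih =>
        rw [List.flatMap_cons, List.length_append, List.length_cons, ih (by
          rw [List.length_cons] at hx; omega)]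
        simp [Nat.add_comm]
    omega

/-- the size in terms of `n` -/
theorem poly_bound (D B : ℕ) : ∃ C, ∀ n, D * (n + 1) * (hmax (D * (n + 1)) n B + 1) + 1 ≤
    C * (n + 1) ^ 5 := by
  refine ⟨D * ((B + 1) * (D * (B + 1) * (D * (B + 1)) + 2) + 1) + 1, fun n => ?_⟩
  have h1 : ntup (D * (n + 1)) n B = D * (B + 1) * (D * (B + 1)) * (n + 1) ^ 4 := by
    unfold ntup
    ring
  have hp4 : 1 ≤ (n + 1) ^ 4 := Nat.one_le_pow _ _ (Nat.succ_pos n)
  have hp5 : 1 ≤ (n + 1) ^ 5 := Nat.one_le_pow _ _ (Nat.succ_pos n)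
  have h2 : hmax (D * (n + 1)) n B + 1 ≤
      ((B + 1) * (D * (B + 1) * (D * (B + 1)) + 2) + 1) * (n + 1) ^ 4 := by
    unfold hmax
    rw [h1]
    have h3 : D * (B + 1) * (D * (B + 1)) * (n + 1) ^ 4 + 2 ≤
        (D * (B + 1) * (D * (B + 1)) + 2) * (n + 1) ^ 4 := by
      rw [add_mul]
      omega
    calc (B + 1) * (D * (B + 1) * (D * (B + 1)) * (n + 1) ^ 4 + 2) + 1
        ≤ (B + 1) * ((D * (B + 1) * (D * (B + 1)) + 2) * (n + 1) ^ 4) + (n + 1) ^ 4 :=
          Nat.add_le_add (Nat.mul_le_mul_left _ h3) hp4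
      _ = _ := by ring
  calc D * (n + 1) * (hmax (D * (n + 1)) n B + 1) + 1
      ≤ D * (n + 1) * (((B + 1) * (D * (B + 1) * (D * (B + 1)) + 2) + 1) * (n + 1) ^ 4) +
        (n + 1) ^ 5 := Nat.add_le_add (Nat.mul_le_mul_left _ h2) hp5
    _ = _ := by ring

/-- linear approximations from one-counter languages give polynomial automata -/
theorem nfa_of_linApprox {L₁ : Language X} (h : LinApprox counterLang L₁) :
    ∃ C, ∀ N, ∃ n, N ≤ n ∧ ∃ R : Language X, Nfa (C * (n + 1) ^ 5) C R ∧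
      ∀ x : List X, x.length ≤ n → (x ∈ R ↔ x ∈ L₁) := by
  obtain ⟨D, hD⟩ := h
  obtain ⟨C, hC⟩ := poly_bound D D
  refine ⟨max C D, fun N => ?_⟩
  obtain ⟨n, hn, τ, hs, hτ⟩ := hD N
  obtain ⟨R, hR, hRτ⟩ := nfa_of_counter hs n
  refine ⟨n, hn, R, hR.mono ((hC n).trans (Nat.mul_le_mul_right _ (le_max_left _ _)))
    (le_max_right _ _), fun x hx => ?_⟩
  rw [hRτ x hx]
  exact hτ x hx

/-- **Density above one-counter languages** -/
theorem between_of_hard [Finite X] [Finite Y] {L₁ : Language X} {L₂ : Language Y}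
    (hG : Geq L₁ goldstine) (h : Geq L₁ L₂) {x₀ : List Y} (hx : x₀ ∈ L₂)
    (hoc : Geq counterLang L₂)
    (hhard : ∀ C, ∃ N, ∀ n, N ≤ n → ¬ ∃ R : Language X, Nfa (C * (n + 1) ^ 5) C R ∧
      ∀ x : List X, x.length ≤ n → (x ∈ R ↔ x ∈ L₁)) :
    ∃ M : Language (Option (Y ⊕ PC X)), Between L₁ M L₂ := by
  rcases criterion hG h hx with h1 | h1
  · exact h1
  · exfalso
    obtain ⟨C, hC⟩ := nfa_of_linApprox ((linApprox_of_criterion h1).of_geq hoc)
    obtain ⟨N, hN⟩ := hhard C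
    obtain ⟨n, hn, hR⟩ := hC N
    exact hN n hn hR

/-- an exponential beats a polynomial -/
theorem exp_gt (C : ℕ) : ∃ N, ∀ m, N ≤ m → C * (2 * m + 2) ^ 5 * nsh Bool C < 2 ^ m := by
  have h := tendsto_pow_const_div_const_pow_of_one_lt 5 (show (1 : ℝ) < 2 by norm_num)
  have h1 : ∀ᶠ m : ℕ in Filter.atTop, ((m : ℝ) ^ 5 / 2 ^ m) <
      1 / (C * 4 ^ 5 * (nsh Bool C) + 1) := by
    apply h.eventually_lt_const
    positivity
  obtain ⟨N, hN⟩ := Filter.eventually_atTop.mp h1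
  refine ⟨max N 1, fun m hm => ?_⟩
  have h2 := hN m ((le_max_left _ _).trans hm)
  have hm1 : 1 ≤ m := (le_max_right _ _).trans hm
  have h3 : (0 : ℝ) < 2 ^ m := by positivity
  have hpos : (0 : ℝ) < C * 4 ^ 5 * (nsh Bool C) + 1 := by positivity
  rw [div_lt_div_iff₀ h3 hpos, one_mul] at h2
  have h4 : (m : ℝ) ^ 5 * (C * 4 ^ 5 * (nsh Bool C)) ≤ (m : ℝ) ^ 5 * (C * 4 ^ 5 * (nsh Bool C) + 1) := by
    gcongr
    linarith
  have h5 : C * (4 * m) ^ 5 * nsh Bool C < 2 ^ m := by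
    have h6 : ((C * (4 * m) ^ 5 * nsh Bool C : ℕ) : ℝ) < ((2 ^ m : ℕ) : ℝ) := by
      push_cast
      calc (C : ℝ) * (4 * m) ^ 5 * (nsh Bool C) = (m : ℝ) ^ 5 * (C * 4 ^ 5 * (nsh Bool C)) := by ring
        _ < 2 ^ m := lt_of_le_of_lt h4 h2
    exact_mod_cast h6
  refine lt_of_le_of_lt ?_ h5
  gcongr
  omega

theorem not_linApprox_pal : ¬ LinApprox counterLang palLang := by
  intro h
  obtain ⟨C, hC⟩ := nfa_of_linApprox h
  obtain ⟨N, hN⟩ := exp_gt C
  obtain ⟨n, hn, R, hR, hRx⟩ := hC (2 * N)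
  set m := n / 2 with hm
  have h1 := pal_lower (m := m) hR fun x hx => hRx x (by omega)
  have h2 := hN m (by omega)
  have hnm : n + 1 ≤ 2 * m + 2 := by omega
  have h3 : C * (n + 1) ^ 5 * nsh Bool C ≤ C * (2 * m + 2) ^ 5 * nsh Bool C :=
    Nat.mul_le_mul_right _ (Nat.mul_le_mul_left _ (Nat.pow_le_pow_left hnm _))
  exact absurd (h1.trans h3) (not_le.mpr h2)

theorem Geq.refl' [Finite X] (L : Language X) : Geq L L := by
  have := Geq.comap L (fun z : X => [z])
  have e : comapL L (fun z : X => [z]) = L := by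
    ext w
    rw [mem_comapL, flatMap_single]
  rwa [e] at this

theorem linApprox_of_geq [Finite X] {K : Language Y} {L : Language X} (h : Geq K L) :
    LinApprox K L := by
  obtain ⟨τ, hτ⟩ := h
  obtain ⟨m, B, _, hs⟩ := exists_sized τ
  refine ⟨max m B, fun N => ⟨N, le_rfl, τ, hs.mono ?_ (le_max_right _ _), fun x _ => by rw [hτ]⟩⟩
  calc m ≤ max m B := le_max_left _ _
    _ ≤ max m B * (N + 1) := Nat.le_mul_of_pos_right _ (Nat.succ_pos _)

/-- **Density between the languages above the palindromes and the one-counter languages** -/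
theorem between_of_pal [Finite X] [Finite Y] {L₁ : Language X} {L₂ : Language Y}
    (hG : Geq L₁ goldstine) (hP : Geq L₁ palLang) (h : Geq L₁ L₂) {x₀ : List Y} (hx : x₀ ∈ L₂)
    (hoc : Geq counterLang L₂) :
    ∃ (W : Type) (_ : Finite W) (M : Language W), Between L₁ M L₂ := by
  have h1 : Geq L₁ (join L₂ palLang) := h.join hP
  have h2 : Geq (join L₂ palLang) L₂ := join_left _ _
  have h3 : Geq (join L₂ palLang) palLang := join_right _ _
  by_cases h4 : Geq (join L₂ palLang) L₁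
  · rcases criterion (h4.trans hG) h2 hx with ⟨M, ⟨a, b⟩, c, d⟩ | h5
    · exact ⟨_, inferInstance, M, ⟨h1.trans a, fun hc => b (hc.trans h1)⟩, c, d⟩
    · exfalso
      have h6 := (linApprox_of_criterion h5).of_geq hoc
      have h7 := h6.comap (fun z : Bool => (some (Sum.inr z) : Option (Y ⊕ Bool)))
      have h8 : comapL (join L₂ palLang) (fun z : Bool => [(some (Sum.inr z) : Option (Y ⊕ Bool))])
          = palLang := by
        ext y
        rw [mem_comapL, fm3]
        constructor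
        · rintro (⟨u, _, he⟩ | ⟨v, hv, he⟩)
          · exfalso
            cases y with
            | nil => simp at he
            | cons b v => simp at he
          · have hinj : Function.Injective (fun a : Bool => (some (Sum.inr a) : Option (Y ⊕ Bool))) := by
              intro a b hab
              exact Sum.inr_injective (Option.some_injective _ hab)
            rw [List.map_injective_iff.mpr hinj he]
            exact hv
        · intro hy
          exact Or.inr ⟨y, hy, rfl⟩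
      rw [h8] at h7
      exact not_linApprox_pal h7
  · refine ⟨_, inferInstance, join L₂ palLang, ⟨h1, h4⟩, h2, fun hc => ?_⟩
    exact not_linApprox_pal (linApprox_of_geq (hoc.trans (hc.trans h3)))

end RCone
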