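import Pool.Agent.RCone.Reg

/-! # Rational transductions and the rational order (helper70, MP_a8de0d_lc) -/

namespace RCone

open Language

/-- A rational transduction from words over `X` to words over `Y`, given as in the problem by a
finite alphabet `Z`, a regular set `K` of words over `Z` and two homomorphisms; its graph is
`{(φ(h), ψ(h)) : h ∈ K}`. -/
structure Transducer (X Y : Type) where
  Z : Type
  finZ : Finite Z
  K : Language Z
  regK : K.IsRegular
  φ : Z → List X
  ψ : Z → List Y

variable {X Y W : Type}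

/-- The image of the language `L`. -/
def Transducer.image (τ : Transducer X Y) (L : Language X) : Language Y :=
  {y | ∃ h ∈ τ.K, h.flatMap τ.φ ∈ L ∧ h.flatMap τ.ψ = y}

theorem Transducer.mem_image {τ : Transducer X Y} {L : Language X} {y : List Y} :
    y ∈ τ.image L ↔ ∃ h ∈ τ.K, h.flatMap τ.φ ∈ L ∧ h.flatMap τ.ψ = y := Iff.rfl

/-- `Geq L M`: `L` is rationally greater than `M` or equivalent to it, i.e. `M` is the image of
`L` under a rational transduction. -/
def Geq (L : Language X) (M : Language Y) : Prop := ∃ τ : Transducer X Y, τ.image L = M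

/-- union of two transductions -/
theorem Geq.union {L : Language X} {M N : Language Y} (hM : Geq L M) (hN : Geq L N) :
    Geq L (M + N) := by
  obtain ⟨τ, rfl⟩ := hM
  obtain ⟨ρ, rfl⟩ := hN
  have := τ.finZ
  have := ρ.finZ
  -- words over the disjoint union which stay in one part
  have h1 : (allL (fun z : τ.Z ⊕ ρ.Z => z.isLeft) ⊓
      comapL τ.K (fun z : τ.Z ⊕ ρ.Z => z.elim (fun a => [a]) (fun _ => []))).IsRegular :=
    (allL_regular _).inf (comap_regular τ.regK _)
  have h2 : (allL (fun z : τ.Z ⊕ ρ.Z => z.isRight) ⊓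
      comapL ρ.K (fun z : τ.Z ⊕ ρ.Z => z.elim (fun _ => []) (fun a => [a]))).IsRegular :=
    (allL_regular _).inf (comap_regular ρ.regK _)
  refine ⟨⟨τ.Z ⊕ ρ.Z, inferInstance, _, h1.add h2, fun z => z.elim τ.φ ρ.φ,
    fun z => z.elim τ.ψ ρ.ψ⟩, ?_⟩
  have key1 : ∀ h : List (τ.Z ⊕ ρ.Z), (∀ z ∈ h, z.isLeft) →
      ∃ g : List τ.Z, h = g.map Sum.inl := by
    intro h hh
    induction h with
    | nil => exact ⟨[], rfl⟩
    | cons z h ih =>
      obtain ⟨g, hg⟩ := ih (fun z hz => hh z (List.mem_cons_of_mem _ hz))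
      cases z with
      | inl a => exact ⟨a :: g, by simp [hg]⟩
      | inr a => exact absurd (hh _ List.mem_cons_self) (by simp)
  have key2 : ∀ h : List (τ.Z ⊕ ρ.Z), (∀ z ∈ h, z.isRight) →
      ∃ g : List ρ.Z, h = g.map Sum.inr := by
    intro h hh
    induction h with
    | nil => exact ⟨[], rfl⟩
    | cons z h ih =>
      obtain ⟨g, hg⟩ := ih (fun z hz => hh z (List.mem_cons_of_mem _ hz))
      cases z with
      | inr a => exact ⟨a :: g, by simp [hg]⟩
      | inl a => exact absurd (hh _ List.mem_cons_self) (by simp)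
  ext y
  rw [Language.mem_add, Transducer.mem_image]
  constructor
  · rintro ⟨h, hK, hL, rfl⟩
    rcases hK with ⟨ha, hb⟩ | ⟨ha, hb⟩
    · left
      obtain ⟨g, rfl⟩ := key1 h ha
      refine ⟨g, ?_, ?_, ?_⟩
      · have : (g.map Sum.inl).flatMap
            (fun z : τ.Z ⊕ ρ.Z => z.elim (fun a => [a]) (fun _ => [])) ∈ τ.K := hb
        simpa [List.flatMap_map] using this
      · simpa [List.flatMap_map] using hL
      · simp [List.flatMap_map]
    · right
      obtain ⟨g, rfl⟩ := key2 h ha
      refine ⟨g, ?_, ?_, ?_⟩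
      · have : (g.map Sum.inr).flatMap
            (fun z : τ.Z ⊕ ρ.Z => z.elim (fun _ => []) (fun a => [a])) ∈ ρ.K := hb
        simpa [List.flatMap_map] using this
      · simpa [List.flatMap_map] using hL
      · simp [List.flatMap_map]
  · rintro (⟨g, hK, hL, rfl⟩ | ⟨g, hK, hL, rfl⟩)
    · refine ⟨g.map Sum.inl, Or.inl ⟨?_, ?_⟩, ?_, ?_⟩
      · intro z hz
        obtain ⟨a, _, rfl⟩ := List.mem_map.mp hz
        rfl
      · change _ ∈ comapL _ _
        rw [mem_comapL]
        simpa [List.flatMap_map] using hK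
      · simpa [List.flatMap_map] using hL
      · simp [List.flatMap_map]
    · refine ⟨g.map Sum.inr, Or.inr ⟨?_, ?_⟩, ?_, ?_⟩
      · intro z hz
        obtain ⟨a, _, rfl⟩ := List.mem_map.mp hz
        rfl
      · change _ ∈ comapL _ _
        rw [mem_comapL]
        simpa [List.flatMap_map] using hK
      · simpa [List.flatMap_map] using hL
      · simp [List.flatMap_map]

/-- intersection with a regular language -/
theorem Geq.inter {L : Language X} {M R : Language Y} (hM : Geq L M) (hR : R.IsRegular) :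
    Geq L (M ⊓ R) := by
  obtain ⟨τ, rfl⟩ := hM
  refine ⟨⟨τ.Z, τ.finZ, τ.K ⊓ comapL R τ.ψ, τ.regK.inf (comap_regular hR _), τ.φ, τ.ψ⟩, ?_⟩
  ext y
  constructor
  · rintro ⟨h, ⟨hK, hR⟩, hL, rfl⟩
    exact ⟨⟨h, hK, hL, rfl⟩, hR⟩
  · rintro ⟨⟨h, hK, hL, rfl⟩, hR⟩
    exact ⟨h, ⟨hK, hR⟩, hL, rfl⟩

/-- every regular language is below every nonempty language -/
theorem Geq.of_regular [Finite Y] {L : Language X} {x₀ : List X} (hx : x₀ ∈ L) {R : Language Y}
    (hR : R.IsRegular) : Geq L R := by
  have hK : (oneL (fun z : Option Y => z = none) * (allL (fun z : Option Y => z.isSome) ⊓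
      comapL R (fun z : Option Y => z.toList))).IsRegular :=
    mul_regular (oneL_regular _) ((allL_regular _).inf (comap_regular hR _))
  refine ⟨⟨Option Y, inferInstance, _, hK, fun z => z.elim x₀ (fun _ => []),
    fun z => z.toList⟩, ?_⟩
  have key : ∀ h : List (Option Y), (∀ z ∈ h, z.isSome) → ∃ g : List Y, h = g.map some := by
    intro h hh
    induction h with
    | nil => exact ⟨[], rfl⟩
    | cons z h ih =>
      obtain ⟨g, hg⟩ := ih (fun z hz => hh z (List.mem_cons_of_mem _ hz))
      cases z with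
      | some a => exact ⟨a :: g, by simp [hg]⟩
      | none => exact absurd (hh _ List.mem_cons_self) (by simp)
  have f1 : ∀ g : List Y, (g.map some).flatMap (fun z : Option Y => z.toList) = g := by
    intro g
    induction g with
    | nil => rfl
    | cons a g ih => simp [ih]
  have f2 : ∀ g : List Y, (g.map some).flatMap
      (fun z : Option Y => z.elim x₀ (fun _ => ([] : List X))) = [] := by
    intro g
    induction g with
    | nil => rfl
    | cons a g ih => simp
  ext y
  rw [Transducer.mem_image]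
  constructor
  · rintro ⟨h, hK, hL, rfl⟩
    rw [Language.mem_mul] at hK
    obtain ⟨a, ⟨z, rfl, rfl⟩, b, ⟨hb1, hb2⟩, rfl⟩ := hK
    obtain ⟨g, rfl⟩ := key b hb1
    have hb2' : (g.map some).flatMap (fun z : Option Y => z.toList) ∈ R := hb2
    change (([none] : List (Option Y)) ++ g.map some).flatMap (fun z : Option Y => z.toList) ∈ R
    rw [List.flatMap_append]
    simpa using hb2'
  · intro hy
    refine ⟨[none] ++ y.map some, ?_, ?_, ?_⟩
    · rw [Language.mem_mul]
      refine ⟨[none], ⟨none, rfl, rfl⟩, y.map some, ⟨?_, ?_⟩, rfl⟩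
      · intro z hz
        obtain ⟨a, _, rfl⟩ := List.mem_map.mp hz
        rfl
      · change (y.map some).flatMap (fun z : Option Y => z.toList) ∈ R
        rw [f1]
        exact hy
    · rw [List.flatMap_append, f2]
      simpa using hx
    · rw [List.flatMap_append, f1]
      rfl

/-- the inverse transduction -/
def Transducer.inv (τ : Transducer X Y) : Transducer Y X :=
  ⟨τ.Z, τ.finZ, τ.K, τ.regK, τ.ψ, τ.φ⟩

end RCone
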