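import Pool.Agent.RCone.CovN

/-! # Nested blocks (helper70, MP_a8de0d_lc) -/

namespace RCone

open Language

variable {X Y W V : Type}

/-- ascending blocks -/
def upB {k : ℕ} (n : Fin k → ℕ) : List (Fin k × Bool) :=
  (List.finRange k).flatMap fun i => List.replicate (n i) (i, false)

/-- descending blocks -/
def downB {k : ℕ} (n : Fin k → ℕ) : List (Fin k × Bool) :=
  (List.finRange k).reverse.flatMap fun i => List.replicate (n i) (i, true)

/-- The words `a_1^(n_1) ... a_k^(n_k) b_k^(n_k) ... b_1^(n_1)`, where `a_i = (i, false)` and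
`b_i = (i, true)`. -/
def nestB (k : ℕ) : Language (Fin k × Bool) := {w | ∃ n : Fin k → ℕ, w = upB n ++ downB n}

theorem count_blocks {I J : Type} [DecidableEq I] [BEq J] [LawfulBEq J] (g : I → J)
    (hg : Function.Injective g) (n : I → ℕ) (i : I) (l : List I) (hl : l.Nodup) :
    (l.flatMap fun j => List.replicate (n j) (g j)).count (g i) = if i ∈ l then n i else 0 := by
  induction l with
  | nil => simp
  | cons j l ih =>
    rw [List.nodup_cons] at hl
    rw [List.flatMap_cons, List.count_append, ih hl.2, List.count_replicate]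
    by_cases hij : j = i
    · subst hij
      simp [hl.1]
    · have h1 : ¬ g j = g i := fun h => hij (hg h)
      have h2 : ¬ i = j := fun h => hij h.symm
      simp [h1, h2]

theorem count_blocks_ne {I J : Type} [BEq J] [LawfulBEq J] (g : I → J) (n : I → ℕ) (b : J)
    (l : List I) (hb : ∀ i, g i ≠ b) :
    (l.flatMap fun j => List.replicate (n j) (g j)).count b = 0 := by
  rw [List.count_eq_zero]
  intro h
  obtain ⟨j, _, hj⟩ := List.mem_flatMap.mp h
  exact hb j (List.mem_replicate.mp hj).2.symm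

theorem count_up {k : ℕ} (n : Fin k → ℕ) (i : Fin k) : (upB n).count (i, false) = n i := by
  have := count_blocks (fun i : Fin k => (i, false)) (fun a b h => (Prod.mk.inj h).1) n i
    (List.finRange k) (List.nodup_finRange k)
  rw [if_pos (List.mem_finRange i)] at this
  exact this

theorem count_up' {k : ℕ} (n : Fin k → ℕ) (i : Fin k) : (upB n).count (i, true) = 0 :=
  count_blocks_ne (fun i : Fin k => (i, false)) n (i, true) _ fun j h => by
    have := (Prod.mk.inj h).2
    exact absurd this (by simp)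

theorem count_down {k : ℕ} (n : Fin k → ℕ) (i : Fin k) : (downB n).count (i, true) = n i := by
  have := count_blocks (fun i : Fin k => (i, true)) (fun a b h => (Prod.mk.inj h).1) n i
    (List.finRange k).reverse (List.nodup_reverse.mpr (List.nodup_finRange k))
  rw [if_pos (List.mem_reverse.mpr (List.mem_finRange i))] at this
  exact this

theorem count_down' {k : ℕ} (n : Fin k → ℕ) (i : Fin k) : (downB n).count (i, false) = 0 :=
  count_blocks_ne (fun i : Fin k => (i, true)) n (i, false) _ fun j h => by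
    have := (Prod.mk.inj h).2
    exact absurd this (by simp)

theorem mem_nestB {k : ℕ} (n m : Fin k → ℕ) : upB n ++ downB m ∈ nestB k ↔ n = m := by
  constructor
  · rintro ⟨p, hp⟩
    funext i
    have h1 := congrArg (List.count (i, false)) hp
    have h2 := congrArg (List.count (i, true)) hp
    rw [List.count_append, List.count_append, count_up, count_up, count_down', count_down'] at h1
    rw [List.count_append, List.count_append, count_up', count_up', count_down, count_down] at h2
    omega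
  · rintro rfl
    exact ⟨n, rfl⟩

theorem length_upB {k s : ℕ} (n : Fin k → ℕ) (h : ∀ i, n i ≤ s) : (upB n).length ≤ s * k := by
  have := length_flatMap_le' (fun i => List.replicate (n i) (i, false)) s
    (fun i => by rw [List.length_replicate]; exact h i) (List.finRange k)
  rwa [List.length_finRange] at this

theorem length_downB {k s : ℕ} (n : Fin k → ℕ) (h : ∀ i, n i ≤ s) : (downB n).length ≤ s * k := by
  have := length_flatMap_le' (fun i => List.replicate (n i) (i, true)) s
    (fun i => by rw [List.length_replicate]; exact h i) (List.finRange k).reverse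
  rwa [List.length_reverse, List.length_finRange] at this

/-- the growth function of the index -/
def wf (d n : ℕ) : ℕ := (n + 1) ^ d * (Nat.sqrt n + 1)

theorem exists_pow_le_exp (k : ℕ) : ∃ C : ℕ, ∀ n : ℕ, n ^ k ≤ C * 2 ^ n := by
  obtain ⟨b, hb⟩ := (tendsto_pow_const_div_const_pow_of_one_lt k
    (show (1 : ℝ) < 2 by norm_num)).bddAbove_range
  refine ⟨⌈b⌉₊, fun n => ?_⟩
  have h1 : (n : ℝ) ^ k / 2 ^ n ≤ b := hb ⟨n, rfl⟩
  have h2 : (n : ℝ) ^ k ≤ ⌈b⌉₊ * 2 ^ n := by
    have h3 : (n : ℝ) ^ k / 2 ^ n ≤ ⌈b⌉₊ := h1.trans (Nat.le_ceil b)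
    rwa [div_le_iff₀ (by positivity)] at h3
  exact_mod_cast h2

theorem log_le_sqrt (j : ℕ) : ∃ C : ℕ, ∀ n, (Nat.log 2 (n + 2)) ^ j ≤ C * (Nat.sqrt n + 1) := by
  obtain ⟨C, hC⟩ := exists_pow_le_exp (j * 2)
  refine ⟨2 * C + 1, fun n => ?_⟩
  have h1 : (Nat.log 2 (n + 2) ^ j) ^ 2 ≤ C * (n + 2) := by
    rw [← pow_mul]
    exact (hC _).trans (Nat.mul_le_mul_left _ (Nat.pow_log_le_self 2 (by omega)))
  have h2 : n < (Nat.sqrt n + 1) * (Nat.sqrt n + 1) := Nat.lt_succ_sqrt n
  have h3 : (Nat.log 2 (n + 2) ^ j) ^ 2 ≤ ((2 * C + 1) * (Nat.sqrt n + 1)) ^ 2 := by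
    set s := Nat.sqrt n + 1 with hs
    calc (Nat.log 2 (n + 2) ^ j) ^ 2 ≤ C * (n + 2) := h1
      _ ≤ C * (2 * (s * s)) := Nat.mul_le_mul_left _ (by
          have : 1 ≤ s * s := Nat.mul_pos (Nat.succ_pos _) (Nat.succ_pos _)
          omega)
      _ ≤ (2 * C + 1) * (s * s) := by nlinarith
      _ ≤ (2 * C + 1) * (2 * C + 1) * (s * s) :=
          Nat.mul_le_mul_right _ (Nat.le_mul_of_pos_left _ (by omega))
      _ = ((2 * C + 1) * s) ^ 2 := by ring
  exact (Nat.pow_le_pow_iff_left (by norm_num)).mp h3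

theorem Idx.narrow {d : ℕ} {L : Language Y} (h : Idx d L) : Narrow (wf d) L := by
  intro X _ τ
  obtain ⟨C, j, hC⟩ := h X τ
  obtain ⟨D, hD⟩ := log_le_sqrt j
  refine ⟨C * D, fun n ι _ u v hf hl => ((hC n).fool hf hl).trans ?_⟩
  unfold gr wf
  calc C * ((n + 1) ^ d * Nat.log 2 (n + 2) ^ j)
      ≤ C * ((n + 1) ^ d * (D * (Nat.sqrt n + 1))) := by
        have := hD n
        gcongr
    _ = C * D * ((n + 1) ^ d * (Nat.sqrt n + 1)) := by ring

theorem not_geq_of_wide [Finite W] {w : ℕ → ℕ} (hw : ∀ n, w n ≤ w (n + 1)) {L : Language Y}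
    {P : Language W} (hN : Narrow w L) (hW : Wide w P) : ¬ Geq L P := by
  rintro ⟨τ, rfl⟩
  obtain ⟨C, hC⟩ := hN W τ
  obtain ⟨k, hk⟩ := hW
  obtain ⟨N, hNN⟩ := hk C
  obtain ⟨ι, hι, u, v, hf, hl, h1, _⟩ := hNN N le_rfl
  have h2 := hC N ι u v hf hl
  have h3 : C * w N ≤ C * w (N + 1) := Nat.mul_le_mul_left _ (hw N)
  omega

theorem wf_mono (d n : ℕ) : wf d n ≤ wf d (n + 1) := by
  unfold wf
  have : Nat.sqrt n ≤ Nat.sqrt (n + 1) := Nat.sqrt_le_sqrt (Nat.le_succ n)
  gcongr <;> omega

/-- large fooling sets -/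
theorem wide_nestB (d : ℕ) : Wide (wf d) (nestB (d + 1)) := by
  classical
  refine ⟨2, fun C => ?_⟩
  set e := d + 1 with he
  set Q := C * (2 * e) ^ d with hQ
  set R := e * Q + e + 2 with hR
  refine ⟨R * R, fun n hn => ?_⟩
  set s := n / e with hs
  set p := s + 1 with hp
  have h1 : n + 1 ≤ e * p := by
    have := Nat.lt_mul_div_succ n (show 0 < e by omega)
    rw [← hs] at this
    exact this
  have h2 : s * e ≤ n := Nat.div_mul_le_self n e
  set t := Nat.sqrt (n + 1) with ht
  have h3 : R ≤ t := by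
    rw [ht, Nat.le_sqrt]
    omega
  have h4 : t * t ≤ n + 1 := Nat.sqrt_le (n + 1)
  have h5 : Q * (t + 1) < p := by
    by_contra hcon
    push Not at hcon
    have h6 : e * p ≤ e * (Q * (t + 1)) := Nat.mul_le_mul_left _ hcon
    have h7 : R * t ≤ t * t := Nat.mul_le_mul_right _ h3
    have h8 : R * t = e * Q * t + e * t + 2 * t := by rw [hR]; ring
    have h9 : e * (Q * (t + 1)) = e * Q * t + e * Q := by ring
    omega
  have h6 : C * e < p := by
    have h7 : C ≤ Q := by
      rw [hQ]
      exact Nat.le_mul_of_pos_right _ (Nat.pow_pos (by omega))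
    have h8 : C * e ≤ Q * (t + 1) := Nat.mul_le_mul h7 (by omega)
    omega
  refine ⟨Fin e → Fin p, inferInstance, fun i => upB fun t => (i t).val,
    fun i => downB fun t => (i t).val, ⟨fun i => (mem_nestB _ _).mpr rfl, fun i j hij hm => ?_⟩,
    fun i => ⟨(length_upB _ fun t => ?_).trans h2, (length_downB _ fun t => ?_).trans h2⟩, ?_, ?_⟩
  · apply hij
    funext t
    exact Fin.ext (congrFun ((mem_nestB _ _).mp hm) t)
  · have := (i t).2
    omega
  · have := (i t).2
    omega
  · rw [Fintype.card_fun, Fintype.card_fin, Fintype.card_fin]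
    unfold wf
    rw [← ht]
    have h7 : n + 1 + 1 ≤ 2 * e * p := by
      have : 2 * e * p = e * p + e * p := by ring
      omega
    calc C * ((n + 1 + 1) ^ d * (t + 1)) ≤ C * ((2 * e * p) ^ d * (t + 1)) := by gcongr
      _ = Q * (t + 1) * p ^ d := by rw [hQ, mul_pow]; ring
      _ < p * p ^ d := Nat.mul_lt_mul_of_pos_right h5 (Nat.pow_pos (by omega))
      _ = p ^ e := by rw [he]; ring
  · rw [Fintype.card_fun, Fintype.card_fin, Fintype.card_fin]
    have h7 : p ≤ p ^ e := Nat.le_self_pow (by omega) _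
    calc C * (n + 1) ≤ C * (e * p) := Nat.mul_le_mul_left _ h1
      _ = C * e * p := by ring
      _ < p * p := Nat.mul_lt_mul_of_pos_right h6 (by omega)
      _ = p ^ 2 := by ring
      _ ≤ (p ^ e) ^ 2 := Nat.pow_le_pow_left h7 2

/-- the palindromes have exponential fooling sets -/
theorem wide_pal (d : ℕ) : Wide (wf d) palLang := by
  classical
  refine ⟨1, fun C => ?_⟩
  obtain ⟨D, hD⟩ := exists_pow_le_exp (d + 2)
  set Q := 2 * C * 4 ^ (d + 2) * D + C with hQ
  refine ⟨Q + 1, fun n hn => ?_⟩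
  have h0 : C * ((n + 2) ^ (d + 1) * 2) < 2 ^ n := by
    have h2 : n + 2 ≤ 4 * n := by omega
    have h3 := hD n
    by_contra hcon
    push Not at hcon
    have h4 : (Q + 1) * 2 ^ n ≤ n * 2 ^ n := Nat.mul_le_mul_right _ hn
    have h5 : n * 2 ^ n ≤ n * (C * ((4 * n) ^ (d + 1) * 2)) := by
      refine Nat.mul_le_mul_left _ (hcon.trans (Nat.mul_le_mul_left _ ?_))
      gcongr
    have h6 : n * (C * ((4 * n) ^ (d + 1) * 2)) = 2 * C * 4 ^ (d + 1) * n ^ (d + 2) := by
      rw [mul_pow]
      ring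
    have h7 : 2 * C * 4 ^ (d + 1) * n ^ (d + 2) ≤ 2 * C * 4 ^ (d + 2) * (D * 2 ^ n) := by
      gcongr
      · norm_num
      · omega
    have h8 : 2 * C * 4 ^ (d + 2) * (D * 2 ^ n) = 2 * C * 4 ^ (d + 2) * D * 2 ^ n := by ring
    have h9 : (2 * C * 4 ^ (d + 2) * D) * 2 ^ n ≤ Q * 2 ^ n :=
      Nat.mul_le_mul_right _ (Nat.le_add_right _ _)
    have h10 : (Q + 1) * 2 ^ n = Q * 2 ^ n + 2 ^ n := by ring
    have h11 : 0 < 2 ^ n := Nat.pow_pos (by norm_num)
    omega
  have h01 : C * wf d (n + 1) < 2 ^ n := by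
    refine lt_of_le_of_lt (Nat.mul_le_mul_left _ ?_) h0
    unfold wf
    have : Nat.sqrt (n + 1) ≤ n + 1 := Nat.sqrt_le_self _
    calc (n + 1 + 1) ^ d * (Nat.sqrt (n + 1) + 1) ≤ (n + 2) ^ d * ((n + 2) * 2) := by
          gcongr <;> omega
      _ = _ := by ring
  have h02 : C * (n + 1) < 2 ^ n := by
    refine lt_of_le_of_lt (Nat.mul_le_mul_left _ ?_) h0
    have : n + 2 ≤ (n + 2) ^ (d + 1) := Nat.le_self_pow (by omega) _
    omega
  refine ⟨Fin n → Bool, inferInstance, fun i => List.ofFn i, fun i => (List.ofFn i).reverse,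
    ⟨fun i => ⟨_, rfl⟩, fun i j hij hm => ?_⟩, fun i => ?_, ?_, ?_⟩
  · obtain ⟨w, hw⟩ := hm
    apply hij
    have h1 : (List.ofFn i).length = w.length := by
      have := congrArg List.length hw
      simp only [List.length_append, List.length_reverse, List.length_ofFn] at this ⊢
      omega
    obtain ⟨h2, h3⟩ := List.append_inj hw h1
    rw [← h2] at h3
    exact List.ofFn_injective (List.reverse_injective h3).symm
  · simp
  · simp
    exact h01
  · simp
    exact h02

end RCone
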