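import Pool.Agent.RCone.Blk

/-! # The index of the nested blocks (helper70, MP_a8de0d_lc) -/

namespace RCone

open Language

variable {X Y W V : Type}

/-- renaming of letters -/
def tauRen [Finite X] (g : X → Y) : Transducer X Y where
  Z := X
  finZ := inferInstance
  K := ⊤
  regK := top_regular
  φ := fun z => [z]
  ψ := fun z => [g z]

theorem mem_tauRen [Finite X] (g : X → Y) (L : Language X) (w : List Y) :
    w ∈ (tauRen g).image L ↔ ∃ u ∈ L, w = u.map g := by
  have h1 : ∀ h : List X, h.flatMap (fun z => [g z]) = h.map g := by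
    intro h
    induction h with
    | nil => rfl
    | cons z h ih => rw [List.flatMap_cons, ih]; rfl
  constructor
  · rintro ⟨h, _, hL, rfl⟩
    refine ⟨h, ?_, h1 h⟩
    have h2 : h.flatMap (fun z : X => [z]) ∈ L := hL
    rwa [flatMap_single] at h2
  · rintro ⟨u, hu, rfl⟩
    refine ⟨u, trivial, ?_, h1 u⟩
    change u.flatMap (fun z : X => [z]) ∈ L
    rw [flatMap_single]
    exact hu

/-- the words `a^n c b^n` -/
def dLang : Language (Fin 3) :=
  {w | ∃ n : ℕ, w = List.replicate n 0 ++ ([1] ++ List.replicate n 2)}

theorem runW_inc (a v : ℕ) : runW (List.replicate a 0) v = some (v + a) := by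
  induction a generalizing v with
  | zero => rfl
  | succ a ih =>
    rw [List.replicate_succ]
    change ((run1 0 v).bind (runW (List.replicate a 0))) = _
    rw [show run1 0 v = some (v + 1) from rfl, Option.bind_some, ih]
    congr 1
    omega

theorem runW_dec (b v : ℕ) : runW (List.replicate b 1) v = some 0 ↔ b = v := by
  induction b generalizing v with
  | zero =>
    change (some v = some 0) ↔ _
    rw [Option.some.injEq]
    exact eq_comm
  | succ b ih =>
    rw [List.replicate_succ]
    change ((run1 1 v).bind (runW (List.replicate b 1))) = some 0 ↔ _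
    cases v with
    | zero =>
      rw [show run1 1 0 = none from rfl, Option.bind_none]
      simp
    | succ v =>
      rw [show run1 1 (v + 1) = some v from rfl, Option.bind_some, ih]
      omega

/-- labels of the transduction onto `dLang` -/
def phD (z : Fin 3) : List (Fin 3) := if z = 0 then [0] else if z = 1 then [] else [1]

theorem counter_geq_d : Geq counterLang dLang := by
  refine ⟨⟨Fin 3, inferInstance, allL (fun z => z = 0) * (oneL (fun z => z = 1) *
    allL (fun z => z = 2)), mul_regular (allL_regular _) (mul_regular (oneL_regular _)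
      (allL_regular _)), phD, fun z => [z]⟩, ?_⟩
  have hph : ∀ a b : ℕ, ((List.replicate a 0 : List (Fin 3)) ++ ([1] ++
      List.replicate b 2)).flatMap phD =
      List.replicate a 0 ++ List.replicate b 1 := by
    intro a b
    rw [List.flatMap_append, List.flatMap_append, fm_rep phD (show phD 0 = [0] from rfl),
      fm_rep phD (show phD 2 = [1] from rfl)]
    rfl
  have hrun : ∀ a b : ℕ, List.replicate a 0 ++ List.replicate b 1 ∈ counterLang ↔ b = a := by
    intro a b
    change runW (List.replicate a 0 ++ List.replicate b 1) 0 = some 0 ↔ _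
    rw [runW_append, runW_inc, Option.bind_some, runW_dec]
    omega
  ext w
  constructor
  · rintro ⟨h, hK, hL, rfl⟩
    obtain ⟨a, ha, b, hb, rfl⟩ := Language.mem_mul.mp hK
    obtain ⟨c, hc, d, hd, rfl⟩ := Language.mem_mul.mp hb
    obtain ⟨n₁, rfl⟩ := mem_allL_eq.mp ha
    obtain ⟨n₂, rfl⟩ := mem_allL_eq.mp hd
    rw [mem_oneL_eq] at hc
    subst hc
    change ((List.replicate n₁ 0 : List (Fin 3)) ++ ([1] ++ List.replicate n₂ 2)).flatMap phD ∈
      counterLang at hL
    rw [hph, hrun] at hL
    subst hL
    exact ⟨_, flatMap_single _⟩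
  · rintro ⟨n, rfl⟩
    refine ⟨List.replicate n 0 ++ ([1] ++ List.replicate n 2), ?_, ?_, flatMap_single _⟩
    · exact Language.append_mem_mul (mem_allL_eq.mpr ⟨_, rfl⟩) (Language.append_mem_mul
        (mem_oneL_eq.mpr rfl) (mem_allL_eq.mpr ⟨_, rfl⟩))
    · change ((List.replicate n 0 : List (Fin 3)) ++ ([1] ++ List.replicate n 2)).flatMap phD ∈
        counterLang
      rw [hph, hrun]

theorem SubstRel.append_inv {f : Y → Language W} {a b : List Y} :
    ∀ {w : List W}, SubstRel f (a ++ b) w → ∃ x y, w = x ++ y ∧ SubstRel f a x ∧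
      SubstRel f b y := by
  induction b using List.reverseRecOn with
  | nil =>
    intro w h
    rw [List.append_nil] at h
    exact ⟨w, [], by simp, h, SubstRel.nil⟩
  | append_singleton b z ih =>
    intro w h
    rw [← List.append_assoc] at h
    obtain ⟨w', v, rfl, h1, h2⟩ := h.inv
    obtain ⟨x, y, rfl, h3, h4⟩ := ih h1
    exact ⟨x, y ++ v, by simp, h3, SubstRel.snoc h4 h2⟩

theorem substRel_rep {f : Y → Language W} {y : Y} {a : W} (h : ∀ v, v ∈ f y ↔ v = [a]) (n : ℕ)
    (w : List W) : SubstRel f (List.replicate n y) w ↔ w = List.replicate n a := by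
  induction n generalizing w with
  | zero =>
    constructor
    · intro h
      exact h.inv_nil
    · rintro rfl
      exact SubstRel.nil
  | succ n ih =>
    rw [List.replicate_succ', List.replicate_succ']
    constructor
    · intro h'
      obtain ⟨w', v, rfl, h1, h2⟩ := h'.inv
      rw [(ih w').mp h1, (h v).mp h2]
    · rintro rfl
      exact SubstRel.snoc ((ih _).mpr rfl) ((h _).mpr rfl)

/-- shifting the block index -/
def shB {k : ℕ} (z : Fin k × Bool) : Fin (k + 1) × Bool := (z.1.succ, z.2)

theorem upB_succ {k : ℕ} (n : Fin (k + 1) → ℕ) : upB n = List.replicate (n 0) (0, false) ++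
    (upB fun i => n i.succ).map shB := by
  unfold upB
  rw [List.finRange_succ, List.flatMap_cons, List.flatMap_map, List.map_flatMap]
  simp [shB]

theorem downB_succ {k : ℕ} (n : Fin (k + 1) → ℕ) : downB n =
    (downB fun i => n i.succ).map shB ++ List.replicate (n 0) (0, true) := by
  unfold downB
  rw [List.finRange_succ, List.reverse_cons, List.flatMap_append, ← List.map_reverse,
    List.flatMap_map, List.map_flatMap]
  simp [shB]

theorem mem_nestB_succ {k : ℕ} (w : List (Fin (k + 1) × Bool)) : w ∈ nestB (k + 1) ↔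
    ∃ (a : ℕ) (v : List (Fin k × Bool)), v ∈ nestB k ∧
      w = List.replicate a (0, false) ++ (v.map shB ++ List.replicate a (0, true)) := by
  constructor
  · rintro ⟨n, rfl⟩
    refine ⟨n 0, upB (fun i => n i.succ) ++ downB (fun i => n i.succ), ⟨_, rfl⟩, ?_⟩
    rw [upB_succ, downB_succ, List.map_append]
    simp only [List.append_assoc]
  · rintro ⟨a, v, ⟨m, rfl⟩, rfl⟩
    refine ⟨Fin.cons a m, ?_⟩
    rw [upB_succ, downB_succ, List.map_append]
    simp only [Fin.cons_zero, Fin.cons_succ, List.append_assoc]

/-- the substitution which adds a block -/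
def fD (k : ℕ) (z : Fin 3) : Language (Fin (k + 1) × Bool) :=
  if z = 0 then {v | v = [(0, false)]} else
    if z = 1 then (tauRen shB).image (nestB k) else {v | v = [(0, true)]}

theorem nestB_succ (k : ℕ) : nestB (k + 1) = substL dLang (fD k) := by
  have h0 : ∀ v, v ∈ fD k 0 ↔ v = [(0, false)] := fun v => Iff.rfl
  have h2 : ∀ v, v ∈ fD k 2 ↔ v = [(0, true)] := fun v => Iff.rfl
  have h1 : fD k 1 = (tauRen shB).image (nestB k) := rfl
  ext w
  rw [mem_nestB_succ]
  constructor
  · rintro ⟨a, v, hv, rfl⟩
    refine ⟨_, ⟨a, rfl⟩, ?_⟩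
    refine ((substRel_rep h0 a _).mpr rfl).append ((SubstRel.single ?_).append
      ((substRel_rep h2 a _).mpr rfl))
    rw [h1, mem_tauRen]
    exact ⟨v, hv, rfl⟩
  · rintro ⟨ys, ⟨a, rfl⟩, hr⟩
    obtain ⟨x, y, rfl, e1, e2⟩ := hr.append_inv
    obtain ⟨z, t, rfl, e3, e4⟩ := e2.append_inv
    rw [substRel_rep h0] at e1
    rw [substRel_rep h2] at e4
    have e5 : SubstRel (fD k) ([] ++ [1]) z := e3
    obtain ⟨w', v, rfl, e6, e7⟩ := e5.inv
    rw [e6.inv_nil, List.nil_append]
    rw [h1, mem_tauRen] at e7
    obtain ⟨u, hu, rfl⟩ := e7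
    exact ⟨a, u, hu, by rw [e1, e4]⟩

theorem neq_mem : ([true] : List Bool) ∈ neqLang := ⟨0, 1, by norm_num, rfl⟩

theorem idx_regular [Finite X] {L : Language X} (hL : L.IsRegular) : Idx 0 L :=
  idx_neq.of_geq (Geq.of_regular neq_mem hL)

theorem singleton_regular (a : X) {L : Language X} (hL : ∀ v, v ∈ L ↔ v = [a]) :
    L.IsRegular := by
  have h1 : L = oneL (fun z : X => z = a) := by
    ext v
    rw [hL, mem_oneL_eq]
  rw [h1]
  exact oneL_regular _

theorem idx_nestB (k : ℕ) : Idx k (nestB k) := by
  induction k with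
  | zero =>
    have h : nestB 0 = (⊤ : Language (Fin 0 × Bool)) := by
      ext w
      constructor
      · exact fun _ => trivial
      · intro _
        refine ⟨fun i => i.elim0, ?_⟩
        cases w with
        | nil => rfl
        | cons z w => exact z.1.elim0
    rw [h]
    exact idx_regular top_regular
  | succ k ih =>
    rw [nestB_succ]
    have h1 : Idx (1 + k) (substL dLang (fD k)) := by
      refine (idx_counter.of_geq counter_geq_d).subst fun z => ?_
      unfold fD
      split_ifs
      · exact (idx_regular (singleton_regular _ fun v => Iff.rfl)).mono (Nat.zero_le k)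
      · exact ih.of_geq ⟨_, rfl⟩
      · exact (idx_regular (singleton_regular _ fun v => Iff.rfl)).mono (Nat.zero_le k)
    exact h1.mono (Nat.add_comm 1 k).le

theorem nestB_geq_neq (k : ℕ) : Geq (nestB (k + 1)) neqLang := by
  refine geq_neq_of_words [((0 : Fin (k + 1)), false)] [] [(0, true)] fun n m => ?_
  rw [flatten_rep_single, flatten_rep_single, List.append_nil]
  have h1 : ∀ n : ℕ, upB (fun i : Fin (k + 1) => if i = 0 then n else 0) =
      List.replicate n (0, false) := by
    intro n
    rw [upB_succ]
    have : upB (fun i : Fin k => if i.succ = 0 then n else 0) = [] := by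
      unfold upB
      rw [List.flatMap_eq_nil_iff]
      intro i _
      simp [Fin.succ_ne_zero]
    rw [this]
    simp
  have h2 : ∀ n : ℕ, downB (fun i : Fin (k + 1) => if i = 0 then n else 0) =
      List.replicate n (0, true) := by
    intro n
    rw [downB_succ]
    have : downB (fun i : Fin k => if i.succ = 0 then n else 0) = [] := by
      unfold downB
      rw [List.flatMap_eq_nil_iff]
      intro i _
      simp [Fin.succ_ne_zero]
    rw [this]
    simp
  rw [← h1, ← h2, mem_nestB]
  constructor
  · intro h
    simpa using congrFun h 0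
  · rintro rfl
    rfl

/-- **Density above the languages of finite index** -/
theorem between_idx [Finite X] [Finite Y] {k : ℕ} {L₁ : Language X} {L₂ : Language Y}
    (hI : Idx k L₂) (h : Geq L₁ L₂) (hP : Geq L₁ (nestB (k + 1))) :
    ∃ M : Language (Option (Y ⊕ PC (Fin (k + 1) × Bool))), Between L₁ M L₂ :=
  between_of_wide hI.narrow (wide_nestB k)
    (hP.trans ((nestB_geq_neq k).trans neq_geq_goldstine)) hP h

theorem between_idx_pal [Finite X] [Finite Y] {k : ℕ} {L₁ : Language X} {L₂ : Language Y}
    (hI : Idx k L₂) (h : Geq L₁ L₂) (hP : Geq L₁ palLang) :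
    ∃ M : Language (Option (Y ⊕ PC Bool)), Between L₁ M L₂ :=
  between_of_wide hI.narrow (wide_pal k) (hP.trans pal_geq_goldstine) hP h

end RCone
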