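import Pool.Agent.RCone.Pumpable

/-! # Classes of pumpable languages (helper70, MP_a8de0d_lc) -/

namespace RCone

open Language

variable {X Y W V : Type}

/-- `{a^n b^m : n < m}` -/
def ltLang : Language Bool :=
  {w | ∃ n m : ℕ, n < m ∧ w = List.replicate n false ++ List.replicate m true}

/-- `{a^n b^m : m < n}` -/
def gtLang : Language Bool :=
  {w | ∃ n m : ℕ, m < n ∧ w = List.replicate n false ++ List.replicate m true}

theorem split_ab {w s : List Bool} {n m : ℕ}
    (h : w ++ s = List.replicate n false ++ List.replicate m true) :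
    (∃ j m', s = List.replicate j true ∧ w = List.replicate n false ++ List.replicate m' true ∧
      m = m' + j) ∨
    (∃ l n', s = List.replicate (l + 1) false ++ List.replicate m true ∧
      w = List.replicate n' false ∧ n = n' + (l + 1)) := by
  rcases List.append_eq_append_iff.mp h with ⟨a, h1, h2⟩ | ⟨b, h1, h2⟩
  · have h3 := List.append_eq_replicate_iff.mp h1.symm
    obtain ⟨h4, h5, h6⟩ := h3
    cases hl : a.length with
    | zero =>
      left
      have ha : a = [] := List.length_eq_zero_iff.mp hl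
      refine ⟨m, 0, ?_, ?_, by omega⟩
      · rw [h2, ha]; rfl
      · rw [h1, ha]; simp
    | succ l =>
      right
      refine ⟨l, w.length, ?_, h5, ?_⟩
      · rw [h2, h6, hl]
      · omega
  · have h3 := List.append_eq_replicate_iff.mp h2.symm
    obtain ⟨h4, h5, h6⟩ := h3
    left
    refine ⟨s.length, b.length, h6, ?_, by omega⟩
    rw [h1, ← h5]

theorem wqo_lt : WellQuasiOrdered fun S T : Set (List Bool) =>
    completes ltLang S ⊆ completes ltLang T := by
  refine wqo_of_map (wellQuasiOrdered_le (α := ℕ∞ × ℕ∞))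
    (fun S => (⨆ x : {j : ℕ // List.replicate j true ∈ S}, ((x.1 + 1 : ℕ) : ℕ∞),
      ⨆ x : {q : ℕ × ℕ // List.replicate (q.1 + 1) false ++ List.replicate q.2 true ∈ S},
        ((x.1.2 - (x.1.1 + 1) : ℕ) : ℕ∞))) ?_
  intro S T hST w hw
  obtain ⟨s, hs, n, m, hnm, he⟩ := hw
  obtain ⟨h1, h2⟩ := hST
  dsimp only at h1 h2
  rcases split_ab he with ⟨j, m', rfl, rfl, rfl⟩ | ⟨l, n', rfl, rfl, rfl⟩
  · have h3 : ((j : ℕ) : ℕ∞) < ⨆ x : {j : ℕ // List.replicate j true ∈ T}, ((x.1 + 1 : ℕ) : ℕ∞) := by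
      refine lt_of_lt_of_le ?_ h1
      refine lt_of_lt_of_le ?_ (le_iSup (fun x : {j : ℕ // List.replicate j true ∈ S} =>
        ((x.1 + 1 : ℕ) : ℕ∞)) ⟨j, hs⟩)
      exact_mod_cast Nat.lt_succ_self j
    obtain ⟨⟨j', hj'⟩, h4⟩ := lt_iSup_iff.mp h3
    have h5 : j < j' + 1 := by exact_mod_cast h4
    refine ⟨_, hj', n, m' + j', by omega, ?_⟩
    rw [List.append_assoc, ← List.replicate_add]
  · have h3 : ((n' : ℕ) : ℕ∞) <
        ⨆ x : {q : ℕ × ℕ // List.replicate (q.1 + 1) false ++ List.replicate q.2 true ∈ T},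
        ((x.1.2 - (x.1.1 + 1) : ℕ) : ℕ∞) := by
      refine lt_of_lt_of_le ?_ h2
      refine lt_of_lt_of_le ?_ (le_iSup (fun x : {q : ℕ × ℕ //
        List.replicate (q.1 + 1) false ++ List.replicate q.2 true ∈ S} =>
        ((x.1.2 - (x.1.1 + 1) : ℕ) : ℕ∞)) ⟨(l, m), hs⟩)
      have : n' < m - (l + 1) := by omega
      exact_mod_cast this
    obtain ⟨⟨⟨l', j'⟩, hj'⟩, h4⟩ := lt_iSup_iff.mp h3
    have h5 : n' < j' - (l' + 1) := by exact_mod_cast h4
    refine ⟨_, hj', n' + (l' + 1), j', by omega, ?_⟩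
    rw [← List.append_assoc, ← List.replicate_add]

theorem wqo_gt : WellQuasiOrdered fun S T : Set (List Bool) =>
    completes gtLang T ⊆ completes gtLang S := by
  refine wqo_of_map (wellQuasiOrdered_le (α := ℕ∞ × ℕ∞))
    (fun S => (⨅ x : {j : ℕ // List.replicate j true ∈ S}, ((x.1 : ℕ) : ℕ∞),
      ⨅ x : {q : ℕ × ℕ // List.replicate (q.1 + 1) false ++ List.replicate q.2 true ∈ S},
        ((x.1.2 - x.1.1 : ℕ) : ℕ∞))) ?_
  intro S T hST w hw
  obtain ⟨s, hs, n, m, hnm, he⟩ := hw
  obtain ⟨h1, h2⟩ := hST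
  dsimp only at h1 h2
  rcases split_ab he with ⟨j, m', rfl, rfl, rfl⟩ | ⟨l, n', rfl, rfl, rfl⟩
  · have h3 : (⨅ x : {j : ℕ // List.replicate j true ∈ S}, ((x.1 : ℕ) : ℕ∞)) <
        ((j + 1 : ℕ) : ℕ∞) := by
      refine lt_of_le_of_lt h1 ?_
      refine lt_of_le_of_lt (iInf_le (fun x : {j : ℕ // List.replicate j true ∈ T} =>
        ((x.1 : ℕ) : ℕ∞)) ⟨j, hs⟩) ?_
      exact_mod_cast Nat.lt_succ_self j
    obtain ⟨⟨j', hj'⟩, h4⟩ := iInf_lt_iff.mp h3
    have h5 : j' < j + 1 := by exact_mod_cast h4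
    refine ⟨_, hj', n, m' + j', by omega, ?_⟩
    rw [List.append_assoc, ← List.replicate_add]
  · have h3 : (⨅ x : {q : ℕ × ℕ //
        List.replicate (q.1 + 1) false ++ List.replicate q.2 true ∈ S},
        ((x.1.2 - x.1.1 : ℕ) : ℕ∞)) < ((n' + 1 : ℕ) : ℕ∞) := by
      refine lt_of_le_of_lt h2 ?_
      refine lt_of_le_of_lt (iInf_le (fun x : {q : ℕ × ℕ //
        List.replicate (q.1 + 1) false ++ List.replicate q.2 true ∈ T} =>
        ((x.1.2 - x.1.1 : ℕ) : ℕ∞)) ⟨(l, m), hs⟩) ?_
      have : m - l < n' + 1 := by omega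
      exact_mod_cast this
    obtain ⟨⟨⟨l', j'⟩, hj'⟩, h4⟩ := iInf_lt_iff.mp h3
    have h5 : j' - l' < n' + 1 := by exact_mod_cast h4
    refine ⟨_, hj', n' + (l' + 1), j', by omega, ?_⟩
    rw [← List.append_assoc, ← List.replicate_add]

theorem pumpUp_lt : PumpUp ltLang := pumpUp_of_wqo wqo_lt

theorem pumpDown_gt : PumpDown gtLang := pumpDown_of_wqo wqo_gt

theorem flatMap_flatten_replicate {Z : Type} (ψ : Z → List Y) (g : List Z) (r : ℕ) :
    ((List.replicate r g).flatten).flatMap ψ = (List.replicate r (g.flatMap ψ)).flatten := by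
  induction r with
  | zero => rfl
  | succ r ih =>
    rw [List.replicate_succ, List.flatten_cons, List.flatMap_append, ih, List.replicate_succ,
      List.flatten_cons]

/-- a language whose complement contains no `t`-th powers is pumpable -/
theorem pumpUp_of_powerFree {N : Language X} (t : ℕ)
    (hN : ∀ x u y : List X, u ≠ [] → x ++ (List.replicate t u).flatten ++ y ∈ N) : PumpUp N := by
  intro Y _ τ c d
  obtain ⟨σ, _, M, hM⟩ := τ.regK
  have := τ.finZ
  obtain ⟨m, hm⟩ := exists_bound τ.ψ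
  have hfin : Fintype {v : List Y // v.length ≤ m} := Fintype.ofFinite _
  set n₀ := Fintype.card (σ × {v : List Y // v.length ≤ m}) with hn₀
  refine ⟨n₀, n₀ + (t + 1) * n₀.factorial, ?_, ?_⟩
  · have : 0 < (t + 1) * n₀.factorial := Nat.mul_pos (Nat.succ_pos t) (Nat.factorial_pos _)
    omega
  intro x hx
  obtain ⟨h, hK, hL, hψ⟩ := hx
  -- the positions in the block
  have hsp : ∀ a : Fin (n₀ + 1), ∃ h₁ h₂ v, h = h₁ ++ h₂ ∧
      h₁.flatMap τ.ψ = (x ++ List.replicate a.val c) ++ v ∧ v.length ≤ m ∧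
      List.replicate (n₀ - a.val) c ++ [d] = v ++ h₂.flatMap τ.ψ := by
    intro a
    apply split_out τ.ψ m hm h
    rw [hψ, List.append_assoc x, List.append_assoc x, ← List.append_assoc (List.replicate a.val c),
      ← List.replicate_add]
    congr 3
    have := a.2
    omega
  choose h₁ h₂ v e1 e2 e3 e4 using hsp
  obtain ⟨a, a', hne, heq⟩ := Fintype.exists_ne_map_eq_of_card_lt
    (fun a : Fin (n₀ + 1) => ((M.eval (h₁ a), (⟨v a, e3 a⟩ : {v : List Y // v.length ≤ m}))))
    (by rw [Fintype.card_fin, ← hn₀]; exact Nat.lt_succ_self _)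
  -- order the two positions
  obtain ⟨a, a', hlt, hq, hv⟩ : ∃ a a' : Fin (n₀ + 1), a.val < a'.val ∧
      M.eval (h₁ a) = M.eval (h₁ a') ∧ v a = v a' := by
    have hne' : a.val ≠ a'.val := fun hc => hne (Fin.ext hc)
    have h5 := congrArg Prod.fst heq
    have h6 := congrArg Subtype.val (congrArg Prod.snd heq)
    rcases lt_or_gt_of_ne hne' with h | h
    · exact ⟨a, a', h, h5, h6⟩
    · exact ⟨a', a, h, h5.symm, h6.symm⟩
  have hpre : h₁ a <+: h₁ a' := by
    rcases List.prefix_or_prefix_of_prefix (⟨_, (e1 a).symm⟩ : h₁ a <+: h)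
      (⟨_, (e1 a').symm⟩ : h₁ a' <+: h) with h7 | ⟨g, hg⟩
    · exact h7
    · exfalso
      have h8 := congrArg (fun l => (l.flatMap τ.ψ).length) hg
      simp only [List.flatMap_append, List.length_append, e2, List.length_replicate, hv] at h8
      omega
  obtain ⟨g, hg⟩ := hpre
  set e := a'.val - a.val with he
  have hvg : v a ++ g.flatMap τ.ψ = List.replicate e c ++ v a := by
    have h8 := congrArg (fun l => l.flatMap τ.ψ) hg
    simp only [List.flatMap_append, e2] at h8
    have h9 : x ++ List.replicate a'.val c ++ v a' =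
        x ++ List.replicate a.val c ++ (List.replicate e c ++ v a) := by
      rw [← hv]
      simp only [List.append_assoc]
      rw [← List.append_assoc (List.replicate a.val c), ← List.replicate_add]
      congr 3
      omega
    rw [h9, List.append_assoc (x ++ List.replicate a.val c)] at h8
    exact List.append_cancel_left h8
  have hpow : ∀ r, v a ++ (List.replicate r (g.flatMap τ.ψ)).flatten =
      List.replicate (e * r) c ++ v a := by
    intro r
    induction r with
    | zero => simp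
    | succ r ih =>
      rw [List.replicate_succ, List.flatten_cons, ← List.append_assoc, hvg, List.append_assoc, ih,
        ← List.append_assoc, ← List.replicate_add]
      congr 2
      ring
  have he0 : 0 < e := by omega
  have hdvd : e ∣ (t + 1) * n₀.factorial := by
    apply Dvd.dvd.mul_left
    apply Nat.dvd_factorial he0
    have := a'.2
    omega
  obtain ⟨q, hq'⟩ := hdvd
  have hfq : t + 1 ≤ q := by
    have h10 : e ≤ n₀.factorial := Nat.le_of_dvd (Nat.factorial_pos _)
      (Nat.dvd_factorial he0 (by have := a'.2; omega))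
    by_contra hcon
    have h11 : q ≤ t := by omega
    have h12 : e * q ≤ n₀.factorial * t := Nat.mul_le_mul h10 h11
    have h13 : 0 < n₀.factorial := Nat.factorial_pos _
    have h14 : (t + 1) * n₀.factorial = n₀.factorial * t + n₀.factorial := by ring
    omega
  refine ⟨h₁ a ++ (List.replicate (q + 1) g).flatten ++ h₂ a', ?_, ?_, ?_⟩
  · rw [← hM] at hK ⊢
    have h15 : M.evalFrom (M.eval (h₁ a)) g = M.eval (h₁ a) := by
      have : M.evalFrom M.start (h₁ a ++ g) = M.eval (h₁ a') := by rw [hg]; rfl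
      rw [DFA.evalFrom_of_append] at this
      rw [hq]
      rw [show M.evalFrom M.start (h₁ a) = M.eval (h₁ a') from hq] at this
      exact this
    have h16 : ∀ r, M.evalFrom (M.eval (h₁ a)) (List.replicate r g).flatten = M.eval (h₁ a) := by
      intro r
      induction r with
      | zero => rfl
      | succ r ih => rw [List.replicate_succ, List.flatten_cons, DFA.evalFrom_of_append, h15, ih]
    change M.evalFrom M.start _ ∈ M.accept
    rw [DFA.evalFrom_of_append, DFA.evalFrom_of_append]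
    change M.evalFrom (M.evalFrom (M.eval (h₁ a)) _) _ ∈ M.accept
    rw [h16, hq]
    have h17 : M.evalFrom M.start h ∈ M.accept := hK
    rw [e1 a', DFA.evalFrom_of_append] at h17
    exact h17
  · rw [List.flatMap_append, List.flatMap_append, flatMap_flatten_replicate]
    by_cases hφ : g.flatMap τ.φ = []
    · rw [hφ]
      have h18 : h.flatMap τ.φ = (h₁ a).flatMap τ.φ ++ (h₂ a').flatMap τ.φ := by
        rw [e1 a', ← hg, List.flatMap_append, List.flatMap_append, hφ, List.append_nil]
      have h19 : (List.replicate (q + 1) ([] : List X)).flatten = [] := by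
        simp
      rw [h19, List.append_nil, ← h18]
      exact hL
    · have h20 : q + 1 = t + (q + 1 - t) := by omega
      rw [h20, List.replicate_add, List.flatten_append, ← List.append_assoc, List.append_assoc]
      exact hN _ _ _ hφ
  · rw [List.flatMap_append, List.flatMap_append, flatMap_flatten_replicate, e2, List.append_assoc,
      List.append_assoc, ← List.append_assoc (v a), hpow, List.append_assoc (List.replicate _ c),
      hv, ← e4 a', List.append_assoc x, ← List.append_assoc (List.replicate a.val c),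
      ← List.replicate_add, ← List.append_assoc (List.replicate _ c), ← List.replicate_add,
      ← List.append_assoc]
    congr 3
    rw [hq', Nat.mul_succ]
    have := a'.2
    omega

theorem PumpUp.join [Finite X] [Finite Y] {N : Language X} {M : Language Y} (hN : PumpUp N)
    (hM : PumpUp M) : PumpUp (join N M) := by
  intro W _ τ c d
  obtain ⟨κ₁, h₁⟩ := exists_comp' (tauL X Y) τ
  obtain ⟨κ₂, h₂⟩ := exists_comp' (tauRt X Y) τ
  obtain ⟨i₁, p₁, hp₁, g₁⟩ := hN.iter κ₁ c d
  obtain ⟨i₂, p₂, hp₂, g₂⟩ := hM.iter κ₂ c d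
  refine ⟨max i₁ i₂, max i₁ i₂ + p₁ * p₂, ?_, ?_⟩
  · have := Nat.mul_pos hp₁ hp₂
    omega
  intro x hx
  rw [join_eq, image_add, ← h₁, ← h₂] at hx ⊢
  rcases hx with hx | hx
  · exact Or.inl (g₁ _ (le_max_left _ _) p₂ x hx)
  · right
    rw [mul_comm p₁ p₂]
    exact g₂ _ (le_max_right _ _) p₁ x hx

theorem PumpDown.join [Finite X] [Finite Y] {N : Language X} {M : Language Y} (hN : PumpDown N)
    (hM : PumpDown M) : PumpDown (join N M) := by
  intro W _ τ c d
  obtain ⟨κ₁, h₁⟩ := exists_comp' (tauL X Y) τ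
  obtain ⟨κ₂, h₂⟩ := exists_comp' (tauRt X Y) τ
  obtain ⟨i₁, p₁, hp₁, g₁⟩ := hN.iter κ₁ c d
  obtain ⟨i₂, p₂, hp₂, g₂⟩ := hM.iter κ₂ c d
  refine ⟨max i₁ i₂, max i₁ i₂ + p₁ * p₂, ?_, ?_⟩
  · have := Nat.mul_pos hp₁ hp₂
    omega
  intro x hx
  rw [join_eq, image_add, ← h₁, ← h₂] at hx ⊢
  rcases hx with hx | hx
  · exact Or.inl (g₁ _ (le_max_left _ _) p₂ x hx)
  · right
    rw [mul_comm p₁ p₂] at hx
    exact g₂ _ (le_max_right _ _) p₁ x hx

end RCone
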