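import Mathlib

/-! # The clock words (helper70, MP_a8de0d_lc) -/

namespace RCone

/-- exponents of the positions of the main marks -/
def E : ℕ → ℕ
  | 0 => 0
  | n + 1 => E n + 2 ^ E n

theorem E_lt_succ (n : ℕ) : E n < E (n + 1) := by
  have : 0 < 2 ^ E n := by positivity
  simp only [E]
  omega

theorem E_strictMono : StrictMono E := strictMono_nat_of_lt_succ E_lt_succ

/-- check number `t` on a word of labels -/
def Chk (t : ℕ) (z : List (Fin 3)) : Prop :=
  ∀ z₀ l z₁ l' z₂, z = z₀ ++ l :: (z₁ ++ l' :: z₂) → t ≤ l.val → t ≤ l'.val →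
    (∀ x ∈ z₁, x.val < t) → z₁.countP (fun x => decide (t ≤ x.val + 1)) = z₀.length

structure Good (z : List (Fin 3)) : Prop where
  head : z.head? = some 2
  last : z.getLast? = some 2
  c1 : Chk 1 z
  c2 : Chk 2 z

theorem first_split {α : Type} (p : α → Prop) (l : List α) (h : ∃ x ∈ l, p x) :
    ∃ d₁ x d₂, l = d₁ ++ x :: d₂ ∧ p x ∧ ∀ y ∈ d₁, ¬ p y := by
  induction l with
  | nil => obtain ⟨x, hx, _⟩ := h; exact absurd hx (by simp)
  | cons a l ih =>
    by_cases ha : p a
    · exact ⟨[], a, l, rfl, ha, by simp⟩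
    · obtain ⟨x, hx, hp⟩ := h
      have hx' : x ∈ l := by
        rcases List.mem_cons.mp hx with rfl | h
        · exact absurd hp ha
        · exact h
      obtain ⟨d₁, y, d₂, e, hy, hd⟩ := ih ⟨x, hx', hp⟩
      refine ⟨a :: d₁, y, d₂, by rw [e]; rfl, hy, ?_⟩
      intro w hw
      rcases List.mem_cons.mp hw with rfl | h
      · exact ha
      · exact hd w h

theorem last_split {α : Type} (p : α → Prop) (l : List α) (h : ∃ x ∈ l, p x) :
    ∃ d₁ x d₂, l = d₁ ++ x :: d₂ ∧ p x ∧ ∀ y ∈ d₂, ¬ p y := by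
  induction l using List.reverseRecOn with
  | nil => obtain ⟨x, hx, _⟩ := h; exact absurd hx (by simp)
  | append_singleton l a ih =>
    by_cases ha : p a
    · exact ⟨l, a, [], rfl, ha, by simp⟩
    · obtain ⟨x, hx, hp⟩ := h
      have hx' : x ∈ l := by
        rcases List.mem_append.mp hx with h | h
        · exact h
        · rw [List.mem_singleton] at h
          exact absurd (h ▸ hp) ha
      obtain ⟨d₁, y, d₂, e, hy, hd⟩ := ih ⟨x, hx', hp⟩
      refine ⟨d₁, y, d₂ ++ [a], by rw [e]; simp, hy, ?_⟩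
      intro w hw
      rcases List.mem_append.mp hw with h | h
      · exact hd w h
      · rw [List.mem_singleton] at h
        rw [h]
        exact ha

theorem first_diff {α : Type} (z z' : List α) (h₁ : ¬ z <+: z') (h₂ : ¬ z' <+: z) :
    ∃ c x r x' r', z = c ++ x :: r ∧ z' = c ++ x' :: r' ∧ x ≠ x' := by
  induction z generalizing z' with
  | nil => exact absurd List.nil_prefix h₁
  | cons a z ih =>
    cases z' with
    | nil => exact absurd List.nil_prefix h₂
    | cons b z' =>
      by_cases hab : a = b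
      · subst hab
        have h₁' : ¬ z <+: z' := fun h => h₁ (List.cons_prefix_cons.mpr ⟨rfl, h⟩)
        have h₂' : ¬ z' <+: z := fun h => h₂ (List.cons_prefix_cons.mpr ⟨rfl, h⟩)
        obtain ⟨c, x, r, x', r', e1, e2, e3⟩ := ih z' h₁' h₂'
        exact ⟨a :: c, x, r, x', r', by rw [e1]; rfl, by rw [e2]; rfl, e3⟩
      · exact ⟨[], a, z, b, z', rfl, rfl, hab⟩

/-- whether the next letter has level at least `t` is determined by the past -/
theorem step_iff (t : ℕ) (ht : t ≤ 2) (z c r : List (Fin 3)) (x : Fin 3)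
    (hz : z = c ++ x :: r) (hlast : z.getLast? = some 2) (hC : Chk t z)
    (c₁ c₂ : List (Fin 3)) (l : Fin 3) (hc : c = c₁ ++ l :: c₂) (hl : t ≤ l.val)
    (hc₂ : ∀ y ∈ c₂, y.val < t) :
    t ≤ x.val ↔ (t ≤ x.val + 1 ∧ c₂.countP (fun x => decide (t ≤ x.val + 1)) = c₁.length) := by
  constructor
  · intro h
    refine ⟨by omega, ?_⟩
    exact hC c₁ l c₂ x r (by rw [hz, hc]; simp) hl h hc₂
  · rintro ⟨h1, h2⟩
    by_contra hcon
    push Not at hcon
    have hmem : (2 : Fin 3) ∈ x :: r := by
      rw [hz, List.getLast?_append] at hlast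
      have : (x :: r).getLast? = some 2 := by
        cases hx : (x :: r).getLast? with
        | none => rw [List.getLast?_eq_none_iff] at hx; exact absurd hx (by simp)
        | some y =>
          rw [hx] at hlast
          exact hlast
      exact List.mem_of_getLast? this
    obtain ⟨d₁, l', d₂, e, hl', hd⟩ := first_split (fun y : Fin 3 => t ≤ y.val) (x :: r)
      ⟨2, hmem, ht⟩
    cases d₁ with
    | nil =>
      have : x = l' := by simpa using (List.cons.inj e).1
      rw [← this] at hl'
      omega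
    | cons y d₁ =>
      have hxy : x = y := (List.cons.inj e).1
      subst hxy
      have h3 := hC c₁ l (c₂ ++ x :: d₁) l' d₂ (by
        rw [hz, hc, e]; simp) hl hl' (by
          intro w hw
          rcases List.mem_append.mp hw with h | h
          · exact hc₂ w h
          · have := hd w h
            omega)
      rw [List.countP_append, h2, List.countP_cons_of_pos (by simpa using h1)] at h3
      omega

theorem Good.comparable {z z' : List (Fin 3)} (h : Good z) (h' : Good z') :
    z <+: z' ∨ z' <+: z := by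
  by_contra hcon
  push Not at hcon
  obtain ⟨c, x, r, x', r', e, e', hne⟩ := first_diff z z' hcon.1 hcon.2
  have hc2 : (2 : Fin 3) ∈ c := by
    cases c with
    | nil =>
      exfalso
      have h1 := h.head
      have h2 := h'.head
      rw [e] at h1
      rw [e'] at h2
      simp only [List.nil_append, List.head?_cons, Option.some.injEq] at h1 h2
      exact hne (h1.trans h2.symm)
    | cons a c =>
      have h1 := h.head
      rw [e] at h1
      simp only [List.cons_append, List.head?_cons, Option.some.injEq] at h1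
      rw [h1]
      exact List.mem_cons_self
  obtain ⟨c₁, l, c₂, ec, hl, hc₂⟩ := last_split (fun y : Fin 3 => 1 ≤ y.val) c
    ⟨2, hc2, by decide⟩
  obtain ⟨e₁, m, e₂, ee, hm, he₂⟩ := last_split (fun y : Fin 3 => 2 ≤ y.val) c
    ⟨2, hc2, le_refl _⟩
  have hc₂' : ∀ y ∈ c₂, y.val < 1 := fun y hy => by have := hc₂ y hy; omega
  have he₂' : ∀ y ∈ e₂, y.val < 2 := fun y hy => by have := he₂ y hy; omega
  have a1 := step_iff 1 (by norm_num) z c r x e h.last h.c1 c₁ c₂ l ec hl hc₂'
  have a2 := step_iff 1 (by norm_num) z' c r' x' e' h'.last h'.c1 c₁ c₂ l ec hl hc₂'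
  have b1 := step_iff 2 le_rfl z c r x e h.last h.c2 e₁ e₂ m ee hm he₂'
  have b2 := step_iff 2 le_rfl z' c r' x' e' h'.last h'.c2 e₁ e₂ m ee hm he₂'
  have k1 : 1 ≤ x.val ↔ 1 ≤ x'.val := by
    rw [a1, a2]
    constructor
    · rintro ⟨_, h⟩; exact ⟨by omega, h⟩
    · rintro ⟨_, h⟩; exact ⟨by omega, h⟩
  have k2 : 2 ≤ x.val ↔ 2 ≤ x'.val := by
    rw [b1, b2]
    constructor
    · rintro ⟨h1, h⟩; exact ⟨by omega, h⟩
    · rintro ⟨h1, h⟩; exact ⟨by omega, h⟩
  apply hne
  apply Fin.ext
  have := x.2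
  have := x'.2
  omega

theorem Good.unique {z z' : List (Fin 3)} (h : Good z) (h' : Good z')
    (hcount : z.count 2 = z'.count 2) : z = z' := by
  have key : ∀ z z' : List (Fin 3), Good z' → z.count 2 = z'.count 2 → z <+: z' → z = z' := by
    intro z z' h' hcount hp
    obtain ⟨t, ht⟩ := hp
    rw [← ht, List.count_append] at hcount
    have h0 : t.count 2 = 0 := by omega
    rcases List.eq_nil_or_concat t with rfl | ⟨s, a, rfl⟩
    · simpa using ht
    · exfalso
      have := h'.last
      rw [← ht, List.concat_eq_append, ← List.append_assoc, List.getLast?_append] at this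
      simp only [List.getLast?_singleton, Option.some_or, Option.some.injEq] at this
      rw [this, List.concat_eq_append, List.count_append] at h0
      simp at h0
  rcases h.comparable h' with hp | hp
  · exact key z z' h' hcount hp
  · exact (key z' z h hcount.symm hp).symm

/-! ### existence -/

open Classical in
/-- label at position `i` (counted from 0) -/
noncomputable def zeta (i : ℕ) : Fin 3 :=
  if ∃ j, i + 1 = 2 ^ E j then 2 else if ∃ e, i + 1 = 2 ^ e then 1 else 0

theorem two_le_zeta (i : ℕ) : 2 ≤ (zeta i).val ↔ ∃ j, i + 1 = 2 ^ E j := by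
  unfold zeta
  split_ifs with h1 h2
  · simp [h1]
  · simp [h1]
  · simp [h1]

theorem one_le_zeta (i : ℕ) : 1 ≤ (zeta i).val ↔ ∃ e, i + 1 = 2 ^ e := by
  unfold zeta
  split_ifs with h1 h2
  · obtain ⟨j, hj⟩ := h1
    simp only [Fin.isValue, Fin.coe_ofNat_eq_mod]
    exact ⟨fun _ => ⟨E j, hj⟩, fun _ => by norm_num⟩
  · simp [h2]
  · simp [h2]

/-- the clock word number `s` -/
noncomputable def zz (s : ℕ) : List (Fin 3) := (List.range (2 ^ E s)).map zeta

theorem length_zz (s : ℕ) : (zz s).length = 2 ^ E s := by simp [zz]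

open Classical in
theorem count_const (p : ℕ → Prop) (a b : ℕ) (hab : a ≤ b) (h : ∀ k, a ≤ k → k < b → ¬ p k) :
    Nat.count p b = Nat.count p a := by
  induction b, hab using Nat.le_induction with
  | base => rfl
  | succ b hab ih =>
    rw [Nat.count_succ, if_neg (h b hab (Nat.lt_succ_self b)), add_zero]
    exact ih fun k h1 h2 => h k h1 (by omega)

open Classical in
theorem count_pow (b : ℕ) : Nat.count (fun k => ∃ e, k + 1 = 2 ^ e) (2 ^ b - 1) = b ∧
    Nat.count (fun k => ∃ e, k + 1 = 2 ^ e) (2 ^ b) = b + 1 := by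
  have step : ∀ b, Nat.count (fun k => ∃ e, k + 1 = 2 ^ e) (2 ^ b - 1) = b →
      Nat.count (fun k => ∃ e, k + 1 = 2 ^ e) (2 ^ b) = b + 1 := by
    intro b hb
    have hpos : 0 < 2 ^ b := by positivity
    have h1 : 2 ^ b - 1 + 1 = 2 ^ b := by omega
    have h2 := Nat.count_succ (fun k => ∃ e, k + 1 = 2 ^ e) (2 ^ b - 1)
    rw [h1] at h2
    rw [h2, hb, if_pos ⟨b, rfl⟩]
  induction b with
  | zero => exact ⟨by simp, step 0 (by simp)⟩
  | succ b ih =>
    have h1 : Nat.count (fun k => ∃ e, k + 1 = 2 ^ e) (2 ^ (b + 1) - 1) = b + 1 := by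
      rw [count_const _ (2 ^ b) (2 ^ (b + 1) - 1), ih.2]
      · have : 0 < 2 ^ b := by positivity
        rw [pow_succ]
        omega
      · rintro k hk1 hk2 ⟨e, he⟩
        have h3 : 2 ^ b < 2 ^ e := by omega
        have h4 : 2 ^ e < 2 ^ (b + 1) := by omega
        have h5 := (Nat.pow_lt_pow_iff_right (by norm_num : 1 < 2)).mp h3
        have h6 := (Nat.pow_lt_pow_iff_right (by norm_num : 1 < 2)).mp h4
        omega
    exact ⟨h1, step _ h1⟩

open Classical in
theorem count_two (s : ℕ) : Nat.count (fun k => ∃ j, k + 1 = 2 ^ E j) (2 ^ E s) = s + 1 := by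
  induction s with
  | zero =>
    have : 2 ^ E 0 = 0 + 1 := by simp [E]
    rw [this, Nat.count_succ, if_pos ⟨0, by simp [E]⟩]
    simp
  | succ s ih =>
    have hpos : 0 < 2 ^ E (s + 1) := by positivity
    have h1 : 2 ^ E (s + 1) = (2 ^ E (s + 1) - 1) + 1 := by omega
    have h7 : 2 ^ E s < 2 ^ E (s + 1) :=
      (Nat.pow_lt_pow_iff_right (by norm_num : 1 < 2)).mpr (E_lt_succ s)
    rw [h1, Nat.count_succ, ← h1, if_pos ⟨s + 1, rfl⟩,
      count_const _ (2 ^ E s) (2 ^ E (s + 1) - 1) (by omega), ih]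
    rintro k hk1 hk2 ⟨j, hj⟩
    have h3 : 2 ^ E s < 2 ^ E j := by omega
    have h4 : 2 ^ E j < 2 ^ E (s + 1) := by omega
    have h5 := E_strictMono.lt_iff_lt.mp ((Nat.pow_lt_pow_iff_right (by norm_num : 1 < 2)).mp h3)
    have h6 := E_strictMono.lt_iff_lt.mp ((Nat.pow_lt_pow_iff_right (by norm_num : 1 < 2)).mp h4)
    omega

/-- decompositions of `zz s` -/
theorem zz_decomp {s : ℕ} {z₀ z₁ z₂ : List (Fin 3)} {l l' : Fin 3}
    (h : zz s = z₀ ++ l :: (z₁ ++ l' :: z₂)) :
    l = zeta z₀.length ∧ l' = zeta (z₀.length + 1 + z₁.length) ∧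
    z₀ ++ [l] = (List.range (z₀.length + 1)).map zeta ∧
    z₀ ++ [l] ++ z₁ = (List.range (z₀.length + 1 + z₁.length)).map zeta := by
  have hlen : (zz s).length = z₀.length + 1 + z₁.length + 1 + z₂.length := by
    rw [h]
    simp only [List.length_append, List.length_cons]
    omega
  rw [length_zz] at hlen
  have htake : ∀ n, n ≤ 2 ^ E s → (zz s).take n = (List.range n).map zeta := by
    intro n hn
    rw [zz, ← List.map_take, List.take_range, Nat.min_eq_left hn]
  have hget : ∀ n, n < 2 ^ E s → (zz s)[n]? = some (zeta n) := by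
    intro n hn
    rw [zz, List.getElem?_map, List.getElem?_range hn]
    rfl
  refine ⟨?_, ?_, ?_, ?_⟩
  · have h1 := hget z₀.length (by omega)
    rw [h] at h1
    simpa using h1
  · have h1 := hget (z₀.length + 1 + z₁.length) (by omega)
    have h2 : z₀ ++ l :: (z₁ ++ l' :: z₂) = (z₀ ++ [l] ++ z₁) ++ l' :: z₂ := by simp
    have h3 : z₀.length + 1 + z₁.length = (z₀ ++ [l] ++ z₁).length := by
      simp only [List.length_append, List.length_singleton]
    rw [h, h2, h3] at h1
    rw [h3]
    simpa using h1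
  · rw [← htake _ (by omega), h]
    have h2 : z₀ ++ l :: (z₁ ++ l' :: z₂) = (z₀ ++ [l]) ++ (z₁ ++ l' :: z₂) := by simp
    rw [h2, List.take_left' (by simp)]
  · rw [← htake _ (by omega), h]
    have h2 : z₀ ++ l :: (z₁ ++ l' :: z₂) = (z₀ ++ [l] ++ z₁) ++ l' :: z₂ := by simp
    rw [h2, List.take_left' (by simp only [List.length_append, List.length_singleton])]

theorem zz_between {s : ℕ} {z₀ z₁ z₂ : List (Fin 3)} {l l' : Fin 3}
    (h : zz s = z₀ ++ l :: (z₁ ++ l' :: z₂)) (k : ℕ) (h1 : z₀.length < k)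
    (h2 : k < z₀.length + 1 + z₁.length) : zeta k ∈ z₁ := by
  obtain ⟨_, _, _, e4⟩ := zz_decomp h
  have h3 : (z₀ ++ [l] ++ z₁)[k]? = some (zeta k) := by
    rw [e4, List.getElem?_map, List.getElem?_range h2]
    rfl
  rw [List.getElem?_append_right (by simp; omega)] at h3
  exact List.mem_of_getElem? h3

theorem chk1_zz (s : ℕ) : Chk 1 (zz s) := by
  intro z₀ l z₁ l' z₂ h hl hl' hz₁
  obtain ⟨e1, e2, _, _⟩ := zz_decomp h
  rw [e1, one_le_zeta] at hl
  rw [e2, one_le_zeta] at hl'
  obtain ⟨a, ha⟩ := hl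
  obtain ⟨b, hb⟩ := hl'
  have hab : 2 ^ a < 2 ^ b := by omega
  have hab' := (Nat.pow_lt_pow_iff_right (by norm_num : 1 < 2)).mp hab
  have hb' : b = a + 1 := by
    by_contra hne
    have h3 : 2 ^ (a + 1) < 2 ^ b := (Nat.pow_lt_pow_iff_right (by norm_num : 1 < 2)).mpr (by omega)
    have hpos : 0 < 2 ^ a := by positivity
    have h4 : zeta (2 ^ (a + 1) - 1) ∈ z₁ := by
      apply zz_between h
      · rw [pow_succ]; omega
      · omega
    have h5 := hz₁ _ h4
    have h6 : 1 ≤ (zeta (2 ^ (a + 1) - 1)).val := by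
      rw [one_le_zeta]
      exact ⟨a + 1, by rw [pow_succ]; omega⟩
    omega
  subst hb'
  rw [List.countP_eq_length.mpr (by intro x _; simp)]
  rw [pow_succ] at hb
  omega

open Classical in
theorem chk2_zz (s : ℕ) : Chk 2 (zz s) := by
  intro z₀ l z₁ l' z₂ h hl hl' hz₁
  obtain ⟨e1, e2, e3, e4⟩ := zz_decomp h
  rw [e1, two_le_zeta] at hl
  rw [e2, two_le_zeta] at hl'
  obtain ⟨a, ha⟩ := hl
  obtain ⟨b, hb⟩ := hl'
  have hab : 2 ^ E a < 2 ^ E b := by omega
  have hab' := E_strictMono.lt_iff_lt.mp ((Nat.pow_lt_pow_iff_right (by norm_num : 1 < 2)).mp hab)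
  have hb' : b = a + 1 := by
    by_contra hne
    have h3 : 2 ^ E (a + 1) < 2 ^ E b :=
      (Nat.pow_lt_pow_iff_right (by norm_num : 1 < 2)).mpr (E_strictMono (by omega))
    have h3' : 2 ^ E a < 2 ^ E (a + 1) :=
      (Nat.pow_lt_pow_iff_right (by norm_num : 1 < 2)).mpr (E_lt_succ a)
    have h4 : zeta (2 ^ E (a + 1) - 1) ∈ z₁ := by
      apply zz_between h
      · omega
      · omega
    have h5 := hz₁ _ h4
    have h6 : 2 ≤ (zeta (2 ^ E (a + 1) - 1)).val := by
      rw [two_le_zeta]
      exact ⟨a + 1, by omega⟩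
    omega
  subst hb'
  -- counting
  have hcnt : ∀ n, ((List.range n).map zeta).countP (fun x => decide (2 ≤ x.val + 1)) =
      Nat.count (fun k => ∃ e, k + 1 = 2 ^ e) n := by
    intro n
    rw [List.countP_map, Nat.count]
    congr 1
    funext k
    rw [Function.comp_apply, decide_eq_decide, ← one_le_zeta]
    omega
  have h7 := congrArg (List.countP (fun x : Fin 3 => decide (2 ≤ x.val + 1))) e3
  have h8 := congrArg (List.countP (fun x : Fin 3 => decide (2 ≤ x.val + 1))) e4
  rw [hcnt] at h7 h8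
  rw [List.countP_append, h7] at h8
  have h9 : z₀.length + 1 + z₁.length = 2 ^ E (a + 1) - 1 := by omega
  rw [h9, (count_pow _).1, ha, (count_pow _).2] at h8
  have h10 : E (a + 1) = E a + 2 ^ E a := rfl
  omega

theorem good_zz (s : ℕ) : Good (zz s) where
  head := by
    have hpos : 0 < 2 ^ E s := by positivity
    have h0 : (zz s)[0]? = some (zeta 0) := by
      rw [zz, List.getElem?_map, List.getElem?_range hpos]
      rfl
    rw [List.head?_eq_getElem?, h0]
    congr 1
    unfold zeta
    rw [if_pos ⟨0, by simp [E]⟩]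
  last := by
    have hpos : 0 < 2 ^ E s := by positivity
    rw [List.getLast?_eq_getElem?, length_zz, zz, List.getElem?_map,
      List.getElem?_range (by omega)]
    change some (zeta (2 ^ E s - 1)) = some 2
    congr 1
    unfold zeta
    rw [if_pos ⟨s, by omega⟩]
  c1 := chk1_zz s
  c2 := chk2_zz s

open Classical in
theorem count_zz (s : ℕ) : (zz s).count 2 = s + 1 := by
  rw [← count_two s, zz, List.count, List.countP_map, Nat.count]
  congr 1
  funext k
  rw [Function.comp_apply]
  have h : (zeta k == 2) = decide (zeta k = 2) := rfl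
  rw [h, decide_eq_decide, ← two_le_zeta]
  constructor
  · intro h
    rw [h]
    decide
  · intro h
    apply Fin.ext
    have := (zeta k).2
    change (zeta k).val = 2
    omega

/-- every good word is one of the `zz s` -/
theorem Good.eq_zz {z : List (Fin 3)} (h : Good z) : ∃ s, z = zz s ∧ z.count 2 = s + 1 := by
  have hmem : (2 : Fin 3) ∈ z := List.mem_of_getLast? h.last
  have hpos : 0 < z.count 2 := List.count_pos_iff.mpr hmem
  refine ⟨z.count 2 - 1, ?_, by omega⟩
  apply h.unique (good_zz _)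
  rw [count_zz]
  omega

theorem zz_prefix {r s : ℕ} (h : r ≤ s) : zz r <+: zz s := by
  have : zz r = (zz s).take (2 ^ E r) := by
    rw [zz, zz, ← List.map_take, List.take_range, Nat.min_eq_left]
    exact Nat.pow_le_pow_right (by norm_num) (E_strictMono.monotone h)
  rw [this]
  exact List.take_prefix _ _

end RCone
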