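import Pool.Agent.RCone.Basic

/-! # Composition of rational transductions (helper70, MP_a8de0d_lc) -/

namespace RCone

open Language

variable {X Y W : Type}

theorem exists_bound {Z : Type} [Finite Z] (f : Z → List Y) : ∃ m, ∀ z, (f z).length ≤ m := by
  obtain ⟨m, hm⟩ := (Set.finite_range fun z => (f z).length).bddAbove
  exact ⟨m, fun z => hm ⟨z, rfl⟩⟩

instance finite_short [Finite Y] (m : ℕ) : Finite {b : List Y // b.length ≤ m} :=
  (List.finite_length_le Y m).to_subtype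

open Classical in
/-- buffer automaton -/
noncomputable def bufDFA {Z₁ Z₂ : Type} (ψ₁ : Z₁ → List Y) (φ₂ : Z₂ → List Y) (m : ℕ) :
    DFA (Z₁ ⊕ Z₂) (Option {b : List Y // b.length ≤ m}) where
  step s z := s.bind fun b => z.elim
    (fun z₁ => if h : (b.1 ++ ψ₁ z₁).length ≤ m then some ⟨b.1 ++ ψ₁ z₁, h⟩ else none)
    (fun z₂ => if φ₂ z₂ <+: b.1 then
      some ⟨b.1.drop (φ₂ z₂).length, by rw [List.length_drop]; exact (Nat.sub_le _ _).trans b.2⟩
      else none)
  start := some ⟨[], Nat.zero_le _⟩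
  accept := {some ⟨[], Nat.zero_le _⟩}

/-- projections of a word over a disjoint union -/
def pr₁ {Z₁ Z₂ : Type} (z : Z₁ ⊕ Z₂) : List Z₁ := z.elim (fun a => [a]) (fun _ => [])
def pr₂ {Z₁ Z₂ : Type} (z : Z₁ ⊕ Z₂) : List Z₂ := z.elim (fun _ => []) (fun a => [a])

open Classical in
theorem bufDFA_sound {Z₁ Z₂ : Type} (ψ₁ : Z₁ → List Y) (φ₂ : Z₂ → List Y) (m : ℕ)
    (h : List (Z₁ ⊕ Z₂)) : ∀ b, (bufDFA ψ₁ φ₂ m).eval h = some b →
      (h.flatMap pr₁).flatMap ψ₁ = (h.flatMap pr₂).flatMap φ₂ ++ b.1 := by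
  induction h using List.reverseRecOn with
  | nil =>
    intro b hb
    have : (⟨[], Nat.zero_le _⟩ : {b : List Y // b.length ≤ m}) = b := Option.some.inj hb
    rw [← this]
    rfl
  | append_singleton h z ih =>
    intro b hb
    rw [DFA.eval_append_singleton] at hb
    cases hs : (bufDFA ψ₁ φ₂ m).eval h with
    | none =>
      rw [hs] at hb
      exact absurd hb (by simp [bufDFA])
    | some b₀ =>
      rw [hs] at hb
      have ih' := ih b₀ hs
      cases z with
      | inl z₁ =>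
        have hb' : (if h : (b₀.1 ++ ψ₁ z₁).length ≤ m then
            some (⟨b₀.1 ++ ψ₁ z₁, h⟩ : {b : List Y // b.length ≤ m}) else none) = some b := hb
        split_ifs at hb' with hc
        have hb2 := Option.some.inj hb'
        rw [← hb2]
        simp only [List.flatMap_append, List.flatMap_cons, List.flatMap_nil, List.append_nil]
        have e1 : (pr₁ (Sum.inl z₁ : Z₁ ⊕ Z₂)) = [z₁] := rfl
        have e2 : (pr₂ (Sum.inl z₁ : Z₁ ⊕ Z₂)) = [] := rfl
        rw [e1, e2, ih']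
        simp
      | inr z₂ =>
        have hb' : (if φ₂ z₂ <+: b₀.1 then
            some (⟨b₀.1.drop (φ₂ z₂).length,
              by rw [List.length_drop]; exact (Nat.sub_le _ _).trans b₀.2⟩ :
              {b : List Y // b.length ≤ m}) else none) = some b := hb
        split_ifs at hb' with hc
        have hb2 := Option.some.inj hb'
        rw [← hb2]
        simp only [List.flatMap_append, List.flatMap_cons, List.flatMap_nil, List.append_nil]
        have e1 : (pr₁ (Sum.inr z₂ : Z₁ ⊕ Z₂)) = [] := rfl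
        have e2 : (pr₂ (Sum.inr z₂ : Z₁ ⊕ Z₂)) = [z₂] := rfl
        rw [e1, e2, ih']
        obtain ⟨t, ht⟩ := hc
        rw [← ht]
        simp

open Classical in
theorem bufDFA_complete {Z₁ Z₂ : Type} (ψ₁ : Z₁ → List Y) (φ₂ : Z₂ → List Y) (m₁ m₂ : ℕ)
    (h₁ : ∀ z, (ψ₁ z).length ≤ m₁) (h₂ : ∀ z, (φ₂ z).length ≤ m₂) (n : ℕ) :
    ∀ (g₁ : List Z₁) (g₂ : List Z₂) (b : {b : List Y // b.length ≤ m₁ + m₂}),
      g₁.length + g₂.length ≤ n → b.1 ++ g₁.flatMap ψ₁ = g₂.flatMap φ₂ →
      ∃ h : List (Z₁ ⊕ Z₂), h.flatMap pr₁ = g₁ ∧ h.flatMap pr₂ = g₂ ∧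
        (bufDFA ψ₁ φ₂ (m₁ + m₂)).evalFrom (some b) h = some ⟨[], Nat.zero_le _⟩ := by
  induction n with
  | zero =>
    intro g₁ g₂ b hn hb
    have e1 : g₁ = [] := List.length_eq_zero_iff.mp (by omega)
    have e2 : g₂ = [] := List.length_eq_zero_iff.mp (by omega)
    subst e1 e2
    refine ⟨[], rfl, rfl, ?_⟩
    have hb' : b.1 = [] := by simpa using hb
    rw [DFA.evalFrom_nil]
    congr 1
    exact Subtype.ext hb'
  | succ n ih =>
    intro g₁ g₂ b hn hb
    -- a step on the left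
    have left : ∀ z₁ g₁', g₁ = z₁ :: g₁' → b.1.length ≤ m₂ →
        ∃ h : List (Z₁ ⊕ Z₂), h.flatMap pr₁ = g₁ ∧ h.flatMap pr₂ = g₂ ∧
        (bufDFA ψ₁ φ₂ (m₁ + m₂)).evalFrom (some b) h = some ⟨[], Nat.zero_le _⟩ := by
      rintro z₁ g₁' rfl hlen
      have hl : (b.1 ++ ψ₁ z₁).length ≤ m₁ + m₂ := by
        rw [List.length_append]
        have := h₁ z₁
        omega
      obtain ⟨h, e1, e2, e3⟩ := ih g₁' g₂ ⟨b.1 ++ ψ₁ z₁, hl⟩
        (by simp only [List.length_cons] at hn; omega)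
        (by rw [← hb]; simp)
      refine ⟨Sum.inl z₁ :: h, by simp [pr₁, e1], by simp [pr₂, e2], ?_⟩
      rw [DFA.evalFrom_cons]
      have : (bufDFA ψ₁ φ₂ (m₁ + m₂)).step (some b) (Sum.inl z₁) =
          some ⟨b.1 ++ ψ₁ z₁, hl⟩ := by
        change (if h : (b.1 ++ ψ₁ z₁).length ≤ m₁ + m₂ then
            some (⟨b.1 ++ ψ₁ z₁, h⟩ : {b : List Y // b.length ≤ m₁ + m₂}) else none) = _
        rw [dif_pos hl]
      rw [this, e3]
    cases g₂ with
    | nil =>
      have hb' : b.1 = [] ∧ g₁.flatMap ψ₁ = [] := by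
        have := hb
        simp only [List.flatMap_nil, List.append_eq_nil_iff] at this
        exact this
      cases g₁ with
      | nil =>
        refine ⟨[], rfl, rfl, ?_⟩
        rw [DFA.evalFrom_nil]
        congr 1
        exact Subtype.ext hb'.1
      | cons z₁ g₁' =>
        exact left z₁ g₁' rfl (by rw [hb'.1]; exact Nat.zero_le _)
    | cons z₂ g₂' =>
      by_cases hp : φ₂ z₂ <+: b.1
      · obtain ⟨t, ht⟩ := hp
        have hl : (b.1.drop (φ₂ z₂).length).length ≤ m₁ + m₂ := by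
          rw [List.length_drop]
          exact (Nat.sub_le _ _).trans b.2
        obtain ⟨h, e1, e2, e3⟩ := ih g₁ g₂' ⟨b.1.drop (φ₂ z₂).length, hl⟩
          (by simp only [List.length_cons] at hn; omega)
          (by
            have h3 : φ₂ z₂ ++ (t ++ g₁.flatMap ψ₁) = φ₂ z₂ ++ g₂'.flatMap φ₂ := by
              rw [← List.append_assoc, ht, hb]
              simp
            have h4 := List.append_cancel_left h3
            change b.1.drop (φ₂ z₂).length ++ _ = _
            rw [← ht, List.drop_left, h4])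
        refine ⟨Sum.inr z₂ :: h, by simp [pr₁, e1], by simp [pr₂, e2], ?_⟩
        rw [DFA.evalFrom_cons]
        have : (bufDFA ψ₁ φ₂ (m₁ + m₂)).step (some b) (Sum.inr z₂) =
            some ⟨b.1.drop (φ₂ z₂).length, hl⟩ := by
          change (if φ₂ z₂ <+: b.1 then
            some (⟨b.1.drop (φ₂ z₂).length,
              by rw [List.length_drop]; exact (Nat.sub_le _ _).trans b.2⟩ :
              {b : List Y // b.length ≤ m₁ + m₂}) else none) = _
          rw [if_pos ⟨t, ht⟩]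
        rw [this, e3]
      · have hlen : b.1.length ≤ m₂ := by
          by_contra hcon
          push Not at hcon
          apply hp
          have hp1 : b.1 <+: (z₂ :: g₂').flatMap φ₂ := ⟨_, hb⟩
          have hp2 : φ₂ z₂ <+: (z₂ :: g₂').flatMap φ₂ := by
            rw [List.flatMap_cons]
            exact List.prefix_append _ _
          exact List.prefix_of_prefix_length_le hp2 hp1 ((h₂ z₂).trans hcon.le)
        cases g₁ with
        | nil =>
          exfalso
          apply hp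
          have : b.1 = (z₂ :: g₂').flatMap φ₂ := by simpa using hb
          rw [this, List.flatMap_cons]
          exact List.prefix_append _ _
        | cons z₁ g₁' => exact left z₁ g₁' rfl hlen

/-- **Composition**: the rational order is transitive. -/
theorem Geq.trans [Finite Y] {L : Language X} {M : Language Y} {N : Language W}
    (h₁ : Geq L M) (h₂ : Geq M N) : Geq L N := by
  obtain ⟨τ, rfl⟩ := h₁
  obtain ⟨ρ, rfl⟩ := h₂
  have := τ.finZ
  have := ρ.finZ
  obtain ⟨m₁, hm₁⟩ := exists_bound τ.ψ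
  obtain ⟨m₂, hm₂⟩ := exists_bound ρ.φ
  have hK : ((bufDFA τ.ψ ρ.φ (m₁ + m₂)).accepts ⊓ (comapL τ.K pr₁ ⊓ comapL ρ.K pr₂)).IsRegular :=
    (isRegular_of_dfa _).inf ((comap_regular τ.regK _).inf (comap_regular ρ.regK _))
  refine ⟨⟨τ.Z ⊕ ρ.Z, inferInstance, _, hK, fun z => z.elim τ.φ (fun _ => []),
    fun z => z.elim (fun _ => []) ρ.ψ⟩, ?_⟩
  have f1 : ∀ h : List (τ.Z ⊕ ρ.Z), h.flatMap (fun z => z.elim τ.φ (fun _ => [])) =
      (h.flatMap pr₁).flatMap τ.φ := by
    intro h
    induction h with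
    | nil => rfl
    | cons z h ih =>
      rw [List.flatMap_cons, List.flatMap_cons, List.flatMap_append, ih]
      cases z with
      | inl a => simp [pr₁]
      | inr a => simp [pr₁]
  have f2 : ∀ h : List (τ.Z ⊕ ρ.Z), h.flatMap (fun z => z.elim (fun _ => []) ρ.ψ) =
      (h.flatMap pr₂).flatMap ρ.ψ := by
    intro h
    induction h with
    | nil => rfl
    | cons z h ih =>
      rw [List.flatMap_cons, List.flatMap_cons, List.flatMap_append, ih]
      cases z with
      | inl a => simp [pr₂]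
      | inr a => simp [pr₂]
  ext w
  constructor
  · rintro ⟨h, ⟨hbuf, hK1, hK2⟩, hL, rfl⟩
    have hbuf' : (bufDFA τ.ψ ρ.φ (m₁ + m₂)).eval h = some ⟨[], Nat.zero_le _⟩ := hbuf
    have hs := bufDFA_sound τ.ψ ρ.φ (m₁ + m₂) h _ hbuf'
    rw [List.append_nil] at hs
    refine ⟨h.flatMap pr₂, hK2, ⟨h.flatMap pr₁, hK1, ?_, hs⟩, ?_⟩
    · rw [← f1]
      exact hL
    · exact (f2 h).symm
  · rintro ⟨g₂, hg₂, ⟨g₁, hg₁, hL, hψ⟩, rfl⟩
    obtain ⟨h, e1, e2, e3⟩ := bufDFA_complete τ.ψ ρ.φ m₁ m₂ hm₁ hm₂ _ g₁ g₂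
      ⟨[], Nat.zero_le _⟩ le_rfl (by simpa using hψ)
    refine ⟨h, ⟨e3, ?_, ?_⟩, ?_, ?_⟩
    · change h.flatMap pr₁ ∈ τ.K
      rw [e1]
      exact hg₁
    · change h.flatMap pr₂ ∈ ρ.K
      rw [e2]
      exact hg₂
    · change h.flatMap (fun z => z.elim τ.φ (fun _ => [])) ∈ L
      rw [f1, e1]
      exact hL
    · change h.flatMap (fun z => z.elim (fun _ => []) ρ.ψ) = _
      rw [f2, e2]

end RCone
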