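import Pool.Agent.RCone.FinF

/-! # Covers by rectangles (helper70, MP_a8de0d_lc) -/

namespace RCone

open Language

variable {X Y W V Θ : Type}

/-- The pairs `(u, v)` of words of length at most `n` with `u v ∈ L` are covered by at most `r`
rectangles `A i × B i` with `A i B i ⊆ L`. -/
def CovN (n r : ℕ) (L : Language X) : Prop :=
  ∃ (ι : Type) (_ : Fintype ι) (A B : ι → Set (List X)), Fintype.card ι ≤ r ∧
    (∀ i, ∀ a ∈ A i, ∀ b ∈ B i, a ++ b ∈ L) ∧
    ∀ u v, u.length ≤ n → v.length ≤ n → u ++ v ∈ L → ∃ i, u ∈ A i ∧ v ∈ B i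

theorem CovN.mono {n r n' r' : ℕ} {L : Language X} (h : CovN n r L) (hn : n' ≤ n) (hr : r ≤ r') :
    CovN n' r' L := by
  obtain ⟨ι, hι, A, B, h1, h2, h3⟩ := h
  exact ⟨ι, hι, A, B, h1.trans hr, h2, fun u v hu hv => h3 u v (hu.trans hn) (hv.trans hn)⟩

theorem CovN.fool {n r : ℕ} {L : Language X} (h : CovN n r L) {ι : Type} [Fintype ι]
    {u v : ι → List X} (hf : IsFool L u v) (hl : ∀ i, (u i).length ≤ n ∧ (v i).length ≤ n) :
    Fintype.card ι ≤ r := by
  classical
  obtain ⟨κ, _, A, B, h1, h2, h3⟩ := h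
  by_contra hcon
  push Not at hcon
  choose g hg using fun i => h3 (u i) (v i) (hl i).1 (hl i).2 (hf.1 i)
  obtain ⟨i, j, hne, heq⟩ := Fintype.exists_ne_map_eq_of_card_lt g (by omega)
  apply hf.2 i j hne
  refine h2 (g i) _ (hg i).1 _ ?_
  rw [heq]
  exact (hg j).2

theorem covN_of_nfa [Finite X] {s B : ℕ} {R : Language X} (hR : Nfa s B R) (n : ℕ) :
    CovN n (s * nsh X B) R := by
  classical
  obtain ⟨Z, hZ, σ, hσ, M, ψ, h1, h2, rfl⟩ := hR
  have hft : Fintype {v : List X // v.length ≤ B} := Fintype.ofFinite _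
  refine ⟨σ × {v : List X // v.length ≤ B}, inferInstance,
    fun i => {u | ∃ g, M.eval g = i.1 ∧ g.flatMap ψ = u ++ i.2.1},
    fun i => {v | ∃ g, M.evalFrom i.1 g ∈ M.accept ∧ v = i.2.1 ++ g.flatMap ψ}, ?_, ?_, ?_⟩
  · rw [Fintype.card_prod]
    have : Fintype.card {v : List X // v.length ≤ B} = nsh X B := by
      rw [nsh, Nat.card_eq_fintype_card]
    rw [this]
    exact Nat.mul_le_mul_right _ h1
  · rintro ⟨q, x⟩ a ⟨g, hg, hga⟩ b ⟨g', hg', rfl⟩
    refine ⟨g ++ g', ?_, ?_⟩
    · change M.evalFrom M.start (g ++ g') ∈ M.accept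
      rw [DFA.evalFrom_of_append]
      have : M.evalFrom M.start g = q := hg
      rw [this]
      exact hg'
    · rw [List.flatMap_append, hga, List.append_assoc]
  · rintro u v _ _ ⟨g, hg, hgψ⟩
    obtain ⟨g₁, g₂, x, e1, e2, e3, e4⟩ := split_out ψ B h2 g _ _ hgψ
    refine ⟨(M.eval g₁, ⟨x, e3⟩), ⟨g₁, rfl, e2⟩, g₂, ?_, e4⟩
    have h5 : M.evalFrom M.start g ∈ M.accept := hg
    rw [e1, DFA.evalFrom_of_append] at h5
    exact h5

/-! ### substitutions -/

theorem SubstRel.inv {f : Y → Language W} {ys : List Y} {y : Y} {w : List W}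
    (h : SubstRel f (ys ++ [y]) w) : ∃ w' v, w = w' ++ v ∧ SubstRel f ys w' ∧ v ∈ f y := by
  generalize he : ys ++ [y] = zs at h
  cases h with
  | nil => exact absurd he (by simp)
  | @snoc ys' w v y' h1 h2 =>
    obtain ⟨h3, h4⟩ := List.append_inj' he rfl
    subst h3
    have h5 : y = y' := by simpa using h4
    subst h5
    exact ⟨w, v, rfl, h1, h2⟩

theorem SubstRel.inv_nil {f : Y → Language W} {w : List W} (h : SubstRel f [] w) : w = [] := by
  generalize he : ([] : List Y) = zs at h
  cases h with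
  | nil => rfl
  | snoc h1 h2 => exact absurd he (by simp)

theorem SubstRel.append {f : Y → Language W} {a b : List Y} {x y : List W}
    (h : SubstRel f a x) (h' : SubstRel f b y) : SubstRel f (a ++ b) (x ++ y) := by
  induction h' with
  | nil => rw [List.append_nil, List.append_nil]; exact h
  | snoc h1 h2 ih =>
    rw [← List.append_assoc, ← List.append_assoc]
    exact SubstRel.snoc ih h2

theorem SubstRel.single {f : Y → Language W} {y : Y} {v : List W} (h : v ∈ f y) :
    SubstRel f [y] v := SubstRel.snoc SubstRel.nil h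

theorem SubstRel.split {f : Y → Language W} {ys : List Y} {w : List W} (h : SubstRel f ys w) :
    ∀ u v, w = u ++ v → ys ≠ [] → ∃ ys₁ y ys₂ x α β z, ys = ys₁ ++ y :: ys₂ ∧ SubstRel f ys₁ x ∧
      α ++ β ∈ f y ∧ SubstRel f ys₂ z ∧ u = x ++ α ∧ v = β ++ z := by
  induction h with
  | nil => exact fun u v _ h => absurd rfl h
  | @snoc ys w v' y h1 h2 ih =>
    intro u v he _
    rcases List.append_eq_append_iff.mp he with ⟨c, e1, e2⟩ | ⟨c, e1, e2⟩
    · exact ⟨ys, y, [], w, c, v, [], rfl, h1, by rw [← e2]; exact h2, SubstRel.nil, e1,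
        by simp⟩
    · by_cases hys : ys = []
      · subst hys
        have h3 := h1.inv_nil
        rw [h3] at e1
        have h4 := List.append_eq_nil_iff.mp e1.symm
        refine ⟨[], y, [], [], [], v', [], rfl, SubstRel.nil, h2, SubstRel.nil, h4.1, ?_⟩
        rw [e2, h4.2]
        simp
      · obtain ⟨ys₁, y₁, ys₂, x, α, β, z, g1, g2, g3, g4, g5, g6⟩ := ih u c e1 hys
        refine ⟨ys₁, y₁, ys₂ ++ [y], x, α, β, z ++ v', ?_, g2, g3, SubstRel.snoc g4 h2, g5, ?_⟩
        · rw [g1]; simp
        · rw [e2, g6, List.append_assoc]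

/-- condition on kept and erased letters -/
abbrev okM (f : Θ → Language X) (z : Θ × Fin 3) : Prop := z.2 = 0 ∨ (z.2 = 1 ∧ [] ∈ f z.1)

/-- output of the marking transduction -/
def psM (z : Θ × Fin 3) : List (Θ ⊕ Θ) :=
  if z.2 = 0 then [Sum.inl z.1] else if z.2 = 1 then [] else [Sum.inr z.1]

/-- one letter is marked, and some letters with an empty image are erased -/
def tauMark [Finite Θ] (f : Θ → Language X) : Transducer Θ (Θ ⊕ Θ) where
  Z := Θ × Fin 3
  finZ := inferInstance
  K := allL (okM f) * (oneL (fun z => z.2 = 2) * allL (okM f))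
  regK := mul_regular (allL_regular _) (mul_regular (oneL_regular _) (allL_regular _))
  φ := fun z => [z.1]
  ψ := psM

theorem mark_keep {f : Θ → Language X} (h : List (Θ × Fin 3)) (hh : ∀ z ∈ h, okM f z) :
    ∃ a : List Θ, h.flatMap psM = a.map Sum.inl ∧
      ∀ x, SubstRel f a x → SubstRel f (h.flatMap fun z => [z.1]) x := by
  induction h using List.reverseRecOn with
  | nil => exact ⟨[], rfl, fun x hx => hx⟩
  | append_singleton h z ih =>
    obtain ⟨a, h1, h2⟩ := ih fun z' hz' => hh z' (List.mem_append_left _ hz')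
    have hz := hh z (by simp)
    rcases hz with hz | ⟨hz, hε⟩
    · refine ⟨a ++ [z.1], ?_, fun x hx => ?_⟩
      · rw [List.flatMap_append, h1, List.map_append]
        simp [psM, hz]
      · obtain ⟨w, v, rfl, e1, e2⟩ := hx.inv
        rw [List.flatMap_append]
        exact (h2 w e1).append (SubstRel.single e2)
    · refine ⟨a, ?_, fun x hx => ?_⟩
      · rw [List.flatMap_append, h1]
        simp [psM, hz]
      · rw [List.flatMap_append, ← List.append_nil x]
        exact (h2 x hx).append (SubstRel.single hε)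

theorem keep_exists {f : Θ → Language X} {ys : List Θ} {x : List X} (h : SubstRel f ys x) :
    ∃ g : List (Θ × Fin 3), (∀ z ∈ g, okM f z) ∧ (g.flatMap fun z => [z.1]) = ys ∧
      ∃ a : List Θ, g.flatMap psM = a.map Sum.inl ∧ SubstRel f a x ∧ a.length ≤ x.length := by
  classical
  induction h with
  | nil => exact ⟨[], by simp, rfl, [], rfl, SubstRel.nil, le_rfl⟩
  | @snoc ys w v y h1 h2 ih =>
    obtain ⟨g, e1, e2, a, e3, e4, e5⟩ := ih
    by_cases hv : v = []
    · subst hv
      refine ⟨g ++ [(y, 1)], ?_, ?_, a, ?_, ?_, ?_⟩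
      · intro z hz
        rcases List.mem_append.mp hz with hz | hz
        · exact e1 z hz
        · rw [List.mem_singleton.mp hz]
          exact Or.inr ⟨rfl, h2⟩
      · rw [List.flatMap_append, e2]
        rfl
      · rw [List.flatMap_append, e3]
        simp [psM]
      · rw [List.append_nil]
        exact e4
      · rw [List.append_nil]
        exact e5
    · refine ⟨g ++ [(y, 0)], ?_, ?_, a ++ [y], ?_, SubstRel.snoc e4 h2, ?_⟩
      · intro z hz
        rcases List.mem_append.mp hz with hz | hz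
        · exact e1 z hz
        · rw [List.mem_singleton.mp hz]
          exact Or.inl rfl
      · rw [List.flatMap_append, e2]
        rfl
      · rw [List.flatMap_append, e3, List.map_append]
        simp [psM]
      · rw [List.length_append, List.length_append, List.length_singleton]
        have := List.length_pos_of_ne_nil hv
        omega

theorem marked_split {a a' : List Θ} {θ θ' : Θ} {b b' : List (Θ ⊕ Θ)}
    (h : a.map Sum.inl ++ Sum.inr θ :: b = a'.map Sum.inl ++ Sum.inr θ' :: b') :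
    a = a' ∧ θ = θ' ∧ b = b' := by
  induction a generalizing a' with
  | nil =>
    cases a' with
    | nil =>
      simp only [List.map_nil, List.nil_append, List.cons.injEq, Sum.inr.injEq] at h
      exact ⟨rfl, h.1, h.2⟩
    | cons c a' => simp at h
  | cons d a ih =>
    cases a' with
    | nil => simp at h
    | cons c a' =>
      simp only [List.map_cons, List.cons_append, List.cons.injEq, Sum.inl.injEq] at h
      obtain ⟨h1, h2, h3⟩ := ih h.2
      exact ⟨by rw [h.1, h1], h2, h3⟩

/-- covers of substitutions -/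
theorem CovN.subst [Fintype Θ] {K : Language Θ} {f : Θ → Language X} {n r s : ℕ}
    (hK : CovN (n + 1) r ((tauMark f).image K)) (hf : ∀ θ, CovN n s (f θ)) :
    CovN n (r * (Fintype.card Θ * s) + 1) (substL K f) := by
  classical
  obtain ⟨ι, hι, A₀, B₀, a1, a2, a3⟩ := hK
  choose κ hκ A₁ B₁ b1 b2 b3 using hf
  refine ⟨Option (ι × (Σ θ, κ θ)), inferInstance,
    fun o => match o with
      | none => {u | u = [] ∧ [] ∈ substL K f}
      | some (i, ⟨θ, j⟩) => {u | ∃ (a : List Θ) (x α : List X), a.map Sum.inl ∈ A₀ i ∧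
          SubstRel f a x ∧ α ∈ A₁ θ j ∧ u = x ++ α},
    fun o => match o with
      | none => {v | v = []}
      | some (i, ⟨θ, j⟩) => {v | ∃ (b : List Θ) (y β : List X), Sum.inr θ :: b.map Sum.inl ∈ B₀ i ∧
          SubstRel f b y ∧ β ∈ B₁ θ j ∧ v = β ++ y}, ?_, ?_, ?_⟩
  · rw [Fintype.card_option, Fintype.card_prod, Fintype.card_sigma]
    have h1 : ∑ θ, Fintype.card (κ θ) ≤ Fintype.card Θ * s := by
      calc ∑ θ, Fintype.card (κ θ) ≤ ∑ _θ : Θ, s := Finset.sum_le_sum fun θ _ => b1 θ
        _ = _ := by rw [Finset.sum_const, Finset.card_univ, smul_eq_mul]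
    have h2 := Nat.mul_le_mul a1 h1
    omega
  · rintro (_ | ⟨i, θ, j⟩) u hu v hv
    · obtain ⟨hu1, hu2⟩ := hu
      have hv1 : v = [] := hv
      rw [hu1, hv1]
      exact hu2
    · obtain ⟨a, x, α, c1, c2, c3, rfl⟩ := hu
      obtain ⟨b, y, β, d1, d2, d3, rfl⟩ := hv
      obtain ⟨h, hK, hL, hψ⟩ := a2 i _ c1 _ d1
      obtain ⟨h₁, hh₁, h', hh', rfl⟩ := Language.mem_mul.mp hK
      obtain ⟨z', ⟨z, hz, rfl⟩, h₂, hh₂, rfl⟩ := Language.mem_mul.mp hh'
      obtain ⟨a', e1, e2⟩ := mark_keep h₁ hh₁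
      obtain ⟨b', f1, f2⟩ := mark_keep h₂ hh₂
      have hψ' : (h₁ ++ ([z] ++ h₂)).flatMap psM = a.map Sum.inl ++ (Sum.inr θ :: b.map Sum.inl) :=
        hψ
      have hz2 : ([z] : List (Θ × Fin 3)).flatMap psM = [Sum.inr z.1] := by simp [psM, hz]
      rw [List.flatMap_append, List.flatMap_append, e1, f1, hz2, List.singleton_append] at hψ'
      obtain ⟨g1, g2, g3⟩ := marked_split hψ'
      subst g1
      have g4 : b' = b := List.map_injective_iff.mpr Sum.inl_injective g3
      subst g4
      refine ⟨_, hL, ?_⟩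
      change SubstRel f ((h₁ ++ ([z] ++ h₂)).flatMap fun z : Θ × Fin 3 => [z.1]) _
      rw [List.flatMap_append, List.flatMap_append]
      have hm : SubstRel f (([z] : List (Θ × Fin 3)).flatMap fun z : Θ × Fin 3 => [z.1])
          (α ++ β) := by
        have h0 : (([z] : List (Θ × Fin 3)).flatMap fun z : Θ × Fin 3 => [z.1]) = [z.1] := by simp
        rw [h0, g2]
        exact SubstRel.single (b2 θ j α c3 β d3)
      have := (e2 x c2).append (hm.append (f2 y d2))
      simpa [List.append_assoc] using this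
  · rintro u v hu hv ⟨ys, hys, hr⟩
    by_cases h0 : ys = []
    · subst h0
      have h1 := List.append_eq_nil_iff.mp hr.inv_nil
      refine ⟨none, ⟨h1.1, [], hys, SubstRel.nil⟩, h1.2⟩
    · obtain ⟨ys₁, y, ys₂, x, α, β, z, g1, g2, g3, g4, g5, g6⟩ := hr.split u v rfl h0
      obtain ⟨h₁, e1, e2, a, e3, e4, e5⟩ := keep_exists g2
      obtain ⟨h₂, f1, f2, b, f3, f4, f5⟩ := keep_exists g4
      have hlu : u.length = x.length + α.length := by rw [g5, List.length_append]
      have hlv : v.length = β.length + z.length := by rw [g6, List.length_append]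
      have hmem : a.map Sum.inl ++ (Sum.inr y :: b.map Sum.inl) ∈ (tauMark f).image K := by
        refine ⟨h₁ ++ ([(y, 2)] ++ h₂), ?_, ?_, ?_⟩
        · exact Language.append_mem_mul e1 (Language.append_mem_mul ⟨(y, 2), rfl, rfl⟩ f1)
        · change ((h₁ ++ ([(y, 2)] ++ h₂)).flatMap fun z : Θ × Fin 3 => [z.1]) ∈ K
          rw [List.flatMap_append, List.flatMap_append, e2, f2]
          have : ys₁ ++ ((([(y, 2)] : List (Θ × Fin 3)).flatMap fun z : Θ × Fin 3 => [z.1]) ++
              ys₂) = ys := by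
            rw [g1]; simp
          rw [this]
          exact hys
        · change (h₁ ++ ([(y, 2)] ++ h₂)).flatMap psM = _
          rw [List.flatMap_append, List.flatMap_append, e3, f3]
          simp [psM]
      obtain ⟨i, c1, c2⟩ := a3 _ _ (by rw [List.length_map]; omega) (by
        rw [List.length_cons, List.length_map]; omega) hmem
      obtain ⟨j, d1, d2⟩ := b3 y α β (by omega) (by omega) g3
      exact ⟨some (i, ⟨y, j⟩), ⟨a, x, α, c1, e4, d1, g5⟩, ⟨b, z, β, c2, f4, d2, g6⟩⟩

end RCone
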