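import Pool.Agent.RCone.CovS

/-! # Linear height of low runs, and the index of the counter (helper70, MP_a8de0d_lc) -/

namespace RCone

open Language

variable {X Y W V : Type}

/-- number of pairs of crossing data -/
def ntupL (c n B : ℕ) : ℕ := (c * (B + 1)) * (c * (B + 1)) * (2 * n + 1)

/-- linear height bound -/
def hlin (c n B : ℕ) : ℕ := (B + 1) * (ntupL c n B + 2)

/-- a run which reaches a large height can be shortened -/
theorem cut_runL {Z σ : Type} [Fintype σ] (M : DFA Z σ) (φ : Z → List (Fin 3)) (ψ : Z → List X)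
    (B : ℕ) (hB : ∀ z, (φ z).length ≤ B) (n : ℕ) (p s : List Z) (V₀ : ℕ)
    (hφ : runW ((p ++ s).flatMap φ) 0 = some 0) (hn : ((p ++ s).flatMap ψ).length ≤ n)
    (hp : runW (p.flatMap φ) 0 = some V₀) (hV : hlin (Fintype.card σ) n B < V₀) :
    ∃ h', h'.length < (p ++ s).length ∧ M.eval h' = M.eval (p ++ s) ∧
      runW (h'.flatMap φ) 0 = some 0 ∧ h'.flatMap ψ = (p ++ s).flatMap ψ := by
  classical
  set Nt := ntupL (Fintype.card σ) n B with hNt
  -- levels
  let lev : ℕ → ℕ := fun j => (B + 1) * (j + 2)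
  have hlev : ∀ j : Fin (Nt + 1), lev j.val < V₀ := by
    intro j
    refine lt_of_le_of_lt ?_ hV
    exact Nat.mul_le_mul_left _ (by have := j.2; omega)
  let P : ℕ → List Z → Prop := fun l a => ∃ v, runW (a.flatMap φ) 0 = some v ∧ v ≤ l
  let Q : ℕ → List Z → Prop := fun l b => ∃ v, runW ((p ++ b).flatMap φ) 0 = some v ∧ v ≤ l
  have hP0 : ∀ l, P l [] := fun l => ⟨0, rfl, Nat.zero_le _⟩
  have hPp : ∀ j : Fin (Nt + 1), ¬ P (lev j.val) p := by
    rintro j ⟨v, h1, h2⟩
    rw [hp] at h1
    have := Option.some.inj h1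
    have := hlev j
    omega
  have hQ0 : ∀ j : Fin (Nt + 1), ¬ Q (lev j.val) [] := by
    rintro j ⟨v, h1, h2⟩
    rw [List.append_nil, hp] at h1
    have := Option.some.inj h1
    have := hlev j
    omega
  have hQs : ∀ l, Q l s := fun l => ⟨0, hφ, Nat.zero_le _⟩
  have hup := fun j : Fin (Nt + 1) => longest_init (P (lev j.val)) p (hP0 _) (hPp j)
  have hdown := fun j : Fin (Nt + 1) => shortest_init (Q (lev j.val)) s (hQ0 j) (hQs _)
  choose a z b ha1 ha2 ha3 using hup
  choose c y e hc1 hc2 hc3 using hdown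
  choose v hv1 hv2 using ha2
  choose w hw1 hw2 using hc2
  have hv3 : ∀ j, lev j.val ≤ v j + B := by
    intro j
    have h1 : ¬ P (lev j.val) (a j ++ [z j]) := ha3 j [z j] (b j) rfl (by simp)
    have h2 : runW ((a j ++ [z j] ++ (b j ++ s)).flatMap φ) 0 = some 0 := by
      have : a j ++ [z j] ++ (b j ++ s) = p ++ s := by rw [ha1 j]; simp
      rw [this]
      exact hφ
    obtain ⟨u, hu, _⟩ := val_split φ h2
    obtain ⟨v', hv', hu'⟩ := val_split φ hu
    rw [hv1 j] at hv'
    have h3 := Option.some.inj hv'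
    have h4 := (runW_bound hu').1
    have h5 : (([z j] : List Z).flatMap φ).length ≤ B := by simpa using hB (z j)
    have h6 : ¬ u ≤ lev j.val := fun hc => h1 ⟨u, hu, hc⟩
    omega
  have hw3 : ∀ j, lev j.val ≤ w j + B := by
    intro j
    have h1 : ¬ Q (lev j.val) (c j) := hc3 j (c j) [] (by simp)
    have h2 : runW ((p ++ c j ++ [y j]).flatMap φ) 0 = some (w j) := by
      rw [List.append_assoc]
      exact hw1 j
    obtain ⟨u, hu, hu'⟩ := val_split φ h2
    have h4 := (runW_bound hu').2
    have h5 : (([y j] : List Z).flatMap φ).length ≤ B := by simpa using hB (y j)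
    have h6 : ¬ u ≤ lev j.val := fun hc => h1 ⟨u, hu, hc⟩
    omega
  -- lengths of outputs
  have hout : ∀ q r : List Z, q ++ r = p ++ s → (q.flatMap ψ).length < n + 1 := by
    intro q r hqr
    rw [← hqr, List.flatMap_append, List.length_append] at hn
    omega
  have hla : ∀ j, ((a j).flatMap ψ).length < n + 1 := by
    intro j
    refine hout (a j) (z j :: b j ++ s) ?_
    rw [← List.append_assoc, ← ha1 j]
  have hlc : ∀ j, ((p ++ (c j ++ [y j])).flatMap ψ).length < n + 1 := by
    intro j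
    refine hout _ (e j) ?_
    rw [List.append_assoc, ← hc1 j]
  let data : Fin (Nt + 1) → ((σ × Fin (B + 1)) × (σ × Fin (B + 1))) × Fin (2 * n + 1) :=
    fun j => (((M.eval (a j), ⟨lev j.val - v j, by have := hv3 j; omega⟩),
      (M.eval (p ++ (c j ++ [y j])), ⟨lev j.val - w j, by have := hw3 j; omega⟩)),
      ⟨((a j).flatMap ψ).length + (n - ((p ++ (c j ++ [y j])).flatMap ψ).length), by
        have := hla j
        omega⟩)
  obtain ⟨j₁, j₂, hne, heq⟩ := Fintype.exists_ne_map_eq_of_card_lt data (by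
    rw [Fintype.card_prod, Fintype.card_prod, Fintype.card_prod, Fintype.card_fin, Fintype.card_fin,
      Fintype.card_fin]
    exact Nat.lt_succ_self _)
  obtain ⟨i, j, hij, hdat⟩ : ∃ i j : Fin (Nt + 1), i.val < j.val ∧ data i = data j := by
    rcases lt_or_gt_of_ne (fun h => hne (Fin.ext h) : j₁.val ≠ j₂.val) with h | h
    · exact ⟨j₁, j₂, h, heq⟩
    · exact ⟨j₂, j₁, h, heq.symm⟩
  have hd1 : M.eval (a i) = M.eval (a j) := congrArg (fun d => d.1.1.1) hdat
  have hd3 : lev i.val - v i = lev j.val - v j := congrArg (fun d => d.1.1.2.val) hdat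
  have hd4 : M.eval (p ++ (c i ++ [y i])) = M.eval (p ++ (c j ++ [y j])) :=
    congrArg (fun d => d.1.2.1) hdat
  have hd6 : lev i.val - w i = lev j.val - w j := congrArg (fun d => d.1.2.2.val) hdat
  have hd2 : ((a i).flatMap ψ).length + (n - ((p ++ (c i ++ [y i])).flatMap ψ).length) =
      ((a j).flatMap ψ).length + (n - ((p ++ (c j ++ [y j])).flatMap ψ).length) :=
    congrArg (fun d => d.2.val) hdat
  have hll : lev i.val + (B + 1) ≤ lev j.val := by
    change (B + 1) * (i.val + 2) + (B + 1) ≤ (B + 1) * (j.val + 2)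
    calc (B + 1) * (i.val + 2) + (B + 1) = (B + 1) * (i.val + 1 + 2) := by ring
      _ ≤ _ := Nat.mul_le_mul_left _ (by omega)
  have hli : 2 * B + 2 ≤ lev i.val := by
    change 2 * B + 2 ≤ (B + 1) * (i.val + 2)
    calc 2 * B + 2 = (B + 1) * 2 := by ring
      _ ≤ _ := Nat.mul_le_mul_left _ (by omega)
  -- the initial parts are nested
  obtain ⟨u₁, hu₁⟩ : ∃ u₁, a j = a i ++ u₁ := by
    have h1 : a i <+: p := ⟨_, (ha1 i).symm⟩
    have h2 : a j <+: p := ⟨_, (ha1 j).symm⟩
    rcases List.prefix_or_prefix_of_prefix h1 h2 with h | ⟨t, ht⟩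
    · obtain ⟨t, ht⟩ := h
      exact ⟨t, ht.symm⟩
    · exfalso
      by_cases ht0 : t = []
      · rw [ht0, List.append_nil] at ht
        have h3 := hv1 j
        rw [ht, hv1 i] at h3
        have h4 := Option.some.inj h3
        have := hv3 j
        have := hv2 i
        omega
      · have h5 : z j :: b j = t ++ (z i :: b i) := by
          have h6 := ha1 j
          rw [ha1 i, ← ht, List.append_assoc] at h6
          exact (List.append_cancel_left h6).symm
        refine ha3 j t _ h5 ht0 ⟨v i, ?_, ?_⟩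
        · rw [ht]
          exact hv1 i
        · have := hv2 i
          omega
  obtain ⟨u₃, hu₃⟩ : ∃ u₃, c i ++ [y i] = (c j ++ [y j]) ++ u₃ := by
    have h1 : c i ++ [y i] <+: s := ⟨_, (hc1 i).symm⟩
    have h2 : c j ++ [y j] <+: s := ⟨_, (hc1 j).symm⟩
    rcases List.prefix_or_prefix_of_prefix h2 h1 with h | ⟨t, ht⟩
    · obtain ⟨t, ht⟩ := h
      exact ⟨t, ht.symm⟩
    · by_cases ht0 : t = []
      · rw [ht0, List.append_nil] at ht
        exact ⟨[], by rw [ht, List.append_nil]⟩
      · exfalso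
        obtain ⟨t', x, rfl⟩ : ∃ t' x, t = t' ++ [x] := by
          rcases List.eq_nil_or_concat t with h | ⟨t', x, h⟩
          · exact absurd h ht0
          · exact ⟨t', x, by rw [h, List.concat_eq_append]⟩
        rw [← List.append_assoc] at ht
        have h3 := List.append_inj_left' ht rfl
        refine hc3 j (c i ++ [y i]) t' h3.symm ⟨w i, hw1 i, ?_⟩
        have := hw2 i
        omega
  set u₂ := z j :: b j with hu₂
  set e' := c j ++ [y j] with he'
  have hpe : p = a i ++ u₁ ++ u₂ := by rw [← hu₁]; exact ha1 j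
  have hse : s = e' ++ u₃ ++ e i := by rw [← hu₃]; exact hc1 i
  set d := lev j.val - lev i.val with hd
  have hvd : v j = v i + d := by
    have := hv2 i
    have := hv2 j
    have := hv3 i
    have := hv3 j
    omega
  have hwd : w j = w i + d := by
    have := hw2 i
    have := hw2 j
    have := hw3 i
    have := hw3 j
    omega
  -- the middle path from `v j` to `w j`
  have hmid : runW ((u₂ ++ e').flatMap φ) (v j) = some (w j) := by
    have h1 : runW ((a j ++ (u₂ ++ e')).flatMap φ) 0 = some (w j) := by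
      rw [← List.append_assoc, ← ha1 j]
      exact hw1 j
    obtain ⟨v', h2, h3⟩ := val_split φ h1
    rw [hv1 j] at h2
    rw [← Option.some.inj h2] at h3
    exact h3
  have hlow := lower_path φ B hB d (u₂ ++ e') (v j) (w j) hmid (by
    intro g₁ g₂ hg hne u hu
    have hval : runW ((a j ++ g₁).flatMap φ) 0 = some u := val_join φ (hv1 j) hu
    rcases List.append_eq_append_iff.mp hg with ⟨t, h1, h2⟩ | ⟨t, h1, h2⟩
    · -- `g₁ = u₂ ++ t` and `e' = t ++ g₂`
      have h3 : ∃ t₂, c j = t ++ t₂ := by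
        rcases List.eq_nil_or_concat g₂ with h | ⟨g', x, h⟩
        · exact absurd h hne
        · rw [h, List.concat_eq_append, ← List.append_assoc] at h2
          exact ⟨g', List.append_inj_left' h2 rfl⟩
      obtain ⟨t₂, ht₂⟩ := h3
      have h4 := hc3 j t t₂ ht₂
      have h5 : ¬ u ≤ lev j.val := by
        intro hc
        apply h4
        refine ⟨u, ?_, hc⟩
        have : p ++ t = a j ++ g₁ := by rw [h1, ← List.append_assoc, ← ha1 j]
        rw [this]
        exact hval
      omega
    · -- `u₂ = g₁ ++ t`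
      by_cases hg₁ : g₁ = []
      · rw [hg₁] at hu
        have h3 : v j = u := Option.some.inj hu
        have := hv3 j
        omega
      · have h4 := ha3 j g₁ t h1 hg₁
        have h5 : ¬ u ≤ lev j.val := fun hc => h4 ⟨u, hval, hc⟩
        omega) (by omega)
  have hlow' : runW ((u₂ ++ e').flatMap φ) (v i) = some (w i) := by
    have h1 := hlow.1
    have h2 : v j - d = v i := by omega
    have h3 : w j - d = w i := by omega
    rwa [h2, h3] at h1
  have hfin : runW ((e i).flatMap φ) (w i) = some 0 := by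
    have h1 : runW (((p ++ (c i ++ [y i])) ++ e i).flatMap φ) 0 = some 0 := by
      rw [List.append_assoc, ← hc1 i]
      exact hφ
    obtain ⟨v', h2, h3⟩ := val_split φ h1
    rw [hw1 i] at h2
    rw [← Option.some.inj h2] at h3
    exact h3
  have hsil : (u₁.flatMap ψ).length = 0 ∧ (u₃.flatMap ψ).length = 0 := by
    have h1 : ((p ++ (e' ++ u₃)).flatMap ψ).length =
        ((p ++ e').flatMap ψ).length + (u₃.flatMap ψ).length := by
      rw [← List.append_assoc, List.flatMap_append, List.length_append]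
    have hP : ((p ++ (c i ++ [y i])).flatMap ψ).length =
        ((p ++ e').flatMap ψ).length + (u₃.flatMap ψ).length := by
      rw [hu₃]
      exact h1
    have hA : ((a j).flatMap ψ).length = ((a i).flatMap ψ).length + (u₁.flatMap ψ).length := by
      rw [hu₁, List.flatMap_append, List.length_append]
    have h2 := hlc i
    rw [hP] at hd2 h2
    rw [hA] at hd2
    omega
  have hsil₁ : u₁.flatMap ψ = [] := List.length_eq_zero_iff.mp hsil.1
  have hsil₃ : u₃.flatMap ψ = [] := List.length_eq_zero_iff.mp hsil.2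
  have hu₁ne : u₁ ≠ [] := by
    intro h
    rw [h, List.append_nil] at hu₁
    have h3 := hv1 j
    rw [hu₁, hv1 i] at h3
    have h4 := Option.some.inj h3
    omega
  refine ⟨a i ++ (u₂ ++ e') ++ e i, ?_, ?_, ?_, ?_⟩
  · rw [hpe, hse]
    have : 0 < u₁.length := List.length_pos_of_ne_nil hu₁ne
    simp only [List.length_append]
    omega
  · have h1 : M.evalFrom M.start (a i) = M.evalFrom M.start (a j) := hd1
    have h2 : M.evalFrom M.start (p ++ (c i ++ [y i])) = M.evalFrom M.start (p ++ e') := hd4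
    have h3 : M.eval (a i ++ (u₂ ++ e') ++ e i) =
        M.evalFrom (M.evalFrom (M.evalFrom M.start (a i)) (u₂ ++ e')) (e i) := by
      change M.evalFrom M.start _ = _
      rw [DFA.evalFrom_of_append, DFA.evalFrom_of_append]
    have h4 : M.eval (p ++ s) = M.evalFrom (M.evalFrom M.start (p ++ (c i ++ [y i]))) (e i) := by
      change M.evalFrom M.start _ = _
      rw [← DFA.evalFrom_of_append, List.append_assoc, ← hc1 i]
    rw [h3, h4, h1, h2, ← DFA.evalFrom_of_append M M.start (a j), ← List.append_assoc, ← ha1 j]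
  · rw [List.append_assoc]
    exact val_join φ (hv1 i) (val_join φ hlow' hfin)
  · rw [hpe, hse]
    simp only [List.flatMap_append, hsil₁, hsil₃, List.append_nil, List.nil_append,
      List.append_assoc]

/-- accepting runs can be chosen low -/
theorem exists_low_runL {Z σ : Type} [Fintype σ] (M : DFA Z σ) (φ : Z → List (Fin 3))
    (ψ : Z → List X) (B : ℕ) (hB : ∀ z, (φ z).length ≤ B) (n : ℕ) (N : ℕ) :
    ∀ h : List Z, h.length ≤ N → h ∈ M.accepts → runW (h.flatMap φ) 0 = some 0 →
      (h.flatMap ψ).length ≤ n → ∃ h', h' ∈ M.accepts ∧ runW (h'.flatMap φ) 0 = some 0 ∧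
      h'.flatMap ψ = h.flatMap ψ ∧ ∀ p s, h' = p ++ s → ∀ v, runW (p.flatMap φ) 0 = some v →
        v ≤ hlin (Fintype.card σ) n B := by
  induction N with
  | zero =>
    intro h hN hM h0 hn
    have : h = [] := List.length_eq_zero_iff.mp (by omega)
    subst this
    refine ⟨[], hM, h0, rfl, ?_⟩
    intro p s hps v hv
    have hp : p = [] := (List.append_eq_nil_iff.mp hps.symm).1
    rw [hp] at hv
    have : (0 : ℕ) = v := Option.some.inj hv
    omega
  | succ N ih =>
    intro h hN hM h0 hn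
    by_cases hall : ∀ p s, h = p ++ s → ∀ v, runW (p.flatMap φ) 0 = some v →
        v ≤ hlin (Fintype.card σ) n B
    · exact ⟨h, hM, h0, rfl, hall⟩
    · push Not at hall
      obtain ⟨p, s, hps, v, hv, hlt⟩ := hall
      subst hps
      obtain ⟨h', h1, h2, h3, h4⟩ := cut_runL M φ ψ B hB n p s v h0 hn hv hlt
      obtain ⟨h'', g1, g2, g3, g4⟩ := ih h' (by omega) (by
        change M.eval h' ∈ M.accept
        rw [h2]
        exact hM) h3 (by rw [h4]; exact hn)
      exact ⟨h'', g1, g2, by rw [g3, h4], g4⟩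


theorem hlin_bound (c n B : ℕ) : hlin c (n + n) B + 1 ≤
    ((B + 1) * ((c * (B + 1)) * (c * (B + 1)) * 4 + 2) + 1) * (n + 1) := by
  unfold hlin ntupL
  set a := (c * (B + 1)) * (c * (B + 1)) with ha
  have h1 : 2 * (n + n) + 1 ≤ 4 * (n + 1) := by omega
  calc (B + 1) * (a * (2 * (n + n) + 1) + 2) + 1
      ≤ (B + 1) * (a * (4 * (n + 1)) + 2 * (n + 1)) + (n + 1) := by
        gcongr <;> omega
    _ = ((B + 1) * (a * 4 + 2) + 1) * (n + 1) := by ring

/-- the counter language has index 1 -/
theorem idx_counter : Idx 1 counterLang := by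
  classical
  intro X _ τ
  obtain ⟨m, B, _, ⟨⟨σ, hσ, M, hM, _⟩, hl⟩⟩ := exists_sized τ
  have hft : Fintype {v : List X // v.length ≤ B} := Fintype.ofFinite _
  set c := Fintype.card σ with hc
  set q := Fintype.card {v : List X // v.length ≤ B} with hq
  refine ⟨c * (q * ((B + 1) * ((c * (B + 1)) * (c * (B + 1)) * 4 + 2) + 1)), 0, fun n => ?_⟩
  set H := hlin c (n + n) B with hH
  refine ⟨σ × {v : List X // v.length ≤ B} × Fin (H + 1), inferInstance,
    fun i => {u | ∃ g, M.eval g = i.1 ∧ g.flatMap τ.ψ = u ++ i.2.1.1 ∧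
      runW (g.flatMap τ.φ) 0 = some i.2.2.val},
    fun i => {v | ∃ g, M.evalFrom i.1 g ∈ M.accept ∧ v = i.2.1.1 ++ g.flatMap τ.ψ ∧
      runW (g.flatMap τ.φ) i.2.2.val = some 0}, ?_, ?_, ?_⟩
  · rw [Fintype.card_prod, Fintype.card_prod, Fintype.card_fin]
    have h1 := hlin_bound c n B
    have h2 : gr 1 0 n = n + 1 := by unfold gr; simp
    rw [h2]
    calc c * (q * (H + 1)) ≤ c * (q * (((B + 1) * ((c * (B + 1)) * (c * (B + 1)) * 4 + 2) + 1) *
          (n + 1))) := Nat.mul_le_mul_left _ (Nat.mul_le_mul_left _ h1)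
      _ = _ := by ring
  · rintro ⟨s, x, v⟩ a ⟨g, hg, hga, hgv⟩ b ⟨g', hg', rfl, hgv'⟩
    refine ⟨g ++ g', ?_, val_join τ.φ hgv hgv', ?_⟩
    · rw [← hM]
      change M.evalFrom M.start (g ++ g') ∈ M.accept
      rw [DFA.evalFrom_of_append]
      have : M.evalFrom M.start g = s := hg
      rw [this]
      exact hg'
    · rw [List.flatMap_append, hga, List.append_assoc]
  · rintro u v hu hv ⟨g, hg, hgL, hgψ⟩
    rw [← hM] at hg
    obtain ⟨h', h1, h2, h3, h4⟩ := exists_low_runL M τ.φ τ.ψ B (fun z => (hl z).1) (n + n) g.length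
      g le_rfl hg hgL (by rw [hgψ, List.length_append]; omega)
    rw [hgψ] at h3
    obtain ⟨g₁, g₂, x, e1, e2, e3, e4⟩ := split_out τ.ψ B (fun z => (hl z).2) h' _ _ h3
    rw [e1] at h2
    obtain ⟨w, hw1, hw2⟩ := val_split τ.φ h2
    have hwH : w < H + 1 := by
      have h9 : w ≤ H := h4 g₁ g₂ e1 w hw1
      omega
    refine ⟨(M.eval g₁, ⟨x, e3⟩, ⟨w, hwH⟩), ⟨g₁, rfl, e2, hw1⟩, g₂, ?_, e4, hw2⟩
    have h5 : M.evalFrom M.start h' ∈ M.accept := h1
    rw [e1, DFA.evalFrom_of_append] at h5
    exact h5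

end RCone
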