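import Pool.Agent.RCone.CovC

/-! # The language of unequal blocks has index 0 (helper70, MP_a8de0d_lc) -/

namespace RCone

open Language

variable {X Y W V : Type}

/-- a silent loop among the positions `s, ..., s + c (N + 1)` of a run -/
theorem silent_loop {Z σ : Type} [Fintype σ] (M : DFA Z σ) (ψ : Z → List X) (N s : ℕ) (h : List Z)
    (hN : (h.flatMap ψ).length ≤ N) (hs : s + Fintype.card σ * (N + 1) ≤ h.length) :
    ∃ a l b, h = a ++ l ++ b ∧ l ≠ [] ∧ l.flatMap ψ = [] ∧ M.eval (a ++ l) = M.eval a ∧
      s ≤ a.length ∧ (a ++ l).length ≤ s + Fintype.card σ * (N + 1) := by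
  classical
  set L := Fintype.card σ * (N + 1) with hL
  have hpre : ∀ k, ((h.take k).flatMap ψ).length < N + 1 := by
    intro k
    have h1 : ((h.take k).flatMap ψ).length + ((h.drop k).flatMap ψ).length ≤ N := by
      rw [← List.length_append, ← List.flatMap_append, List.take_append_drop]
      exact hN
    omega
  obtain ⟨i₁, i₂, hne, heq⟩ := Fintype.exists_ne_map_eq_of_card_lt
    (fun k : Fin (L + 1) => (M.eval (h.take (s + k.val)),
      (⟨((h.take (s + k.val)).flatMap ψ).length, hpre _⟩ : Fin (N + 1)))) (by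
      rw [Fintype.card_prod, Fintype.card_fin, Fintype.card_fin]
      exact Nat.lt_succ_self _)
  obtain ⟨i, j, hij, hd⟩ : ∃ i j : Fin (L + 1), i.val < j.val ∧
      (M.eval (h.take (s + i.val)), (⟨((h.take (s + i.val)).flatMap ψ).length, hpre _⟩ :
        Fin (N + 1))) = (M.eval (h.take (s + j.val)),
          (⟨((h.take (s + j.val)).flatMap ψ).length, hpre _⟩ : Fin (N + 1))) := by
    rcases lt_or_gt_of_ne (fun h => hne (Fin.ext h) : i₁.val ≠ i₂.val) with h | h
    · exact ⟨i₁, i₂, h, heq⟩
    · exact ⟨i₂, i₁, h, heq.symm⟩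
  have hj := j.2
  have hd1 : M.eval (h.take (s + i.val)) = M.eval (h.take (s + j.val)) := congrArg Prod.fst hd
  have hd2 : ((h.take (s + i.val)).flatMap ψ).length = ((h.take (s + j.val)).flatMap ψ).length :=
    congrArg (fun d => d.2.val) hd
  obtain ⟨l, hl⟩ : ∃ l, h.take (s + j.val) = h.take (s + i.val) ++ l := by
    refine ⟨(h.drop (s + i.val)).take (j.val - i.val), ?_⟩
    rw [← List.take_add]
    congr 1
    omega
  have hlen : (h.take (s + j.val)).length = s + j.val := by
    rw [List.length_take]
    omega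
  have hlen' : (h.take (s + i.val)).length = s + i.val := by
    rw [List.length_take]
    omega
  refine ⟨h.take (s + i.val), l, h.drop (s + j.val), ?_, ?_, ?_, ?_, ?_, ?_⟩
  · rw [← hl, List.take_append_drop]
  · rintro rfl
    rw [List.append_nil] at hl
    rw [hl, hlen'] at hlen
    omega
  · rw [hl, List.flatMap_append, List.length_append] at hd2
    exact List.length_eq_zero_iff.mp (by omega)
  · rw [← hl, ← hd1]
  · omega
  · rw [← hl, hlen]
    omega

theorem accepts_cut {Z σ : Type} (M : DFA Z σ) {a l b : List Z} (h : M.eval (a ++ l) = M.eval a)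
    (hm : a ++ l ++ b ∈ M.accepts) : a ++ b ∈ M.accepts := by
  have h1 : M.evalFrom M.start (a ++ l ++ b) ∈ M.accept := hm
  change M.evalFrom M.start (a ++ b) ∈ M.accept
  rw [DFA.evalFrom_of_append] at h1 ⊢
  have h2 : M.evalFrom M.start (a ++ l) = M.evalFrom M.start a := h
  rw [← h2]
  exact h1

theorem sb_sub {Z : Type} (φ : Z → List Bool) {g h : List Z} (hs : g.Sublist h)
    (hh : SB (h.flatMap φ)) : SB (g.flatMap φ) :=
  List.Pairwise.sublist (List.Sublist.flatMap hs φ) hh

/-- short witnesses -/
theorem exists_short_neq {Z σ : Type} [Fintype σ] (M : DFA Z σ) (φ : Z → List Bool)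
    (ψ : Z → List X) (N : ℕ) (k : ℕ) :
    ∀ h : List Z, h.length ≤ k → h ∈ M.accepts → h.flatMap φ ∈ neqLang →
      (h.flatMap ψ).length ≤ N → ∃ h', h' ∈ M.accepts ∧ h'.flatMap φ ∈ neqLang ∧
        h'.flatMap ψ = h.flatMap ψ ∧ h'.length ≤ 2 * (Fintype.card σ * (N + 1)) := by
  induction k with
  | zero => exact fun h hk hM hL _ => ⟨h, hM, hL, rfl, by omega⟩
  | succ k ih =>
    intro h hk hM hL hN
    by_cases hle : h.length ≤ 2 * (Fintype.card σ * (N + 1))
    · exact ⟨h, hM, hL, rfl, hle⟩
    push Not at hle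
    set L := Fintype.card σ * (N + 1) with hLdef
    -- it suffices to find a shorter run
    suffices hshort : ∃ h', h'.length < h.length ∧ h' ∈ M.accepts ∧ h'.flatMap φ ∈ neqLang ∧
        h'.flatMap ψ = h.flatMap ψ by
      obtain ⟨h', e1, e2, e3, e4⟩ := hshort
      obtain ⟨h'', f1, f2, f3, f4⟩ := ih h' (by omega) e2 e3 (by rw [e4]; exact hN)
      exact ⟨h'', f1, f2, by rw [f3, e4], f4⟩
    obtain ⟨a₁, l₁, r, e1, e2, e3, e4, _, e5⟩ := silent_loop M ψ N 0 h hN (by omega)
    obtain ⟨p, l₂, b, f1, f2, f3, f4, f5, _⟩ := silent_loop M ψ N L h hN (by omega)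
    -- `p` extends `a₁ ++ l₁`
    obtain ⟨c, hc⟩ : ∃ c, p = a₁ ++ l₁ ++ c := by
      have h1 : a₁ ++ l₁ <+: h := ⟨r, e1.symm⟩
      have h2 : p <+: h := ⟨l₂ ++ b, by rw [f1, List.append_assoc]⟩
      obtain ⟨t, ht⟩ := List.prefix_of_prefix_length_le h1 h2 (by omega)
      exact ⟨t, ht.symm⟩
    have hh : h = a₁ ++ l₁ ++ c ++ l₂ ++ b := by rw [f1, hc]
    -- the three shorter runs
    have hr : r = c ++ l₂ ++ b := by
      rw [e1] at hh
      have : a₁ ++ l₁ ++ r = a₁ ++ l₁ ++ (c ++ l₂ ++ b) := by rw [hh]; simp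
      exact List.append_cancel_left this
    have m1 : a₁ ++ (c ++ l₂ ++ b) ∈ M.accepts := by
      rw [← hr]
      exact accepts_cut M e4 (by rw [← e1]; exact hM)
    have m2 : p ++ b ∈ M.accepts := accepts_cut M f4 (by rw [← f1]; exact hM)
    have m3 : a₁ ++ (c ++ b) ∈ M.accepts := by
      refine accepts_cut M e4 ?_
      rw [← List.append_assoc, ← hc]
      exact m2
    have hpos₁ := List.length_pos_of_ne_nil e2
    have hpos₂ := List.length_pos_of_ne_nil f2
    by_contra hcon
    push Not at hcon
    have hSB := ((mem_neq_iff _).mp hL)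
    have key : ∀ g : List Z, g.Sublist h → g.length < h.length → g ∈ M.accepts →
        g.flatMap ψ = h.flatMap ψ → (g.flatMap φ).count false = (g.flatMap φ).count true := by
      intro g hs hl hm hψ
      by_contra hc'
      exact hcon g hl hm ((mem_neq_iff _).mpr ⟨sb_sub φ hs hSB.1, hc'⟩) hψ
    have k1 := key _ (by
      rw [hh]
      simp only [List.append_assoc]
      exact List.Sublist.append (List.Sublist.refl _) (List.sublist_append_right _ _)) (by
        rw [hh]
        simp only [List.length_append]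
        omega) m1 (by
          rw [hh]
          simp only [List.flatMap_append, e3, List.append_nil, List.append_assoc,
            List.nil_append])
    have k2 := key (p ++ b) (by
      rw [f1, List.append_assoc]
      exact List.Sublist.append (List.Sublist.refl _) (List.sublist_append_right _ _)) (by
        rw [f1]
        simp only [List.length_append]
        omega) m2 (by
          rw [f1]
          simp only [List.flatMap_append, f3, List.append_nil])
    have k3 := key (a₁ ++ (c ++ b)) (by
      rw [hh]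
      simp only [List.append_assoc]
      exact List.Sublist.append (List.Sublist.refl _) (List.Sublist.trans (List.Sublist.append
        (List.Sublist.refl c) (List.sublist_append_right l₂ b)) (List.sublist_append_right l₁ _)))
      (by
        rw [hh]
        simp only [List.length_append]
        omega) m3 (by
          rw [hh]
          simp only [List.flatMap_append, e3, f3, List.append_nil, List.append_assoc,
            List.nil_append])
    apply hSB.2
    rw [hh]
    rw [hc] at k2
    simp only [List.flatMap_append, List.count_append] at k1 k2 k3 ⊢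
    omega


theorem log_mul_le (D n : ℕ) : Nat.log 2 (D * (n + 2)) ≤ (D + 1) * Nat.log 2 (n + 2) := by
  have h1 : D * (n + 2) ≤ (n + 2) * 2 ^ D := by
    rw [Nat.mul_comm]
    exact Nat.mul_le_mul_left _ Nat.lt_two_pow_self.le
  have h2 : ∀ k m : ℕ, m ≠ 0 → Nat.log 2 (m * 2 ^ k) = Nat.log 2 m + k := by
    intro k m hm
    induction k with
    | zero => simp
    | succ k ih =>
      rw [pow_succ, ← mul_assoc, Nat.log_mul_base (by norm_num) (by positivity), ih]
      omega
  calc Nat.log 2 (D * (n + 2)) ≤ Nat.log 2 ((n + 2) * 2 ^ D) := Nat.log_mono_right h1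
    _ = Nat.log 2 (n + 2) + D := h2 _ _ (by omega)
    _ ≤ Nat.log 2 (n + 2) + D * Nat.log 2 (n + 2) := by
        have := Nat.le_mul_of_pos_right D (one_le_log n)
        omega
    _ = _ := by ring

theorem length_flatMap_le' {Z : Type} (φ : Z → List V) (B : ℕ) (hB : ∀ z, (φ z).length ≤ B)
    (h : List Z) : (h.flatMap φ).length ≤ B * h.length := by
  induction h with
  | nil => simp
  | cons z h ih =>
    rw [List.flatMap_cons, List.length_append, List.length_cons]
    have := hB z
    calc (φ z).length + (h.flatMap φ).length ≤ B + B * h.length := by omega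
      _ = _ := by ring

theorem exists_bit {a b T : ℕ} (h : a ≠ b) (ha : a < 2 ^ T) (hb : b < 2 ^ T) :
    ∃ t : Fin T, a.testBit t.val ≠ b.testBit t.val := by
  by_contra hcon
  push Not at hcon
  apply h
  apply Nat.eq_of_testBit_eq
  intro i
  rcases Nat.lt_or_ge i T with hi | hi
  · exact hcon ⟨i, hi⟩
  · rw [Nat.testBit_lt_two_pow (lt_of_lt_of_le ha (Nat.pow_le_pow_right (by norm_num) hi)),
      Nat.testBit_lt_two_pow (lt_of_lt_of_le hb (Nat.pow_le_pow_right (by norm_num) hi))]

/-- `{a^n b^m : n ≠ m}` has index 0 -/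
theorem idx_neq : Idx 0 neqLang := by
  classical
  intro X _ τ
  obtain ⟨m, B, _, ⟨⟨σ, hσ, M, hM, _⟩, hl⟩⟩ := exists_sized τ
  have hft : Fintype {v : List X // v.length ≤ B} := Fintype.ofFinite _
  set c := Fintype.card σ with hc
  set q := Fintype.card {v : List X // v.length ≤ B} with hq
  set D := 8 * (B * c) + 1 with hD
  refine ⟨c * (q * ((D + 2) * (2 * 2))), 1, fun n => ?_⟩
  set S := B * (2 * (c * (n + n + 1))) with hS
  set T := Nat.log 2 (S + S) + 1 with hT
  refine ⟨σ × {v : List X // v.length ≤ B} × Fin T × Bool × Bool, inferInstance,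
    fun i => {u | ∃ g, M.eval g = i.1 ∧ g.flatMap τ.ψ = u ++ i.2.1.1 ∧ SB (g.flatMap τ.φ) ∧
      (true ∈ g.flatMap τ.φ → i.2.2.2.1 = true) ∧ (g.flatMap τ.φ).count true ≤ S ∧
      ((g.flatMap τ.φ).count false + S - (g.flatMap τ.φ).count true).testBit i.2.2.1.val =
        i.2.2.2.2},
    fun i => {v | ∃ g, M.evalFrom i.1 g ∈ M.accept ∧ v = i.2.1.1 ++ g.flatMap τ.ψ ∧
      SB (g.flatMap τ.φ) ∧ (i.2.2.2.1 = true → false ∉ g.flatMap τ.φ) ∧
      (g.flatMap τ.φ).count false ≤ S ∧
      ((g.flatMap τ.φ).count true + S - (g.flatMap τ.φ).count false).testBit i.2.2.1.val ≠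
        i.2.2.2.2}, ?_, ?_, ?_⟩
  · simp only [Fintype.card_prod, Fintype.card_fin, Fintype.card_bool]
    have h2 : gr 0 1 n = Nat.log 2 (n + 2) := by unfold gr; simp
    rw [h2]
    have h3 : S + S ≤ D * (n + 2) := by
      have h4 : B * (2 * (c * (n + n + 1))) ≤ 4 * (B * c) * (n + 2) := by
        calc B * (2 * (c * (n + n + 1))) = 2 * (B * c) * (n + n + 1) := by ring
          _ ≤ 2 * (B * c) * (2 * (n + 2)) := Nat.mul_le_mul_left _ (by omega)
          _ = _ := by ring
      have h5 : D * (n + 2) = 4 * (B * c) * (n + 2) + 4 * (B * c) * (n + 2) + (n + 2) := by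
        rw [hD]; ring
      omega
    have h6 : T ≤ (D + 2) * Nat.log 2 (n + 2) := by
      have h7 : Nat.log 2 (S + S) ≤ (D + 1) * Nat.log 2 (n + 2) :=
        (Nat.log_mono_right h3).trans (log_mul_le D n)
      have h8 := one_le_log n
      calc T ≤ (D + 1) * Nat.log 2 (n + 2) + Nat.log 2 (n + 2) := by omega
        _ = _ := by ring
    calc c * (q * (T * (2 * 2))) ≤ c * (q * ((D + 2) * Nat.log 2 (n + 2) * (2 * 2))) := by gcongr
      _ = _ := by ring
  · rintro ⟨s, x, t, fl, bt⟩ a ⟨g, hg, hga, hg1, hg2, hg3, hg4⟩ b ⟨g', hg', rfl, hg1', hg2', hg3',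
      hg4'⟩
    refine ⟨g ++ g', ?_, ?_, ?_⟩
    · rw [← hM]
      change M.evalFrom M.start (g ++ g') ∈ M.accept
      rw [DFA.evalFrom_of_append]
      have : M.evalFrom M.start g = s := hg
      rw [this]
      exact hg'
    · rw [mem_neq_iff, List.flatMap_append, SB, List.pairwise_append, List.count_append,
        List.count_append]
      refine ⟨⟨hg1, hg1', fun y hy z hz hyt => ?_⟩, fun hcon => ?_⟩
      · rw [hyt] at hy
        cases z with
        | true => rfl
        | false => exact absurd hz (hg2' (hg2 hy))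
      · apply hg4'
        rw [← hg4]
        have : (g'.flatMap τ.φ).count true + S - (g'.flatMap τ.φ).count false =
            (g.flatMap τ.φ).count false + S - (g.flatMap τ.φ).count true := by
          have h3 : (g.flatMap τ.φ).count true ≤ S := hg3
          have h3' : (g'.flatMap τ.φ).count false ≤ S := hg3'
          omega
        rw [this]
    · rw [List.flatMap_append, hga, List.append_assoc]
  · rintro u v hu hv ⟨g, hg, hgL, hgψ⟩
    rw [← hM] at hg
    obtain ⟨h', h1, h2, h3, h4⟩ := exists_short_neq M τ.φ τ.ψ (n + n) g.length g le_rfl hg hgL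
      (by rw [hgψ, List.length_append]; omega)
    rw [hgψ] at h3
    obtain ⟨g₁, g₂, x, e1, e2, e3, e4⟩ := split_out τ.ψ B (fun z => (hl z).2) h' _ _ h3
    have hlen : (h'.flatMap τ.φ).length ≤ S :=
      (length_flatMap_le' τ.φ B (fun z => (hl z).1) h').trans (Nat.mul_le_mul_left _ h4)
    rw [e1, mem_neq_iff, List.flatMap_append, SB, List.pairwise_append, List.count_append,
      List.count_append] at h2
    rw [e1, List.flatMap_append, List.length_append] at hlen
    obtain ⟨⟨s1, s2, s3⟩, hne⟩ := h2
    have c1 := List.count_le_length (a := false) (l := g₁.flatMap τ.φ)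
    have c2 := List.count_le_length (a := true) (l := g₁.flatMap τ.φ)
    have c3 := List.count_le_length (a := false) (l := g₂.flatMap τ.φ)
    have c4 := List.count_le_length (a := true) (l := g₂.flatMap τ.φ)
    have hTS : S + S < 2 ^ T := Nat.lt_pow_succ_log_self (by norm_num) _
    obtain ⟨t, ht⟩ := exists_bit (T := T)
      (a := (g₁.flatMap τ.φ).count false + S - (g₁.flatMap τ.φ).count true)
      (b := (g₂.flatMap τ.φ).count true + S - (g₂.flatMap τ.φ).count false)
      (by omega) (by omega) (by omega)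
    refine ⟨(M.eval g₁, ⟨x, e3⟩, t, decide (true ∈ g₁.flatMap τ.φ), _),
      ⟨g₁, rfl, e2, s1, fun h => decide_eq_true h, by omega, rfl⟩,
      ⟨g₂, ?_, e4, s2, fun h hf => ?_, by omega, fun h => ht h.symm⟩⟩
    · have h5 : M.evalFrom M.start h' ∈ M.accept := h1
      rw [e1, DFA.evalFrom_of_append] at h5
      exact h5
    · exact absurd (s3 true (of_decide_eq_true h) false hf rfl) (by simp)

end RCone
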