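import Pool.Agent.RCone.Cov

/-! # The index of a language (helper70, MP_a8de0d_lc) -/

namespace RCone

open Language

variable {X Y W V Θ : Type}

/-! ### the image of a substitution is a substitution -/

/-- consistent paths -/
def pathStep {σ : Type} [DecidableEq σ] (s : Option (Option σ)) (z : (σ × Y × σ) ⊕ σ) :
    Option (Option σ) :=
  match s, z with
  | some (some p), Sum.inl (p', _, q) => if p = p' then some (some q) else none
  | some (some p), Sum.inr p' => if p = p' then some none else none
  | _, _ => none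

/-- automaton of the consistent paths -/
def pathDFA {σ : Type} [DecidableEq σ] (s₀ : σ) : DFA ((σ × Y × σ) ⊕ σ) (Option (Option σ)) :=
  ⟨pathStep, some (some s₀), {some none}⟩

/-- reading letters -/
def phI {σ : Type} : (σ × Y × σ) ⊕ σ → List Y
  | Sum.inl (_, y, _) => [y]
  | Sum.inr _ => []

/-- transduction which adds states -/
def tauPath (Y : Type) [Finite Y] {σ : Type} [Fintype σ] [DecidableEq σ] (s₀ : σ) :
    Transducer Y ((σ × Y × σ) ⊕ σ) where
  Z := (σ × Y × σ) ⊕ σ
  finZ := inferInstance
  K := (pathDFA s₀).accepts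
  regK := isRegular_of_dfa _
  φ := phI
  ψ := fun z => [z]

/-- languages of the path letters -/
def fI (τ : Transducer W X) {σ : Type} [Fintype σ] (M : DFA τ.Z σ) (f : Y → Language W) :
    (σ × Y × σ) ⊕ σ → Language X
  | Sum.inl (p, y, q) => (τ.part M p q).image (f y)
  | Sum.inr p => {w | ∃ t, (∀ z ∈ t, τ.φ z = []) ∧ M.evalFrom p t ∈ M.accept ∧
      w = t.flatMap τ.ψ}

theorem path_to {τ : Transducer W X} {σ : Type} [Fintype σ] [DecidableEq σ] {M : DFA τ.Z σ}
    {f : Y → Language W} {ys : List Y} {v : List X} {p : σ}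
    (h : Path M.start (fun p y q => (τ.part M p q).image (f y)) ys v p) :
    ∃ θs : List ((σ × Y × σ) ⊕ σ), (pathDFA M.start).eval θs = some (some p) ∧
      θs.flatMap phI = ys ∧ SubstRel (fI τ M f) θs v := by
  induction h with
  | nil => exact ⟨[], rfl, rfl, SubstRel.nil⟩
  | @snoc ys x v y p q h1 h2 ih =>
    obtain ⟨θs, e1, e2, e3⟩ := ih
    refine ⟨θs ++ [Sum.inl (p, y, q)], ?_, ?_, SubstRel.snoc e3 h2⟩
    · rw [DFA.eval_append_singleton, e1]
      change (if p = p then some (some q) else none) = _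
      rw [if_pos rfl]
    · rw [List.flatMap_append, e2]
      rfl

theorem path_from {τ : Transducer W X} {σ : Type} [Fintype σ] [DecidableEq σ] {M : DFA τ.Z σ}
    {f : Y → Language W} {θs : List ((σ × Y × σ) ⊕ σ)} {x : List X}
    (h : SubstRel (fI τ M f) θs x) :
    (∀ p, (pathDFA M.start).eval θs = some (some p) →
      Path M.start (fun p y q => (τ.part M p q).image (f y)) (θs.flatMap phI) x p) ∧
    ((pathDFA M.start).eval θs = some none → ∃ v p t,
      Path M.start (fun p y q => (τ.part M p q).image (f y)) (θs.flatMap phI) v p ∧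
        (∀ z ∈ t, τ.φ z = []) ∧ M.evalFrom p t ∈ M.accept ∧ x = v ++ t.flatMap τ.ψ) := by
  induction h with
  | nil =>
    constructor
    · intro p hp
      have h1 : (some (some M.start) : Option (Option σ)) = some (some p) := hp
      have h2 : M.start = p := by simpa using h1
      rw [← h2]
      exact Path.nil
    · intro hp
      have h1 : (some (some M.start) : Option (Option σ)) = some none := hp
      exact absurd h1 (by simp)
  | @snoc θs w v θ h1 h2 ih =>
    rw [DFA.eval_append_singleton, List.flatMap_append]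
    cases hs : (pathDFA (Y := Y) M.start).eval θs with
    | none =>
      constructor
      · intro p hp
        exact absurd (show (none : Option (Option σ)) = some (some p) from hp) (by simp)
      · intro hp
        exact absurd (show (none : Option (Option σ)) = some none from hp) (by simp)
    | some o =>
      cases o with
      | none =>
        constructor
        · intro p hp
          exact absurd (show (none : Option (Option σ)) = some (some p) from hp) (by simp)
        · intro hp
          exact absurd (show (none : Option (Option σ)) = some none from hp) (by simp)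
      | some p₀ =>
        have hpath := ih.1 p₀ hs
        cases θ with
        | inl a =>
          obtain ⟨p', y, q⟩ := a
          constructor
          · intro p hp
            have h3 : (if p₀ = p' then some (some q) else none : Option (Option σ)) =
              some (some p) := hp
            split_ifs at h3 with h4
            have h5 : q = p := by simpa using h3
            subst h4 h5
            have : ([Sum.inl (p₀, y, q)] : List ((σ × Y × σ) ⊕ σ)).flatMap phI = [y] := rfl
            rw [this]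
            exact Path.snoc hpath h2
          · intro hp
            have h3 : (if p₀ = p' then some (some q) else none : Option (Option σ)) =
              some none := hp
            split_ifs at h3 with h4
            exact absurd h3 (by simp)
        | inr p' =>
          constructor
          · intro p hp
            have h3 : (if p₀ = p' then some none else none : Option (Option σ)) =
              some (some p) := hp
            split_ifs at h3 with h4
            exact absurd h3 (by simp)
          · intro hp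
            have h3 : (if p₀ = p' then some none else none : Option (Option σ)) =
              some none := hp
            split_ifs at h3 with h4
            subst h4
            obtain ⟨t, ht1, ht2, rfl⟩ := h2
            have : ([Sum.inr p₀] : List ((σ × Y × σ) ⊕ σ)).flatMap phI = [] := rfl
            rw [this, List.append_nil]
            exact ⟨w, p₀, t, hpath, ht1, ht2, rfl⟩

theorem image_substL_eq [Finite Y] [Finite W] {K : Language Y} {f : Y → Language W}
    (τ : Transducer W X) (hφ : ∀ z, (τ.φ z).length ≤ 1) {σ : Type} [Fintype σ] [DecidableEq σ]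
    (M : DFA τ.Z σ) (hM : M.accepts = τ.K) :
    τ.image (substL K f) = substL ((tauPath Y M.start).image K) (fI τ M f) := by
  ext x
  rw [image_substL τ hφ M hM]
  constructor
  · rintro ⟨ys, hys, v, p, t, hP, ht, hacc, rfl⟩
    obtain ⟨θs, e1, e2, e3⟩ := path_to hP
    refine ⟨θs ++ [Sum.inr p], ⟨θs ++ [Sum.inr p], ?_, ?_, ?_⟩,
      SubstRel.snoc e3 ⟨t, ht, hacc, rfl⟩⟩
    · change (pathDFA M.start).eval (θs ++ [Sum.inr p]) ∈ ({some none} : Set (Option (Option σ)))
      rw [DFA.eval_append_singleton, e1]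
      change (if p = p then some none else none) = _
      rw [if_pos rfl]
    · change (θs ++ [Sum.inr p]).flatMap phI ∈ K
      rw [List.flatMap_append, e2]
      have : ([Sum.inr p] : List ((σ × Y × σ) ⊕ σ)).flatMap phI = [] := rfl
      rw [this, List.append_nil]
      exact hys
    · exact flatMap_single _
  · rintro ⟨θs, ⟨h, hK, hL, hψ⟩, hr⟩
    have h1 : h.flatMap (fun z => [z]) = θs := hψ
    rw [flatMap_single] at h1
    subst h1
    have h2 : (pathDFA M.start).eval h = some none := hK
    obtain ⟨v, p, t, e1, e2, e3, e4⟩ := (path_from hr).2 h2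
    exact ⟨_, hL, v, p, t, e1, e2, e3, e4⟩

/-! ### growth -/

/-- growth of degree `d`, with logarithmic factors -/
def gr (d j n : ℕ) : ℕ := (n + 1) ^ d * (Nat.log 2 (n + 2)) ^ j

theorem one_le_log (n : ℕ) : 1 ≤ Nat.log 2 (n + 2) := by
  have : Nat.log 2 2 ≤ Nat.log 2 (n + 2) := Nat.log_mono_right (by omega)
  have h2 : Nat.log 2 2 = 1 := by decide
  omega

theorem one_le_gr (d j n : ℕ) : 1 ≤ gr d j n :=
  Nat.mul_pos (Nat.pow_pos (Nat.succ_pos n)) (Nat.pow_pos (one_le_log n))

theorem gr_mono {d j d' j' : ℕ} (n : ℕ) (hd : d ≤ d') (hj : j ≤ j') : gr d j n ≤ gr d' j' n :=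
  Nat.mul_le_mul (Nat.pow_le_pow_right (Nat.succ_pos n) hd)
    (Nat.pow_le_pow_right (one_le_log n) hj)

theorem gr_mul (d j e k n : ℕ) : gr d j n * gr e k n = gr (d + e) (j + k) n := by
  unfold gr
  rw [pow_add, pow_add]
  ring

theorem gr_succ (d j n : ℕ) : gr d j (n + 1) ≤ 2 ^ (d + j) * gr d j n := by
  unfold gr
  have h1 : Nat.log 2 (n + 1 + 2) ≤ 2 * Nat.log 2 (n + 2) := by
    have h2 : Nat.log 2 (n + 1 + 2) ≤ Nat.log 2 ((n + 2) * 2) := Nat.log_mono_right (by omega)
    rw [Nat.log_mul_base (by norm_num) (by omega)] at h2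
    have := one_le_log n
    omega
  calc (n + 1 + 1) ^ d * Nat.log 2 (n + 1 + 2) ^ j
      ≤ (2 * (n + 1)) ^ d * (2 * Nat.log 2 (n + 2)) ^ j := by
        gcongr
        omega
    _ = 2 ^ (d + j) * ((n + 1) ^ d * Nat.log 2 (n + 2) ^ j) := by
        rw [mul_pow, mul_pow, pow_add]
        ring

/-- `L` has index at most `d`: for every rational transduction `τ`, the pairs `(u, v)` of words of
length at most `n` with `u v ∈ τ(L)` are covered by `O(n^d log^j n)` rectangles contained in this
set. -/
def Idx (d : ℕ) (L : Language Y) : Prop :=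
  ∀ (X : Type) [Finite X] (τ : Transducer Y X), ∃ C j : ℕ, ∀ n, CovN n (C * gr d j n) (τ.image L)

theorem Idx.mono {d d' : ℕ} {L : Language Y} (h : Idx d L) (hd : d ≤ d') : Idx d' L := by
  intro X _ τ
  obtain ⟨C, j, hC⟩ := h X τ
  exact ⟨C, j, fun n => (hC n).mono le_rfl (Nat.mul_le_mul_left _ (gr_mono n hd le_rfl))⟩

theorem Idx.of_geq [Finite X] {d : ℕ} {L : Language Y} {M : Language X} (h : Idx d L)
    (hg : Geq L M) : Idx d M := by
  intro W _ τ
  obtain ⟨κ, rfl⟩ := hg
  obtain ⟨κ', hκ'⟩ := exists_comp' κ τ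
  obtain ⟨C, j, hC⟩ := h W κ'
  refine ⟨C, j, fun n => ?_⟩
  rw [← hκ']
  exact hC n

theorem exists_unif {Θ : Type} [Finite Θ] (g : Θ → ℕ) : ∃ B, ∀ θ, g θ ≤ B := by
  obtain ⟨B, hB⟩ := (Set.finite_range g).bddAbove
  exact ⟨B, fun θ => hB ⟨θ, rfl⟩⟩

/-- the trailing language -/
theorem trail_cov [Finite X] (τ : Transducer W X) {σ : Type} [Fintype σ] (M : DFA τ.Z σ) (p : σ) :
    ∃ C, ∀ n, CovN n C ({w | ∃ t, (∀ z ∈ t, τ.φ z = []) ∧ M.evalFrom p t ∈ M.accept ∧
      w = t.flatMap τ.ψ} : Language X) := by
  obtain ⟨m, B, _, hs⟩ := exists_sized (⟨τ.Z, τ.finZ, (⟨M.step, p, M.accept⟩ : DFA τ.Z σ).accepts,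
    isRegular_of_dfa _, τ.φ, τ.ψ⟩ : Transducer W X)
  obtain ⟨σ', hσ', N, hN⟩ := allL_regular (α := W) (fun _ => False)
  have h1 := nfa_image hs N
  refine ⟨m * Fintype.card σ' * nsh X B, fun n => ?_⟩
  · have h2 := covN_of_nfa h1 n
    have h3 : ({w | ∃ t, (∀ z ∈ t, τ.φ z = []) ∧ M.evalFrom p t ∈ M.accept ∧
        w = t.flatMap τ.ψ} : Language X) = Transducer.image (⟨τ.Z, τ.finZ,
          (⟨M.step, p, M.accept⟩ : DFA τ.Z σ).accepts, isRegular_of_dfa _, τ.φ, τ.ψ⟩ :
            Transducer W X) N.accepts := by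
      ext w
      rw [hN]
      constructor
      · rintro ⟨t, ht, hacc, rfl⟩
        refine ⟨t, hacc, ?_, rfl⟩
        have : t.flatMap τ.φ = [] := by
          rw [List.flatMap_eq_nil_iff]
          exact ht
        change t.flatMap τ.φ ∈ allL (fun _ => False)
        rw [this]
        intro z hz
        exact absurd hz (by simp)
      · rintro ⟨t, hacc, hL, rfl⟩
        refine ⟨t, ?_, hacc, rfl⟩
        have h4 : t.flatMap τ.φ = [] := by
          by_contra hc
          obtain ⟨z, hz⟩ := List.exists_mem_of_ne_nil _ hc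
          exact hL z hz
        rw [List.flatMap_eq_nil_iff] at h4
        exact h4
    rw [h3]
    exact h2

/-- **The index is subadditive under substitution** -/
theorem Idx.subst [Finite Y] [Finite W] {K : Language Y} {f : Y → Language W} {d e : ℕ}
    (hK : Idx d K) (hf : ∀ y, Idx e (f y)) : Idx (d + e) (substL K f) := by
  classical
  intro X _ τ₀
  obtain ⟨m, B, hB, hs⟩ := exists_sized τ₀
  obtain ⟨τ, _, hτ, hφ⟩ := exists_norm τ₀ hB hs
  obtain ⟨σ, hσ, M, hM⟩ := τ.regK
  have hfY : Fintype Y := Fintype.ofFinite Y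
  have hFI : ∀ θ : (σ × Y × σ) ⊕ σ, ∃ C j : ℕ, ∀ n, CovN n (C * gr e j n) (fI τ M f θ) := by
    rintro (⟨p, y, q⟩ | p)
    · exact hf y X (τ.part M p q)
    · obtain ⟨C, hC⟩ := trail_cov τ M p
      refine ⟨C, 0, fun n => (hC n).mono le_rfl ?_⟩
      exact Nat.le_mul_of_pos_right _ (one_le_gr _ _ _)
  choose C j hC using hFI
  obtain ⟨C₂, hC₂⟩ := exists_unif C
  obtain ⟨j₂, hj₂⟩ := exists_unif j
  obtain ⟨κ, hκ⟩ := exists_comp' (tauPath Y M.start) (tauMark (fI τ M f))
  obtain ⟨C₁, j₁, hC₁⟩ := hK _ κ
  set q := Fintype.card ((σ × Y × σ) ⊕ σ) with hq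
  refine ⟨C₁ * 2 ^ (d + j₁) * (q * C₂) + 1, j₁ + j₂, fun n => ?_⟩
  have h1 : CovN (n + 1) (C₁ * gr d j₁ (n + 1)) ((tauMark (fI τ M f)).image
      ((tauPath Y M.start).image K)) := by
    rw [← hκ]
    exact hC₁ (n + 1)
  have h2 : ∀ θ, CovN n (C₂ * gr e j₂ n) (fI τ M f θ) := fun θ =>
    (hC θ n).mono le_rfl (Nat.mul_le_mul (hC₂ θ) (gr_mono n le_rfl (hj₂ θ)))
  have h3 := h1.subst h2
  rw [← hτ, image_substL_eq τ hφ M hM]
  refine h3.mono le_rfl ?_
  have h4 := gr_succ d j₁ n
  have h5 := one_le_gr (d + e) (j₁ + j₂) n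
  calc C₁ * gr d j₁ (n + 1) * (q * (C₂ * gr e j₂ n)) + 1
      ≤ C₁ * (2 ^ (d + j₁) * gr d j₁ n) * (q * (C₂ * gr e j₂ n)) + gr (d + e) (j₁ + j₂) n := by
        gcongr
    _ = C₁ * 2 ^ (d + j₁) * (q * C₂) * (gr d j₁ n * gr e j₂ n) + gr (d + e) (j₁ + j₂) n := by ring
    _ = (C₁ * 2 ^ (d + j₁) * (q * C₂) + 1) * gr (d + e) (j₁ + j₂) n := by rw [gr_mul]; ring

end RCone
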