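import Pool.Agent.RCone.Classes

/-! # Coverability languages are pumpable (helper70, MP_a8de0d_lc) -/

namespace RCone

open Language

variable {X Y W V : Type}

theorem chain_ub {α ι : Type*} [Preorder α] {c : Set α} (hc : IsChain (· ≤ ·) c) {y₀ : α}
    (hy : y₀ ∈ c) (s : Finset ι) (z : ι → α) (hz : ∀ i, z i ∈ c) :
    ∃ y ∈ c, ∀ i ∈ s, z i ≤ y := by
  classical
  induction s using Finset.induction_on with
  | empty => exact ⟨y₀, hy, by simp⟩
  | insert a s _ ih =>
    obtain ⟨y, hyc, hy'⟩ := ih
    rcases hc.total (hz a) hyc with h | h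
    · refine ⟨y, hyc, fun i hi => ?_⟩
      rcases Finset.mem_insert.mp hi with rfl | hi
      · exact h
      · exact hy' i hi
    · refine ⟨z a, hz a, fun i hi => ?_⟩
      rcases Finset.mem_insert.mp hi with rfl | hi
      · exact le_rfl
      · exact (hy' i hi).trans h

/-- the vector as a vector with possibly infinite entries -/
def up {d : ℕ} (x : Fin d → ℕ) : Fin d → ℕ∞ := fun i => (x i : ℕ∞)

/-- finite representation of a set of vectors up to domination -/
theorem exists_rep {d : ℕ} (S : Set (Fin d → ℕ)) : ∃ V : List (Fin d → ℕ∞),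
    (∀ x ∈ S, ∃ v ∈ V, up x ≤ v) ∧ ∀ v ∈ V, ∀ x, up x ≤ v → ∃ y ∈ S, x ≤ y := by
  set C : Set (Fin d → ℕ∞) := {v | ∀ x, up x ≤ v → ∃ y ∈ S, x ≤ y} with hC
  have hanti : IsAntichain (· ≤ ·) {v | Maximal (· ∈ C) v} := by
    intro v hv w hw hne hle
    exact hne (le_antisymm hle (hv.2 hw.1 hle))
  have hfin : {v | Maximal (· ∈ C) v}.Finite :=
    hanti.finite_of_wellQuasiOrdered wellQuasiOrdered_le
  refine ⟨hfin.toFinset.toList, ?_, ?_⟩
  · intro x hx
    have hxC : up x ∈ C := by
      intro z hz
      refine ⟨x, hx, fun i => ?_⟩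
      have := hz i
      simpa [up] using this
    obtain ⟨m, hm1, hm2⟩ := zorn_le_nonempty₀ C (by
      intro c hc hchain y hy
      refine ⟨sSup c, ?_, fun z hz => le_sSup hz⟩
      intro z hz
      have hex : ∀ i, ∃ w ∈ c, (z i : ℕ∞) ≤ w i := by
        intro i
        rcases Nat.eq_zero_or_pos (z i) with h0 | h0
        · exact ⟨y, hy, by simp [h0]⟩
        · have h1 : ((z i - 1 : ℕ) : ℕ∞) < (sSup c) i := by
            refine lt_of_lt_of_le ?_ (hz i)
            have : z i - 1 < z i := by omega
            change ((z i - 1 : ℕ) : ℕ∞) < (z i : ℕ∞)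
            exact_mod_cast this
          rw [sSup_apply, lt_iSup_iff] at h1
          obtain ⟨⟨w, hw⟩, h2⟩ := h1
          refine ⟨w, hw, ?_⟩
          have h3 := Order.add_one_le_of_lt h2
          have h4 : ((z i - 1 : ℕ) : ℕ∞) + 1 = (z i : ℕ∞) := by
            have : z i - 1 + 1 = z i := by omega
            exact_mod_cast this
          rw [h4] at h3
          exact h3
      choose w hw1 hw2 using hex
      obtain ⟨u, hu, hub⟩ := chain_ub hchain hy Finset.univ w hw1
      exact hc hu z fun i => (hw2 i).trans (hub i (Finset.mem_univ _) i)) (up x) hxC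
    exact ⟨m, by simpa using hm2, hm1⟩
  · intro v hv
    have : Maximal (· ∈ C) v := by simpa using hv
    exact this.1

theorem forall₂_mem {α β : Type*} {R : α → β → Prop} {l₁ : List α} {l₂ : List β}
    (h : List.Forall₂ R l₁ l₂) : ∀ v ∈ l₁, ∃ w ∈ l₂, R v w := by
  induction h with
  | nil => intro v hv; exact absurd hv (by simp)
  | cons hab _ ih =>
    intro v hv
    rcases List.mem_cons.mp hv with rfl | hv
    · exact ⟨_, List.mem_cons_self, hab⟩
    · obtain ⟨w, hw, hle⟩ := ih v hv
      exact ⟨w, List.mem_cons_of_mem _ hw, hle⟩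

/-- sets of vectors are well-quasi-ordered by domination -/
theorem wqo_dom (d : ℕ) : WellQuasiOrdered fun S T : Set (Fin d → ℕ) =>
    ∀ x ∈ S, ∃ y ∈ T, x ≤ y := by
  have hig := Set.PartiallyWellOrderedOn.partiallyWellOrderedOn_sublistForall₂
    (α := Fin d → ℕ∞) (· ≤ ·) (s := Set.univ) (by
      intro f
      obtain ⟨m, n, hmn, h⟩ := wellQuasiOrdered_le (α := Fin d → ℕ∞) (fun k => (f k).1)
      exact ⟨m, n, hmn, h⟩)
  intro f
  choose V hV1 hV2 using fun k => exists_rep (f k)
  obtain ⟨m, n, hmn, h⟩ := hig (fun k => ⟨V k, fun x _ => Set.mem_univ x⟩)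
  refine ⟨m, n, hmn, fun x hx => ?_⟩
  obtain ⟨v, hv, hxv⟩ := hV1 m x hx
  have h' : List.SublistForall₂ (· ≤ ·) (V m) (V n) := h
  obtain ⟨l, hl1, hl2⟩ := List.sublistForall₂_iff.mp h'
  obtain ⟨w, hw, hvw⟩ := forall₂_mem hl1 v hv
  exact hV2 n w (hl2.subset hw) x (hxv.trans hvw)

open Classical in
/-- the words over `a_i = (i, true)` and `b_i = (i, false)` (`i < d`) in which every prefix has at
least as many letters `a_i` as `b_i` -/
noncomputable def cover (d : ℕ) : Language (Fin d × Bool) :=
  {w | ∀ u, u <+: w → ∀ i, u.count (i, false) ≤ u.count (i, true)}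

open Classical in
/-- the same for the suffixes -/
noncomputable def coverRev (d : ℕ) : Language (Fin d × Bool) :=
  {w | ∀ u, u <:+ w → ∀ i, u.count (i, false) ≤ u.count (i, true)}

open Classical in
theorem wqo_coverRev (d : ℕ) : WellQuasiOrdered fun S T : Set (List (Fin d × Bool)) =>
    completes (coverRev d) S ⊆ completes (coverRev d) T := by
  refine wqo_of_map (wqo_dom d) (fun S => {x | ∃ s ∈ S, s ∈ coverRev d ∧
    x = fun i => s.count (i, true) - s.count (i, false)}) ?_
  intro S T hST w hw
  obtain ⟨s, hs, hws⟩ := hw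
  have hsc : s ∈ coverRev d := fun u hu i => hws u (hu.trans (List.suffix_append w s)) i
  obtain ⟨_, ⟨t, ht, htc, rfl⟩, hle⟩ := hST _ ⟨s, hs, hsc, rfl⟩
  refine ⟨t, ht, ?_⟩
  intro u hu i
  rcases List.suffix_or_suffix_of_suffix hu (List.suffix_append w t) with h | ⟨v, hv⟩
  · exact htc u h i
  · have hvw : v <:+ w := by
      rw [← hv] at hu
      obtain ⟨r, hr⟩ := hu
      rw [← List.append_assoc] at hr
      exact ⟨r, List.append_cancel_right hr⟩
    have h1 := hws (v ++ s) (by
      obtain ⟨r, hr⟩ := hvw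
      exact ⟨r, by rw [← List.append_assoc, hr]⟩) i
    have h2 := hsc s (List.suffix_refl _) i
    have h3 := hle i
    have h4 := htc t (List.suffix_refl _) i
    dsimp only at h3
    rw [List.count_append, List.count_append] at h1
    rw [← hv, List.count_append, List.count_append]
    omega

open Classical in
theorem wqo_cover (d : ℕ) : WellQuasiOrdered fun S T : Set (List (Fin d × Bool)) =>
    completes (cover d) T ⊆ completes (cover d) S := by
  refine wqo_of_map (wqo_dom d) (fun S => {x : Fin d → ℕ | ∀ s ∈ S,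
    ¬ ∀ u, u <+: s → ∀ i, u.count (i, false) ≤ u.count (i, true) + x i}) ?_
  intro S T hST w hw
  obtain ⟨t, ht, hwt⟩ := hw
  by_contra hcon
  have hwc : w ∈ cover d := fun u hu i => hwt u (hu.trans (List.prefix_append w t)) i
  have hx : (fun i => w.count (i, true) - w.count (i, false)) ∈ {x : Fin d → ℕ | ∀ s ∈ S,
      ¬ ∀ u, u <+: s → ∀ i, u.count (i, false) ≤ u.count (i, true) + x i} := by
    intro s hs hok
    apply hcon
    refine ⟨s, hs, ?_⟩
    intro u hu i
    rcases List.prefix_or_prefix_of_prefix hu (List.prefix_append w s) with h | ⟨v, hv⟩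
    · exact hwc u h i
    · have hvs : v <+: s := by
        rw [← hv] at hu
        obtain ⟨r, hr⟩ := hu
        rw [List.append_assoc] at hr
        exact ⟨r, List.append_cancel_left hr⟩
      have h1 := hok v hvs i
      dsimp only at h1
      have h2 := hwc w (List.prefix_refl _) i
      rw [← hv, List.count_append, List.count_append]
      omega
  obtain ⟨y, hy, hle⟩ := hST _ hx
  apply hy t ht
  intro u hu i
  have h1 := hwt (w ++ u) (by
    obtain ⟨r, hr⟩ := hu
    exact ⟨r, by rw [List.append_assoc, hr]⟩) i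
  have h2 := hwc w (List.prefix_refl _) i
  have h3 := hle i
  dsimp only at h3
  rw [List.count_append, List.count_append] at h1
  omega

theorem pumpUp_coverRev (d : ℕ) : PumpUp (coverRev d) := pumpUp_of_wqo (wqo_coverRev d)

theorem pumpDown_cover (d : ℕ) : PumpDown (cover d) := pumpDown_of_wqo (wqo_cover d)

end RCone
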