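import Pool.Agent.RCone.Adv

/-! # The linear criterion (helper70, MP_a8de0d_lc) -/

namespace RCone

open Language

variable {X Y W V : Type}

open Classical in
/-- control automaton for the join with a regular language -/
noncomputable def joinDFA {σ : Type} (M : DFA W σ) :
    DFA (Option Y ⊕ Option W) (Option (Option (Option σ))) where
  step s z := match s, z with
    | none, Sum.inl none => some none
    | some none, Sum.inl (some _) => some none
    | none, Sum.inr none => some (some (some M.start))
    | some (some (some q)), Sum.inr (some a) => some (some (some (M.step q a)))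
    | _, _ => some (some none)
  start := none
  accept := {s | s = some none ∨ ∃ q ∈ M.accept, s = some (some (some q))}

theorem joinDFA_dead {σ : Type} (M : DFA W σ) (h : List (Option Y ⊕ Option W)) :
    (joinDFA M).evalFrom (some (some none)) h = some (some none) := by
  induction h with
  | nil => rfl
  | cons z h ih =>
    rw [DFA.evalFrom_cons]
    have : (joinDFA M).step (some (some none)) z = (some (some none)) := by
      rcases z with (_ | _) | (_ | _) <;> rfl
    rw [this, ih]

theorem joinDFA_left {σ : Type} (M : DFA W σ) (h : List (Option Y ⊕ Option W)) :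
    ((joinDFA M).evalFrom (some none) h ∈ (joinDFA (Y := Y) M).accept ↔
      ∃ u : List Y, h = u.map fun a => Sum.inl (some a)) := by
  induction h with
  | nil => exact ⟨fun _ => ⟨[], rfl⟩, fun _ => Or.inl rfl⟩
  | cons z h ih =>
    rw [DFA.evalFrom_cons]
    rcases z with (_ | a) | (_ | a)
    · have : (joinDFA M).step (some none) (Sum.inl (none : Option Y)) = some (some none) := rfl
      rw [this, joinDFA_dead]
      constructor
      · rintro (h | ⟨q, _, h⟩) <;> simp at h
      · rintro ⟨u, hu⟩
        cases u <;> simp at hu
    · have : (joinDFA M).step (some none) (Sum.inl (some a : Option Y)) = some none := rfl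
      rw [this, ih]
      constructor
      · rintro ⟨u, rfl⟩
        exact ⟨a :: u, rfl⟩
      · rintro ⟨u, hu⟩
        cases u with
        | nil => simp at hu
        | cons b u =>
          simp only [List.map_cons, List.cons.injEq] at hu
          exact ⟨u, hu.2⟩
    · have : (joinDFA (Y := Y) M).step (some none) (Sum.inr none) = some (some none) := rfl
      rw [this, joinDFA_dead]
      constructor
      · rintro (h | ⟨q, _, h⟩) <;> simp at h
      · rintro ⟨u, hu⟩
        cases u <;> simp at hu
    · have : (joinDFA (Y := Y) M).step (some none) (Sum.inr (some a)) = some (some none) := rfl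
      rw [this, joinDFA_dead]
      constructor
      · rintro (h | ⟨q, _, h⟩) <;> simp at h
      · rintro ⟨u, hu⟩
        cases u <;> simp at hu

theorem joinDFA_right {σ : Type} (M : DFA W σ) (h : List (Option Y ⊕ Option W)) (q : σ) :
    ((joinDFA M).evalFrom (some (some (some q))) h ∈ (joinDFA (Y := Y) M).accept ↔
      ∃ v : List W, M.evalFrom q v ∈ M.accept ∧ h = v.map fun a => Sum.inr (some a)) := by
  induction h generalizing q with
  | nil =>
    constructor
    · rintro (h | ⟨q', h', h⟩)
      · simp at h
      · refine ⟨[], ?_, rfl⟩
        have h1 : some (some (some q)) = some (some (some q')) := h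
        simp only [Option.some.injEq] at h1
        rw [DFA.evalFrom_nil, h1]
        exact h'
    · rintro ⟨v, hv, he⟩
      have : v = [] := by
        cases v with
        | nil => rfl
        | cons a v => simp at he
      rw [this] at hv
      exact Or.inr ⟨q, hv, rfl⟩
  | cons z h ih =>
    rw [DFA.evalFrom_cons]
    rcases z with (_ | a) | (_ | a)
    · have : (joinDFA M).step (some (some (some q))) (Sum.inl (none : Option Y)) =
        some (some none) := rfl
      rw [this, joinDFA_dead]
      constructor
      · rintro (h | ⟨q, _, h⟩) <;> simp at h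
      · rintro ⟨u, _, hu⟩
        cases u <;> simp at hu
    · have : (joinDFA M).step (some (some (some q))) (Sum.inl (some a : Option Y)) =
        some (some none) := rfl
      rw [this, joinDFA_dead]
      constructor
      · rintro (h | ⟨q, _, h⟩) <;> simp at h
      · rintro ⟨u, _, hu⟩
        cases u <;> simp at hu
    · have : (joinDFA (Y := Y) M).step (some (some (some q))) (Sum.inr none) =
        some (some none) := rfl
      rw [this, joinDFA_dead]
      constructor
      · rintro (h | ⟨q, _, h⟩) <;> simp at h
      · rintro ⟨u, _, hu⟩
        cases u <;> simp at hu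
    · have : (joinDFA (Y := Y) M).step (some (some (some q))) (Sum.inr (some a)) =
        some (some (some (M.step q a))) := rfl
      rw [this, ih]
      constructor
      · rintro ⟨v, hv, rfl⟩
        exact ⟨a :: v, hv, rfl⟩
      · rintro ⟨v, hv, hu⟩
        cases v with
        | nil => simp at hu
        | cons b v =>
          simp only [List.map_cons, List.cons.injEq, Sum.inr.injEq, Option.some.injEq] at hu
          refine ⟨v, ?_, hu.2⟩
          rw [hu.1]
          exact hv

theorem joinDFA_accepts {σ : Type} (M : DFA W σ) (h : List (Option Y ⊕ Option W)) :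
    h ∈ (joinDFA (Y := Y) M).accepts ↔
      (∃ u : List Y, h = Sum.inl none :: u.map fun a => Sum.inl (some a)) ∨
      ∃ v ∈ M.accepts, h = Sum.inr none :: v.map fun a => Sum.inr (some a) := by
  change (joinDFA M).evalFrom none h ∈ (joinDFA (Y := Y) M).accept ↔ _
  cases h with
  | nil =>
    constructor
    · rintro (h | ⟨q', h', h⟩) <;> simp at h
    · rintro (⟨u, hu⟩ | ⟨v, _, hu⟩) <;> simp at hu
  | cons z h =>
    rw [DFA.evalFrom_cons]
    rcases z with (_ | a) | (_ | a)
    · have : (joinDFA M).step none (Sum.inl (none : Option Y)) = some none := rfl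
      rw [this, joinDFA_left]
      constructor
      · rintro ⟨u, rfl⟩
        exact Or.inl ⟨u, rfl⟩
      · rintro (⟨u, hu⟩ | ⟨v, _, hu⟩)
        · simp only [List.cons.injEq, true_and] at hu
          exact ⟨u, hu⟩
        · simp at hu
    · have : (joinDFA M).step none (Sum.inl (some a : Option Y)) = some (some none) := rfl
      rw [this, joinDFA_dead]
      constructor
      · rintro (h | ⟨q, _, h⟩) <;> simp at h
      · rintro (⟨u, hu⟩ | ⟨v, _, hu⟩) <;> simp at hu
    · have : (joinDFA (Y := Y) M).step none (Sum.inr none) =
        some (some (some M.start)) := rfl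
      rw [this, joinDFA_right]
      constructor
      · rintro ⟨v, hv, rfl⟩
        exact Or.inr ⟨v, hv, rfl⟩
      · rintro (⟨u, hu⟩ | ⟨v, hv, hu⟩)
        · simp at hu
        · simp only [List.cons.injEq, true_and] at hu
          exact ⟨v, hv, hu⟩
    · have : (joinDFA (Y := Y) M).step none (Sum.inr (some a)) = some (some none) := rfl
      rw [this, joinDFA_dead]
      constructor
      · rintro (h | ⟨q, _, h⟩) <;> simp at h
      · rintro (⟨u, hu⟩ | ⟨v, _, hu⟩) <;> simp at hu

/-- a nonempty language is above its join with a regular language, at the cost of the automaton -/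
theorem geqS_join [Finite Y] [Finite W] {L : Language Y} {x₀ : List Y} (hx : x₀ ∈ L) {σ : Type}
    [Fintype σ] (M : DFA W σ) :
    GeqS (Fintype.card σ + 3) (x₀.length + 1) L (join L M.accepts) := by
  classical
  let φ : Option Y ⊕ Option W → List Y := fun z =>
    z.elim (fun o => o.toList) (fun o => o.elim x₀ fun _ => [])
  let ψ : Option Y ⊕ Option W → List (Option (Y ⊕ W)) := fun z =>
    z.elim (fun o => [o.map Sum.inl]) (fun o => o.elim [] fun a => [some (Sum.inr a)])
  have hφl : ∀ u : List Y, (u.map fun a => (Sum.inl (some a) : Option Y ⊕ Option W)).flatMap φ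
      = u := by
    intro u
    induction u with
    | nil => rfl
    | cons a u ih => rw [List.map_cons, List.flatMap_cons, ih]; rfl
  have hψl : ∀ u : List Y, (u.map fun a => (Sum.inl (some a) : Option Y ⊕ Option W)).flatMap ψ
      = u.map fun a => some (Sum.inl a) := by
    intro u
    induction u with
    | nil => rfl
    | cons a u ih => rw [List.map_cons, List.flatMap_cons, ih]; rfl
  have hφr : ∀ u : List W, (u.map fun a => (Sum.inr (some a) : Option Y ⊕ Option W)).flatMap φ
      = [] := by
    intro u
    induction u with
    | nil => rfl
    | cons a u ih => rw [List.map_cons, List.flatMap_cons, ih]; rfl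
  have hψr : ∀ u : List W, (u.map fun a => (Sum.inr (some a) : Option Y ⊕ Option W)).flatMap ψ
      = u.map fun a => some (Sum.inr a) := by
    intro u
    induction u with
    | nil => rfl
    | cons a u ih => rw [List.map_cons, List.flatMap_cons, ih]; rfl
  refine ⟨⟨Option Y ⊕ Option W, inferInstance, (joinDFA M).accepts, isRegular_of_dfa _, φ, ψ⟩,
    ⟨⟨_, inferInstance, joinDFA M, rfl, ?_⟩, ?_⟩, ?_⟩
  · rw [Fintype.card_option, Fintype.card_option, Fintype.card_option]
  · rintro ((_ | a) | (_ | a))
    · exact ⟨Nat.zero_le _, Nat.succ_le_succ (Nat.zero_le _)⟩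
    · exact ⟨Nat.succ_le_succ (Nat.zero_le _), Nat.succ_le_succ (Nat.zero_le _)⟩
    · exact ⟨Nat.le_succ _, Nat.zero_le _⟩
    · exact ⟨Nat.zero_le _, Nat.succ_le_succ (Nat.zero_le _)⟩
  · ext w
    constructor
    · rintro ⟨h, hK, hL, rfl⟩
      rcases (joinDFA_accepts M h).mp hK with ⟨u, rfl⟩ | ⟨v, hv, rfl⟩
      · left
        refine ⟨u, ?_, ?_⟩
        · have : (Sum.inl none :: u.map fun a =>
            (Sum.inl (some a) : Option Y ⊕ Option W)).flatMap φ ∈ L := hL
          rw [List.flatMap_cons, hφl] at this
          exact this
        · change (Sum.inl none :: u.map fun a =>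
            (Sum.inl (some a) : Option Y ⊕ Option W)).flatMap ψ = _
          rw [List.flatMap_cons, hψl]
          rfl
      · right
        refine ⟨v, hv, ?_⟩
        change (Sum.inr none :: v.map fun a =>
          (Sum.inr (some a) : Option Y ⊕ Option W)).flatMap ψ = _
        rw [List.flatMap_cons, hψr]
        rfl
    · rintro (⟨u, hu, rfl⟩ | ⟨v, hv, rfl⟩)
      · refine ⟨_, (joinDFA_accepts M _).mpr (Or.inl ⟨u, rfl⟩), ?_, ?_⟩
        · change (Sum.inl none :: u.map fun a =>
            (Sum.inl (some a) : Option Y ⊕ Option W)).flatMap φ ∈ L
          rw [List.flatMap_cons, hφl]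
          exact hu
        · change (Sum.inl none :: u.map fun a =>
            (Sum.inl (some a) : Option Y ⊕ Option W)).flatMap ψ = _
          rw [List.flatMap_cons, hψl]
          rfl
      · refine ⟨_, (joinDFA_accepts M _).mpr (Or.inr ⟨v, hv, rfl⟩), ?_, ?_⟩
        · change (Sum.inr none :: v.map fun a =>
            (Sum.inr (some a) : Option Y ⊕ Option W)).flatMap φ ∈ L
          rw [List.flatMap_cons, hφr, List.append_nil]
          exact hx
        · change (Sum.inr none :: v.map fun a =>
            (Sum.inr (some a) : Option Y ⊕ Option W)).flatMap ψ = _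
          rw [List.flatMap_cons, hψr]
          rfl

end RCone
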