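import Pool.Agent.RCone.Cover

/-! # Density above pumpable languages (helper70, MP_a8de0d_lc) -/

namespace RCone

open Language

variable {X Y W V : Type}

theorem unbounded_diff {A B : Set ℕ} (hA : Periodic A) (hB : Periodic B) (h : ¬ A ⊆ B) :
    ∀ n, ∃ a, n ≤ a ∧ a ∈ A ∧ a ∉ B := by
  obtain ⟨a, ha, hb⟩ := Set.not_subset.mp h
  obtain ⟨p, hp, hpA⟩ := hA
  obtain ⟨q, hq, hqB⟩ := hB
  intro n
  refine ⟨a + n * (p * q), ?_, ?_, ?_⟩
  · have : 0 < p * q := Nat.mul_pos hp hq
    nlinarith
  · have h1 := (Periodic.add_mul hpA (n * q) a).mp ha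
    rwa [mul_assoc, mul_comm q p] at h1
  · intro hc
    apply hb
    have h1 := (Periodic.add_mul hqB (n * p) a).mpr
    rw [mul_assoc] at h1
    exact h1 hc

/-- the Boolean algebra of periodic sets is dense -/
theorem exists_periodic_between {A B : Set ℕ} (hA : Periodic A) (hB : Periodic B) (hAB : A ⊆ B)
    (hne : ¬ B ⊆ A) : ∃ C, Periodic C ∧ A ⊆ C ∧ C ⊆ B ∧ ¬ C ⊆ A ∧ ¬ B ⊆ C := by
  obtain ⟨r, hrB, hrA⟩ := Set.not_subset.mp hne
  obtain ⟨p, hp, hpA⟩ := hA
  obtain ⟨q, hq, hqB⟩ := hB
  have hpq : 0 < p * q := Nat.mul_pos hp hq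
  have hA' : ∀ k n, n ∈ A ↔ n + k * (p * q) ∈ A := by
    intro k n
    have h1 := Periodic.add_mul hpA (k * q) n
    rwa [mul_assoc, mul_comm q p] at h1
  have hB' : ∀ k n, n ∈ B ↔ n + k * (p * q) ∈ B := by
    intro k n
    have h1 := Periodic.add_mul hqB (k * p) n
    rwa [mul_assoc] at h1
  refine ⟨A ∪ {n | n ∈ B ∧ n % (2 * (p * q)) = r % (2 * (p * q))}, ⟨2 * (p * q), by omega, ?_⟩,
    Set.subset_union_left, ?_, ?_, ?_⟩
  · intro n
    simp only [Set.mem_union, Set.mem_setOf_eq, Nat.add_mod_right]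
    rw [← hA' 2 n, ← hB' 2 n]
  · rintro n (h | ⟨h, _⟩)
    · exact hAB h
    · exact h
  · intro h
    exact hrA (h (Or.inr ⟨hrB, rfl⟩))
  · intro h
    have h0 : r + 1 * (p * q) ∈ B := (hB' 1 r).mp hrB
    rcases h h0 with h1 | ⟨_, h1⟩
    · exact hrA ((hA' 1 r).mpr h1)
    · have h2 : (r + 1 * (p * q)) ≡ r [MOD 2 * (p * q)] := h1
      have h3 : 1 * (p * q) ≡ 0 [MOD 2 * (p * q)] := by
        have h4 : r + 1 * (p * q) ≡ r + 0 [MOD 2 * (p * q)] := by simpa using h2
        exact Nat.ModEq.add_left_cancel' r h4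
      rw [Nat.modEq_zero_iff_dvd, one_mul] at h3
      have := Nat.le_of_dvd hpq h3
      omega

/-- pumpable in one of the two directions -/
def Pumpable (N : Language X) : Prop := PumpUp N ∨ PumpDown N

theorem join_geq_join_iff [Finite X] {N : Language X} (hN : Pumpable N) {A B : Set ℕ}
    (hA : Periodic A) (hB : Periodic B) : Geq (join N (H B)) (join N (H A)) ↔ A ⊆ B := by
  constructor
  · intro h
    by_contra hcon
    exact not_join_geq hN (unbounded_diff hA hB hcon) (h.trans (join_right N (H A)))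
  · intro h
    exact (join_left N (H B)).join ((join_right N (H B)).trans (H_geq_H hA h))

/-- **Density**: between a language above `N` and a denser clock and a language below `N` joined
with a sparser clock there is a third language. -/
theorem exists_between [Finite X] [Finite Y] [Finite W] {N : Language X} (hN : Pumpable N)
    {L₁ : Language Y} (h₁ : Geq L₁ N) {A B : Set ℕ} (hA : Periodic A) (hB : Periodic B)
    (hAB : A ⊆ B) (hne : ¬ B ⊆ A) (h₁' : Geq L₁ (H B)) {L₂ : Language W}
    (h₂ : Geq (join N (H A)) L₂) : ∃ M : Language (Option (X ⊕ Sym)), Between L₁ M L₂ := by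
  obtain ⟨C, hC, hAC, hCB, hCA, hBC⟩ := exists_periodic_between hA hB hAB hne
  refine ⟨join N (H C), ⟨h₁.join (h₁'.trans (H_geq_H hC hCB)), ?_⟩,
    ((join_geq_join_iff hN hA hC).mpr hAC).trans h₂, ?_⟩
  · intro h
    exact not_join_geq hN (unbounded_diff hB hC hBC) (h.trans h₁')
  · intro h
    exact not_join_geq hN (unbounded_diff hC hA hCA) (h₂.trans (h.trans (join_right N (H C))))

/-- Q1 for a pumpable lower language and an upper language above Goldstine's language -/
theorem exists_between_of_pumpable [Finite X] [Finite Y] {L₁ : Language X} {L₂ : Language Y}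
    (hL : Pumpable L₂) (h : Geq L₁ L₂) (hG : Geq L₁ goldstine) :
    ∃ M : Language (Option (Y ⊕ Sym)), Between L₁ M L₂ :=
  exists_between hL h periodic_empty periodic_univ (Set.empty_subset _)
    (fun hc => hc (Set.mem_univ 0)) (hG.trans (goldstine_geq_H periodic_univ))
    (join_left L₂ (H ∅))

end RCone
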