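import Pool.Agent.RCone.Fool

/-! # Languages with bounded fooling sets (helper70, MP_a8de0d_lc) -/

namespace RCone

open Language

variable {X Y W V : Type}

theorem split_star {K : Language X} {u v : List X} (h : u ++ v ∈ KStar.kstar K) :
    (u ∈ KStar.kstar K ∧ v ∈ KStar.kstar K) ∨ ∃ s a b t, u = s ++ a ∧ v = b ++ t ∧
      s ∈ KStar.kstar K ∧ t ∈ KStar.kstar K ∧ a ++ b ∈ K := by
  rw [Language.mem_kstar] at h
  obtain ⟨L, hL, hLK⟩ := h
  induction L generalizing u with
  | nil =>
    have h1 := List.append_eq_nil_iff.mp hL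
    left
    rw [h1.1, h1.2]
    exact ⟨Language.nil_mem_kstar K, Language.nil_mem_kstar K⟩
  | cons w L ih =>
    have hLs : L.flatten ∈ KStar.kstar K :=
      Language.mem_kstar.mpr ⟨L, rfl, fun y hy => hLK y (List.mem_cons_of_mem _ hy)⟩
    have hw : w ∈ K := hLK w List.mem_cons_self
    rw [List.flatten_cons] at hL
    rcases List.append_eq_append_iff.mp hL with ⟨c, h1, h2⟩ | ⟨c, h1, h2⟩
    · right
      exact ⟨[], u, c, L.flatten, rfl, h2, Language.nil_mem_kstar K, hLs, by rw [← h1]; exact hw⟩
    · have hcons : ∀ x, x ∈ KStar.kstar K → w ++ x ∈ KStar.kstar K := by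
        intro x hx
        obtain ⟨L', hL', hL'K⟩ := Language.mem_kstar.mp hx
        refine Language.mem_kstar.mpr ⟨w :: L', by rw [List.flatten_cons, hL'], ?_⟩
        intro y hy
        rcases List.mem_cons.mp hy with rfl | hy
        · exact hw
        · exact hL'K y hy
      rcases ih h2.symm (fun y hy => hLK y (List.mem_cons_of_mem _ hy)) with
        ⟨h3, h4⟩ | ⟨s, a, b, t, h3, h4, h5, h6, h7⟩
      · left
        rw [h1]
        exact ⟨hcons c h3, h4⟩
      · right
        exact ⟨w ++ s, a, b, t, by rw [h1, h3, List.append_assoc], h4, hcons s h5, h6, h7⟩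

theorem kstar_append {K : Language X} {x y : List X} (hx : x ∈ KStar.kstar K)
    (hy : y ∈ KStar.kstar K) : x ++ y ∈ KStar.kstar K := by
  obtain ⟨L, rfl, hL⟩ := Language.mem_kstar.mp hx
  obtain ⟨L', rfl, hL'⟩ := Language.mem_kstar.mp hy
  refine Language.mem_kstar.mpr ⟨L ++ L', by rw [List.flatten_append], ?_⟩
  intro y hy
  rcases List.mem_append.mp hy with h | h
  · exact hL y h
  · exact hL' y h

/-- star -/
theorem FinFool.kstar {K : Language X} (hK : FinFool K) : FinFool (KStar.kstar K) := by
  classical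
  obtain ⟨F, hF⟩ := hK
  refine ⟨1 + F, fun ι _ u v hf => ?_⟩
  let p : ι → Prop := fun i => u i ∈ KStar.kstar K ∧ v i ∈ KStar.kstar K
  have hsum : Fintype.card ι = Fintype.card {i : ι // p i} + Fintype.card {i : ι // ¬ p i} :=
    (Fintype.card_congr (Equiv.sumCompl p)).symm.trans Fintype.card_sum
  have h1 : Fintype.card {i : ι // p i} ≤ 1 := by
    rw [Fintype.card_le_one_iff]
    intro i j
    by_contra hij
    exact hf.2 i.1 j.1 (fun he => hij (Subtype.ext he)) (kstar_append i.2.1 j.2.2)
  have hq : ∀ i : {i : ι // ¬ p i}, ∃ s a b t, u i.1 = s ++ a ∧ v i.1 = b ++ t ∧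
      s ∈ KStar.kstar K ∧ t ∈ KStar.kstar K ∧ a ++ b ∈ K := fun i =>
    (split_star (hf.1 i.1)).resolve_left i.2
  choose s a b t e1 e2 e3 e4 e5 using hq
  have h2 := hF {i : ι // ¬ p i} a b ⟨e5, fun i j hij hm =>
    hf.2 i.1 j.1 (fun he => hij (Subtype.ext he)) (by
      have h6 : a i ++ b j ∈ KStar.kstar K :=
        Language.mem_kstar.mpr ⟨[a i ++ b j], by simp, by simpa using hm⟩
      have h7 := kstar_append (kstar_append (e3 i) h6) (e4 j)
      rw [e1 i, e2 j]
      simpa using h7)⟩
  omega

theorem finFool_of_regular {L : Language X} (hL : L.IsRegular) : FinFool L := by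
  obtain ⟨σ, hσ, M, rfl⟩ := hL
  refine ⟨Fintype.card σ, fun ι _ u v hf => ?_⟩
  by_contra hcon
  push Not at hcon
  obtain ⟨i, j, hne, heq⟩ := Fintype.exists_ne_map_eq_of_card_lt (fun i : ι => M.eval (u i)) hcon
  apply hf.2 j i hne.symm
  have h1 : M.evalFrom M.start (u i ++ v i) ∈ M.accept := hf.1 i
  change M.evalFrom M.start (u j ++ v i) ∈ M.accept
  rw [DFA.evalFrom_of_append] at h1 ⊢
  rw [show M.evalFrom M.start (u j) = M.evalFrom M.start (u i) from heq.symm]
  exact h1

/-- the complement of the set of prefixes of one finite or infinite word -/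
theorem finFool_of_coprefix {V : Set (List X)} (h1 : ∀ x y, x ++ y ∈ V → x ∈ V)
    (h2 : ∀ x ∈ V, ∀ y ∈ V, x <+: y ∨ y <+: x) : FinFool ({w | w ∉ V} : Language X) := by
  refine ⟨2, fun ι _ u v hf => ?_⟩
  by_contra hcon
  push Not at hcon
  obtain ⟨i, j, k, hij, hik, hjk⟩ := Fintype.two_lt_card_iff.mp hcon
  have hV : ∀ a b, a ≠ b → u a ++ v b ∈ V := by
    intro a b hab
    by_contra hc
    exact hf.2 a b hab hc
  have h3 : v i <+: v j ∨ v j <+: v i := by
    rcases h2 _ (hV k i hik.symm) _ (hV k j hjk.symm) with h | h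
    · exact Or.inl ((List.prefix_append_right_inj _).mp h)
    · exact Or.inr ((List.prefix_append_right_inj _).mp h)
  rcases h3 with ⟨z, hz⟩ | ⟨z, hz⟩
  · have h4 := hV i j hij
    rw [← hz, ← List.append_assoc] at h4
    exact hf.1 i (h1 _ _ h4)
  · have h4 := hV j i hij.symm
    rw [← hz, ← List.append_assoc] at h4
    exact hf.1 j (h1 _ _ h4)

/-- finitely many chains of residuals -/
theorem finFool_of_chains {L : Language X} {k : ℕ} (c : List X → Fin k)
    (h : ∀ u u', c u = c u' → (∀ v, u ++ v ∈ L → u' ++ v ∈ L) ∨ (∀ v, u' ++ v ∈ L → u ++ v ∈ L)) :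
    FinFool L := by
  refine ⟨k, fun ι _ u v hf => ?_⟩
  by_contra hcon
  push Not at hcon
  obtain ⟨i, j, hne, heq⟩ := Fintype.exists_ne_map_eq_of_card_lt (fun i : ι => c (u i)) (by
    rw [Fintype.card_fin]
    exact hcon)
  rcases h (u i) (u j) heq with h1 | h1
  · exact hf.2 j i hne.symm (h1 _ (hf.1 i))
  · exact hf.2 i j hne (h1 _ (hf.1 j))

/-- sorted words -/
abbrev SB (w : List Bool) : Prop := w.Pairwise fun x y => x = true → y = true

theorem sb_form {w : List Bool} (h : SB w) :
    w = List.replicate (w.count false) false ++ List.replicate (w.count true) true := by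
  induction w with
  | nil => rfl
  | cons a w ih =>
    rw [SB, List.pairwise_cons] at h
    have h1 := ih h.2
    cases a with
    | false =>
      have e1 : (false :: w).count false = w.count false + 1 := by simp
      have e2 : (false :: w).count true = w.count true := by simp
      rw [e1, e2, List.replicate_succ, List.cons_append, ← h1]
    | true =>
      have h2 : ∀ b ∈ w, b = true := fun b hb => h.1 b hb rfl
      have e0 : w.count false = 0 := by
        rw [List.count_eq_zero]
        intro hc
        exact absurd (h2 _ hc) (by simp)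
      have e1 : (true :: w).count false = 0 := by simp [e0]
      have e2 : (true :: w).count true = w.count true + 1 := by simp
      rw [e1, e2, List.replicate_succ]
      rw [e0] at h1
      simp only [List.replicate_zero, List.nil_append] at h1 ⊢
      rw [← h1]

theorem mem_neq_iff (w : List Bool) : w ∈ neqLang ↔ SB w ∧ w.count false ≠ w.count true := by
  constructor
  · rintro ⟨n, m, hne, rfl⟩
    constructor
    · rw [SB, List.pairwise_append]
      refine ⟨?_, ?_, ?_⟩
      · rw [List.pairwise_replicate]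
        right
        simp
      · rw [List.pairwise_replicate]
        right
        simp
      · intro a ha b hb hab
        exact (List.mem_replicate.mp hb).2
    · simp [List.count_replicate]
      exact hne
  · rintro ⟨h1, h2⟩
    exact ⟨_, _, h2, sb_form h1⟩

theorem finFool_neq : FinFool neqLang := by
  classical
  refine ⟨2 * 2, fun ι _ u v hf => ?_⟩
  have h0 := card_le_classes (S := Bool) (fun i : ι => decide (false ∈ v i)) 2 (by
    intro s κ _ g hg hs
    by_contra hcon
    push Not at hcon
    obtain ⟨i, j, k, hij, hik, hjk⟩ := Fintype.two_lt_card_iff.mp hcon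
    have hdiag : ∀ a, SB (u (g a) ++ v (g a)) ∧ (u (g a) ++ v (g a)).count false ≠
        (u (g a) ++ v (g a)).count true := fun a => (mem_neq_iff _).mp (hf.1 (g a))
    have hsb : ∀ a b, SB (u (g a) ++ v (g b)) := by
      intro a b
      have ha := (hdiag a).1
      have hb := (hdiag b).1
      rw [SB, List.pairwise_append] at ha hb ⊢
      refine ⟨ha.1, hb.2.1, fun x hx y hy hxt => ?_⟩
      cases s with
      | true =>
        have h1 : false ∈ v (g a) := of_decide_eq_true (hs a)
        have h2 := ha.2.2 x hx false h1 hxt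
        exact absurd h2 (by simp)
      | false =>
        have h1 : false ∉ v (g b) := of_decide_eq_false (hs b)
        cases y with
        | true => rfl
        | false => exact absurd hy h1
    have hcross : ∀ a b, a ≠ b → (u (g a)).count false + (v (g b)).count false =
        (u (g a)).count true + (v (g b)).count true := by
      intro a b hab
      by_contra hc
      refine hf.2 (g a) (g b) (fun he => hab (hg he)) ((mem_neq_iff _).mpr ⟨hsb a b, ?_⟩)
      rw [List.count_append, List.count_append]
      exact hc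
    have hd := (hdiag j).2
    rw [List.count_append, List.count_append] at hd
    have h1 := hcross i j hij
    have h2 := hcross i k hik
    have h3 := hcross j k hjk
    omega)
  rw [Fintype.card_bool] at h0
  exact h0

/-- the words `a^n b^m` with `m ≤ n` -/
def geLang : Language Bool :=
  {w | ∃ n m : ℕ, m ≤ n ∧ w = List.replicate n false ++ List.replicate m true}

theorem mem_ge_iff (w : List Bool) : w ∈ geLang ↔ SB w ∧ w.count true ≤ w.count false := by
  constructor
  · rintro ⟨n, m, hle, rfl⟩
    constructor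
    · rw [SB, List.pairwise_append]
      refine ⟨?_, ?_, ?_⟩
      · rw [List.pairwise_replicate]
        right
        simp
      · rw [List.pairwise_replicate]
        right
        simp
      · intro a ha b hb hab
        exact (List.mem_replicate.mp hb).2
    · simp [List.count_replicate]
      exact hle
  · rintro ⟨h1, h2⟩
    exact ⟨_, _, h2, sb_form h1⟩

theorem ge_mono {u u' v : List Bool} (hu' : SB u') (ht : true ∈ u' → true ∈ u)
    (hd : u.count false + u'.count true ≤ u'.count false + u.count true) (h : u ++ v ∈ geLang) :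
    u' ++ v ∈ geLang := by
  rw [mem_ge_iff] at h ⊢
  obtain ⟨h1, h2⟩ := h
  rw [SB, List.pairwise_append] at h1 ⊢
  rw [List.count_append, List.count_append] at h2 ⊢
  refine ⟨⟨hu', h1.2.1, fun x hx y hy hxt => ?_⟩, by omega⟩
  rw [hxt] at hx
  exact h1.2.2 true (ht hx) y hy rfl

theorem finFool_ge : FinFool geLang := by
  classical
  refine finFool_of_chains (k := 2) (fun u => if true ∈ u then 1 else 0) fun u u' hc => ?_
  have ht : true ∈ u ↔ true ∈ u' := by
    by_cases h1 : true ∈ u <;> by_cases h2 : true ∈ u' <;> simp_all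
  by_cases hu : SB u
  · by_cases hu' : SB u'
    · rcases Nat.le_total (u.count false + u'.count true) (u'.count false + u.count true) with h | h
      · exact Or.inl fun v hv => ge_mono hu' ht.mpr h hv
      · exact Or.inr fun v hv => ge_mono hu ht.mp (by omega) hv
    · right
      intro v hv
      exact absurd (List.pairwise_append.mp ((mem_ge_iff _).mp hv).1).1 hu'
  · left
    intro v hv
    exact absurd (List.pairwise_append.mp ((mem_ge_iff _).mp hv).1).1 hu

/-- the words `a^n b^n` -/
def eqLang : Language Bool := {w | ∃ n : ℕ, w = List.replicate n false ++ List.replicate n true}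

theorem mem_eqLang (n m : ℕ) :
    List.replicate n false ++ List.replicate m true ∈ eqLang ↔ n = m := by
  constructor
  · rintro ⟨k, h⟩
    have h1 := congrArg (List.count false) h
    have h2 := congrArg (List.count true) h
    simp [List.count_replicate] at h1 h2
    omega
  · rintro rfl
    exact ⟨n, rfl⟩

/-- control with three words -/
def phG (p q r : List V) (z : Fin 5) : List V :=
  if z = 1 then p else if z = 2 then q else if z = 3 then r else []

theorem flatMap_rep {Z : Type} (f : Z → List W) (a : Z) (n : ℕ) :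
    (List.replicate n a).flatMap f = (List.replicate n (f a)).flatten := by
  induction n with
  | zero => rfl
  | succ n ih => rw [List.replicate_succ, List.flatMap_cons, ih, List.replicate_succ,
      List.flatten_cons]

/-- languages above `{a^n b^m : n ≠ m}` -/
theorem geq_neq_of_words {L : Language V} (p q r : List V)
    (h : ∀ n m, (List.replicate n p).flatten ++ q ++ (List.replicate m r).flatten ∈ L ↔ n = m) :
    Geq L neqLang := by
  let τ : Transducer V Bool := ⟨Fin 5, inferInstance, KP, tauP.regK, phG p q r, psP⟩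
  refine ⟨τ, ?_⟩
  have hps1 : ∀ n₁ n₂ n₃, (([0] : List (Fin 5)) ++ (List.replicate n₁ 0 ++ (List.replicate n₂ 1 ++
      ([2] ++ List.replicate n₃ 3)))).flatMap psP = List.replicate (n₁ + 1 + n₂) false ++
          List.replicate n₃ true := by
    intro n₁ n₂ n₃
    simp only [List.flatMap_append, fm_rep psP (show psP 0 = [false] from rfl),
      fm_rep psP (show psP 1 = [false] from rfl), fm_rep psP (show psP 3 = [true] from rfl)]
    rw [List.replicate_add, List.replicate_succ]
    simp [psP]
    rw [List.replicate_add, List.append_assoc]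
  have hps2 : ∀ n₁ n₂ n₃, ((List.replicate n₁ 1 : List (Fin 5)) ++ ([2] ++ (List.replicate n₂ 3 ++
      ([4] ++ List.replicate n₃ 4)))).flatMap psP = List.replicate n₁ false ++
          List.replicate (n₂ + (n₃ + 1)) true := by
    intro n₁ n₂ n₃
    simp only [List.flatMap_append, fm_rep psP (show psP 4 = [true] from rfl),
      fm_rep psP (show psP 1 = [false] from rfl), fm_rep psP (show psP 3 = [true] from rfl)]
    rw [List.replicate_add, List.replicate_succ]
    simp [psP]
  have e0 : phG p q r 0 = [] := by simp [phG]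
  have e1 : phG p q r 1 = p := by simp [phG]
  have e2 : phG p q r 2 = q := by simp [phG]
  have e3 : phG p q r 3 = r := by simp [phG]
  have e4 : phG p q r 4 = [] := by simp [phG]
  have hph1 : ∀ n₁ n₂ n₃, (([0] : List (Fin 5)) ++ (List.replicate n₁ 0 ++ (List.replicate n₂ 1 ++
      ([2] ++ List.replicate n₃ 3)))).flatMap (phG p q r) =
        (List.replicate n₂ p).flatten ++ q ++ (List.replicate n₃ r).flatten := by
    intro n₁ n₂ n₃
    simp only [List.flatMap_append, List.flatMap_cons, List.flatMap_nil, flatMap_rep, e0, e1, e2,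
      e3]
    simp
  have hph2 : ∀ n₁ n₂ n₃, ((List.replicate n₁ 1 : List (Fin 5)) ++ ([2] ++ (List.replicate n₂ 3 ++
      ([4] ++ List.replicate n₃ 4)))).flatMap (phG p q r) =
        (List.replicate n₁ p).flatten ++ q ++ (List.replicate n₂ r).flatten := by
    intro n₁ n₂ n₃
    simp only [List.flatMap_append, List.flatMap_cons, List.flatMap_nil, flatMap_rep, e1, e2,
      e3, e4]
    simp
  ext y
  constructor
  · rintro ⟨w, hK, hL, rfl⟩
    rcases hK with hK | hK
    · obtain ⟨a, ha, b, hb, rfl⟩ := Language.mem_mul.mp hK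
      obtain ⟨c, hc, d, hd, rfl⟩ := Language.mem_mul.mp hb
      obtain ⟨e, he, f, hf, rfl⟩ := Language.mem_mul.mp hd
      obtain ⟨g, hg, k, hk, rfl⟩ := Language.mem_mul.mp hf
      rw [mem_oneL_eq] at ha hg
      obtain ⟨n₁, rfl⟩ := mem_allL_eq.mp hc
      obtain ⟨n₂, rfl⟩ := mem_allL_eq.mp he
      obtain ⟨n₃, rfl⟩ := mem_allL_eq.mp hk
      subst ha hg
      have h3 : (([0] : List (Fin 5)) ++ (List.replicate n₁ 0 ++ (List.replicate n₂ 1 ++ ([2] ++
        List.replicate n₃ 3)))).flatMap (phG p q r) ∈ L := hL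
      rw [hph1, h] at h3
      change (([0] : List (Fin 5)) ++ (List.replicate n₁ 0 ++ (List.replicate n₂ 1 ++ ([2] ++
        List.replicate n₃ 3)))).flatMap psP ∈ neqLang
      rw [hps1, mem_neqLang]
      omega
    · obtain ⟨a, ha, b, hb, rfl⟩ := Language.mem_mul.mp hK
      obtain ⟨c, hc, d, hd, rfl⟩ := Language.mem_mul.mp hb
      obtain ⟨e, he, f, hf, rfl⟩ := Language.mem_mul.mp hd
      obtain ⟨g, hg, k, hk, rfl⟩ := Language.mem_mul.mp hf
      rw [mem_oneL_eq] at hc hg
      obtain ⟨n₁, rfl⟩ := mem_allL_eq.mp ha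
      obtain ⟨n₂, rfl⟩ := mem_allL_eq.mp he
      obtain ⟨n₃, rfl⟩ := mem_allL_eq.mp hk
      subst hc hg
      have h3 : ((List.replicate n₁ 1 : List (Fin 5)) ++ ([2] ++ (List.replicate n₂ 3 ++ ([4] ++
        List.replicate n₃ 4)))).flatMap (phG p q r) ∈ L := hL
      rw [hph2, h] at h3
      change ((List.replicate n₁ 1 : List (Fin 5)) ++ ([2] ++ (List.replicate n₂ 3 ++ ([4] ++
        List.replicate n₃ 4)))).flatMap psP ∈ neqLang
      rw [hps2, mem_neqLang]
      omega
  · rintro ⟨n, m, hne, rfl⟩
    rcases Nat.lt_or_ge m n with hlt | hge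
    · obtain ⟨k, rfl⟩ : ∃ k, n = k + 1 + m := ⟨n - m - 1, by omega⟩
      refine ⟨([0] : List (Fin 5)) ++ (List.replicate k 0 ++ (List.replicate m 1 ++ ([2] ++
        List.replicate m 3))), Or.inl ?_, ?_, hps1 _ _ _⟩
      · exact Language.append_mem_mul (mem_oneL_eq.mpr rfl) (Language.append_mem_mul
          (mem_allL_eq.mpr ⟨_, rfl⟩) (Language.append_mem_mul (mem_allL_eq.mpr ⟨_, rfl⟩)
            (Language.append_mem_mul (mem_oneL_eq.mpr rfl) (mem_allL_eq.mpr ⟨_, rfl⟩))))
      · change (([0] : List (Fin 5)) ++ (List.replicate k 0 ++ (List.replicate m 1 ++ ([2] ++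
          List.replicate m 3)))).flatMap (phG p q r) ∈ L
        rw [hph1, h]
    · obtain ⟨k, rfl⟩ : ∃ k, m = n + (k + 1) := ⟨m - n - 1, by omega⟩
      refine ⟨(List.replicate n 1 : List (Fin 5)) ++ ([2] ++ (List.replicate n 3 ++ ([4] ++
        List.replicate k 4))), Or.inr ?_, ?_, hps2 _ _ _⟩
      · exact Language.append_mem_mul (mem_allL_eq.mpr ⟨_, rfl⟩) (Language.append_mem_mul
          (mem_oneL_eq.mpr rfl) (Language.append_mem_mul (mem_allL_eq.mpr ⟨_, rfl⟩)
            (Language.append_mem_mul (mem_oneL_eq.mpr rfl) (mem_allL_eq.mpr ⟨_, rfl⟩))))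
      · change ((List.replicate n 1 : List (Fin 5)) ++ ([2] ++ (List.replicate n 3 ++ ([4] ++
          List.replicate k 4)))).flatMap (phG p q r) ∈ L
        rw [hph2, h]

theorem flatten_rep_single (a : V) (n : ℕ) :
    (List.replicate n [a]).flatten = List.replicate n a := by
  induction n with
  | zero => rfl
  | succ n ih => rw [List.replicate_succ, List.flatten_cons, ih, List.replicate_succ]; rfl

theorem eq_geq_neq : Geq eqLang neqLang := by
  refine geq_neq_of_words [false] [] [true] fun n m => ?_
  rw [flatten_rep_single, flatten_rep_single, List.append_nil, mem_eqLang]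

/-- fooling sets of polynomial density -/
def DenseFool (P : Language W) : Prop :=
  ∃ k C : ℕ, ∀ s : ℕ, ∃ u v : Fin s → List W, IsFool P u v ∧
    ∀ i, (u i).length ≤ C * (s + 1) ^ k ∧ (v i).length ≤ C * (s + 1) ^ k

theorem DenseFool.wide {P : Language W} (h : DenseFool P) : Wide (fun _ => 1) P := by
  obtain ⟨k₀, C₀, h⟩ := h
  set K := k₀ + 1 with hK
  set c₀ := C₀ + 1 with hc₀
  refine ⟨K + 1, fun C => ?_⟩
  set S := C * c₀ * 3 ^ K + C + 2 with hS
  refine ⟨c₀ * (S + 1) ^ K, fun n hn => ?_⟩
  -- the largest admissible size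
  have hex : ∃ s, S ≤ s ∧ c₀ * (s + 1) ^ K ≤ n ∧ n < c₀ * (s + 2) ^ K := by
    have h1 : ∃ s, n < c₀ * (s + 1) ^ K := by
      refine ⟨n, ?_⟩
      have h2 : n + 1 ≤ (n + 1) ^ K := Nat.le_self_pow (by omega) _
      calc n < n + 1 := Nat.lt_succ_self n
        _ ≤ 1 * (n + 1) ^ K := by rw [one_mul]; exact h2
        _ ≤ _ := Nat.mul_le_mul_right _ (by omega)
    classical
    set t := Nat.find h1 with ht
    have h2 : n < c₀ * (t + 1) ^ K := Nat.find_spec h1
    have h3 : S < t := by
      by_contra hc
      push Not at hc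
      have : c₀ * (t + 1) ^ K ≤ c₀ * (S + 1) ^ K := by gcongr
      omega
    refine ⟨t - 1, by omega, ?_, ?_⟩
    · have h4 := Nat.find_min h1 (m := t - 1) (by omega)
      push Not at h4
      exact h4
    · have h5 : t - 1 + 2 = t + 1 := by omega
      rw [h5]
      exact h2
  obtain ⟨s, hs1, hs2, hs3⟩ := hex
  obtain ⟨u, v, hf, hl⟩ := h s
  refine ⟨Fin s, inferInstance, u, v, hf, fun i => ?_, ?_, ?_⟩
  · have h1 : C₀ * (s + 1) ^ k₀ ≤ c₀ * (s + 1) ^ K := by
      refine Nat.mul_le_mul (by omega) (Nat.pow_le_pow_right (by omega) (by omega))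
    have := hl i
    omega
  · rw [Fintype.card_fin]
    have : C * c₀ * 3 ^ K ≥ 0 := Nat.zero_le _
    show C * 1 < s
    omega
  · rw [Fintype.card_fin]
    have hs0 : 1 ≤ s := by omega
    have h1 : s + 2 ≤ 3 * s := by omega
    calc C * (n + 1) ≤ C * (c₀ * (s + 2) ^ K) := Nat.mul_le_mul_left _ hs3
      _ ≤ C * (c₀ * (3 * s) ^ K) := by gcongr
      _ = (C * c₀ * 3 ^ K) * s ^ K := by rw [mul_pow]; ring
      _ < s * s ^ K := by
          refine Nat.mul_lt_mul_of_pos_right ?_ (by positivity)
          omega
      _ = s ^ (K + 1) := by ring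

theorem denseFool_eq : DenseFool eqLang := by
  refine ⟨1, 1, fun s => ⟨fun i => List.replicate i.val false, fun i => List.replicate i.val true,
    ⟨fun i => (mem_eqLang _ _).mpr rfl, fun i j hij hm =>
      hij (Fin.ext ((mem_eqLang _ _).mp hm))⟩, fun i => ?_⟩⟩
  have := i.2
  rw [List.length_replicate, List.length_replicate, pow_one]
  omega

/-- **Density above languages with bounded fooling sets** -/
theorem between_finFool [Finite X] [Finite Y] [Finite W] {L₁ : Language X} {L₂ : Language Y}
    {P : Language W} (hF : FinFool L₂) (hD : DenseFool P) (hG : Geq L₁ goldstine)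
    (hP : Geq L₁ P) (h : Geq L₁ L₂) : ∃ M : Language (Option (Y ⊕ PC W)), Between L₁ M L₂ :=
  between_of_wide hF.narrow hD.wide hG hP h

end RCone
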