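import Pool.Agent.RCone.AdvA

/-! # Fooling sets (helper70, MP_a8de0d_lc) -/

namespace RCone

open Language

variable {X Y W V : Type}

/-- `(u i, v i)` is a fooling set of `L`: `u i v i` is in `L`, and `u i v j` is not for `i ≠ j`. -/
def IsFool {ι : Type} (L : Language X) (u v : ι → List X) : Prop :=
  (∀ i, u i ++ v i ∈ L) ∧ ∀ i j, i ≠ j → u i ++ v j ∉ L

/-- For every rational transduction `τ`, the fooling sets of `τ(L)` with words of length at most
`n` have at most `C * w n` elements. -/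
def Narrow (w : ℕ → ℕ) (L : Language Y) : Prop :=
  ∀ (X : Type) [Finite X] (τ : Transducer Y X), ∃ C : ℕ, ∀ (n : ℕ) (ι : Type) [Fintype ι]
    (u v : ι → List X), IsFool (τ.image L) u v → (∀ i, (u i).length ≤ n ∧ (v i).length ≤ n) →
      Fintype.card ι ≤ C * w n

/-- `P` has larger fooling sets, and they are at least as large as a root of the length. -/
def Wide (w : ℕ → ℕ) (P : Language W) : Prop :=
  ∃ k : ℕ, ∀ C : ℕ, ∃ N : ℕ, ∀ n, N ≤ n → ∃ (ι : Type) (_ : Fintype ι) (u v : ι → List W),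
    IsFool P u v ∧ (∀ i, (u i).length ≤ n ∧ (v i).length ≤ n) ∧
      C * w (n + 1) < Fintype.card ι ∧ C * (n + 1) < (Fintype.card ι) ^ k

/-- fooling sets of a language of an automaton -/
theorem fool_nfa [Finite X] {s B : ℕ} {R : Language X} (hR : Nfa s B R) {ι : Type} [Fintype ι]
    {u v : ι → List X} (h : IsFool R u v) : Fintype.card ι ≤ s * nsh X B := by
  classical
  obtain ⟨Z, hZ, σ, hσ, M, ψ, h1, h2, rfl⟩ := hR
  have hft : Fintype {v : List X // v.length ≤ B} := Fintype.ofFinite _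
  by_contra hcon
  push Not at hcon
  have hmem : ∀ i, ∃ h₁ h₂ : List Z, ∃ x : List X, h₁ ++ h₂ ∈ M.accepts ∧
      h₁.flatMap ψ = u i ++ x ∧ x.length ≤ B ∧ v i = x ++ h₂.flatMap ψ := by
    intro i
    obtain ⟨g, hg, hgψ⟩ := h.1 i
    obtain ⟨h₁, h₂, x, e1, e2, e3, e4⟩ := split_out ψ B h2 g _ _ hgψ
    exact ⟨h₁, h₂, x, by rw [← e1]; exact hg, e2, e3, e4⟩
  choose h₁ h₂ x g1 g2 g3 g4 using hmem
  obtain ⟨i, j, hne, heq⟩ := Fintype.exists_ne_map_eq_of_card_lt
    (fun i : ι => (M.eval (h₁ i), (⟨x i, g3 i⟩ : {v : List X // v.length ≤ B}))) (by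
      rw [Fintype.card_prod]
      refine lt_of_le_of_lt ?_ hcon
      have : Fintype.card {v : List X // v.length ≤ B} = nsh X B := by
        rw [nsh, Nat.card_eq_fintype_card]
      rw [this]
      exact Nat.mul_le_mul_right _ h1)
  have hq : M.eval (h₁ i) = M.eval (h₁ j) := congrArg Prod.fst heq
  have hv : x i = x j := congrArg (fun d => d.2.1) heq
  apply h.2 i j hne
  refine ⟨h₁ i ++ h₂ j, ?_, ?_⟩
  · have h5 : M.evalFrom M.start (h₁ j ++ h₂ j) ∈ M.accept := g1 j
    change M.evalFrom M.start (h₁ i ++ h₂ j) ∈ M.accept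
    rw [DFA.evalFrom_of_append] at h5 ⊢
    rw [show M.evalFrom M.start (h₁ i) = M.evalFrom M.start (h₁ j) from hq]
    exact h5
  · rw [List.flatMap_append, g2, g4 j, hv, List.append_assoc]

/-- images of regular languages -/
theorem nfa_image {τ : Transducer Y X} {m B : ℕ} (hs : Sized τ m B) {σ' : Type} [Fintype σ']
    (M' : DFA Y σ') : Nfa (m * Fintype.card σ') B (τ.image M'.accepts) := by
  obtain ⟨⟨σ, hσ, M, hM, hc⟩, hl⟩ := hs
  obtain ⟨σ₁, hσ₁, A, hA, hcard⟩ := sized_dfa M M' (⟨fun _ _ => (), (), Set.univ⟩ : DFA Y Unit)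
    τ.φ τ.φ
  refine ⟨τ.Z, τ.finZ, σ₁, hσ₁, A, τ.ψ, ?_, fun z => (hl z).2, ?_⟩
  · refine hcard.trans ?_
    rw [Fintype.card_unit, mul_one]
    exact Nat.mul_le_mul_right _ hc
  · ext x
    constructor
    · rintro ⟨h, hK, hL, hx⟩
      refine ⟨h, ?_, hx⟩
      rw [hA, hM]
      exact ⟨hK, hL, trivial⟩
    · rintro ⟨h, hK, hx⟩
      rw [hA, hM] at hK
      exact ⟨h, hK.1, hK.2.1, hx⟩

theorem pay_append (w w' : List (PC X)) : pay (w ++ w') = pay w ++ pay w' := by
  unfold pay
  rw [List.flatMap_append]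

/-- **Density from fooling sets** -/
theorem between_of_wide [Finite X] [Finite Y] [Finite W] {w : ℕ → ℕ} {L₁ : Language X}
    {L₂ : Language Y} {P : Language W} (hN : Narrow w L₂) (hW : Wide w P)
    (hG : Geq L₁ goldstine) (hP : Geq L₁ P) (h : Geq L₁ L₂) :
    ∃ M : Language (Option (Y ⊕ PC W)), Between L₁ M L₂ := by
  classical
  obtain ⟨k, hk⟩ := hW
  refine ⟨join L₂ (padL P evens), ⟨h.join (geq_padL hP (hG.trans
    (goldstine_geq_H periodic_evens))), fun hc => ?_⟩, join_left _ _, fun hc => ?_⟩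
  · -- the join is not above `P`
    obtain ⟨τ, hτ⟩ := hc.trans hP
    obtain ⟨κ₁, hκ₁⟩ := exists_comp' (tauL Y (PC W)) τ
    obtain ⟨κ₂, hκ₂⟩ := exists_comp' (tauRt Y (PC W)) τ
    obtain ⟨C₁, hC₁⟩ := hN W κ₁
    obtain ⟨m₂, B₂, _, hs₂⟩ := exists_sized κ₂
    obtain ⟨N₁, hN₁⟩ := exc_pump κ₂ P evens
    have hPeq : ∀ y, y ∈ P ↔ y ∈ κ₁.image L₂ ∨ y ∈ κ₂.image (padL P evens) := by
      intro y
      have h0 : y ∈ P ↔ y ∈ τ.image (join L₂ (padL P evens)) := by rw [hτ]
      rw [h0, join_eq, image_add, Language.mem_add, hκ₁, hκ₂]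
    set q := Nat.card (PC W) with hq
    obtain ⟨N₂, hN₂⟩ := growth ((q + 1) * k)
    set D := 2 * m₂ * nsh W B₂ with hD
    obtain ⟨N₃, hN₃⟩ := hk (2 * C₁ + 2 * (2 * D) ^ k)
    set b := 2 * (N₁ + N₂ + N₃ + 1) + 1 with hb
    have hbA : b ∉ evens := by simp [evens, hb]
    have hTb : 2 * b ≤ T (2 * b) := T_mono.id_le _
    set n := T (2 * b) / 2 with hn
    obtain ⟨ι, hι, u, v, hf, hlen, hc1, hc2⟩ := hN₃ n (by omega)
    obtain ⟨σ, hσ, M, hM, hcard⟩ := exists_dfa_large (T (2 * (b - 1)))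
      (fun w hw => excL_large P evens (b := b) w hw)
    set z := 2 ^ ((q + 1) * (T (2 * (b - 1)) + 2)) with hz
    have hz1 : 1 ≤ z := Nat.one_le_two_pow
    have hσz : Fintype.card σ ≤ 2 * z := by
      have h3 : nsh (PC W) (T (2 * (b - 1))) ≤ z := by
        calc nsh (PC W) (T (2 * (b - 1))) ≤ (q + 1) ^ T (2 * (b - 1)) := nsh_le _
          _ ≤ (2 ^ (q + 1)) ^ T (2 * (b - 1)) :=
              Nat.pow_le_pow_left Nat.lt_two_pow_self.le _
          _ = 2 ^ ((q + 1) * T (2 * (b - 1))) := by rw [← pow_mul]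
          _ ≤ z := Nat.pow_le_pow_right (by norm_num) (Nat.mul_le_mul_left _ (by omega))
      omega
    have hbb : 2 * (b - 1) + 2 = 2 * b := by omega
    have hgr := hN₂ (2 * (b - 1)) (by omega)
    rw [hbb] at hgr
    have hzT : z ^ k ≤ T (2 * b) := by
      calc z ^ k = 2 ^ ((q + 1) * k * (T (2 * (b - 1)) + 2)) := by
            rw [hz, ← pow_mul]
            congr 1
            ring
        _ ≤ 2 ^ E (2 * b) := Nat.pow_le_pow_right (by norm_num) hgr
        _ ≤ _ := le_T _
    -- the two parts of the fooling set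
    set I := {i : ι // u i ++ v i ∈ κ₁.image L₂} with hI
    set J := {i : ι // ¬ u i ++ v i ∈ κ₁.image L₂} with hJ
    have hsum : Fintype.card ι = Fintype.card I + Fintype.card J :=
      (Fintype.card_congr (Equiv.sumCompl fun i => u i ++ v i ∈ κ₁.image L₂)).symm.trans
        Fintype.card_sum
    have hIc : Fintype.card I ≤ C₁ * w (n + 1) := by
      refine hC₁ (n + 1) I (fun i => u i.1) (fun i => v i.1) ⟨fun i => i.2, ?_⟩
        (fun i => ⟨(hlen i.1).1.trans (Nat.le_succ n), (hlen i.1).2.trans (Nat.le_succ n)⟩)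
      intro i j hij hmem
      exact hf.2 i.1 j.1 (fun he => hij (Subtype.ext he)) ((hPeq _).mpr (Or.inl hmem))
    have hR : Nfa (m₂ * Fintype.card σ) B₂ (κ₂.image (excL P evens b)) := by
      rw [← hM]
      exact nfa_image hs₂ M
    have hJc : Fintype.card J ≤ m₂ * Fintype.card σ * nsh W B₂ := by
      refine fool_nfa (u := fun i : J => u i.1) (v := fun i : J => v i.1) hR ⟨fun i => ?_, ?_⟩
      · rcases (hPeq _).mp (hf.1 i.1) with h1 | h1
        · exact absurd h1 i.2
        · exact image_mono κ₂ (fun w hw => padL_sub_excL hw) h1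
      · intro i j hij hmem
        have h1 : (u i.1 ++ v j.1).length ≤ T (2 * b) := by
          rw [List.length_append]
          have h2 := (hlen i.1).1
          have h3 := (hlen j.1).2
          omega
        have h2 := hN₁ b (by omega) hbA _ h1 hmem
        exact hf.2 i.1 j.1 (fun he => hij (Subtype.ext he)) ((hPeq _).mpr (Or.inr h2))
    have hJD : Fintype.card J ≤ D * z := by
      calc Fintype.card J ≤ m₂ * Fintype.card σ * nsh W B₂ := hJc
        _ ≤ m₂ * (2 * z) * nsh W B₂ := by gcongr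
        _ = D * z := by rw [hD]; ring
    have h5 : 2 * (C₁ * w (n + 1)) < Fintype.card ι := by
      refine lt_of_le_of_lt ?_ hc1
      calc 2 * (C₁ * w (n + 1)) = (2 * C₁) * w (n + 1) := by ring
        _ ≤ _ := Nat.mul_le_mul_right _ (Nat.le_add_right _ _)
    have h6 : 2 * D * z < Fintype.card ι := by
      by_contra hcon
      push Not at hcon
      have h7 : (Fintype.card ι) ^ k ≤ (2 * D) ^ k * z ^ k := by
        rw [← mul_pow]
        exact Nat.pow_le_pow_left hcon k
      have h8 : (2 * D) ^ k * z ^ k ≤ (2 * C₁ + 2 * (2 * D) ^ k) * (n + 1) := by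
        have h9 : z ^ k ≤ 2 * (n + 1) := by omega
        calc (2 * D) ^ k * z ^ k ≤ (2 * D) ^ k * (2 * (n + 1)) := Nat.mul_le_mul_left _ h9
          _ = (2 * (2 * D) ^ k) * (n + 1) := by ring
          _ ≤ _ := Nat.mul_le_mul_right _ (Nat.le_add_left _ _)
      omega
    have h7 : 2 * D * z = 2 * (D * z) := by ring
    omega
  · -- `L₂` is not above the join
    obtain ⟨κ, hκ⟩ := hc.trans (join_right L₂ (padL P evens))
    obtain ⟨C, hC⟩ := hN (PC W) κ
    obtain ⟨N, hNN⟩ := hk C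
    set a := 2 * N with ha
    have haA : a ∈ evens := by simp [evens, ha]
    have hTa : 2 * a ≤ T (2 * a) := T_mono.id_le _
    set n := T (2 * a) / 2 with hn
    obtain ⟨ι, hι, u, v, hf, hlen, hc1, hc2⟩ := hNN n (by omega)
    set c := rul (zz (2 * a)) with hcdef
    have hclen : c.length = T (2 * a) := rfl
    have hlu : ∀ i, (u i).length ≤ (c.take n).length := by
      intro i
      rw [List.length_take, hclen]
      have := (hlen i).1
      omega
    have hlv : ∀ i, (v i).length ≤ (c.drop n).length := by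
      intro i
      rw [List.length_drop, hclen]
      have := (hlen i).2
      omega
    choose uu hu1 hu2 using fun i => exists_pad (c.take n) (u i) (hlu i)
    choose vv hv1 hv2 using fun i => exists_pad (c.drop n) (v i) (hlv i)
    have hiff : ∀ i j, uu i ++ vv j ∈ padL P evens ↔ u i ++ v j ∈ P := by
      intro i j
      have h1 : (uu i ++ vv j).map Prod.snd = c := by
        rw [List.map_append, hu1, hv1, List.take_append_drop]
      have h2 : pay (uu i ++ vv j) = u i ++ v j := by rw [pay_append, hu2, hv2]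
      constructor
      · rintro (h3 | h3)
        · rw [h1] at h3
          exact absurd h3 (rul_zz_not_mem haA)
        · rw [← h2]
          exact h3
      · intro h3
        right
        rw [h2]
        exact h3
    have h1 := hC (n + 1) ι uu vv (by
      rw [hκ]
      exact ⟨fun i => (hiff i i).mpr (hf.1 i), fun i j hij hmem => hf.2 i j hij
        ((hiff i j).mp hmem)⟩) (by
      intro i
      have h2 := congrArg List.length (hu1 i)
      have h3 := congrArg List.length (hv1 i)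
      rw [List.length_map, List.length_take, hclen] at h2
      rw [List.length_map, List.length_drop, hclen] at h3
      omega)
    omega

/-! ### languages with a finite fooling number -/

/-- the fooling sets of `L` are bounded -/
def FinFool (L : Language X) : Prop :=
  ∃ F : ℕ, ∀ (ι : Type) [Fintype ι] (u v : ι → List X), IsFool L u v → Fintype.card ι ≤ F

theorem IsFool.restrict {ι : Type} {L : Language X} {u v : ι → List X} (h : IsFool L u v)
    (p : ι → Prop) : IsFool L (fun i : {i // p i} => u i.1) (fun i => v i.1) :=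
  ⟨fun i => h.1 i.1, fun i j hij => h.2 i.1 j.1 fun he => hij (Subtype.ext he)⟩

/-- bounded classes -/
theorem card_le_classes {ι S : Type} [Fintype ι] [Fintype S] (f : ι → S) (F : ℕ)
    (h : ∀ (s : S) (κ : Type) [Fintype κ] (g : κ → ι), Function.Injective g →
      (∀ x, f (g x) = s) → Fintype.card κ ≤ F) : Fintype.card ι ≤ Fintype.card S * F := by
  classical
  have h1 : ∀ s ∈ (Finset.univ : Finset S), (Finset.univ.filter fun i => f i = s).card ≤ F := by
    intro s _
    have h2 := h s {i : ι // f i = s} Subtype.val Subtype.val_injective fun x => x.2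
    rwa [Fintype.card_subtype] at h2
  have h3 := Finset.card_le_mul_card_image_of_maps_to (s := (Finset.univ : Finset ι))
    (t := (Finset.univ : Finset S)) (f := f) (fun _ _ => Finset.mem_univ _) F h1
  rw [Finset.card_univ, Finset.card_univ] at h3
  rw [Nat.mul_comm]
  exact h3

theorem FinFool.of_geq [Finite Y] {L : Language X} {M : Language Y} (hL : FinFool L)
    (h : Geq L M) : FinFool M := by
  classical
  obtain ⟨τ, rfl⟩ := h
  obtain ⟨m, B, _, ⟨⟨σ, hσ, A, hA, _⟩, hl⟩⟩ := exists_sized τ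
  obtain ⟨F, hF⟩ := hL
  have hft : Fintype {v : List Y // v.length ≤ B} := Fintype.ofFinite _
  refine ⟨Fintype.card (σ × {v : List Y // v.length ≤ B}) * F, ?_⟩
  intro ι _ u v hf
  have hmem : ∀ i, ∃ h₁ h₂ : List τ.Z, ∃ x : List Y, h₁ ++ h₂ ∈ A.accepts ∧
      (h₁ ++ h₂).flatMap τ.φ ∈ L ∧
      h₁.flatMap τ.ψ = u i ++ x ∧ x.length ≤ B ∧ v i = x ++ h₂.flatMap τ.ψ := by
    intro i
    obtain ⟨g, hg, hgL, hgψ⟩ := hf.1 i
    obtain ⟨h₁, h₂, x, e1, e2, e3, e4⟩ := split_out τ.ψ B (fun z => (hl z).2) g _ _ hgψ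
    exact ⟨h₁, h₂, x, by rw [← e1, hA]; exact hg, by rw [← e1]; exact hgL, e2, e3, e4⟩
  choose h₁ h₂ x g1 g0 g2 g3 g4 using hmem
  refine card_le_classes
    (fun i : ι => (A.eval (h₁ i), (⟨x i, g3 i⟩ : {v : List Y // v.length ≤ B}))) F ?_
  intro s κ _ g hg hs
  refine hF κ (fun i => (h₁ (g i)).flatMap τ.φ) (fun i => (h₂ (g i)).flatMap τ.φ) ⟨?_, ?_⟩
  · intro i
    rw [← List.flatMap_append]
    exact g0 (g i)
  · intro i j hij hmem
    have hq : A.eval (h₁ (g i)) = A.eval (h₁ (g j)) :=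
      congrArg Prod.fst ((hs i).trans (hs j).symm)
    have hv : x (g i) = x (g j) := congrArg (fun d => d.2.1) ((hs i).trans (hs j).symm)
    apply hf.2 (g i) (g j) fun he => hij (hg he)
    refine ⟨h₁ (g i) ++ h₂ (g j), ?_, ?_, ?_⟩
    · rw [← hA]
      have h5 : A.evalFrom A.start (h₁ (g j) ++ h₂ (g j)) ∈ A.accept := g1 (g j)
      change A.evalFrom A.start (h₁ (g i) ++ h₂ (g j)) ∈ A.accept
      rw [DFA.evalFrom_of_append] at h5 ⊢
      rw [show A.evalFrom A.start (h₁ (g i)) = A.evalFrom A.start (h₁ (g j)) from hq]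
      exact h5
    · rw [List.flatMap_append]
      exact hmem
    · rw [List.flatMap_append, g2, g4 (g j), hv, List.append_assoc]

theorem FinFool.narrow {L : Language Y} (hL : FinFool L) : Narrow (fun _ => 1) L := by
  intro X _ τ
  obtain ⟨F, hF⟩ := hL.of_geq (M := τ.image L) ⟨τ, rfl⟩
  exact ⟨F, fun n ι _ u v hf _ => by rw [mul_one]; exact hF ι u v hf⟩

/-- union -/
theorem FinFool.add {K L : Language X} (hK : FinFool K) (hL : FinFool L) : FinFool (K + L) := by
  classical
  obtain ⟨F, hF⟩ := hK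
  obtain ⟨F', hF'⟩ := hL
  refine ⟨F + F', fun ι _ u v hf => ?_⟩
  have hsum : Fintype.card ι = Fintype.card {i : ι // u i ++ v i ∈ K} +
      Fintype.card {i : ι // ¬ u i ++ v i ∈ K} :=
    (Fintype.card_congr (Equiv.sumCompl fun i => u i ++ v i ∈ K)).symm.trans Fintype.card_sum
  have h1 := hF {i : ι // u i ++ v i ∈ K} (fun i => u i.1) (fun i => v i.1)
    ⟨fun i => i.2, fun i j hij hm => hf.2 i.1 j.1 (fun he => hij (Subtype.ext he)) (Or.inl hm)⟩
  have h2 := hF' {i : ι // ¬ u i ++ v i ∈ K} (fun i => u i.1) (fun i => v i.1)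
    ⟨fun i => (hf.1 i.1).resolve_left i.2,
      fun i j hij hm => hf.2 i.1 j.1 (fun he => hij (Subtype.ext he)) (Or.inr hm)⟩
  omega

/-- product -/
theorem FinFool.mul {K L : Language X} (hK : FinFool K) (hL : FinFool L) : FinFool (K * L) := by
  classical
  obtain ⟨F, hF⟩ := hK
  obtain ⟨F', hF'⟩ := hL
  refine ⟨F + F', fun ι _ u v hf => ?_⟩
  let p : ι → Prop := fun i => ∃ s t, v i = s ++ t ∧ u i ++ s ∈ K ∧ t ∈ L
  have hsum : Fintype.card ι = Fintype.card {i : ι // p i} + Fintype.card {i : ι // ¬ p i} :=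
    (Fintype.card_congr (Equiv.sumCompl p)).symm.trans Fintype.card_sum
  have hp : ∀ i : {i : ι // p i}, ∃ s t, v i.1 = s ++ t ∧ u i.1 ++ s ∈ K ∧ t ∈ L := fun i => i.2
  choose s t s1 s2 s3 using hp
  have h1 := hF {i : ι // p i} (fun i => u i.1) s ⟨s2, fun i j hij hm =>
    hf.2 i.1 j.1 (fun he => hij (Subtype.ext he)) (by
      rw [s1 j, ← List.append_assoc]
      exact Language.append_mem_mul hm (s3 j))⟩
  have hq : ∀ i : {i : ι // ¬ p i}, ∃ a b, u i.1 = a ++ b ∧ a ∈ K ∧ b ++ v i.1 ∈ L := by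
    intro i
    obtain ⟨x, hx, y, hy, hxy⟩ := Language.mem_mul.mp (hf.1 i.1)
    rcases List.append_eq_append_iff.mp hxy with ⟨c, h1, h2⟩ | ⟨c, h1, h2⟩
    · exact ⟨x, c, h1, hx, by rw [← h2]; exact hy⟩
    · exact absurd ⟨c, y, h2, by rw [← h1]; exact hx, hy⟩ i.2
  choose a b a1 a2 a3 using hq
  have h2 := hF' {i : ι // ¬ p i} b (fun i => v i.1) ⟨a3, fun i j hij hm =>
    hf.2 i.1 j.1 (fun he => hij (Subtype.ext he)) (by
      rw [a1 i, List.append_assoc]
      exact Language.append_mem_mul (a2 i) hm)⟩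
  omega

end RCone
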