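import Pool.Agent.RCone.Hard

/-! # Covers and linear approximations (helper70, MP_a8de0d_lc) -/

namespace RCone

open Language

variable {X Y W V : Type}

/-- **Covers need linear approximations** -/
theorem between_of_not_linApprox [Finite X] [Finite Y] [Finite W] {L₁ : Language X}
    {L₂ : Language Y} {P : Language W} (hG : Geq L₁ goldstine) (hP : Geq L₁ P) (h : Geq L₁ L₂)
    {x₀ : List Y} (hx : x₀ ∈ L₂) (hn : ¬ LinApprox L₂ P) :
    ∃ (V : Type) (_ : Finite V) (M : Language V), Between L₁ M L₂ := by
  have h1 : Geq L₁ (join L₂ P) := h.join hP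
  have h2 : Geq (join L₂ P) L₂ := join_left _ _
  have h3 : Geq (join L₂ P) P := join_right _ _
  by_cases h4 : Geq (join L₂ P) L₁
  · rcases criterion (h4.trans hG) h2 hx with ⟨M, ⟨a, b⟩, c, d⟩ | h5
    · exact ⟨_, inferInstance, M, ⟨h1.trans a, fun hc => b (hc.trans h1)⟩, c, d⟩
    · exfalso
      have h7 := (linApprox_of_criterion h5).comap
        (fun z : W => (some (Sum.inr z) : Option (Y ⊕ W)))
      have h8 : comapL (join L₂ P) (fun z : W => [(some (Sum.inr z) : Option (Y ⊕ W))]) = P := by
        ext y
        rw [mem_comapL, fm3]
        constructor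
        · rintro (⟨u, _, he⟩ | ⟨v, hv, he⟩)
          · exfalso
            cases y with
            | nil => simp at he
            | cons b v => simp at he
          · have hinj : Function.Injective (fun a : W => (some (Sum.inr a) : Option (Y ⊕ W))) := by
              intro a b hab
              exact Sum.inr_injective (Option.some_injective _ hab)
            rw [List.map_injective_iff.mpr hinj he]
            exact hv
        · intro hy
          exact Or.inr ⟨y, hy, rfl⟩
      rw [h8] at h7
      exact hn h7
  · refine ⟨_, inferInstance, join L₂ P, ⟨h1, h4⟩, h2, fun hc => ?_⟩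
    exact hn (linApprox_of_geq (hc.trans h3))

/-- density from a hardness result -/
theorem between_of_hard' [Finite X] [Finite Y] [Finite W] {D : Dev} (hD : D.Mono)
    {L₁ : Language X} {L₂ : Language Y} {P : Language W} (hK : PolyBy D L₂) (hH : Hard D P)
    (hG : Geq L₁ goldstine) (hP : Geq L₁ P) (h : Geq L₁ L₂) (hne : L₂ ≠ ⊥) :
    ∃ (V : Type) (_ : Finite V) (M : Language V), Between L₁ M L₂ := by
  obtain ⟨x₀, hx⟩ : ∃ x₀, x₀ ∈ L₂ := by
    by_contra hc
    push Not at hc
    exact hne (by
      ext x
      exact ⟨fun hx => absurd hx (hc x), fun hx => absurd hx (by exact fun h => h)⟩)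
  exact between_of_not_linApprox hG hP h hx (not_linApprox_of_hard hD hK hH)

/-! ### palindromes dominate `{a^n b^m : n ≠ m}` -/

theorem mem_allL_eq {Z : Type} {a : Z} {w : List Z} : w ∈ allL (fun z => z = a) ↔
    ∃ n, w = List.replicate n a := by
  constructor
  · intro h
    exact ⟨w.length, List.eq_replicate_iff.mpr ⟨rfl, h⟩⟩
  · rintro ⟨n, rfl⟩ z hz
    exact (List.mem_replicate.mp hz).2

theorem mem_oneL_eq {Z : Type} {a : Z} {w : List Z} : w ∈ oneL (fun z => z = a) ↔ w = [a] := by
  constructor
  · rintro ⟨z, rfl, rfl⟩
    rfl
  · rintro rfl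
    exact ⟨a, rfl, rfl⟩

def phP (z : Fin 5) : List Bool :=
  if z = 1 then [false] else if z = 2 then [true, true] else if z = 3 then [false] else []

def psP (z : Fin 5) : List Bool :=
  if z = 0 then [false] else if z = 1 then [false] else if z = 2 then [] else [true]

def KP : Language (Fin 5) :=
  oneL (fun z => z = 0) * (allL (fun z => z = 0) * (allL (fun z => z = 1) *
    (oneL (fun z => z = 2) * allL (fun z => z = 3)))) +
  allL (fun z => z = 1) * (oneL (fun z => z = 2) * (allL (fun z => z = 3) *
    (oneL (fun z => z = 4) * allL (fun z => z = 4))))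

def tauP : Transducer Bool Bool where
  Z := Fin 5
  finZ := inferInstance
  K := KP
  regK := (mul_regular (oneL_regular _) (mul_regular (allL_regular _) (mul_regular (allL_regular _)
    (mul_regular (oneL_regular _) (allL_regular _))))).add
    (mul_regular (allL_regular _) (mul_regular (oneL_regular _) (mul_regular (allL_regular _)
      (mul_regular (oneL_regular _) (allL_regular _)))))
  φ := phP
  ψ := psP

theorem fm_rep {Z : Type} (f : Z → List W) {a : Z} {b : W} (h : f a = [b]) (n : ℕ) :
    (List.replicate n a).flatMap f = List.replicate n b := by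
  induction n with
  | zero => rfl
  | succ n ih => rw [List.replicate_succ, List.flatMap_cons, ih, h]; rfl

theorem fm_rep0 {Z : Type} (f : Z → List W) {a : Z} (h : f a = []) (n : ℕ) :
    (List.replicate n a).flatMap f = [] := by
  induction n with
  | zero => rfl
  | succ n ih => rw [List.replicate_succ, List.flatMap_cons, ih, h]; rfl

theorem rep_true {n m : ℕ} {p q : List Bool}
    (h : List.replicate n false ++ true :: p = List.replicate m false ++ true :: q) : n = m := by
  induction n generalizing m with
  | zero =>
    cases m with
    | zero => rfl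
    | succ m => simp [List.replicate_succ] at h
  | succ n ih =>
    cases m with
    | zero => simp [List.replicate_succ] at h
    | succ m =>
      simp only [List.replicate_succ, List.cons_append, List.cons.injEq, true_and] at h
      rw [ih h]

theorem mem_pal_rep (n m : ℕ) :
    List.replicate n false ++ (true :: true :: List.replicate m false) ∈ palLang ↔ n = m := by
  constructor
  · rintro ⟨w, hw⟩
    have h1 := congrArg List.reverse hw
    rw [List.reverse_append (as := w), List.reverse_reverse, ← hw] at h1
    simp only [List.reverse_append, List.reverse_cons, List.reverse_replicate,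
      List.append_assoc, List.cons_append, List.nil_append] at h1
    exact (rep_true h1).symm
  · rintro rfl
    refine ⟨List.replicate n false ++ [true], ?_⟩
    simp [List.reverse_append, List.reverse_replicate]

theorem pal_geq_neq : Geq palLang neqLang := by
  refine ⟨tauP, ?_⟩
  ext y
  constructor
  · rintro ⟨h, hK, hL, rfl⟩
    rcases hK with hK | hK
    · obtain ⟨a, ha, b, hb, rfl⟩ := Language.mem_mul.mp hK
      obtain ⟨c, hc, d, hd, rfl⟩ := Language.mem_mul.mp hb
      obtain ⟨e, he, f, hf, rfl⟩ := Language.mem_mul.mp hd
      obtain ⟨g, hg, k, hk, rfl⟩ := Language.mem_mul.mp hf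
      rw [mem_oneL_eq] at ha hg
      obtain ⟨n₁, rfl⟩ := mem_allL_eq.mp hc
      obtain ⟨n₂, rfl⟩ := mem_allL_eq.mp he
      obtain ⟨n₃, rfl⟩ := mem_allL_eq.mp hk
      subst ha hg
      have h1 : (([0] : List (Fin 5)) ++ (List.replicate n₁ 0 ++ (List.replicate n₂ 1 ++ ([2] ++
        List.replicate n₃ 3)))).flatMap phP = List.replicate n₂ false ++
          (true :: true :: List.replicate n₃ false) := by
        simp only [List.flatMap_append, fm_rep0 phP (show phP 0 = [] from rfl),
          fm_rep phP (show phP 1 = [false] from rfl), fm_rep phP (show phP 3 = [false] from rfl)]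
        rfl
      have h2 : (([0] : List (Fin 5)) ++ (List.replicate n₁ 0 ++ (List.replicate n₂ 1 ++ ([2] ++
        List.replicate n₃ 3)))).flatMap psP = List.replicate (n₁ + 1 + n₂) false ++
          List.replicate n₃ true := by
        simp only [List.flatMap_append, fm_rep psP (show psP 0 = [false] from rfl),
          fm_rep psP (show psP 1 = [false] from rfl), fm_rep psP (show psP 3 = [true] from rfl)]
        rw [List.replicate_add, List.replicate_succ]
        simp [psP]
        rw [List.replicate_add, List.append_assoc]
      have h3 : (([0] : List (Fin 5)) ++ (List.replicate n₁ 0 ++ (List.replicate n₂ 1 ++ ([2] ++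
        List.replicate n₃ 3)))).flatMap phP ∈ palLang := hL
      rw [h1, mem_pal_rep] at h3
      change (([0] : List (Fin 5)) ++ (List.replicate n₁ 0 ++ (List.replicate n₂ 1 ++ ([2] ++
        List.replicate n₃ 3)))).flatMap psP ∈ neqLang
      rw [h2, mem_neqLang]
      omega
    · obtain ⟨a, ha, b, hb, rfl⟩ := Language.mem_mul.mp hK
      obtain ⟨c, hc, d, hd, rfl⟩ := Language.mem_mul.mp hb
      obtain ⟨e, he, f, hf, rfl⟩ := Language.mem_mul.mp hd
      obtain ⟨g, hg, k, hk, rfl⟩ := Language.mem_mul.mp hf
      rw [mem_oneL_eq] at hc hg
      obtain ⟨n₁, rfl⟩ := mem_allL_eq.mp ha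
      obtain ⟨n₂, rfl⟩ := mem_allL_eq.mp he
      obtain ⟨n₃, rfl⟩ := mem_allL_eq.mp hk
      subst hc hg
      have h1 : ((List.replicate n₁ 1 : List (Fin 5)) ++ ([2] ++ (List.replicate n₂ 3 ++ ([4] ++
        List.replicate n₃ 4)))).flatMap phP = List.replicate n₁ false ++
          (true :: true :: List.replicate n₂ false) := by
        simp only [List.flatMap_append, fm_rep0 phP (show phP 4 = [] from rfl),
          fm_rep phP (show phP 1 = [false] from rfl), fm_rep phP (show phP 3 = [false] from rfl)]
        simp [phP]
      have h2 : ((List.replicate n₁ 1 : List (Fin 5)) ++ ([2] ++ (List.replicate n₂ 3 ++ ([4] ++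
        List.replicate n₃ 4)))).flatMap psP = List.replicate n₁ false ++
          List.replicate (n₂ + (n₃ + 1)) true := by
        simp only [List.flatMap_append, fm_rep psP (show psP 4 = [true] from rfl),
          fm_rep psP (show psP 1 = [false] from rfl), fm_rep psP (show psP 3 = [true] from rfl)]
        rw [List.replicate_add, List.replicate_succ]
        simp [psP]
      have h3 : ((List.replicate n₁ 1 : List (Fin 5)) ++ ([2] ++ (List.replicate n₂ 3 ++ ([4] ++
        List.replicate n₃ 4)))).flatMap phP ∈ palLang := hL
      rw [h1, mem_pal_rep] at h3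
      change ((List.replicate n₁ 1 : List (Fin 5)) ++ ([2] ++ (List.replicate n₂ 3 ++ ([4] ++
        List.replicate n₃ 4)))).flatMap psP ∈ neqLang
      rw [h2, mem_neqLang]
      omega
  · rintro ⟨n, m, hne, rfl⟩
    rcases Nat.lt_or_ge m n with hlt | hge
    · obtain ⟨k, rfl⟩ : ∃ k, n = k + 1 + m := ⟨n - m - 1, by omega⟩
      refine ⟨([0] : List (Fin 5)) ++ (List.replicate k 0 ++ (List.replicate m 1 ++ ([2] ++
        List.replicate m 3))), Or.inl ?_, ?_, ?_⟩
      · exact Language.append_mem_mul (mem_oneL_eq.mpr rfl) (Language.append_mem_mul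
          (mem_allL_eq.mpr ⟨_, rfl⟩) (Language.append_mem_mul (mem_allL_eq.mpr ⟨_, rfl⟩)
            (Language.append_mem_mul (mem_oneL_eq.mpr rfl) (mem_allL_eq.mpr ⟨_, rfl⟩))))
      · change (([0] : List (Fin 5)) ++ (List.replicate k 0 ++ (List.replicate m 1 ++ ([2] ++
          List.replicate m 3)))).flatMap phP ∈ palLang
        have h1 : (([0] : List (Fin 5)) ++ (List.replicate k 0 ++ (List.replicate m 1 ++ ([2] ++
          List.replicate m 3)))).flatMap phP = List.replicate m false ++
            (true :: true :: List.replicate m false) := by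
          simp only [List.flatMap_append, fm_rep0 phP (show phP 0 = [] from rfl),
            fm_rep phP (show phP 1 = [false] from rfl), fm_rep phP (show phP 3 = [false] from rfl)]
          rfl
        rw [h1, mem_pal_rep]
      · change (([0] : List (Fin 5)) ++ (List.replicate k 0 ++ (List.replicate m 1 ++ ([2] ++
          List.replicate m 3)))).flatMap psP = _
        simp only [List.flatMap_append, fm_rep psP (show psP 0 = [false] from rfl),
          fm_rep psP (show psP 1 = [false] from rfl), fm_rep psP (show psP 3 = [true] from rfl)]
        rw [List.replicate_add, List.replicate_succ]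
        simp [psP]
        rw [List.replicate_add, List.append_assoc]
    · obtain ⟨k, rfl⟩ : ∃ k, m = n + (k + 1) := ⟨m - n - 1, by omega⟩
      refine ⟨(List.replicate n 1 : List (Fin 5)) ++ ([2] ++ (List.replicate n 3 ++ ([4] ++
        List.replicate k 4))), Or.inr ?_, ?_, ?_⟩
      · exact Language.append_mem_mul (mem_allL_eq.mpr ⟨_, rfl⟩) (Language.append_mem_mul
          (mem_oneL_eq.mpr rfl) (Language.append_mem_mul (mem_allL_eq.mpr ⟨_, rfl⟩)
            (Language.append_mem_mul (mem_oneL_eq.mpr rfl) (mem_allL_eq.mpr ⟨_, rfl⟩))))
      · change ((List.replicate n 1 : List (Fin 5)) ++ ([2] ++ (List.replicate n 3 ++ ([4] ++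
          List.replicate k 4)))).flatMap phP ∈ palLang
        have h1 : ((List.replicate n 1 : List (Fin 5)) ++ ([2] ++ (List.replicate n 3 ++ ([4] ++
          List.replicate k 4)))).flatMap phP = List.replicate n false ++
            (true :: true :: List.replicate n false) := by
          simp only [List.flatMap_append, fm_rep0 phP (show phP 4 = [] from rfl),
            fm_rep phP (show phP 1 = [false] from rfl), fm_rep phP (show phP 3 = [false] from rfl)]
          simp [phP]
        rw [h1, mem_pal_rep]
      · change ((List.replicate n 1 : List (Fin 5)) ++ ([2] ++ (List.replicate n 3 ++ ([4] ++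
          List.replicate k 4)))).flatMap psP = _
        simp only [List.flatMap_append, fm_rep psP (show psP 4 = [true] from rfl),
          fm_rep psP (show psP 1 = [false] from rfl), fm_rep psP (show psP 3 = [true] from rfl)]
        rw [List.replicate_add, List.replicate_succ]
        simp [psP]

theorem pal_geq_goldstine : Geq palLang goldstine := pal_geq_neq.trans neq_geq_goldstine

/-- from two palindromes to one -/
def tauTwo : Transducer (Option Bool) Bool where
  Z := Option Bool
  finZ := inferInstance
  K := allL (fun z => z.isSome) * oneL (fun z => z = none)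
  regK := mul_regular (allL_regular _) (oneL_regular _)
  φ := fun z => [z]
  ψ := fun z => z.toList

theorem two_geq_pal : Geq palTwo palLang := by
  refine ⟨tauTwo, ?_⟩
  have key : ∀ b : List (Option Bool), (∀ z ∈ b, z.isSome) → ∃ g : List Bool, b = g.map some := by
    intro h hh
    induction h with
    | nil => exact ⟨[], rfl⟩
    | cons z h ih =>
      obtain ⟨g, hg⟩ := ih (fun z hz => hh z (List.mem_cons_of_mem _ hz))
      cases z with
      | some a => exact ⟨a :: g, by simp [hg]⟩
      | none => exact absurd (hh _ List.mem_cons_self) (by simp)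
  ext y
  constructor
  · rintro ⟨h, hK, hL, rfl⟩
    obtain ⟨a, ha, b, hb, rfl⟩ := Language.mem_mul.mp hK
    obtain ⟨u, rfl⟩ := key a ha
    rw [mem_oneL_eq] at hb
    subst hb
    have h1 : (u.map some ++ [none]).flatMap (fun z : Option Bool => [z]) ∈ palTwo := hL
    rw [flatMap_single] at h1
    obtain ⟨p, q, he⟩ := h1
    have h2 : u.map some ++ none :: [] =
      (p ++ p.reverse).map some ++ none :: ((q ++ q.reverse).map some) := he
    obtain ⟨h3, _⟩ := none_split h2
    change (u.map some ++ [none]).flatMap (fun z : Option Bool => z.toList) ∈ palLang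
    rw [List.flatMap_append, fm1]
    refine ⟨p, ?_⟩
    simpa using h3
  · rintro ⟨p, rfl⟩
    refine ⟨(p ++ p.reverse).map some ++ [none], ?_, ?_, ?_⟩
    · refine Language.append_mem_mul ?_ (mem_oneL_eq.mpr rfl)
      intro z hz
      obtain ⟨a, _, rfl⟩ := List.mem_map.mp hz
      rfl
    · change ((p ++ p.reverse).map some ++ [none]).flatMap (fun z : Option Bool => [z]) ∈ palTwo
      rw [flatMap_single]
      exact ⟨p, [], rfl⟩
    · change ((p ++ p.reverse).map some ++ [none]).flatMap (fun z : Option Bool => z.toList) = _
      rw [List.flatMap_append, fm1]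
      simp

theorem two_geq_goldstine : Geq palTwo goldstine := two_geq_pal.trans pal_geq_goldstine

/-- The linear languages over the iterated counter languages: the smallest family which contains
the even palindromes and is closed under rational transductions and under substitutions of
iterated counter languages. -/
inductive LinIter : ∀ Y : Type, Language Y → Prop
  | pal : LinIter Bool palLang
  | image {Y X : Type} [Finite Y] [Finite X] {L : Language Y} (τ : Transducer Y X) :
      LinIter Y L → LinIter X (τ.image L)
  | subst {Y W : Type} [Finite Y] [Finite W] {K : Language Y} (f : Y → Language W) :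
      LinIter Y K → (∀ y, IterCounter W (f y)) → LinIter W (substL K f)

theorem LinIter.polyBy {Y : Type} {L : Language Y} (h : LinIter Y L) : PolyBy LinD L := by
  induction h with
  | pal => exact polyBy_pal
  | image τ _ ih => exact ih.of_geq LinD_mono ⟨τ, rfl⟩
  | subst f _ hf ih => exact ih.subst LinD_mono fun y => (hf y).polyBy

/-- **Iterated counter languages below the palindromes** -/
theorem between_iter [Finite X] [Finite Y] {L₁ : Language X} {L₂ : Language Y}
    (hI : IterCounter Y L₂) (hne : L₂ ≠ ⊥) (h : Geq L₁ L₂) (hP : Geq L₁ palLang) :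
    ∃ (V : Type) (_ : Finite V) (M : Language V), Between L₁ M L₂ :=
  between_of_hard' NfaD_mono hI.polyBy hard_pal (hP.trans pal_geq_goldstine) hP h hne

/-- **Linear languages over iterated counters below two palindromes** -/
theorem between_lin [Finite X] [Finite Y] {L₁ : Language X} {L₂ : Language Y}
    (hI : LinIter Y L₂) (hne : L₂ ≠ ⊥) (h : Geq L₁ L₂) (hP : Geq L₁ palTwo) :
    ∃ (V : Type) (_ : Finite V) (M : Language V), Between L₁ M L₂ :=
  between_of_hard' LinD_mono hI.polyBy hard_palTwo (hP.trans two_geq_goldstine) hP h hne

end RCone
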