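import Pool.Agent.RCone.Gen

/-! # Grammars with a rank (helper70, MP_a8de0d_lc) -/

namespace RCone

open Language

variable {X Y W V : Type}

/-- Derivations: `DerL rule γ x` if the word `x` is derived from the list `γ` of letters and
variables. -/
inductive DerL {N : Type} (rule : N → List (X ⊕ N) → Prop) : List (X ⊕ N) → List X → Prop
  | nil : DerL rule [] []
  | term {γ : List (X ⊕ N)} {x : List X} (a : X) : DerL rule γ x →
      DerL rule (Sum.inl a :: γ) (a :: x)
  | nt {A : N} {δ γ : List (X ⊕ N)} {y x : List X} : rule A δ → DerL rule δ y → DerL rule γ x →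
      DerL rule (Sum.inr A :: γ) (y ++ x)

/-- one variable of the right hand side may have the rank of the left hand side, all others have
smaller rank -/
def RankOK {N : Type} (rk : N → ℕ) (A : N) (γ : List (X ⊕ N)) : Prop :=
  (∀ C, Sum.inr C ∈ γ → rk C ≤ rk A) ∧
  ∀ γ₁ C γ₂ D γ₃, γ = γ₁ ++ Sum.inr C :: (γ₂ ++ Sum.inr D :: γ₃) → rk C < rk A ∨ rk D < rk A

/-- `R` is generated by a grammar with at most `m` variables, right hand sides of length at most
`B`, and rank at most `k`. -/
def GrDev (k m B : ℕ) (R : Language X) : Prop :=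
  ∃ (N : Type) (_ : Fintype N) (rule : N → List (X ⊕ N) → Prop) (rk : N → ℕ) (S : N),
    Fintype.card N ≤ m ∧ (∀ A γ, rule A γ → γ.length ≤ B ∧ RankOK rk A γ) ∧ rk S ≤ k ∧
    R = {x | DerL rule [Sum.inr S] x}

/-- the grammars of rank at most `k` -/
def GrD (k : ℕ) : Dev := fun _ m B R => GrDev k m B R

theorem GrD_mono (k : ℕ) : (GrD k).Mono := by
  rintro X m m' B B' R hm hB ⟨N, hN, rule, rk, S, h1, h2, h3, h4⟩
  exact ⟨N, hN, rule, rk, S, h1.trans hm, fun A γ h => ⟨(h2 A γ h).1.trans hB, (h2 A γ h).2⟩, h3,
    h4⟩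

/-- words obtained from a list of letters and variables -/
inductive SemL {N : Type} (F : N → Language X) : List (X ⊕ N) → List X → Prop
  | nil : SemL F [] []
  | term {γ : List (X ⊕ N)} {x : List X} (a : X) : SemL F γ x → SemL F (Sum.inl a :: γ) (a :: x)
  | nt {A : N} {γ : List (X ⊕ N)} {y x : List X} : y ∈ F A → SemL F γ x →
      SemL F (Sum.inr A :: γ) (y ++ x)

/-- derivations are the least solution -/
theorem DerL.sem {N : Type} {rule : N → List (X ⊕ N) → Prop} {F : N → Language X}
    (hF : ∀ A δ y, rule A δ → SemL F δ y → y ∈ F A) {γ : List (X ⊕ N)} {x : List X}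
    (h : DerL rule γ x) : SemL F γ x := by
  induction h with
  | nil => exact SemL.nil
  | term a _ ih => exact SemL.term a ih
  | nt hr _ _ ih1 ih2 => exact SemL.nt (hF _ _ _ hr ih1) ih2

theorem SemL.der {N : Type} {rule : N → List (X ⊕ N) → Prop} {F : N → Language X}
    (hF : ∀ A y, y ∈ F A → DerL rule [Sum.inr A] y) {γ : List (X ⊕ N)} {x : List X}
    (h : SemL F γ x) : DerL rule γ x := by
  induction h with
  | nil => exact DerL.nil
  | term a _ ih => exact DerL.term a ih
  | nt hy _ ih =>
    have h1 := hF _ _ hy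
    cases h1 with
    | nt hr h2 h3 =>
      cases h3
      rw [List.append_nil]
      exact DerL.nt hr h2 ih

theorem SemL.append {N : Type} {F : N → Language X} {γ γ' : List (X ⊕ N)} {x x' : List X}
    (h : SemL F γ x) (h' : SemL F γ' x') : SemL F (γ ++ γ') (x ++ x') := by
  induction h with
  | nil => exact h'
  | term a _ ih => exact SemL.term a ih
  | nt hy _ ih =>
    rw [List.append_assoc]
    exact SemL.nt hy ih

theorem SemL.split {N : Type} {F : N → Language X} {γ γ' : List (X ⊕ N)} {x : List X}
    (h : SemL F (γ ++ γ') x) : ∃ y z, x = y ++ z ∧ SemL F γ y ∧ SemL F γ' z := by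
  induction γ generalizing x with
  | nil => exact ⟨[], x, rfl, SemL.nil, h⟩
  | cons s γ ih =>
    rw [List.cons_append] at h
    cases h with
    | term a h =>
      obtain ⟨y, z, rfl, h1, h2⟩ := ih h
      exact ⟨a :: y, z, rfl, SemL.term a h1, h2⟩
    | nt hy h =>
      obtain ⟨y, z, rfl, h1, h2⟩ := ih h
      exact ⟨_, z, (List.append_assoc _ _ _).symm, SemL.nt hy h1, h2⟩

theorem SemL.of_map {N : Type} {F : N → Language X} (w : List X) :
    SemL F (w.map Sum.inl) w := by
  induction w with
  | nil => exact SemL.nil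
  | cons a w ih => exact SemL.term a ih

theorem SemL.map_eq {N : Type} {F : N → Language X} {w x : List X}
    (h : SemL F (w.map Sum.inl) x) : x = w := by
  induction w generalizing x with
  | nil => cases h; rfl
  | cons a w ih =>
    rw [List.map_cons] at h
    cases h with
    | term a h => rw [ih h]

theorem DerL.append {N : Type} {rule : N → List (X ⊕ N) → Prop} {γ γ' : List (X ⊕ N)}
    {x x' : List X} (h : DerL rule γ x) (h' : DerL rule γ' x') :
    DerL rule (γ ++ γ') (x ++ x') := by
  induction h with
  | nil => exact h'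
  | term a _ ih => exact DerL.term a ih
  | nt hr hd _ _ ih2 =>
    rw [List.append_assoc]
    exact DerL.nt hr hd ih2

theorem DerL.of_map {N : Type} {rule : N → List (X ⊕ N) → Prop} (w : List X) :
    DerL rule (w.map Sum.inl) w := by
  induction w with
  | nil => exact DerL.nil
  | cons a w ih => exact DerL.term a ih

theorem DerL.single {N : Type} {rule : N → List (X ⊕ N) → Prop} {A : N} {δ : List (X ⊕ N)}
    {y : List X} (hr : rule A δ) (h : DerL rule δ y) : DerL rule [Sum.inr A] y := by
  have := DerL.nt hr h DerL.nil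
  rwa [List.append_nil] at this

/-- linear devices are grammars of rank `0` -/
theorem LinDev.gr {m B : ℕ} {R : Language X} (h : LinDev m B R) : GrDev 0 m (B + B + 1) R := by
  obtain ⟨Z, hZ, σ, hσ, M, l, r, h1, h2, rfl⟩ := h
  let rule : σ → List (X ⊕ σ) → Prop := fun q γ =>
    (∃ z, γ = (l z).map Sum.inl ++ Sum.inr (M.step q z) :: (r z).map Sum.inl) ∨
      (q ∈ M.accept ∧ γ = [])
  refine ⟨σ, hσ, rule, fun _ => 0, M.start, h1, ?_, le_rfl, ?_⟩
  · rintro A γ (⟨z, rfl⟩ | ⟨_, rfl⟩)
    · refine ⟨?_, fun _ _ => le_rfl, ?_⟩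
      · rw [List.length_append, List.length_cons, List.length_map, List.length_map]
        have := h2 z
        omega
      · intro γ₁ C γ₂ D γ₃ he
        exfalso
        have h3 := congrArg (List.countP Sum.isRight) he
        have h4 : ∀ w : List X, (w.map (Sum.inl : X → X ⊕ σ)).countP Sum.isRight = 0 := by
          intro w
          rw [List.countP_eq_zero]
          intro s hs
          obtain ⟨a, _, rfl⟩ := List.mem_map.mp hs
          simp
        simp only [List.countP_append, List.countP_cons, h4, Sum.isRight_inr, if_true] at h3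
        omega
    · refine ⟨Nat.zero_le _, fun _ _ => le_rfl, ?_⟩
      intro γ₁ C γ₂ D γ₃ he
      simp at he
  · let F : σ → Language X := fun q => {x | ∃ g, M.evalFrom q g ∈ M.accept ∧
      g.flatMap l ++ g.reverse.flatMap r = x}
    ext x
    constructor
    · rintro ⟨g, hg, rfl⟩
      have key : ∀ (g : List Z) q, M.evalFrom q g ∈ M.accept →
          DerL rule [Sum.inr q] (g.flatMap l ++ g.reverse.flatMap r) := by
        intro g
        induction g with
        | nil => exact fun q hq => DerL.single (Or.inr ⟨hq, rfl⟩) DerL.nil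
        | cons z g ih =>
          intro q hq
          rw [DFA.evalFrom_cons] at hq
          have h3 := ih _ hq
          refine DerL.single (Or.inl ⟨z, rfl⟩) ?_
          rw [List.flatMap_cons, List.reverse_cons, List.flatMap_append]
          have h4 : ([z] : List Z).flatMap r = r z := by simp
          rw [h4, List.append_assoc]
          refine (DerL.of_map (l z)).append ?_
          have h5 := h3.append (DerL.of_map (rule := rule) (r z))
          rw [List.append_assoc] at h5
          exact h5
      exact key g M.start hg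
    · intro hx
      have h3 : SemL F [Sum.inr M.start] x := by
        refine DerL.sem ?_ hx
        rintro A δ y (⟨z, rfl⟩ | ⟨hA, rfl⟩) hy
        · obtain ⟨y₁, y₂, rfl, h4, h5⟩ := hy.split
          rw [h4.map_eq]
          cases h5 with
          | nt h6 h7 =>
            obtain ⟨g, hg, rfl⟩ := h6
            refine ⟨z :: g, ?_, ?_⟩
            · rw [DFA.evalFrom_cons]
              exact hg
            · rw [h7.map_eq, List.flatMap_cons, List.reverse_cons, List.flatMap_append]
              have h4 : ([z] : List Z).flatMap r = r z := by simp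
              rw [h4]
              simp
        · cases hy
          exact ⟨[], hA, rfl⟩
      cases h3 with
      | nt h4 h5 =>
        cases h5
        rw [List.append_nil]
        exact h4

theorem nfa_lin {m B : ℕ} {R : Language X} (h : Nfa m B R) : LinDev m B R := by
  obtain ⟨Z, hZ, σ, hσ, M, ψ, h1, h2, rfl⟩ := h
  refine ⟨Z, hZ, σ, hσ, M, ψ, fun _ => [], h1, fun z => ⟨h2 z, Nat.zero_le _⟩, ?_⟩
  ext x
  have h3 : ∀ g : List Z, g.reverse.flatMap (fun _ : Z => ([] : List X)) = [] := by
    intro g
    rw [List.flatMap_eq_nil_iff]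
    exact fun _ _ => rfl
  constructor
  · rintro ⟨g, hg, rfl⟩
    exact ⟨g, hg, by rw [h3, List.append_nil]⟩
  · rintro ⟨g, hg, hx⟩
    rw [h3, List.append_nil] at hx
    exact ⟨g, hg, hx⟩

theorem PolyBy.nfa_lin {K : Language Y} (h : PolyBy NfaD K) : PolyBy LinD K := by
  intro B
  obtain ⟨C, e, hC⟩ := h B
  refine ⟨C, e, fun X m n τ hs => ?_⟩
  obtain ⟨R, hR, hx⟩ := hC X m n τ hs
  exact ⟨R, RCone.nfa_lin hR, hx⟩

theorem PolyBy.lin_gr {K : Language Y} (h : PolyBy LinD K) : PolyBy (GrD 0) K := by
  intro B
  obtain ⟨C, e, hC⟩ := h B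
  refine ⟨C + C + 1, e, fun X m n τ hs => ?_⟩
  obtain ⟨R, hR, hx⟩ := hC X m n τ hs
  refine ⟨R, GrD_mono 0 _ _ _ _ _ _ ?_ le_rfl hR.gr, hx⟩
  exact Nat.mul_le_mul_right _ (by omega)

end RCone
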