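import Pool.Agent.RCone.Gram

/-! # Substitution into grammars with a rank (helper70, MP_a8de0d_lc) -/

namespace RCone

open Language

variable {X Y W V : Type}

section comb

variable {H NK : Type} {Nh : H → Type} (ruleK : NK → List ((X ⊕ H) ⊕ NK) → Prop)
variable (ruleH : ∀ h, Nh h → List (X ⊕ Nh h) → Prop) (SH : ∀ h, Nh h)

/-- letters `h` become variables -/
def conv : (X ⊕ H) ⊕ NK → X ⊕ (NK ⊕ (Σ h, Nh h))
  | Sum.inl (Sum.inl x) => Sum.inl x
  | Sum.inl (Sum.inr h) => Sum.inr (Sum.inr ⟨h, SH h⟩)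
  | Sum.inr A => Sum.inr (Sum.inl A)

/-- embedding of a part -/
def injH (NK : Type) {Nh : H → Type} (h : H) : X ⊕ Nh h → X ⊕ (NK ⊕ (Σ h, Nh h))
  | Sum.inl x => Sum.inl x
  | Sum.inr A => Sum.inr (Sum.inr ⟨h, A⟩)

/-- the combined grammar -/
def ruleC : NK ⊕ (Σ h, Nh h) → List (X ⊕ (NK ⊕ (Σ h, Nh h))) → Prop
  | Sum.inl A, γ' => ∃ γ, ruleK A γ ∧ γ' = γ.map (conv SH)
  | Sum.inr ⟨h, A⟩, γ' => ∃ γ, ruleH h A γ ∧ γ' = γ.map (injH NK h)

/-- languages of the parts -/
def langH (h : H) : Language X := {x | DerL (ruleH h) [Sum.inr (SH h)] x}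

theorem lift_H {h : H} {γ : List (X ⊕ Nh h)} {y : List X} (hd : DerL (ruleH h) γ y) :
    DerL (ruleC ruleK ruleH SH) (γ.map (injH NK h)) y := by
  induction hd with
  | nil => exact DerL.nil
  | term a _ ih => exact DerL.term a ih
  | nt hr _ _ ih1 ih2 =>
    exact DerL.nt (show ruleC ruleK ruleH SH (Sum.inr ⟨h, _⟩) _ from ⟨_, hr, rfl⟩) ih1 ih2

theorem lift_K {γ : List ((X ⊕ H) ⊕ NK)} {η : List (X ⊕ H)} (hd : DerL ruleK γ η) :
    ∀ x, SemL (langH ruleH SH) η x → DerL (ruleC ruleK ruleH SH) (γ.map (conv SH)) x := by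
  induction hd with
  | nil =>
    intro x hx
    cases hx
    exact DerL.nil
  | @term γ η a _ ih =>
    intro x hx
    match a, hx with
    | Sum.inl x₀, hx =>
      cases hx with
      | term _ h1 => exact DerL.term x₀ (ih _ h1)
    | Sum.inr h, hx =>
      cases hx with
      | nt hy h1 =>
        have h2 : DerL (ruleH h) [Sum.inr (SH h)] _ := hy
        have h3 := (lift_H ruleK ruleH SH h2).append (ih _ h1)
        exact h3
  | nt hr _ _ ih1 ih2 =>
    intro x hx
    obtain ⟨y, z, rfl, h1, h2⟩ := hx.split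
    exact DerL.nt (show ruleC ruleK ruleH SH (Sum.inl _) _ from ⟨_, hr, rfl⟩) (ih1 _ h1)
      (ih2 _ h2)

/-- the languages of the variables of the combined grammar -/
def FC : NK ⊕ (Σ h, Nh h) → Language X
  | Sum.inl A => {x | ∃ η, DerL ruleK [Sum.inr A] η ∧ SemL (langH ruleH SH) η x}
  | Sum.inr ⟨h, A⟩ => {x | DerL (ruleH h) [Sum.inr A] x}

theorem sem_conv {γ : List ((X ⊕ H) ⊕ NK)} : ∀ {y : List X},
    SemL (FC ruleK ruleH SH) (γ.map (conv SH)) y →
    ∃ η, SemL (fun B => {η | DerL ruleK [Sum.inr B] η}) γ η ∧ SemL (langH ruleH SH) η y := by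
  induction γ with
  | nil =>
    intro y hy
    cases hy
    exact ⟨[], SemL.nil, SemL.nil⟩
  | cons s γ ih =>
    intro y hy
    match s, hy with
    | Sum.inl (Sum.inl x₀), hy =>
      have hy' : SemL (FC ruleK ruleH SH) (Sum.inl x₀ :: γ.map (conv SH)) y := hy
      cases hy' with
      | term _ h1 =>
        obtain ⟨η, h2, h3⟩ := ih h1
        exact ⟨Sum.inl x₀ :: η, SemL.term _ h2, SemL.term _ h3⟩
    | Sum.inl (Sum.inr h), hy =>
      have hy' : SemL (FC ruleK ruleH SH) (Sum.inr (Sum.inr ⟨h, SH h⟩) :: γ.map (conv SH)) y := hy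
      cases hy' with
      | nt h0 h1 =>
        obtain ⟨η, h2, h3⟩ := ih h1
        exact ⟨Sum.inr h :: η, SemL.term _ h2, SemL.nt h0 h3⟩
    | Sum.inr A, hy =>
      have hy' : SemL (FC ruleK ruleH SH) (Sum.inr (Sum.inl A) :: γ.map (conv SH)) y := hy
      cases hy' with
      | nt h0 h1 =>
        obtain ⟨η, h2, h3⟩ := ih h1
        obtain ⟨η₀, h4, h5⟩ := h0
        exact ⟨η₀ ++ η, SemL.nt h4 h2, h5.append h3⟩

theorem sem_injH {h : H} {γ : List (X ⊕ Nh h)} : ∀ {y : List X},
    SemL (FC ruleK ruleH SH) (γ.map (injH NK h)) y →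
    SemL (fun B => {x | DerL (ruleH h) [Sum.inr B] x}) γ y := by
  induction γ with
  | nil =>
    intro y hy
    cases hy
    exact SemL.nil
  | cons s γ ih =>
    intro y hy
    match s, hy with
    | Sum.inl x₀, hy =>
      have hy' : SemL (FC ruleK ruleH SH) (Sum.inl x₀ :: γ.map (injH NK h)) y := hy
      cases hy' with
      | term _ h1 => exact SemL.term _ (ih h1)
    | Sum.inr A, hy =>
      have hy' : SemL (FC ruleK ruleH SH) (Sum.inr (Sum.inr ⟨h, A⟩) :: γ.map (injH NK h)) y := hy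
      cases hy' with
      | nt h0 h1 => exact SemL.nt h0 (ih h1)

/-- the language of the combined grammar -/
theorem comb_iff (S : NK) (x : List X) : DerL (ruleC ruleK ruleH SH) [Sum.inr (Sum.inl S)] x ↔
    ∃ η, DerL ruleK [Sum.inr S] η ∧ SemL (langH ruleH SH) η x := by
  constructor
  · intro hx
    have h1 : SemL (FC ruleK ruleH SH) [Sum.inr (Sum.inl S)] x := by
      refine DerL.sem ?_ hx
      rintro (A | ⟨h, A⟩) δ y hr hy
      · obtain ⟨γ, hγ, rfl⟩ := hr
        obtain ⟨η, h2, h3⟩ := sem_conv ruleK ruleH SH hy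
        exact ⟨η, DerL.single hγ (h2.der fun _ _ h => h), h3⟩
      · obtain ⟨γ, hγ, rfl⟩ := hr
        exact DerL.single hγ ((sem_injH ruleK ruleH SH hy).der fun _ _ h => h)
    cases h1 with
    | nt h2 h3 =>
      cases h3
      rw [List.append_nil]
      exact h2
  · rintro ⟨η, h1, h2⟩
    exact lift_K ruleK ruleH SH h1 x h2

end comb

open Classical in
/-- automaton for the transduction from `p` to `q` with nonempty output -/
noncomputable def partPD {Z σ : Type} (ψ : Z → List X) (M : DFA Z σ) (p q : σ) :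
    DFA Z (σ × Bool) where
  step s z := (M.step s.1 z, s.2 || decide (ψ z ≠ []))
  start := (p, false)
  accept := {(q, true)}

theorem partPD_accepts {Z σ : Type} (ψ : Z → List X) (M : DFA Z σ) (p q : σ) :
    (partPD ψ M p q).accepts = {h | M.evalFrom p h = q ∧ h.flatMap ψ ≠ []} := by
  classical
  have key : ∀ (h : List Z), (partPD ψ M p q).eval h =
      (M.evalFrom p h, decide (h.flatMap ψ ≠ [])) := by
    intro h
    induction h using List.reverseRecOn with
    | nil =>
      change (p, false) = _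
      simp
    | append_singleton h z ih =>
      rw [DFA.eval_append_singleton, ih, DFA.evalFrom_append_singleton]
      change (M.step (M.evalFrom p h) z, (decide (h.flatMap ψ ≠ []) || decide (ψ z ≠ []))) = _
      simp only [List.flatMap_append, List.flatMap_cons, List.flatMap_nil, List.append_nil]
      congr 1
      by_cases h1 : h.flatMap ψ = [] <;> by_cases h2 : ψ z = [] <;> simp [h1, h2]
  ext h
  change (partPD ψ M p q).eval h ∈ ({(q, true)} : Set (σ × Bool)) ↔ _
  rw [key]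
  simp only [Set.mem_singleton_iff, Prod.mk.injEq, decide_eq_true_eq]
  rfl

/-- the transduction from `p` to `q` with nonempty output -/
def Transducer.partP (τ : Transducer W X) {σ : Type} [Fintype σ] (M : DFA τ.Z σ) (p q : σ) :
    Transducer W X where
  Z := τ.Z
  finZ := τ.finZ
  K := {h | M.evalFrom p h = q ∧ h.flatMap τ.ψ ≠ []}
  regK := ⟨σ × Bool, inferInstance, partPD τ.ψ M p q, partPD_accepts τ.ψ M p q⟩
  φ := τ.φ
  ψ := τ.ψ

theorem Transducer.partP_sized {τ : Transducer W X} {m B : ℕ} (hs : ∀ z, (τ.φ z).length ≤ B ∧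
    (τ.ψ z).length ≤ B) {σ : Type} [Fintype σ] (M : DFA τ.Z σ) (hc : Fintype.card σ ≤ m)
    (p q : σ) : Sized (τ.partP M p q) (2 * m) B := by
  refine ⟨⟨σ × Bool, inferInstance, partPD τ.ψ M p q, partPD_accepts τ.ψ M p q, ?_⟩, hs⟩
  rw [Fintype.card_prod, Fintype.card_bool]
  omega

theorem mem_partP {τ : Transducer W X} {σ : Type} [Fintype σ] (M : DFA τ.Z σ) (p q : σ)
    (L : Language W) (x : List X) : x ∈ (τ.partP M p q).image L ↔
      x ∈ (τ.part M p q).image L ∧ x ≠ [] := by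
  constructor
  · rintro ⟨h, ⟨h1, h2⟩, h3, rfl⟩
    exact ⟨⟨h, h1, h3, rfl⟩, h2⟩
  · rintro ⟨⟨h, h1, h3, rfl⟩, h2⟩
    exact ⟨h, ⟨h1, h2⟩, h3, rfl⟩

open Classical in
/-- the automaton which reads at most one letter, and at least one letter unless `s` holds -/
noncomputable def oneDFA (s : Prop) : DFA Unit (Fin 3) where
  step q _ := if q = 0 then 1 else 2
  start := 0
  accept := {q | q = 1 ∨ (q = 0 ∧ s)}

theorem oneDFA_iff (s : Prop) (g : List Unit) : g ∈ (oneDFA s).accepts ↔
    g = [()] ∨ (g = [] ∧ s) := by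
  have h2 : ∀ g : List Unit, (oneDFA s).evalFrom 2 g = 2 := by
    intro g
    induction g with
    | nil => rfl
    | cons a g ih =>
      rw [DFA.evalFrom_cons]
      exact ih
  match g with
  | [] =>
    change ((0 : Fin 3) = 1 ∨ ((0 : Fin 3) = 0 ∧ s)) ↔ _
    simp
  | [()] =>
    change ((1 : Fin 3) = 1 ∨ ((1 : Fin 3) = 0 ∧ s)) ↔ _
    simp
  | () :: () :: g =>
    have h3 : (oneDFA s).evalFrom (oneDFA s).start (() :: () :: g) = 2 := by
      rw [DFA.evalFrom_cons, DFA.evalFrom_cons]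
      exact h2 g
    constructor
    · intro h
      have h4 : (oneDFA s).evalFrom (oneDFA s).start (() :: () :: g) = 1 ∨
        ((oneDFA s).evalFrom (oneDFA s).start (() :: () :: g) = 0 ∧ s) := h
      rw [h3] at h4
      rcases h4 with h4 | ⟨h4, _⟩
      · exact absurd h4 (by decide)
      · exact absurd h4 (by decide)
    · rintro (h | ⟨h, _⟩)
      · simp at h
      · simp at h

theorem SemL.length_le {N : Type} {F : N → Language X} (hF : ∀ A, [] ∉ F A)
    {γ : List (X ⊕ N)} {x : List X} (h : SemL F γ x) : γ.length ≤ x.length := by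
  induction h with
  | nil => exact le_rfl
  | term a _ ih =>
    rw [List.length_cons, List.length_cons]
    omega
  | @nt A γ y x hy _ ih =>
    rw [List.length_cons, List.length_append]
    have h1 : y ≠ [] := fun hc => hF A (by rw [← hc]; exact hy)
    have h2 := List.length_pos_of_ne_nil h1
    omega

/-- **Closure of the ranked grammars under substitution** -/
theorem PolyBy.subst_gr [Finite W] [Finite Y] {K : Language Y} {f : Y → Language W} {k j : ℕ}
    (hK : PolyBy (GrD k) K) (hf : ∀ y, PolyBy (GrD j) (f y)) :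
    PolyBy (GrD (k + j + 1)) (substL K f) := by
  classical
  have hYf : Fintype Y := Fintype.ofFinite Y
  intro B
  set B' := max B 1 with hB'
  choose C₁ e₁ h₁ using fun y => hf y B'
  set C := (Finset.univ.sum C₁) with hC
  set e := (Finset.univ.sum e₁) with he
  have hCy : ∀ y, C₁ y ≤ C := fun y => Finset.single_le_sum (f := C₁) (fun _ _ => Nat.zero_le _)
    (Finset.mem_univ y)
  have hey : ∀ y, e₁ y ≤ e := fun y => Finset.single_le_sum (f := e₁) (fun _ _ => Nat.zero_le _)
    (Finset.mem_univ y)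
  set c := (nsh W (B' + B') + 1) with hc
  set y₀ := Fintype.card Y with hy₀
  obtain ⟨C₂, e₂, h₂⟩ := hK B'
  -- constants
  set c₃ := c + 3 * (c * y₀ * c) + 2 with hc₃
  set c₄ := C₂ * (c₃ + 1) ^ e₂ + c * y₀ * c * (C * (2 * c + 1) ^ e) with hc₄
  refine ⟨c₄ + C₂ + C, (2 + 1) * e₂ + (e + 2), fun X m n τ hs => ?_⟩
  set A := m + n + 1 with hA
  have hA1 : 1 ≤ A := by omega
  have hmA : m ≤ A := by omega
  obtain ⟨κ, hκ, hκi, hκφ⟩ := exists_norm τ (le_max_right B 1) (hs.mono le_rfl (le_max_left _ _))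
  obtain ⟨⟨σ, hσ, M, hM, hcard⟩, hl⟩ := hκ
  have hcm : Fintype.card σ ≤ c * m := hcard.trans (by rw [one_mul])
  -- the grammars of the segments
  have hseg : ∀ i : σ × Y × σ, ∃ (Nh : Type) (_ : Fintype Nh) (rule : Nh → List (X ⊕ Nh) → Prop)
      (rk : Nh → ℕ) (S : Nh), Fintype.card Nh ≤ (C * (2 * c + 1) ^ e) * A ^ e ∧
      (∀ A γ, rule A γ → γ.length ≤ C ∧ RankOK rk A γ) ∧ rk S ≤ j ∧ ∀ x : List X,
        x.length ≤ n → (DerL rule [Sum.inr S] x ↔
          x ∈ (κ.partP M i.1 i.2.2).image (f i.2.1)) := by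
    rintro ⟨p, y, q⟩
    obtain ⟨R, hR, hRi⟩ := h₁ y X (2 * (c * m)) n (κ.partP M p q)
      (Transducer.partP_sized hl M hcm p q)
    obtain ⟨Nh, hNh, rule, rk, S, g1, g2, g3, g4⟩ := hR
    refine ⟨Nh, hNh, rule, rk, S, g1.trans ?_, fun A γ h => ⟨(g2 A γ h).1.trans (hCy y),
      (g2 A γ h).2⟩, g3, fun x hx => ?_⟩
    · have h2 : 2 * (c * m) + n + 1 ≤ (2 * c + 1) * A := by
        nlinarith [Nat.zero_le (c * n), Nat.zero_le c]
      calc C₁ y * (2 * (c * m) + n + 1) ^ e₁ y
          ≤ C * ((2 * c + 1) * A) ^ e := by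
            refine Nat.mul_le_mul (hCy y) ((Nat.pow_le_pow_left h2 _).trans
              (Nat.pow_le_pow_right ?_ (hey y)))
            positivity
        _ = _ := by rw [mul_pow]; ring
    · rw [← hRi x hx, g4]
      rfl
  choose Nh hNh ruleH rkH SH g1 g2 g3 g4 using hseg
  -- the formal transduction
  let silent : σ × Y × σ → Prop := fun i => [] ∈ (κ.part M i.1 i.2.2).image (f i.2.1)
  have hfin : Finite κ.Z := κ.finZ
  let Nf : ∀ i : σ × Y × σ, DFA Unit (Fin 3) := fun i => oneDFA (silent i)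
  let ψn : ∀ i : σ × Y × σ, Unit → List (X ⊕ (σ × Y × σ)) := fun i _ => [Sum.inr i]
  let ψt : κ.Z → List (X ⊕ (σ × Y × σ)) := fun z => (κ.ψ z).map Sum.inl
  let ρ : Transducer Y (X ⊕ (σ × Y × σ)) := {
    Z := ILt (σ × Y × σ) (fun _ => Unit) {z : κ.Z // κ.φ z = []}
    finZ := inferInstance
    K := (inlDFA M (fun z => κ.φ z = []) Nf).accepts
    regK := ⟨_, inferInstance, inlDFA M (fun z => κ.φ z = []) Nf, rfl⟩
    φ := inlφ fun z => κ.φ z = []
    ψ := inlψ ψt (fun z => κ.φ z = []) ψn }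
  have hρs : Sized ρ (c₃ * A ^ 2) B' := by
    refine ⟨⟨_, inferInstance, inlDFA M (fun z => κ.φ z = []) Nf, rfl, ?_⟩, ?_⟩
    · rw [Fintype.card_option, Fintype.card_option, Fintype.card_sum, Fintype.card_sigma]
      have h3 : ∑ i : σ × Y × σ, Fintype.card (Fin 3) ≤ (c * A) * (y₀ * (c * A)) * 3 := by
        rw [Finset.sum_const, Finset.card_univ, smul_eq_mul, Fintype.card_fin,
          Fintype.card_prod, Fintype.card_prod]
        have : Fintype.card σ ≤ c * A := hcm.trans (Nat.mul_le_mul_left _ hmA)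
        gcongr
      have h5 : Fintype.card σ ≤ c * A ^ 2 := by
        refine (hcm.trans (Nat.mul_le_mul_left _ hmA)).trans (Nat.mul_le_mul_left _ ?_)
        calc A = A ^ 1 := (pow_one A).symm
          _ ≤ A ^ 2 := Nat.pow_le_pow_right hA1 (by omega)
      have h6 : (c * A) * (y₀ * (c * A)) * 3 = 3 * (c * y₀ * c) * A ^ 2 := by ring
      have h7 : 2 ≤ 2 * A ^ 2 := Nat.le_mul_of_pos_right _ (by positivity)
      have h8 : c₃ * A ^ 2 = c * A ^ 2 + 3 * (c * y₀ * c) * A ^ 2 + 2 * A ^ 2 := by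
        rw [hc₃]; ring
      rw [h8]
      rw [h6] at h3
      have h9 : ∑ i : σ × Y × σ, Fintype.card ((fun _ : σ × Y × σ => Fin 3) i) =
        ∑ i : σ × Y × σ, Fintype.card (Fin 3) := rfl
      omega
    · rintro (i | ⟨i, z⟩ | z)
      · refine ⟨?_, Nat.zero_le _⟩
        exact le_max_right B 1
      · refine ⟨Nat.zero_le _, ?_⟩
        exact le_max_right B 1
      · refine ⟨Nat.zero_le _, ?_⟩
        change ((κ.ψ z.1).map Sum.inl).length ≤ _
        rw [List.length_map]
        exact (hl z.1).2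
  obtain ⟨R, ⟨NK, hNK, ruleK, rkK, SK, k1, k2, k3, k4⟩, hRρ⟩ := h₂ _ _ n ρ hρs
  have hρi : ∀ w, w ∈ ρ.image K ↔ ∃ ys ∈ K, ∃ v p t, Path M.start (segL Nf ψn) ys v p ∧
      (∀ z ∈ t, κ.φ z = []) ∧ M.evalFrom p t ∈ M.accept ∧ w = v ++ t.flatMap ψt :=
    fun w => inl_iff M ψt (fun z => κ.φ z = []) Nf ψn K w
  have hsegL : ∀ p y q w, w ∈ segL Nf ψn p y q ↔ w = [Sum.inr (p, y, q)] ∨
      (w = [] ∧ silent (p, y, q)) := by
    intro p y q w
    constructor
    · rintro ⟨g, hg, rfl⟩
      rcases (oneDFA_iff _ g).mp hg with rfl | ⟨rfl, h⟩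
      · exact Or.inl rfl
      · exact Or.inr ⟨rfl, h⟩
    · rintro (rfl | ⟨rfl, h⟩)
      · exact ⟨[()], (oneDFA_iff _ _).mpr (Or.inl rfl), rfl⟩
      · exact ⟨[], (oneDFA_iff _ _).mpr (Or.inr ⟨rfl, h⟩), rfl⟩
  set RH : σ × Y × σ → Language X := langH ruleH SH with hRH
  have hRHi : ∀ i (x : List X), x.length ≤ n → (x ∈ RH i ↔
      x ∈ (κ.part M i.1 i.2.2).image (f i.2.1) ∧ x ≠ []) := by
    intro i x hx
    rw [← mem_partP]
    exact g4 i x hx
  have hnil : ∀ i, [] ∉ RH i := fun i hi => ((hRHi i [] (Nat.zero_le _)).mp hi).2 rfl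
  have htail : ∀ t : List κ.Z, t.flatMap ψt = (t.flatMap κ.ψ).map Sum.inl := by
    intro t
    induction t with
    | nil => rfl
    | cons z t ih => rw [List.flatMap_cons, List.flatMap_cons, ih, List.map_append]
  have hbsem : ∀ x : List X, x.length ≤ n → ((∃ η ∈ ρ.image K, SemL RH η x) ↔
      x ∈ κ.image (substL K f)) := by
    intro x hx
    rw [image_substL κ hκφ M hM]
    constructor
    · rintro ⟨η, hη, hs⟩
      obtain ⟨ys, hys, v, p, t, hP, ht, hacc, rfl⟩ := (hρi η).mp hη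
      obtain ⟨x₁, x₂, rfl, hs1, hs2⟩ := hs.split
      rw [htail] at hs2
      have hx2 := hs2.map_eq
      refine ⟨ys, hys, x₁, p, t, ?_, ht, hacc, by rw [hx2]⟩
      rw [List.length_append] at hx
      have hx1 : x₁.length ≤ n := by omega
      clear hx hx2 hs2 hη hys hacc hs
      induction hP generalizing x₁ with
      | nil =>
        cases hs1
        exact Path.nil
      | @snoc ys v w y p q h5 h6 ih =>
        obtain ⟨u, u', rfl, s1, s2⟩ := hs1.split
        rw [List.length_append] at hx1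
        refine Path.snoc (ih u s1 (by omega)) ?_
        rcases (hsegL p y q w).mp h6 with rfl | ⟨rfl, h7⟩
        · cases s2 with
          | nt h8 h9 =>
            cases h9
            rw [List.append_nil] at hx1 ⊢
            exact ((hRHi (p, y, q) _ (by omega)).mp h8).1
        · cases s2
          exact h7
    · rintro ⟨ys, hys, x₁, p, t, hP, ht, hacc, rfl⟩
      rw [List.length_append] at hx
      have key : x₁.length ≤ n → ∃ v, Path M.start (segL Nf ψn) ys v p ∧ SemL RH v x₁ := by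
        clear hx hacc hys
        intro hx1
        induction hP with
        | nil => exact ⟨[], Path.nil, SemL.nil⟩
        | @snoc ys u u' y p q h5 h6 ih =>
          rw [List.length_append] at hx1
          obtain ⟨v, hv, hsv⟩ := ih (by omega)
          by_cases hu : u' = []
          · subst hu
            refine ⟨v ++ [], Path.snoc hv ((hsegL p y q []).mpr (Or.inr ⟨rfl, h6⟩)), ?_⟩
            exact hsv.append SemL.nil
          · refine ⟨v ++ [Sum.inr (p, y, q)], Path.snoc hv ((hsegL p y q _).mpr (Or.inl rfl)),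
              hsv.append ?_⟩
            have h7 : u' ∈ RH (p, y, q) := (hRHi (p, y, q) u' (by omega)).mpr ⟨h6, hu⟩
            have h8 := SemL.nt h7 SemL.nil
            rwa [List.append_nil] at h8
      obtain ⟨v, hv, hsv⟩ := key (by omega)
      refine ⟨v ++ t.flatMap ψt, (hρi _).mpr ⟨ys, hys, v, p, t, hv, ht, hacc, rfl⟩,
        hsv.append ?_⟩
      rw [htail]
      exact SemL.of_map _
  refine ⟨{x | DerL (ruleC ruleK ruleH SH) [Sum.inr (Sum.inl SK)] x}, ⟨NK ⊕ (Σ h, Nh h),
    inferInstance, ruleC ruleK ruleH SH, fun v => v.elim (fun A => rkK A + j + 1)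
      (fun B => rkH B.1 B.2), Sum.inl SK, ?_, ?_, ?_, rfl⟩, ?_⟩
  · -- the number of variables
    rw [Fintype.card_sum, Fintype.card_sigma]
    have h3 : ∑ i : σ × Y × σ, Fintype.card (Nh i) ≤
        (c * A) * (y₀ * (c * A)) * ((C * (2 * c + 1) ^ e) * A ^ e) := by
      calc ∑ i : σ × Y × σ, Fintype.card (Nh i) ≤
            ∑ i : σ × Y × σ, (C * (2 * c + 1) ^ e) * A ^ e :=
            Finset.sum_le_sum fun i _ => g1 i
        _ = Fintype.card (σ × Y × σ) * ((C * (2 * c + 1) ^ e) * A ^ e) := by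
            rw [Finset.sum_const, Finset.card_univ, smul_eq_mul]
        _ ≤ _ := by
            have : Fintype.card σ ≤ c * A := hcm.trans (Nat.mul_le_mul_left _ hmA)
            rw [Fintype.card_prod, Fintype.card_prod]
            gcongr
    have h4 : Fintype.card NK ≤ (C₂ * (c₃ + 1) ^ e₂) * A ^ ((2 + 1) * e₂) := by
      refine k1.trans ?_
      have h5 := poly_comp C₂ e₂ c₃ 2 (m + n)
      refine le_trans ?_ h5
      refine Nat.mul_le_mul_left _ (Nat.pow_le_pow_left ?_ _)
      rw [hA]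
      omega
    set E := (2 + 1) * e₂ + (e + 2) with hE
    have h5 : (C₂ * (c₃ + 1) ^ e₂) * A ^ ((2 + 1) * e₂) ≤ (C₂ * (c₃ + 1) ^ e₂) * A ^ E :=
      Nat.mul_le_mul_left _ (Nat.pow_le_pow_right hA1 (by omega))
    have h6 : (c * A) * (y₀ * (c * A)) * ((C * (2 * c + 1) ^ e) * A ^ e) ≤
        (c * y₀ * c * (C * (2 * c + 1) ^ e)) * A ^ E := by
      have : (c * A) * (y₀ * (c * A)) * ((C * (2 * c + 1) ^ e) * A ^ e) =
        (c * y₀ * c * (C * (2 * c + 1) ^ e)) * A ^ (e + 2) := by ring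
      rw [this]
      exact Nat.mul_le_mul_left _ (Nat.pow_le_pow_right hA1 (by omega))
    calc Fintype.card NK + ∑ i : σ × Y × σ, Fintype.card (Nh i)
        ≤ (C₂ * (c₃ + 1) ^ e₂) * A ^ E + (c * y₀ * c * (C * (2 * c + 1) ^ e)) * A ^ E :=
          Nat.add_le_add (h4.trans h5) (h3.trans h6)
      _ = c₄ * A ^ E := by rw [hc₄]; ring
      _ ≤ _ := Nat.mul_le_mul_right _ (by omega)
  · -- the rules
    rintro (A | ⟨h, A⟩) γ' hr
    · obtain ⟨γ, hγ, rfl⟩ := hr
      obtain ⟨l1, l2, l3⟩ := k2 A γ hγ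
      refine ⟨by rw [List.length_map]; omega, ?_, ?_⟩
      · intro D hD
        obtain ⟨s, hs, hsD⟩ := List.mem_map.mp hD
        match s, hs, hsD with
        | Sum.inl (Sum.inl _), _, hsD => exact absurd hsD (by simp [conv])
        | Sum.inl (Sum.inr i), _, hsD =>
          have h5 : (Sum.inr ⟨i, SH i⟩ : NK ⊕ (Σ h, Nh h)) = D := Sum.inr.inj hsD
          rw [← h5]
          change rkH i (SH i) ≤ rkK A + j + 1
          have := g3 i
          omega
        | Sum.inr D', hs, hsD =>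
          have h5 : (Sum.inl D' : NK ⊕ (Σ h, Nh h)) = D := Sum.inr.inj hsD
          rw [← h5]
          change rkK D' + j + 1 ≤ rkK A + j + 1
          have := l2 D' hs
          omega
      · intro γ₁ D₁ γ₂ D₂ γ₃ hdec
        rw [List.map_eq_append_iff] at hdec
        obtain ⟨δ₁, δ₂, rfl, hd1, hd2⟩ := hdec
        rw [List.map_eq_cons_iff] at hd2
        obtain ⟨s, δ₃, rfl, hs, hd3⟩ := hd2
        rw [List.map_eq_append_iff] at hd3
        obtain ⟨δ₄, δ₅, rfl, hd4, hd5⟩ := hd3
        rw [List.map_eq_cons_iff] at hd5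
        obtain ⟨s', δ₆, rfl, hs', hd6⟩ := hd5
        match s, hs, s', hs' with
        | Sum.inl (Sum.inl _), hs, _, _ => exact absurd hs (by simp [conv])
        | Sum.inl (Sum.inr i), hs, _, _ =>
          left
          have h5 : (Sum.inr ⟨i, SH i⟩ : NK ⊕ (Σ h, Nh h)) = D₁ := Sum.inr.inj hs
          rw [← h5]
          change rkH i (SH i) < rkK A + j + 1
          have := g3 i
          omega
        | Sum.inr D', hs, Sum.inl (Sum.inl _), hs' => exact absurd hs' (by simp [conv])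
        | Sum.inr D', hs, Sum.inl (Sum.inr i), hs' =>
          right
          have h5 : (Sum.inr ⟨i, SH i⟩ : NK ⊕ (Σ h, Nh h)) = D₂ := Sum.inr.inj hs'
          rw [← h5]
          change rkH i (SH i) < rkK A + j + 1
          have := g3 i
          omega
        | Sum.inr D', hs, Sum.inr D'', hs' =>
          have h5 : (Sum.inl D' : NK ⊕ (Σ h, Nh h)) = D₁ := Sum.inr.inj hs
          have h6 : (Sum.inl D'' : NK ⊕ (Σ h, Nh h)) = D₂ := Sum.inr.inj hs'
          rw [← h5, ← h6]
          change rkK D' + j + 1 < rkK A + j + 1 ∨ rkK D'' + j + 1 < rkK A + j + 1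
          have := l3 δ₁ D' δ₄ D'' δ₆ rfl
          omega
    · obtain ⟨γ, hγ, rfl⟩ := hr
      obtain ⟨l1, l2, l3⟩ := g2 h A γ hγ
      refine ⟨by rw [List.length_map]; omega, ?_, ?_⟩
      · intro D hD
        obtain ⟨s, hs, hsD⟩ := List.mem_map.mp hD
        match s, hs, hsD with
        | Sum.inl _, _, hsD => exact absurd hsD (by simp [injH])
        | Sum.inr D', hs, hsD =>
          have h5 : (Sum.inr ⟨h, D'⟩ : NK ⊕ (Σ h, Nh h)) = D := Sum.inr.inj hsD
          rw [← h5]
          exact l2 D' hs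
      · intro γ₁ D₁ γ₂ D₂ γ₃ hdec
        rw [List.map_eq_append_iff] at hdec
        obtain ⟨δ₁, δ₂, rfl, hd1, hd2⟩ := hdec
        rw [List.map_eq_cons_iff] at hd2
        obtain ⟨s, δ₃, rfl, hs, hd3⟩ := hd2
        rw [List.map_eq_append_iff] at hd3
        obtain ⟨δ₄, δ₅, rfl, hd4, hd5⟩ := hd3
        rw [List.map_eq_cons_iff] at hd5
        obtain ⟨s', δ₆, rfl, hs', hd6⟩ := hd5
        match s, hs, s', hs' with
        | Sum.inl _, hs, _, _ => exact absurd hs (by simp [injH])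
        | Sum.inr D', hs, Sum.inl _, hs' => exact absurd hs' (by simp [injH])
        | Sum.inr D', hs, Sum.inr D'', hs' =>
          have h5 : (Sum.inr ⟨h, D'⟩ : NK ⊕ (Σ h, Nh h)) = D₁ := Sum.inr.inj hs
          have h6 : (Sum.inr ⟨h, D''⟩ : NK ⊕ (Σ h, Nh h)) = D₂ := Sum.inr.inj hs'
          rw [← h5, ← h6]
          exact l3 δ₁ D' δ₄ D'' δ₆ rfl
  · change rkK SK + j + 1 ≤ k + j + 1
    omega
  · intro x hx
    rw [← hκi]
    refine Iff.trans (comb_iff ruleK ruleH SH SK x) ?_
    rw [← hbsem x hx]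
    constructor
    · rintro ⟨η, h6, h7⟩
      have h8 := h7.length_le hnil
      have h9 : η ∈ R := by rw [k4]; exact h6
      exact ⟨η, (hRρ η (by omega)).mp h9, h7⟩
    · rintro ⟨η, h6, h7⟩
      have h8 := h7.length_le hnil
      have h9 := (hRρ η (by omega)).mpr h6
      rw [k4] at h9
      exact ⟨η, h9, h7⟩

end RCone
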