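import Pool.Agent.RCone.Comp

/-! # Pigeonhole on the quotients of the image of a regular language
(helper70, MP_a8de0d_lc) -/

namespace RCone

open Language

variable {X Y W : Type}

theorem split_out {Z : Type} (ψ : Z → List Y) (m : ℕ) (hm : ∀ z, (ψ z).length ≤ m)
    (h : List Z) : ∀ u w, h.flatMap ψ = u ++ w → ∃ h₁ h₂ v, h = h₁ ++ h₂ ∧
      h₁.flatMap ψ = u ++ v ∧ v.length ≤ m ∧ w = v ++ h₂.flatMap ψ := by
  induction h with
  | nil =>
    intro u w he
    have he' : u = [] ∧ w = [] := by
      have : u ++ w = [] := he.symm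
      exact List.append_eq_nil_iff.mp this
    exact ⟨[], [], [], rfl, by simp [he'.1], Nat.zero_le _, by simp [he'.2]⟩
  | cons z t ih =>
    intro u w he
    rw [List.flatMap_cons] at he
    rcases List.append_eq_append_iff.mp he with ⟨a, h1, h2⟩ | ⟨c, h1, h2⟩
    · obtain ⟨t₁, t₂, v, e1, e2, e3, e4⟩ := ih a w h2
      refine ⟨z :: t₁, t₂, v, by rw [e1]; rfl, ?_, e3, e4⟩
      rw [List.flatMap_cons, e2, h1, List.append_assoc]
    · refine ⟨[z], t, c, rfl, by simp [h1], ?_, h2⟩
      have := hm z
      rw [h1, List.length_append] at this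
      omega

/-- profile of an output prefix -/
def prof {Z σ δ : Type} (M : DFA Z σ) (D : DFA X δ) (φ : Z → List X) (ψ : Z → List Y) (m : ℕ)
    (u : List Y) : Set (σ × δ × {v : List Y // v.length ≤ m}) :=
  {p | ∃ h, M.eval h = p.1 ∧ D.eval (h.flatMap φ) = p.2.1 ∧ h.flatMap ψ = u ++ p.2.2.1}

theorem prof_spec {Z σ δ : Type} (M : DFA Z σ) (D : DFA X δ) (φ : Z → List X) (ψ : Z → List Y)
    (m : ℕ) (hm : ∀ z, (ψ z).length ≤ m) (u u' : List Y)
    (he : prof M D φ ψ m u = prof M D φ ψ m u') (w : List Y)
    (hw : ∃ h ∈ M.accepts, h.flatMap φ ∈ D.accepts ∧ h.flatMap ψ = u ++ w) :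
    ∃ h ∈ M.accepts, h.flatMap φ ∈ D.accepts ∧ h.flatMap ψ = u' ++ w := by
  obtain ⟨h, hM, hD, hψ⟩ := hw
  obtain ⟨h₁, h₂, v, rfl, e2, e3, e4⟩ := split_out ψ m hm h u w hψ
  have hmem : (M.eval h₁, D.eval (h₁.flatMap φ), (⟨v, e3⟩ : {v : List Y // v.length ≤ m})) ∈
      prof M D φ ψ m u := ⟨h₁, rfl, rfl, e2⟩
  rw [he] at hmem
  obtain ⟨g, g1, g2, g3⟩ := hmem
  refine ⟨g ++ h₂, ?_, ?_, ?_⟩
  · have h5 : M.evalFrom (M.eval g) h₂ = M.evalFrom (M.eval h₁) h₂ := by
      rw [show M.eval g = M.eval h₁ from g1]
    have h6 : M.evalFrom M.start (g ++ h₂) = M.evalFrom M.start (h₁ ++ h₂) := by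
      rw [DFA.evalFrom_of_append, DFA.evalFrom_of_append]
      exact h5
    change M.evalFrom M.start (g ++ h₂) ∈ M.accept
    rw [h6]
    exact hM
  · have h5 : D.evalFrom (D.eval (g.flatMap φ)) (h₂.flatMap φ) =
        D.evalFrom (D.eval (h₁.flatMap φ)) (h₂.flatMap φ) := by
      rw [show D.eval (g.flatMap φ) = D.eval (h₁.flatMap φ) from g2]
    have h6 : D.evalFrom D.start ((g ++ h₂).flatMap φ) =
        D.evalFrom D.start ((h₁ ++ h₂).flatMap φ) := by
      rw [List.flatMap_append, List.flatMap_append, DFA.evalFrom_of_append,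
        DFA.evalFrom_of_append]
      exact h5
    change D.evalFrom D.start ((g ++ h₂).flatMap φ) ∈ D.accept
    rw [h6]
    exact hD
  · rw [List.flatMap_append, g3, List.append_assoc, e4]

/-- among many words two have the same quotient -/
theorem exists_pump [Finite Y] (τ : Transducer X Y) : ∃ c : ℕ, ∀ (δ : Type) [Fintype δ]
    (D : DFA X δ) (u : ℕ → List Y) (n : ℕ), 2 ^ (c * Fintype.card δ) ≤ n →
    ∃ i j, i < j ∧ j ≤ n ∧ ∀ w, (u i ++ w ∈ τ.image D.accepts ↔ u j ++ w ∈ τ.image D.accepts) := by
  obtain ⟨σ, hσ, M, hM⟩ := τ.regK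
  have := τ.finZ
  obtain ⟨m, hm⟩ := exists_bound τ.ψ
  have hfin : Fintype {v : List Y // v.length ≤ m} := Fintype.ofFinite _
  refine ⟨Fintype.card σ * Fintype.card {v : List Y // v.length ≤ m}, ?_⟩
  intro δ _ D u n hn
  classical
  have hcard : Fintype.card (Set (σ × δ × {v : List Y // v.length ≤ m})) <
      Fintype.card (Fin (n + 1)) := by
    rw [Fintype.card_set, Fintype.card_prod, Fintype.card_prod, Fintype.card_fin]
    have : Fintype.card σ * (Fintype.card δ * Fintype.card {v : List Y // v.length ≤ m}) =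
        Fintype.card σ * Fintype.card {v : List Y // v.length ≤ m} * Fintype.card δ := by ring
    rw [this]
    omega
  obtain ⟨i, j, hij, he⟩ := Fintype.exists_ne_map_eq_of_card_lt
    (fun i : Fin (n + 1) => prof M D τ.φ τ.ψ m (u i)) hcard
  have key : ∀ i j : ℕ, prof M D τ.φ τ.ψ m (u i) = prof M D τ.φ τ.ψ m (u j) →
      ∀ w, u i ++ w ∈ τ.image D.accepts → u j ++ w ∈ τ.image D.accepts := by
    intro i j he w hw
    obtain ⟨h, hK, hL, hψ⟩ := hw
    rw [← hM] at hK
    obtain ⟨g, g1, g2, g3⟩ := prof_spec M D τ.φ τ.ψ m hm _ _ he w ⟨h, hK, hL, hψ⟩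
    rw [hM] at g1
    exact ⟨g, g1, g2, g3⟩
  rcases lt_or_gt_of_ne (show (i : ℕ) ≠ j from fun h => hij (Fin.ext h)) with h | h
  · exact ⟨i, j, h, Nat.lt_succ_iff.mp j.2, fun w => ⟨key i j he w, key j i he.symm w⟩⟩
  · exact ⟨j, i, h, Nat.lt_succ_iff.mp i.2, fun w => ⟨key j i he.symm w, key i j he w⟩⟩

open Classical in
/-- automaton for the prefixes of `y` with length in `A` -/
noncomputable def prefDFA (y : List X) (A : Set ℕ) : DFA X (Option (Fin (y.length + 1))) where
  step s a := s.bind fun i => if h : ∃ hi : i.val < y.length, y[i.val] = a then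
    some ⟨i.val + 1, Nat.succ_lt_succ h.1⟩ else none
  start := some 0
  accept := {s | ∃ i, s = some i ∧ i.val ∈ A}

open Classical in
theorem prefDFA_eval (y : List X) (A : Set ℕ) (x : List X) (i : Fin (y.length + 1)) :
    (prefDFA y A).eval x = some i ↔ x <+: y ∧ x.length = i.val := by
  induction x using List.reverseRecOn generalizing i with
  | nil =>
    rw [DFA.eval_nil]
    change some 0 = some i ↔ _
    constructor
    · intro h
      have := Option.some.inj h
      rw [← this]
      exact ⟨List.nil_prefix, rfl⟩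
    · rintro ⟨_, h⟩
      congr 1
      exact Fin.ext h
  | append_singleton x a ih =>
    rw [DFA.eval_append_singleton]
    cases hs : (prefDFA y A).eval x with
    | none =>
      constructor
      · intro h
        exact absurd h (by simp [prefDFA])
      · rintro ⟨h, _⟩
        exfalso
        have hx : x <+: y := (List.prefix_append x [a]).trans h
        have h2 := (ih ⟨x.length, Nat.lt_succ_of_le hx.length_le⟩).mpr ⟨hx, rfl⟩
        rw [hs] at h2
        exact absurd h2 (by simp)
    | some j =>
      obtain ⟨hx, hj⟩ := (ih j).mp hs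
      have hstep : (prefDFA y A).step (some j) a =
          if h : ∃ hi : j.val < y.length, y[j.val] = a then
            some ⟨j.val + 1, Nat.succ_lt_succ h.1⟩ else none := rfl
      rw [hstep]
      constructor
      · intro h
        split_ifs at h with hc
        have h2 := Option.some.inj h
        obtain ⟨hi, ha⟩ := hc
        constructor
        · have : x ++ [a] = y.take (j.val + 1) := by
            rw [List.take_add_one, List.getElem?_eq_getElem hi, ha]
            have : x = y.take j.val := by
              rw [← hj]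
              exact List.prefix_iff_eq_take.mp hx
            rw [← this]
            rfl
          rw [this]
          exact List.take_prefix _ _
        · rw [← h2, List.length_append, hj]
          rfl
      · rintro ⟨h, hl⟩
        have hlen : (x ++ [a]).length ≤ y.length := h.length_le
        have hi : j.val < y.length := by
          rw [List.length_append, hj] at hlen
          simpa using hlen
        have ha : y[j.val] = a := by
          obtain ⟨t, ht⟩ := h
          have : (x ++ [a] ++ t)[x.length]? = some a := by simp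
          rw [ht, hj] at this
          rw [List.getElem?_eq_getElem hi] at this
          exact Option.some.inj this
        rw [dif_pos ⟨hi, ha⟩]
        congr 1
        apply Fin.ext
        change j.val + 1 = i.val
        rw [← hl, List.length_append, hj]
        rfl

theorem prefDFA_accepts (y : List X) (A : Set ℕ) (x : List X) :
    x ∈ (prefDFA y A).accepts ↔ x <+: y ∧ x.length ∈ A := by
  constructor
  · rintro ⟨i, hi, hA⟩
    obtain ⟨h1, h2⟩ := (prefDFA_eval y A x i).mp hi
    exact ⟨h1, by rw [h2]; exact hA⟩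
  · rintro ⟨h1, h2⟩
    refine ⟨⟨x.length, Nat.lt_succ_of_le h1.length_le⟩, ?_, h2⟩
    exact (prefDFA_eval y A x _).mpr ⟨h1, rfl⟩

end RCone
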