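import Pool.Agent.RCone.Lang
import Pool.Agent.RCone.Pump

/-! # The languages `H A` (helper70, MP_a8de0d_lc) -/

namespace RCone

open Language

/-- allowed numbers of main marks -/
def SA (A : Set ℕ) : Set ℕ := {n | ∃ a ∈ A, n = 2 * a + 1}

/-- the language `H A`, the complement of a sparse set of labelled rulers -/
def H (A : Set ℕ) : Language Sym := {y | ¬ ∃ z, Good z ∧ y = rul z ∧ z.count 2 ∈ SA A}

def isTwo (g : Sym) : Bool := decide (g = some 2)

theorem countP_rulF (n : ℕ) (z : List (Fin 3)) : (rulF n z).countP isTwo = z.count 2 := by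
  induction z generalizing n with
  | nil => rfl
  | cons a z ih =>
    rw [rulF, List.countP_append, List.countP_cons, ih, List.count_cons]
    have h1 : (List.replicate n (none : Sym)).countP isTwo = 0 := by
      rw [List.countP_eq_zero]
      intro g hg
      rw [List.mem_replicate] at hg
      rw [hg.2]
      decide
    rw [h1, zero_add]
    congr 1
    by_cases h : a = 2
    · subst h; simp [isTwo]
    · simp [isTwo, h]

/-- the words beginning with a unit and a main mark, ending with a main mark -/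
def SE : Language Sym :=
  (oneL (fun g => g = none) * (oneL (fun g => g = some 2) * ⊤)) ⊓ (⊤ * oneL (fun g => g = some 2))

theorem SE_regular : SE.IsRegular :=
  (mul_regular (oneL_regular _) (mul_regular (oneL_regular _) top_regular)).inf
    (mul_regular top_regular (oneL_regular _))

theorem mem_SE {y : List Sym} : y ∈ SE ↔ (∃ r, y = none :: some 2 :: r) ∧
    ∃ s, y = s ++ [some 2] := by
  constructor
  · rintro ⟨h1, h2⟩
    obtain ⟨a, ⟨g, rfl, rfl⟩, b, hb, rfl⟩ := Language.mem_mul.mp h1
    obtain ⟨c, ⟨g, rfl, rfl⟩, d, hd, rfl⟩ := Language.mem_mul.mp hb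
    obtain ⟨s, _, e, ⟨g, rfl, rfl⟩, he⟩ := Language.mem_mul.mp h2
    exact ⟨⟨d, rfl⟩, s, he.symm⟩
  · rintro ⟨⟨r, rfl⟩, s, hs⟩
    constructor
    · exact Language.mem_mul.mpr ⟨[none], ⟨none, rfl, rfl⟩, some 2 :: r,
        Language.mem_mul.mpr ⟨[some 2], ⟨some 2, rfl, rfl⟩, r, trivial, rfl⟩, rfl⟩
    · exact Language.mem_mul.mpr ⟨s, trivial, [some 2], ⟨some 2, rfl, rfl⟩, hs.symm⟩

/-- characterisation of the labelled rulers of good words -/
theorem good_iff (y : List Sym) : (∃ z, Good z ∧ y = rul z) ↔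
    y ∈ SE ∧ y ∉ tauR.image goldstine ∧ y ∉ (tauT 1).image goldstine ∧
      y ∉ (tauT 2).image goldstine := by
  constructor
  · rintro ⟨z, hz, rfl⟩
    refine ⟨?_, ?_, ?_, ?_⟩
    · rw [mem_SE]
      constructor
      · cases z with
        | nil => have := hz.head; simp at this
        | cons a z =>
          have := hz.head
          simp only [List.head?_cons, Option.some.injEq] at this
          subst this
          exact ⟨rulF 2 z, rfl⟩
      · rcases List.eq_nil_or_concat z with rfl | ⟨s, a, rfl⟩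
        · have := hz.head; simp at this
        · have := hz.last
          rw [List.concat_eq_append, List.getLast?_append] at this
          simp only [List.getLast?_singleton, Option.some_or, Option.some.injEq] at this
          subst this
          refine ⟨rulF 1 s ++ List.replicate (1 + s.length) none, ?_⟩
          rw [List.concat_eq_append, rul, rulF_append, rulF, rulF]
          simp
    · rw [mem_tauR, rul, map_rulF, mem_goldstine_enc]
      simp
    · rw [rul_mem_tauT, not_not]
      exact hz.c1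
    · rw [rul_mem_tauT, not_not]
      exact hz.c2
  · rintro ⟨hSE, hR, h1, h2⟩
    obtain ⟨⟨r, hr⟩, s, hs⟩ := mem_SE.mp hSE
    obtain ⟨ns, k, hk⟩ := exists_enc (y.map Option.isSome)
    have hk0 : k = 0 := by
      by_contra hne
      obtain ⟨k', rfl⟩ := Nat.exists_eq_succ_of_ne_zero hne
      have h3 := congrArg List.getLast? hk
      rw [hs, List.map_append, List.replicate_succ', ← List.append_assoc,
        List.getLast?_append, List.getLast?_append] at h3
      simp at h3
    subst hk0
    rw [List.replicate_zero, List.append_nil] at hk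
    rw [mem_tauR, hk, mem_goldstine_enc, not_not] at hR
    rw [hR] at hk
    have hy : y = rul (lab y) := eq_rulF 1 _ y hk
    refine ⟨lab y, ⟨?_, ?_, ?_, ?_⟩, hy⟩
    · rw [hr]
      simp [lab]
    · rw [hs, lab_append]
      simp [lab]
    · rw [hy, rul_mem_tauT, not_not] at h1
      exact h1
    · rw [hy, rul_mem_tauT, not_not] at h2
      exact h2

theorem H_eq (A : Set ℕ) : H A = SEᶜ + tauR.image goldstine + (tauT 1).image goldstine +
    (tauT 2).image goldstine + (countL isTwo (SA A))ᶜ := by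
  ext y
  have h := good_iff y
  constructor
  · intro hy
    by_contra hcon
    apply hy
    have k1 : y ∈ SE := by
      by_contra hc
      exact hcon (Or.inl (Or.inl (Or.inl (Or.inl hc))))
    have k2 : y ∉ tauR.image goldstine := fun hc => hcon (Or.inl (Or.inl (Or.inl (Or.inr hc))))
    have k3 : y ∉ (tauT 1).image goldstine := fun hc => hcon (Or.inl (Or.inl (Or.inr hc)))
    have k4 : y ∉ (tauT 2).image goldstine := fun hc => hcon (Or.inl (Or.inr hc))
    have k5 : y.countP isTwo ∈ SA A := by
      by_contra hc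
      exact hcon (Or.inr hc)
    obtain ⟨z, hz, rfl⟩ := h.mpr ⟨k1, k2, k3, k4⟩
    refine ⟨z, hz, rfl, ?_⟩
    rw [rul, countP_rulF] at k5
    exact k5
  · rintro hy ⟨z, hz, rfl, hc⟩
    obtain ⟨k1, k2, k3, k4⟩ := h.mp ⟨z, hz, rfl⟩
    rcases hy with (((hy | hy) | hy) | hy) | hy
    · exact hy k1
    · exact k2 hy
    · exact k3 hy
    · exact k4 hy
    · apply hy
      change (rul z).countP isTwo ∈ SA A
      rw [rul, countP_rulF]
      exact hc

/-- periodic sets of natural numbers -/
def Periodic (A : Set ℕ) : Prop := ∃ p, 0 < p ∧ ∀ n, n ∈ A ↔ n + p ∈ A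

theorem count_SA_regular {A : Set ℕ} (hA : Periodic A) : (countL isTwo (SA A)).IsRegular := by
  obtain ⟨p, hp, hA⟩ := hA
  refine count_regular isTwo (SA A) (2 * p) (by omega) ?_
  intro n
  constructor
  · rintro ⟨a, ha, rfl⟩
    exact ⟨a + p, (hA a).mp ha, by ring⟩
  · rintro ⟨a, ha, h⟩
    have h1 : p ≤ a := by omega
    obtain ⟨b, rfl⟩ := Nat.exists_eq_add_of_le' h1
    exact ⟨b, (hA b).mpr ha, by omega⟩

theorem goldstine_geq_H {A : Set ℕ} (hA : Periodic A) : Geq goldstine (H A) := by
  have h0 : enc [0] ∈ goldstine := (mem_goldstine_enc [0]).mpr (by decide)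
  rw [H_eq]
  refine Geq.union (Geq.union (Geq.union (Geq.union ?_ ⟨tauR, rfl⟩) ⟨tauT 1, rfl⟩)
    ⟨tauT 2, rfl⟩) ?_
  · exact Geq.of_regular h0 SE_regular.compl
  · exact Geq.of_regular h0 (count_SA_regular hA).compl

theorem nil_mem_H (A : Set ℕ) : [] ∈ H A := by
  rintro ⟨z, hz, hr, _⟩
  cases z with
  | nil => have := hz.head; simp at this
  | cons a z => simp [rul, rulF] at hr

theorem H_geq_H {A B : Set ℕ} (hA : Periodic A) (hAB : A ⊆ B) : Geq (H B) (H A) := by
  have h1 : H A = H B + (countL isTwo (SA A))ᶜ := by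
    ext y
    constructor
    · intro hy
      by_contra hcon
      apply hy
      have k1 : y ∉ H B := fun hc => hcon (Or.inl hc)
      have k2 : y.countP isTwo ∈ SA A := by
        by_contra hc
        exact hcon (Or.inr hc)
      have k1' : ∃ z, Good z ∧ y = rul z ∧ z.count 2 ∈ SA B := by
        by_contra hc
        exact k1 hc
      obtain ⟨z, hz, rfl, _⟩ := k1'
      rw [rul, countP_rulF] at k2
      exact ⟨z, hz, rfl, k2⟩
    · rintro (hy | hy) ⟨z, hz, rfl, hc⟩
      · apply hy
        obtain ⟨a, ha, h⟩ := hc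
        exact ⟨z, hz, rfl, a, hAB ha, h⟩
      · apply hy
        change (rul z).countP isTwo ∈ SA A
        rw [rul, countP_rulF]
        exact hc
  rw [h1]
  refine Geq.union ?_ (Geq.of_regular (nil_mem_H B) (count_SA_regular hA).compl)
  refine ⟨⟨Sym, inferInstance, ⊤, top_regular, fun g => [g], fun g => [g]⟩, ?_⟩
  have f2 : ∀ h : List Sym, h.flatMap (fun g => [g]) = h := by
    intro h
    induction h with
    | nil => rfl
    | cons a h ih => rw [List.flatMap_cons, ih]; rfl
  ext y
  constructor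
  · rintro ⟨h, _, hL, rfl⟩
    exact hL
  · intro hy
    refine ⟨y, trivial, ?_, f2 y⟩
    change List.flatMap (fun g : Sym => [g]) y ∈ H B
    rw [f2]
    exact hy

theorem length_rulF (n : ℕ) (z : List (Fin 3)) :
    2 * (rulF n z).length = z.length * (z.length + 2 * n + 1) := by
  induction z generalizing n with
  | nil => simp [rulF]
  | cons a z ih =>
    have := ih (n + 1)
    rw [rulF, List.length_append, List.length_replicate, List.length_cons, List.length_cons]
    nlinarith

/-- length of the labelled ruler of the clock word number `s` -/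
noncomputable def T (s : ℕ) : ℕ := (rul (zz s)).length

theorem two_T (s : ℕ) : 2 * T s = 2 ^ E s * (2 ^ E s + 3) := by
  rw [T, rul, length_rulF, length_zz]

theorem T_le (s : ℕ) : T s ≤ 2 * (2 ^ E s) ^ 2 := by
  have h := two_T s
  have hp : 1 ≤ 2 ^ E s := Nat.one_le_two_pow
  nlinarith

theorem le_T (s : ℕ) : 2 ^ E s ≤ T s := by
  have h := two_T s
  have hp : 1 ≤ 2 ^ E s := Nat.one_le_two_pow
  nlinarith

theorem T_succ (s : ℕ) : 2 * T s < T (s + 1) := by
  have h := two_T s
  have h' := two_T (s + 1)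
  have hp : 1 ≤ 2 ^ E s := Nat.one_le_two_pow
  have h1 : 2 * 2 ^ E s ≤ 2 ^ E (s + 1) := by
    rw [← pow_succ']
    exact Nat.pow_le_pow_right (by norm_num) (E_lt_succ s)
  have h2 : 2 * 2 ^ E s * (2 * 2 ^ E s + 3) ≤ 2 ^ E (s + 1) * (2 ^ E (s + 1) + 3) := by
    gcongr
  nlinarith

theorem T_mono : StrictMono T := strictMono_nat_of_lt_succ fun s => by
  have := T_succ s
  omega

theorem cube_le (n : ℕ) (hn : 10 ≤ n) : n ^ 3 ≤ 2 ^ n := by
  induction n, hn using Nat.le_induction with
  | base => norm_num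
  | succ n hn ih =>
    rw [pow_succ 2 n]
    have h1 : (n + 1) ^ 3 ≤ n ^ 3 * 2 := by
      obtain ⟨m, rfl⟩ := Nat.exists_eq_add_of_le' hn
      have h2 : (m + 10) ^ 3 * 2 = (m + 10 + 1) ^ 3 + (m ^ 3 + 27 * m ^ 2 + 237 * m + 669) := by
        ring
      omega
    omega

theorem growth (c : ℕ) : ∃ N, ∀ s, N ≤ s → c * (T s + 2) ≤ E (s + 2) := by
  refine ⟨10 + 4 * c, fun s hs => ?_⟩
  have h1 : s ≤ E s := E_strictMono.le_apply
  have h2 : s < 2 ^ E s := lt_of_le_of_lt h1 Nat.lt_two_pow_self
  have h3 := T_le s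
  set P := 2 ^ E s with hP
  have h4 : 2 ^ P ≤ E (s + 2) := by
    have h5 : E (s + 2) = E (s + 1) + 2 ^ E (s + 1) := rfl
    have h6 : E (s + 1) = E s + 2 ^ E s := rfl
    rw [h5]
    refine le_trans ?_ (Nat.le_add_left _ _)
    apply Nat.pow_le_pow_right (by norm_num)
    rw [h6]
    exact Nat.le_add_left _ _
  refine le_trans ?_ h4
  refine le_trans ?_ (cube_le P (by omega))
  have h7 : 4 * c ≤ P := by omega
  have h8 : 1 ≤ P := by omega
  calc c * (T s + 2) ≤ c * (2 * P ^ 2 + 2) := by gcongr
    _ ≤ c * (4 * P ^ 2) := by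
        gcongr
        nlinarith
    _ = 4 * c * P ^ 2 := by ring
    _ ≤ P * P ^ 2 := by gcongr
    _ = P ^ 3 := by ring

theorem rul_prefix {r s : ℕ} (h : r ≤ s) : rul (zz r) <+: rul (zz s) := by
  obtain ⟨t, ht⟩ := zz_prefix h
  rw [← ht, rul, rul, rulF_append]
  exact List.prefix_append _ _

/-- words outside `H B` -/
theorem not_mem_H {B : Set ℕ} {x : List Sym} (hx : x ∉ H B) :
    ∃ b ∈ B, x = rul (zz (2 * b)) := by
  have : ∃ z, Good z ∧ x = rul z ∧ z.count 2 ∈ SA B := by
    by_contra hc
    exact hx hc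
  obtain ⟨z, hz, rfl, b, hb, hcount⟩ := this
  refine ⟨b, hb, ?_⟩
  obtain ⟨s, rfl, hs⟩ := hz.eq_zz
  congr 2
  omega

theorem rul_zz_not_mem {A : Set ℕ} {a : ℕ} (ha : a ∈ A) : rul (zz (2 * a)) ∉ H A := by
  intro h
  exact h ⟨zz (2 * a), good_zz _, rfl, a, ha, count_zz _⟩

end RCone
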