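import Pool.Agent.RCone.LinD

/-! # Palindromes are hard (helper70, MP_a8de0d_lc) -/

namespace RCone

open Language

variable {X Y W V : Type}

/-- an exponential beats a polynomial -/
theorem exp_gt' (c e d : ℕ) : ∃ N, ∀ m, N ≤ m → c * (d * (m + 1)) ^ e < 2 ^ m := by
  have h := tendsto_pow_const_div_const_pow_of_one_lt e (show (1 : ℝ) < 2 by norm_num)
  have h1 : ∀ᶠ m : ℕ in Filter.atTop, ((m : ℝ) ^ e / 2 ^ m) <
      1 / (c * (d * 2) ^ e + 1) := by
    apply h.eventually_lt_const
    positivity
  obtain ⟨N, hN⟩ := Filter.eventually_atTop.mp h1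
  refine ⟨max N 1, fun m hm => ?_⟩
  have h2 := hN m ((le_max_left _ _).trans hm)
  have hm1 : 1 ≤ m := (le_max_right _ _).trans hm
  have h3 : (0 : ℝ) < 2 ^ m := by positivity
  have hpos : (0 : ℝ) < c * (d * 2) ^ e + 1 := by positivity
  rw [div_lt_div_iff₀ h3 hpos, one_mul] at h2
  have h4 : (m : ℝ) ^ e * (c * (d * 2) ^ e) ≤ (m : ℝ) ^ e * (c * (d * 2) ^ e + 1) := by
    gcongr
    linarith
  have h5 : c * (d * (2 * m)) ^ e < 2 ^ m := by
    have h6 : ((c * (d * (2 * m)) ^ e : ℕ) : ℝ) < ((2 ^ m : ℕ) : ℝ) := by
      push_cast
      calc (c : ℝ) * (d * (2 * m)) ^ e = (m : ℝ) ^ e * (c * (d * 2) ^ e) := by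
            rw [show (d : ℝ) * (2 * m) = m * (d * 2) by ring, mul_pow]
            ring
        _ < 2 ^ m := lt_of_le_of_lt h4 h2
    exact_mod_cast h6
  refine lt_of_le_of_lt ?_ h5
  gcongr
  omega

theorem hard_pal : Hard NfaD palLang := by
  intro C e
  obtain ⟨N, hN⟩ := exp_gt' (C * nsh Bool C) e 2
  refine ⟨2 * N, fun n hn => ?_⟩
  rintro ⟨R, hR, hRx⟩
  set m := n / 2 with hm
  have h1 := pal_lower (m := m) hR fun x hx => hRx x (by omega)
  have h2 := hN m (by omega)
  have h3 : C * (n + 1) ^ e * nsh Bool C ≤ C * nsh Bool C * (2 * (m + 1)) ^ e := by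
    calc C * (n + 1) ^ e * nsh Bool C ≤ C * (2 * (m + 1)) ^ e * nsh Bool C := by
          gcongr
          omega
      _ = _ := by ring
  exact absurd (h1.trans h3) (not_le.mpr h2)

/-- two even palindromes with a marker between them -/
def palTwo : Language (Option Bool) :=
  {x | ∃ u v : List Bool, x = (u ++ u.reverse).map some ++ none :: (v ++ v.reverse).map some}

theorem none_split {p p' : List Bool} {q q' : List (Option Bool)}
    (h : p.map some ++ none :: q = p'.map some ++ none :: q') : p = p' ∧ q = q' := by
  induction p generalizing p' with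
  | nil =>
    cases p' with
    | nil => exact ⟨rfl, by simpa using h⟩
    | cons a p' => simp at h
  | cons a p ih =>
    cases p' with
    | nil => simp at h
    | cons b p' =>
      simp only [List.map_cons, List.cons_append, List.cons.injEq, Option.some.injEq] at h
      obtain ⟨h1, h2⟩ := h
      obtain ⟨h3, h4⟩ := ih h2
      exact ⟨by rw [h1, h3], h4⟩

/-- cutting a word with a marker on both sides -/
theorem cut_two {a b : List Bool} {L m R : List (Option Bool)}
    (h : a.map some ++ none :: b.map some = L ++ m ++ R) (hL : L.length ≤ a.length)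
    (hR : R.length ≤ b.length) : ∃ a₁ a₂ b₁ b₂ : List Bool, a = a₁ ++ a₂ ∧ b = b₁ ++ b₂ ∧
      L = a₁.map some ∧ R = b₂.map some ∧ m = a₂.map some ++ none :: b₁.map some := by
  have h1 : L = (a.take L.length).map some := by
    have h2 := congrArg (List.take L.length) h
    rw [List.append_assoc, List.take_append_of_le_length (by simpa using hL)] at h2
    have h2' : List.take L.length (L ++ (m ++ R)) = L := List.take_left' rfl
    rw [h2'] at h2
    rw [List.map_take]
    exact h2.symm
  have h3 : (a.drop L.length).map some ++ none :: b.map some = m ++ R := by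
    have h2 := congrArg (List.drop L.length) h
    rw [List.append_assoc, List.drop_left' rfl, List.drop_append_of_le_length (by simpa using hL)]
      at h2
    rw [List.map_drop]
    exact h2
  have h4 : b.map some = (b.take (b.length - R.length)).map some ++
      (b.drop (b.length - R.length)).map some := by
    rw [← List.map_append, List.take_append_drop]
  have h5 : ((a.drop L.length).map some ++ none :: (b.take (b.length - R.length)).map some) ++
      (b.drop (b.length - R.length)).map some = m ++ R := by
    rw [← h3, List.append_assoc, List.cons_append, ← h4]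
  have h6 := List.append_inj' h5 (by
    rw [List.length_map, List.length_drop]
    omega)
  exact ⟨_, _, _, _, (List.take_append_drop _ _).symm,
    (List.take_append_drop (b.length - R.length) b).symm, h1, h6.2.symm, h6.1.symm⟩

theorem half_pal {u v a : List Bool} {m : ℕ} (hu : u.length = m) (hv : v.length = m)
    (h : u ++ v.reverse = a ++ a.reverse) : u = v := by
  have hlen := congrArg List.length h
  rw [List.length_append, List.length_append, List.length_reverse, List.length_reverse] at hlen
  obtain ⟨h7, h8⟩ := List.append_inj h (by omega)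
  rw [List.reverse_injective h8, h7]

theorem lin_lower {s B m : ℕ} {R : Language (Option Bool)} (hR : LinDev s B R) (hBm : B ≤ m)
    (hm1 : 1 ≤ m) (hmem : ∀ x : List (Option Bool), x.length ≤ 9 * m → (x ∈ R ↔ x ∈ palTwo)) :
    2 ^ m ≤ s * nsh (Option Bool) B := by
  classical
  obtain ⟨Z, hZ, σ, hσ, M, l, r, h1, h2, rfl⟩ := hR
  have hft : Fintype {v : List (Option Bool) // v.length ≤ B} := Fintype.ofFinite _
  have hnsh : Fintype.card {v : List (Option Bool) // v.length ≤ B} = nsh (Option Bool) B := by
    rw [nsh, Nat.card_eq_fintype_card]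
  by_contra hcon
  push Not at hcon
  have hcard : Fintype.card (σ × {v : List (Option Bool) // v.length ≤ B}) <
      Fintype.card (Fin m → Bool) := by
    rw [Fintype.card_prod, Fintype.card_fun, Fintype.card_bool, Fintype.card_fin, hnsh]
    exact lt_of_le_of_lt (Nat.mul_le_mul_right _ h1) hcon
  -- the two kinds of pairs
  let L : List Z → List (Option Bool) := fun g => g.flatMap l
  let Q : List Z → List (Option Bool) := fun g => g.reverse.flatMap r
  have hLapp : ∀ g g' : List Z, L (g ++ g') = L g ++ L g' := fun g g' => List.flatMap_append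
  have hQapp : ∀ g g' : List Z, Q (g ++ g') = Q g' ++ Q g := by
    intro g g'
    change (g ++ g').reverse.flatMap r = _
    rw [List.reverse_append, List.flatMap_append]
  let xw : (Fin m → Bool) → (Fin m → Bool) → List (Option Bool) := fun u v =>
    (List.ofFn u ++ (List.ofFn u).reverse).map some ++
      none :: (List.ofFn v ++ (List.ofFn v).reverse).map some
  let A : (Fin m → Bool) → Prop := fun u => ∃ v g g', g ++ g' ∈ M.accepts ∧
    L (g ++ g') ++ Q (g ++ g') = xw u v ∧ m ≤ (L g).length ∧ (L g).length < m + B + 1 ∧
    (Q g).length < m + B + 1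
  let A' : (Fin m → Bool) → Prop := fun v => ∃ u g g', g ++ g' ∈ M.accepts ∧
    L (g ++ g') ++ Q (g ++ g') = xw u v ∧ m ≤ (Q g).length ∧ (Q g).length < m + B + 1 ∧
    (L g).length < m + B + 1
  have hxlen : ∀ u v, (xw u v).length = 4 * m + 1 := by
    intro u v
    simp only [xw, List.length_append, List.length_map, List.length_cons, List.length_reverse,
      List.length_ofFn]
    omega
  have hone : ∀ (f : Z → List (Option Bool)) (z : Z), ([z] : List Z).flatMap f = f z := by
    intro f z
    simp
  have hpair : ∀ u v, A u ∨ A' v := by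
    intro u v
    have h3 : xw u v ∈ palTwo := ⟨_, _, rfl⟩
    rw [← hmem _ (by rw [hxlen]; omega)] at h3
    obtain ⟨g, hg, hgx⟩ := h3
    have hlen : (L g).length + (Q g).length = 4 * m + 1 := by
      rw [← hxlen u v, ← hgx, List.length_append]
    obtain ⟨a, z, b, e1, e2, e3⟩ := shortest_init
      (fun k : List Z => m ≤ (L k).length ∨ m ≤ (Q k).length) g (by
        rintro (h | h)
        · have : (L []).length = 0 := rfl
          omega
        · have : (Q []).length = 0 := rfl
          omega) (by
        by_contra hc
        push Not at hc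
        omega)
    have h4 := e3 a [] (by simp)
    push Not at h4
    have h5 : (L (a ++ [z])).length ≤ (L a).length + B := by
      rw [hLapp, List.length_append]
      have : L [z] = l z := hone l z
      rw [this]
      have := (h2 z).1
      omega
    have h6 : (Q (a ++ [z])).length ≤ (Q a).length + B := by
      rw [hQapp, List.length_append]
      have : Q [z] = r z := hone r z
      rw [this]
      have := (h2 z).2
      omega
    have hga : (a ++ [z]) ++ b ∈ M.accepts := by rw [← e1]; exact hg
    have hgb : L ((a ++ [z]) ++ b) ++ Q ((a ++ [z]) ++ b) = xw u v := by rw [← e1]; exact hgx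
    rcases e2 with e2 | e2
    · exact Or.inl ⟨v, a ++ [z], b, hga, hgb, e2, by omega, by omega⟩
    · exact Or.inr ⟨u, a ++ [z], b, hga, hgb, e2, by omega, by omega⟩
  -- crossing two accepted words
  have hcross : ∀ (g g' k k' : List Z), g ++ g' ∈ M.accepts → k ++ k' ∈ M.accepts →
      M.eval g = M.eval k → ∀ u v u' v', L (g ++ g') ++ Q (g ++ g') = xw u v →
      L (k ++ k') ++ Q (k ++ k') = xw u' v' →
      (L g).length < m + B + 1 → (Q g).length < m + B + 1 →
      (L k).length < m + B + 1 → (Q k).length < m + B + 1 →
      ∃ a₁ a₂ b₁ b₂ c₁ c₂ d₁ d₂ : List Bool,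
        List.ofFn u ++ (List.ofFn u).reverse = a₁ ++ a₂ ∧
        List.ofFn v ++ (List.ofFn v).reverse = b₁ ++ b₂ ∧
        List.ofFn u' ++ (List.ofFn u').reverse = c₁ ++ c₂ ∧
        List.ofFn v' ++ (List.ofFn v').reverse = d₁ ++ d₂ ∧
        L g = a₁.map some ∧ Q g = b₂.map some ∧ L k = c₁.map some ∧ Q k = d₂.map some ∧
        (∃ a, a₁ ++ c₂ = a ++ a.reverse) ∧ ∃ b, d₁ ++ b₂ = b ++ b.reverse := by
    intro g g' k k' hg hk hq u v u' v' hx hx' hl₁ hl₂ hl₃ hl₄
    have hlu : ∀ w : Fin m → Bool, (List.ofFn w ++ (List.ofFn w).reverse).length = 2 * m := by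
      intro w
      rw [List.length_append, List.length_reverse, List.length_ofFn]
      omega
    rw [hLapp, hQapp] at hx hx'
    obtain ⟨a₁, a₂, b₁, b₂, ha, hb, hLg, hQg, hmid⟩ := cut_two (L := L g) (m := L g' ++ Q g')
      (R := Q g) (by rw [← List.append_assoc, ← List.append_assoc] at *; exact hx.symm)
      (by rw [hlu]; omega) (by rw [hlu]; omega)
    obtain ⟨c₁, c₂, d₁, d₂, hc, hd, hLk, hQk, hmid'⟩ := cut_two (L := L k) (m := L k' ++ Q k')
      (R := Q k) (by rw [← List.append_assoc, ← List.append_assoc] at *; exact hx'.symm)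
      (by rw [hlu]; omega) (by rw [hlu]; omega)
    refine ⟨a₁, a₂, b₁, b₂, c₁, c₂, d₁, d₂, ha, hb, hc, hd, hLg, hQg, hLk, hQk, ?_⟩
    have hacc : g ++ k' ∈ M.accepts := by
      have h5 : M.evalFrom M.start (k ++ k') ∈ M.accept := hk
      change M.evalFrom M.start (g ++ k') ∈ M.accept
      rw [DFA.evalFrom_of_append] at h5 ⊢
      rw [show M.evalFrom M.start g = M.evalFrom M.start k from hq]
      exact h5
    have hy : L (g ++ k') ++ Q (g ++ k') =
        (a₁ ++ c₂).map some ++ none :: (d₁ ++ b₂).map some := by
      rw [hLapp, hQapp, List.map_append, List.map_append, ← hLg, ← hQg]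
      calc L g ++ L k' ++ (Q k' ++ Q g) = L g ++ (L k' ++ Q k') ++ Q g := by simp
        _ = _ := by rw [hmid']; simp
    have h7 : (a₁ ++ c₂).map some ++ none :: (d₁ ++ b₂).map some ∈ palTwo := by
      rw [← hmem]
      · exact ⟨g ++ k', hacc, hy⟩
      · have e1 := congrArg List.length hc
        have e2 := congrArg List.length hd
        rw [hlu, List.length_append] at e1 e2
        have e3 := congrArg List.length hLg
        have e4 := congrArg List.length hQg
        rw [List.length_map] at e3 e4
        rw [List.length_append, List.length_cons, List.length_map, List.length_map,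
          List.length_append, List.length_append]
        omega
    obtain ⟨a, b, hab⟩ := h7
    obtain ⟨h8, h9⟩ := none_split hab
    exact ⟨⟨a, h8⟩, ⟨b, List.map_injective_iff.mpr (Option.some_injective _) h9⟩⟩
  have hkey : (∀ u, A u) ∨ (∀ v, A' v) := by
    by_contra hc
    push Not at hc
    obtain ⟨⟨u, hu⟩, ⟨v, hv⟩⟩ := hc
    exact (hpair u v).elim hu hv
  rcases hkey with hA | hA
  · choose v g g' g1 g2 g3 g4 g5 using hA
    have hov : ∀ u, ((L (g u)).drop m).length ≤ B := by
      intro u
      rw [List.length_drop]
      have := g4 u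
      omega
    obtain ⟨u, u', hne, heq⟩ := Fintype.exists_ne_map_eq_of_card_lt
      (fun u : Fin m → Bool => (M.eval (g u),
        (⟨_, hov u⟩ : {v : List (Option Bool) // v.length ≤ B}))) hcard
    have hq : M.eval (g u) = M.eval (g u') := congrArg Prod.fst heq
    have ho : (L (g u)).drop m = (L (g u')).drop m := congrArg (fun d => d.2.1) heq
    obtain ⟨a₁, a₂, b₁, b₂, c₁, c₂, d₁, d₂, ha, hb, hc, hd, hLg, hQg, hLk, hQk, ⟨a, haa⟩, _⟩ :=
      hcross (g u) (g' u) (g u') (g' u') (g1 u) (g1 u') hq u (v u) u' (v u') (g2 u) (g2 u')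
        (g4 u) (g5 u) (g4 u') (g5 u')
    have hla : m ≤ a₁.length := by
      have := g3 u
      rw [hLg, List.length_map] at this
      exact this
    have hlc : m ≤ c₁.length := by
      have := g3 u'
      rw [hLk, List.length_map] at this
      exact this
    have ho' : a₁.drop m = c₁.drop m := by
      rw [hLg, hLk, ← List.map_drop, ← List.map_drop] at ho
      exact List.map_injective_iff.mpr (Option.some_injective _) ho
    have hta : a₁.take m = List.ofFn u := by
      have h5 := congrArg (List.take m) ha
      rw [List.take_append_of_le_length hla, List.take_left' (by rw [List.length_ofFn])] at h5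
      exact h5.symm
    have htc : c₁.take m = List.ofFn u' := by
      have h5 := congrArg (List.take m) hc
      rw [List.take_append_of_le_length hlc, List.take_left' (by rw [List.length_ofFn])] at h5
      exact h5.symm
    have hdc : c₁.drop m ++ c₂ = (List.ofFn u').reverse := by
      have h5 := congrArg (List.drop m) hc
      rw [List.drop_append_of_le_length hlc, List.drop_left' (by rw [List.length_ofFn])] at h5
      exact h5.symm
    have h6 : List.ofFn u ++ (List.ofFn u').reverse = a ++ a.reverse := by
      rw [← haa, ← hdc, ← ho', ← hta, ← List.append_assoc, List.take_append_drop]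
    exact hne (List.ofFn_injective (half_pal (List.length_ofFn) (List.length_ofFn) h6))
  · choose u g g' g1 g2 g3 g4 g5 using hA
    have hov : ∀ v, ((Q (g v)).take ((Q (g v)).length - m)).length ≤ B := by
      intro v
      rw [List.length_take]
      have := g4 v
      omega
    obtain ⟨v, v', hne, heq⟩ := Fintype.exists_ne_map_eq_of_card_lt
      (fun v : Fin m → Bool => (M.eval (g v),
        (⟨_, hov v⟩ : {v : List (Option Bool) // v.length ≤ B}))) hcard
    have hq : M.eval (g v) = M.eval (g v') := congrArg Prod.fst heq
    have ho : (Q (g v)).take ((Q (g v)).length - m) = (Q (g v')).take ((Q (g v')).length - m) :=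
      congrArg (fun d => d.2.1) heq
    obtain ⟨a₁, a₂, b₁, b₂, c₁, c₂, d₁, d₂, ha, hb, hc, hd, hLg, hQg, hLk, hQk, _, ⟨b, hbb⟩⟩ :=
      hcross (g v) (g' v) (g v') (g' v') (g1 v) (g1 v') hq (u v) v (u v') v' (g2 v) (g2 v')
        (g5 v) (g4 v) (g5 v') (g4 v')
    have hla : m ≤ b₂.length := by
      have := g3 v
      rw [hQg, List.length_map] at this
      exact this
    have hlc : m ≤ d₂.length := by
      have := g3 v'
      rw [hQk, List.length_map] at this
      exact this
    have ho' : b₂.take (b₂.length - m) = d₂.take (d₂.length - m) := by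
      rw [hQg, hQk, List.length_map, List.length_map, ← List.map_take, ← List.map_take] at ho
      exact List.map_injective_iff.mpr (Option.some_injective _) ho
    have hsplit : ∀ (w : Fin m → Bool) (p q : List Bool), m ≤ q.length →
        List.ofFn w ++ (List.ofFn w).reverse = p ++ q →
        q.drop (q.length - m) = (List.ofFn w).reverse ∧ p ++ q.take (q.length - m) =
          List.ofFn w := by
      intro w p q hq he
      have h5 : (p ++ q.take (q.length - m)) ++ q.drop (q.length - m) =
          List.ofFn w ++ (List.ofFn w).reverse := by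
        rw [List.append_assoc, List.take_append_drop, he]
      have h6 := List.append_inj' h5 (by
        rw [List.length_drop, List.length_reverse, List.length_ofFn]
        omega)
      exact ⟨h6.2, h6.1⟩
    obtain ⟨s1, s2⟩ := hsplit v b₁ b₂ hla hb
    obtain ⟨s3, s4⟩ := hsplit v' d₁ d₂ hlc hd
    have h6 : List.ofFn v' ++ (List.ofFn v).reverse = b ++ b.reverse := by
      rw [← hbb, ← s1, ← s4, ← ho', List.append_assoc, List.take_append_drop]
    exact hne (List.ofFn_injective (half_pal (List.length_ofFn) (List.length_ofFn) h6)).symm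

theorem hard_palTwo : Hard LinD palTwo := by
  intro C e
  obtain ⟨N, hN⟩ := exp_gt' (C * nsh (Option Bool) C) e 9
  refine ⟨9 * (N + C + 1), fun n hn => ?_⟩
  rintro ⟨R, hR, hRx⟩
  set m := n / 9 with hm
  have h1 := lin_lower (m := m) hR (by omega) (by omega) fun x hx => hRx x (by omega)
  have h2 := hN m (by omega)
  have h3 : C * (n + 1) ^ e * nsh (Option Bool) C ≤
      C * nsh (Option Bool) C * (9 * (m + 1)) ^ e := by
    calc C * (n + 1) ^ e * nsh (Option Bool) C
        ≤ C * (9 * (m + 1)) ^ e * nsh (Option Bool) C := by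
          gcongr
          omega
      _ = _ := by ring
  exact absurd (h1.trans h3) (not_le.mpr h2)

end RCone
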