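import Pool.Agent.RCone.Subst

/-! # Inlining automata into a transduction (helper70, MP_a8de0d_lc) -/

namespace RCone

open Language

variable {X Y W V : Type}

section inline

variable {ZT σ : Type} [Fintype σ] (M : DFA ZT σ) (ψ : ZT → List X) (P : ZT → Prop)
variable {Zn σn : σ × Y × σ → Type} (N : ∀ i, DFA (Zn i) (σn i)) (ψn : ∀ i, Zn i → List X)

/-- states: dead, initial, tail, segment -/
abbrev ISt (σ : Type) (I : Type) (σn : I → Type) := Option (Option (σ ⊕ (Σ i, σn i)))

/-- letters: headers, segments, tails -/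
abbrev ILt (I : Type) (Zn : I → Type) (T : Type) := I ⊕ (Σ i, Zn i) ⊕ T

open Classical in
/-- the state of `M` at which a new segment may start -/
noncomputable def rd : ISt σ (σ × Y × σ) σn → Option σ
  | none => none
  | some none => some M.start
  | some (some (Sum.inl _)) => none
  | some (some (Sum.inr ⟨i, s⟩)) => if s ∈ (N i).accept then some i.2.2 else none

/-- the state of `M` at which the tail may go on -/
noncomputable def rt : ISt σ (σ × Y × σ) σn → Option σ
  | some (some (Sum.inl q)) => some q
  | s => rd M N s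

open Classical in
/-- the automaton with inlined segments -/
noncomputable def inlDFA : DFA (ILt (σ × Y × σ) Zn {z : ZT // P z}) (ISt σ (σ × Y × σ) σn) where
  step s l := match l with
    | Sum.inl i => if rd M N s = some i.1 then some (some (Sum.inr ⟨i, (N i).start⟩)) else none
    | Sum.inr (Sum.inl ⟨i, z⟩) => match s with
      | some (some (Sum.inr ⟨j, s'⟩)) =>
        if h : j = i then some (some (Sum.inr ⟨i, (N i).step (h ▸ s') z⟩)) else none
      | _ => none
    | Sum.inr (Sum.inr z) => (rt M N s).bind fun q => some (some (Sum.inl (M.step q z.1)))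
  start := some none
  accept := {s | ∃ q ∈ M.accept, rt M N s = some q}

/-- input labels -/
def inlφ : ILt (σ × Y × σ) Zn {z : ZT // P z} → List Y
  | Sum.inl i => [i.2.1]
  | Sum.inr _ => []

/-- output labels -/
def inlψ : ILt (σ × Y × σ) Zn {z : ZT // P z} → List X
  | Sum.inl _ => []
  | Sum.inr (Sum.inl ⟨i, z⟩) => ψn i z
  | Sum.inr (Sum.inr z) => ψ z.1

/-- the languages of the segments -/
def segL (p : σ) (y : Y) (q : σ) : Language X :=
  {x | ∃ g ∈ (N (p, y, q)).accepts, g.flatMap (ψn (p, y, q)) = x}

/-- meaning of the states -/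
def SInv (h : List (ILt (σ × Y × σ) Zn {z : ZT // P z})) : ISt σ (σ × Y × σ) σn → Prop
  | none => True
  | some none => h = []
  | some (some (Sum.inl q)) => ∃ x p t, Path M.start (segL N ψn) (h.flatMap (inlφ P)) x p ∧
      h.flatMap (inlψ ψ P ψn) = x ++ t.flatMap ψ ∧ (∀ z ∈ t, P z) ∧ M.evalFrom p t = q
  | some (some (Sum.inr ⟨i, s⟩)) => ∃ ys x g, h.flatMap (inlφ P) = ys ++ [i.2.1] ∧
      h.flatMap (inlψ ψ P ψn) = x ++ g.flatMap (ψn i) ∧ Path M.start (segL N ψn) ys x i.1 ∧
      (N i).eval g = s

theorem path_of_rd {h : List (ILt (σ × Y × σ) Zn {z : ZT // P z})} {s : ISt σ (σ × Y × σ) σn}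
    (hI : SInv M ψ P N ψn h s) {p : σ} (hp : rd M N s = some p) :
    Path M.start (segL N ψn) (h.flatMap (inlφ P)) (h.flatMap (inlψ ψ P ψn)) p := by
  match s, hI, hp with
  | some none, hI, hp =>
    have h1 : M.start = p := Option.some.inj hp
    have h2 : h = [] := hI
    rw [h2, ← h1]
    exact Path.nil
  | some (some (Sum.inr ⟨i, s⟩)), hI, hp =>
    obtain ⟨ys, x, g, e1, e2, e3, e4⟩ := hI
    have hp' : (open Classical in if s ∈ (N i).accept then some i.2.2 else none) = some p := hp
    split_ifs at hp' with hc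
    have h1 : i.2.2 = p := Option.some.inj hp'
    rw [e1, e2, ← h1]
    obtain ⟨p₀, y, q⟩ := i
    refine Path.snoc e3 ⟨g, ?_, rfl⟩
    change (N (p₀, y, q)).eval g ∈ (N (p₀, y, q)).accept
    rw [e4]
    exact hc

theorem tail_of_rt {h : List (ILt (σ × Y × σ) Zn {z : ZT // P z})} {s : ISt σ (σ × Y × σ) σn}
    (hI : SInv M ψ P N ψn h s) {q : σ} (hq : rt M N s = some q) :
    ∃ x p t, Path M.start (segL N ψn) (h.flatMap (inlφ P)) x p ∧
      h.flatMap (inlψ ψ P ψn) = x ++ t.flatMap ψ ∧ (∀ z ∈ t, P z) ∧ M.evalFrom p t = q := by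
  match s, hI, hq with
  | none, hI, hq => exact absurd hq (by simp [rt, rd])
  | some none, hI, hq =>
    exact ⟨_, q, [], path_of_rd M ψ P N ψn (s := some none) hI hq, by simp, by simp, rfl⟩
  | some (some (Sum.inl q')), hI, hq =>
    have h1 : q' = q := Option.some.inj hq
    subst h1
    exact hI
  | some (some (Sum.inr i)), hI, hq =>
    exact ⟨_, q, [], path_of_rd M ψ P N ψn (s := some (some (Sum.inr i))) hI hq, by simp, by simp,
      rfl⟩

theorem inl_sound (h : List (ILt (σ × Y × σ) Zn {z : ZT // P z})) :
    SInv M ψ P N ψn h ((inlDFA M P N).eval h) := by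
  classical
  induction h using List.reverseRecOn with
  | nil => rfl
  | append_singleton h l ih =>
    rw [DFA.eval_append_singleton]
    set s := (inlDFA M P N).eval h with hs
    match l with
    | Sum.inl i =>
      by_cases hc : rd M N s = some i.1
      · have he : (inlDFA M P N).step s (Sum.inl i) = some (some (Sum.inr ⟨i, (N i).start⟩)) := by
          change (if rd M N s = some i.1 then _ else _) = _
          rw [if_pos hc]
        rw [he]
        refine ⟨h.flatMap (inlφ P), h.flatMap (inlψ ψ P ψn), [], ?_, ?_, ?_, rfl⟩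
        · rw [List.flatMap_append]
          rfl
        · rw [List.flatMap_append]
          simp [inlψ]
        · exact path_of_rd M ψ P N ψn ih hc
      · have he : (inlDFA M P N).step s (Sum.inl i) = none := by
          change (if rd M N s = some i.1 then _ else _) = _
          rw [if_neg hc]
        rw [he]
        trivial
    | Sum.inr (Sum.inl ⟨i, z⟩) =>
      match s, ih with
      | none, ih => trivial
      | some none, ih => trivial
      | some (some (Sum.inl q)), ih => trivial
      | some (some (Sum.inr ⟨j, s'⟩)), ih =>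
        by_cases hc : j = i
        · subst hc
          have he : (inlDFA M P N).step (some (some (Sum.inr ⟨j, s'⟩)))
              (Sum.inr (Sum.inl ⟨j, z⟩)) = some (some (Sum.inr ⟨j, (N j).step s' z⟩)) := by
            change (if h : j = j then _ else _) = _
            rw [dif_pos rfl]
          rw [he]
          obtain ⟨ys, x, g, e1, e2, e3, e4⟩ := ih
          refine ⟨ys, x, g ++ [z], ?_, ?_, e3, ?_⟩
          · rw [List.flatMap_append, e1]
            simp [inlφ]
          · rw [List.flatMap_append, List.flatMap_append, e2]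
            simp [inlψ]
          · rw [DFA.eval_append_singleton, e4]
        · have he : (inlDFA M P N).step (some (some (Sum.inr ⟨j, s'⟩)))
              (Sum.inr (Sum.inl ⟨i, z⟩)) = none := by
            change (if h : j = i then _ else _) = _
            rw [dif_neg hc]
          rw [he]
          trivial
    | Sum.inr (Sum.inr z) =>
      cases hq : rt M N s with
      | none =>
        have he : (inlDFA M P N).step s (Sum.inr (Sum.inr z)) = none := by
          change (rt M N s).bind _ = _
          rw [hq]
          rfl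
        rw [he]
        trivial
      | some q =>
        have he : (inlDFA M P N).step s (Sum.inr (Sum.inr z)) =
            some (some (Sum.inl (M.step q z.1))) := by
          change (rt M N s).bind _ = _
          rw [hq]
          rfl
        rw [he]
        obtain ⟨x, p, t, e1, e2, e3, e4⟩ := tail_of_rt M ψ P N ψn ih hq
        refine ⟨x, p, t ++ [z.1], ?_, ?_, ?_, ?_⟩
        · rw [List.flatMap_append]
          simpa [inlφ] using e1
        · rw [List.flatMap_append, List.flatMap_append, e2]
          simp [inlψ]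
        · intro w hw
          rcases List.mem_append.mp hw with h1 | h1
          · exact e3 w h1
          · rw [List.mem_singleton.mp h1]
            exact z.2
        · rw [DFA.evalFrom_append_singleton, e4]

theorem inl_seg (i : σ × Y × σ) (g : List (Zn i)) (s : σn i) :
    (inlDFA M P N).evalFrom (some (some (Sum.inr ⟨i, s⟩)))
      (g.map fun z => (Sum.inr (Sum.inl ⟨i, z⟩) : ILt (σ × Y × σ) Zn {z : ZT // P z})) =
      some (some (Sum.inr ⟨i, (N i).evalFrom s g⟩)) := by
  classical
  induction g generalizing s with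
  | nil => rfl
  | cons z g ih =>
    rw [List.map_cons, DFA.evalFrom_cons, DFA.evalFrom_cons]
    have he : (inlDFA M P N).step (some (some (Sum.inr ⟨i, s⟩)))
        (Sum.inr (Sum.inl ⟨i, z⟩)) = some (some (Sum.inr ⟨i, (N i).step s z⟩)) := by
      change (if h : i = i then _ else _) = _
      rw [dif_pos rfl]
    rw [he, ih]

theorem inl_complete {ys : List Y} {x : List X} {p : σ} (h : Path M.start (segL N ψn) ys x p) :
    ∃ g : List (ILt (σ × Y × σ) Zn {z : ZT // P z}), rd M N ((inlDFA M P N).eval g) = some p ∧
      g.flatMap (inlφ P) = ys ∧ g.flatMap (inlψ ψ P ψn) = x := by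
  classical
  induction h with
  | nil => exact ⟨[], rfl, rfl, rfl⟩
  | @snoc ys x v y p q h1 h2 ih =>
    obtain ⟨g, e1, e2, e3⟩ := ih
    obtain ⟨k, hk, hkv⟩ := h2
    refine ⟨g ++ (Sum.inl (p, y, q) :: k.map fun z => Sum.inr (Sum.inl ⟨(p, y, q), z⟩)), ?_, ?_,
      ?_⟩
    · change rd M N ((inlDFA M P N).evalFrom (inlDFA M P N).start _) = _
      rw [DFA.evalFrom_of_append, DFA.evalFrom_cons]
      have he : (inlDFA M P N).step ((inlDFA M P N).evalFrom (inlDFA M P N).start g)
          (Sum.inl (p, y, q)) = some (some (Sum.inr ⟨(p, y, q), (N (p, y, q)).start⟩)) := by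
        change (if rd M N ((inlDFA M P N).eval g) = some p then _ else _) = _
        rw [if_pos e1]
      rw [he, inl_seg]
      exact if_pos hk
    · rw [List.flatMap_append, List.flatMap_cons, e2]
      have : (k.map fun z => (Sum.inr (Sum.inl ⟨(p, y, q), z⟩) :
          ILt (σ × Y × σ) Zn {z : ZT // P z})).flatMap (inlφ P) = [] := by
        rw [List.flatMap_eq_nil_iff]
        intro l hl
        obtain ⟨z, _, rfl⟩ := List.mem_map.mp hl
        rfl
      rw [this]
      simp [inlφ]
    · rw [List.flatMap_append, List.flatMap_cons, e3, List.flatMap_map]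
      have : (inlψ ψ P ψn (Sum.inl (p, y, q)) : List X) = [] := rfl
      rw [this, List.nil_append]
      rw [← hkv]
      rfl

theorem inl_tail (t : List ZT) (ht : ∀ z ∈ t, P z) (s : ISt σ (σ × Y × σ) σn) {q : σ}
    (hs : rt M N s = some q) : ∃ k : List (ILt (σ × Y × σ) Zn {z : ZT // P z}),
      rt M N ((inlDFA M P N).evalFrom s k) = some (M.evalFrom q t) ∧
      k.flatMap (inlφ P) = [] ∧ k.flatMap (inlψ ψ P ψn) = t.flatMap ψ := by
  induction t generalizing s q with
  | nil => exact ⟨[], hs, rfl, rfl⟩
  | cons z t ih =>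
    have he : (inlDFA M P N).step s (Sum.inr (Sum.inr ⟨z, ht z List.mem_cons_self⟩)) =
        some (some (Sum.inl (M.step q z))) := by
      change (rt M N s).bind _ = _
      rw [hs]
      rfl
    obtain ⟨k, e1, e2, e3⟩ := ih (fun w hw => ht w (List.mem_cons_of_mem _ hw))
      (some (some (Sum.inl (M.step q z)))) (q := M.step q z) rfl
    refine ⟨Sum.inr (Sum.inr ⟨z, ht z List.mem_cons_self⟩) :: k, ?_, ?_, ?_⟩
    · rw [DFA.evalFrom_cons, he, DFA.evalFrom_cons]
      exact e1
    · rw [List.flatMap_cons, e2]
      rfl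
    · rw [List.flatMap_cons, List.flatMap_cons, e3]
      rfl

/-- the words produced by the inlined automaton -/
theorem inl_iff (K : Language Y) (x : List X) :
    (∃ h ∈ (inlDFA M P N).accepts, h.flatMap (inlφ P) ∈ K ∧ h.flatMap (inlψ ψ P ψn) = x) ↔
      ∃ ys ∈ K, ∃ v p t, Path M.start (segL N ψn) ys v p ∧ (∀ z ∈ t, P z) ∧
        M.evalFrom p t ∈ M.accept ∧ x = v ++ t.flatMap ψ := by
  constructor
  · rintro ⟨h, ⟨q, hq, hr⟩, hK, rfl⟩
    obtain ⟨v, p, t, e1, e2, e3, e4⟩ := tail_of_rt M ψ P N ψn (inl_sound M ψ P N ψn h) hr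
    exact ⟨_, hK, v, p, t, e1, e3, by rw [e4]; exact hq, e2⟩
  · rintro ⟨ys, hys, v, p, t, hP, ht, hacc, rfl⟩
    obtain ⟨g, e1, e2, e3⟩ := inl_complete M ψ P N ψn hP
    have h1 : rt M N ((inlDFA M P N).eval g) = some p := by
      generalize (inlDFA M P N).eval g = s at e1
      match s, e1 with
      | some none, e1 => exact e1
      | some (some (Sum.inr i)), e1 => exact e1
    obtain ⟨k, k1, k2, k3⟩ := inl_tail M ψ P N ψn t ht _ h1
    refine ⟨g ++ k, ?_, ?_, ?_⟩
    · change (inlDFA M P N).evalFrom (inlDFA M P N).start (g ++ k) ∈ (inlDFA M P N).accept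
      rw [DFA.evalFrom_of_append]
      exact ⟨_, hacc, k1⟩
    · rw [List.flatMap_append, e2, k2, List.append_nil]
      exact hys
    · rw [List.flatMap_append, e3, k3]

end inline

end RCone
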