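import Pool.Agent.RCone.Lang

/-! # Transductions with a size (helper70, MP_a8de0d_lc) -/

namespace RCone

open Language

variable {X Y W : Type}

/-- `τ` has size at most `m` and label length at most `B`: its control language is accepted by an
automaton with at most `m` states, and all words `φ(z)`, `ψ(z)` have length at most `B`. -/
def Sized (τ : Transducer X Y) (m B : ℕ) : Prop :=
  (∃ (σ : Type) (_ : Fintype σ) (M : DFA τ.Z σ), M.accepts = τ.K ∧ Fintype.card σ ≤ m) ∧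
    ∀ z, (τ.φ z).length ≤ B ∧ (τ.ψ z).length ≤ B

theorem exists_sized (τ : Transducer X Y) : ∃ m B, 1 ≤ B ∧ Sized τ m B := by
  obtain ⟨σ, hσ, M, hM⟩ := τ.regK
  have := τ.finZ
  obtain ⟨m₁, hm₁⟩ := exists_bound τ.φ
  obtain ⟨m₂, hm₂⟩ := exists_bound τ.ψ
  refine ⟨Fintype.card σ, m₁ + m₂ + 1, by omega, ⟨σ, hσ, M, hM, le_rfl⟩, fun z => ?_⟩
  have := hm₁ z
  have := hm₂ z
  omega

theorem Sized.mono {τ : Transducer X Y} {m B m' B' : ℕ} (h : Sized τ m B) (hm : m ≤ m')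
    (hB : B ≤ B') : Sized τ m' B' := by
  obtain ⟨⟨σ, hσ, M, hM, hc⟩, hl⟩ := h
  refine ⟨⟨σ, hσ, M, hM, hc.trans hm⟩, fun z => ?_⟩
  have := hl z
  omega

/-- `N` is the image of `L` under a transduction of size `≤ m` and label length `≤ B` -/
def GeqS (m B : ℕ) (L : Language X) (N : Language Y) : Prop :=
  ∃ τ : Transducer X Y, Sized τ m B ∧ τ.image L = N

theorem GeqS.geq {m B : ℕ} {L : Language X} {N : Language Y} (h : GeqS m B L N) : Geq L N := by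
  obtain ⟨τ, _, h⟩ := h
  exact ⟨τ, h⟩

theorem Geq.exists_sized {L : Language X} {N : Language Y} (h : Geq L N) :
    ∃ m B, 1 ≤ B ∧ GeqS m B L N := by
  obtain ⟨τ, h⟩ := h
  obtain ⟨m, B, hB, hs⟩ := RCone.exists_sized τ
  exact ⟨m, B, hB, τ, hs, h⟩

theorem GeqS.mono {m B m' B' : ℕ} {L : Language X} {N : Language Y} (h : GeqS m B L N)
    (hm : m ≤ m') (hB : B ≤ B') : GeqS m' B' L N := by
  obtain ⟨τ, hs, h⟩ := h
  exact ⟨τ, hs.mono hm hB, h⟩

open Classical in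
/-- product automaton with two inverse homomorphisms and a third automaton -/
theorem sized_dfa {Z Z₁ Z₂ σ₀ σ₁ σ₂ : Type} [Fintype σ₀] [Fintype σ₁] [Fintype σ₂]
    (M₀ : DFA Z σ₀) (M₁ : DFA Z₁ σ₁) (M₂ : DFA Z₂ σ₂) (f : Z → List Z₁) (g : Z → List Z₂) :
    ∃ (σ : Type) (_ : Fintype σ) (M : DFA Z σ), M.accepts = M₀.accepts ⊓
      (comapL M₁.accepts f ⊓ comapL M₂.accepts g) ∧
      Fintype.card σ ≤ Fintype.card σ₀ * (Fintype.card σ₁ * Fintype.card σ₂) := by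
  let N : DFA Z (σ₀ × σ₁ × σ₂) := ⟨fun s a => (M₀.step s.1 a, M₁.evalFrom s.2.1 (f a),
    M₂.evalFrom s.2.2 (g a)), (M₀.start, M₁.start, M₂.start),
    {s | s.1 ∈ M₀.accept ∧ s.2.1 ∈ M₁.accept ∧ s.2.2 ∈ M₂.accept}⟩
  have h1 : ∀ w : List Z, N.eval w = (M₀.eval w, M₁.eval (w.flatMap f), M₂.eval (w.flatMap g)) := by
    intro w
    induction w using List.reverseRecOn with
    | nil => rfl
    | append_singleton w a ih =>
      rw [DFA.eval_append_singleton, ih, DFA.eval_append_singleton]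
      simp only [List.flatMap_append, List.flatMap_cons, List.flatMap_nil, List.append_nil]
      change (M₀.step (M₀.eval w) a, M₁.evalFrom (M₁.evalFrom M₁.start (w.flatMap f)) (f a),
        M₂.evalFrom (M₂.evalFrom M₂.start (w.flatMap g)) (g a)) = (M₀.step (M₀.eval w) a,
        M₁.evalFrom M₁.start _, M₂.evalFrom M₂.start _)
      rw [DFA.evalFrom_of_append, DFA.evalFrom_of_append]
  refine ⟨_, inferInstance, N, ?_, ?_⟩
  · ext w
    change N.eval w ∈ N.accept ↔ _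
    rw [h1]
    rfl
  · rw [Fintype.card_prod, Fintype.card_prod]

/-- number of words of length at most `n` over `Y` -/
noncomputable def nsh (Y : Type) (n : ℕ) : ℕ := Nat.card {b : List Y // b.length ≤ n}

/-- **Composition with sizes** -/
theorem exists_comp_lab [Finite Y] (τ : Transducer X Y) (ρ : Transducer Y W) {m₁ m₂ B : ℕ}
    (h₁ : Sized τ m₁ B) (h₂ : Sized ρ m₂ B) : ∃ κ : Transducer X W,
    Sized κ ((nsh Y (B + B) + 1) * (m₁ * m₂)) B ∧
      (∀ L : Language X, κ.image L = ρ.image (τ.image L)) ∧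
      ∀ b, (∀ z, (τ.φ z).length ≤ b) → ∀ z, (κ.φ z).length ≤ b := by
  obtain ⟨⟨σ₁, _, M₁, hM₁, hc₁⟩, hl₁⟩ := h₁
  obtain ⟨⟨σ₂, _, M₂, hM₂, hc₂⟩, hl₂⟩ := h₂
  have := τ.finZ
  have := ρ.finZ
  have hm₁ : ∀ z, (τ.ψ z).length ≤ B := fun z => (hl₁ z).2
  have hm₂ : ∀ z, (ρ.φ z).length ≤ B := fun z => (hl₂ z).1
  have hft : Fintype {b : List Y // b.length ≤ B + B} := Fintype.ofFinite _
  have hK : ((bufDFA τ.ψ ρ.φ (B + B)).accepts ⊓ (comapL τ.K pr₁ ⊓ comapL ρ.K pr₂)).IsRegular :=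
    (isRegular_of_dfa _).inf ((comap_regular τ.regK _).inf (comap_regular ρ.regK _))
  refine ⟨⟨τ.Z ⊕ ρ.Z, inferInstance, _, hK, fun z => z.elim τ.φ (fun _ => []),
    fun z => z.elim (fun _ => []) ρ.ψ⟩, ⟨?_, ?_⟩, ?_, ?_⟩
  · obtain ⟨σ, hσ, A, hA, hcard⟩ := sized_dfa (bufDFA τ.ψ ρ.φ (B + B)) M₁ M₂
      (pr₁ : τ.Z ⊕ ρ.Z → _) (pr₂ : τ.Z ⊕ ρ.Z → _)
    refine ⟨σ, hσ, A, ?_, ?_⟩
    · rw [hA, hM₁, hM₂]
    · refine hcard.trans ?_
      rw [Fintype.card_option]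
      have h1 : Fintype.card {b : List Y // b.length ≤ B + B} = nsh Y (B + B) := by
        rw [nsh, Nat.card_eq_fintype_card]
      rw [h1]
      gcongr
  · rintro (z | z)
    · exact ⟨(hl₁ z).1, Nat.zero_le _⟩
    · exact ⟨Nat.zero_le _, (hl₂ z).2⟩
  on_goal 2 =>
    rintro b hb (z | z)
    · exact hb z
    · exact Nat.zero_le _
  have f1 : ∀ h : List (τ.Z ⊕ ρ.Z), h.flatMap (fun z => z.elim τ.φ (fun _ => [])) =
      (h.flatMap pr₁).flatMap τ.φ := by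
    intro h
    induction h with
    | nil => rfl
    | cons z h ih =>
      rw [List.flatMap_cons, List.flatMap_cons, List.flatMap_append, ih]
      cases z with
      | inl a => simp [pr₁]
      | inr a => simp [pr₁]
  have f2 : ∀ h : List (τ.Z ⊕ ρ.Z), h.flatMap (fun z => z.elim (fun _ => []) ρ.ψ) =
      (h.flatMap pr₂).flatMap ρ.ψ := by
    intro h
    induction h with
    | nil => rfl
    | cons z h ih =>
      rw [List.flatMap_cons, List.flatMap_cons, List.flatMap_append, ih]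
      cases z with
      | inl a => simp [pr₂]
      | inr a => simp [pr₂]
  intro L
  ext w
  constructor
  · rintro ⟨h, ⟨hbuf, hK1, hK2⟩, hL, rfl⟩
    have hbuf' : (bufDFA τ.ψ ρ.φ (B + B)).eval h = some ⟨[], Nat.zero_le _⟩ := hbuf
    have hs := bufDFA_sound τ.ψ ρ.φ (B + B) h _ hbuf'
    rw [List.append_nil] at hs
    refine ⟨h.flatMap pr₂, hK2, ⟨h.flatMap pr₁, hK1, ?_, hs⟩, ?_⟩
    · rw [← f1]
      exact hL
    · exact (f2 h).symm
  · rintro ⟨g₂, hg₂, ⟨g₁, hg₁, hL, hψ⟩, rfl⟩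
    obtain ⟨h, e1, e2, e3⟩ := bufDFA_complete τ.ψ ρ.φ B B hm₁ hm₂ _ g₁ g₂
      ⟨[], Nat.zero_le _⟩ le_rfl (by simpa using hψ)
    refine ⟨h, ⟨e3, ?_, ?_⟩, ?_, ?_⟩
    · change h.flatMap pr₁ ∈ τ.K
      rw [e1]
      exact hg₁
    · change h.flatMap pr₂ ∈ ρ.K
      rw [e2]
      exact hg₂
    · change h.flatMap (fun z => z.elim τ.φ (fun _ => [])) ∈ L
      rw [f1, e1]
      exact hL
    · change h.flatMap (fun z => z.elim (fun _ => []) ρ.ψ) = _
      rw [f2, e2]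

theorem exists_comp [Finite Y] (τ : Transducer X Y) (ρ : Transducer Y W) {m₁ m₂ B : ℕ}
    (h₁ : Sized τ m₁ B) (h₂ : Sized ρ m₂ B) : ∃ κ : Transducer X W,
    Sized κ ((nsh Y (B + B) + 1) * (m₁ * m₂)) B ∧
      ∀ L : Language X, κ.image L = ρ.image (τ.image L) := by
  obtain ⟨κ, h, h', _⟩ := exists_comp_lab τ ρ h₁ h₂
  exact ⟨κ, h, h'⟩

theorem exists_comp' [Finite Y] (τ : Transducer X Y) (ρ : Transducer Y W) :
    ∃ κ : Transducer X W, ∀ L : Language X, κ.image L = ρ.image (τ.image L) := by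
  obtain ⟨m₁, B₁, _, h₁⟩ := exists_sized τ
  obtain ⟨m₂, B₂, _, h₂⟩ := exists_sized ρ
  obtain ⟨κ, _, h⟩ := exists_comp τ ρ (h₁.mono le_rfl (le_max_left B₁ B₂))
    (h₂.mono le_rfl (le_max_right B₁ B₂))
  exact ⟨κ, h⟩

theorem GeqS.trans [Finite Y] {m₁ m₂ B : ℕ} {L : Language X} {M : Language Y} {N : Language W}
    (h₁ : GeqS m₁ B L M) (h₂ : GeqS m₂ B M N) :
    GeqS ((nsh Y (B + B) + 1) * (m₁ * m₂)) B L N := by
  obtain ⟨τ, hτ, rfl⟩ := h₁
  obtain ⟨ρ, hρ, rfl⟩ := h₂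
  obtain ⟨κ, hκ, h⟩ := exists_comp τ ρ hτ hρ
  exact ⟨κ, hκ, h L⟩

end RCone
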