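import Pool.Agent.RCone.Main
import Pool.Agent.RCone.Size

/-! # Joins (helper70, MP_a8de0d_lc) -/

namespace RCone

open Language

variable {X Y W V : Type}

/-- inverse homomorphism -/
def tauComap [Finite W] (f : W → List X) : Transducer X W where
  Z := W
  finZ := inferInstance
  K := ⊤
  regK := top_regular
  φ := f
  ψ := fun z => [z]

theorem flatMap_single (h : List W) : h.flatMap (fun z => [z]) = h := by
  induction h with
  | nil => rfl
  | cons a h ih => simp

theorem tauComap_image [Finite W] (f : W → List X) (L : Language X) :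
    (tauComap f).image L = comapL L f := by
  ext y
  constructor
  · rintro ⟨h, _, h2, h3⟩
    have : h = y := by rw [← h3]; exact (flatMap_single h).symm
    rw [← this]
    exact h2
  · intro hy
    exact ⟨y, trivial, hy, flatMap_single y⟩

theorem Geq.comap [Finite W] (L : Language X) (f : W → List X) : Geq L (comapL L f) :=
  ⟨tauComap f, tauComap_image f L⟩

theorem image_add (τ : Transducer X Y) (A B : Language X) :
    τ.image (A + B) = τ.image A + τ.image B := by
  ext y
  constructor
  · rintro ⟨h, h1, h2 | h2, h3⟩
    · exact Or.inl ⟨h, h1, h2, h3⟩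
    · exact Or.inr ⟨h, h1, h2, h3⟩
  · rintro (⟨h, h1, h2, h3⟩ | ⟨h, h1, h2, h3⟩)
    · exact ⟨h, h1, Or.inl h2, h3⟩
    · exact ⟨h, h1, Or.inr h2, h3⟩

theorem fm1 (u : List X) : (u.map some).flatMap (fun z : Option X => z.toList) = u := by
  induction u with
  | nil => rfl
  | cons a g ih => rw [List.map_cons, List.flatMap_cons, ih]; rfl

theorem fm2 (u : List X) : (u.map some).flatMap
    (fun z : Option X => [z.map (Sum.inl : X → X ⊕ Y)]) = u.map (fun a => some (Sum.inl a)) := by
  induction u with
  | nil => rfl
  | cons a g ih => rw [List.map_cons, List.flatMap_cons, ih]; rfl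

theorem fm3 (u : List Y) : u.flatMap (fun z : Y => [(some (Sum.inr z) : Option (X ⊕ Y))])
    = u.map (fun a => some (Sum.inr a)) := by
  induction u with
  | nil => rfl
  | cons a g ih => rw [List.flatMap_cons, ih]; rfl

/-- left part of the join: `u` is sent to a marker followed by a copy of `u` -/
def tauL (X Y : Type) [Finite X] : Transducer X (Option (X ⊕ Y)) where
  Z := Option X
  finZ := inferInstance
  K := oneL (fun z => z = none) * allL (fun z => z.isSome)
  regK := mul_regular (oneL_regular _) (allL_regular _)
  φ := fun z => z.toList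
  ψ := fun z => [z.map Sum.inl]

/-- right part of the join -/
def tauRt (X Y : Type) [Finite Y] : Transducer Y (Option (X ⊕ Y)) where
  Z := Y
  finZ := inferInstance
  K := ⊤
  regK := top_regular
  φ := fun z => [z]
  ψ := fun z => [some (Sum.inr z)]

theorem form_L {h : List (Option X)} : h ∈ (oneL (fun z : Option X => z = none) *
    allL (fun z : Option X => z.isSome) : Language (Option X)) ↔
    ∃ u : List X, h = none :: u.map some := by
  constructor
  · intro hh
    rw [Language.mem_mul] at hh
    obtain ⟨a, ⟨z, rfl, rfl⟩, b, hb, rfl⟩ := hh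
    have key : ∀ b : List (Option X), (∀ z ∈ b, z.isSome) → ∃ g : List X, b = g.map some := by
      intro h hh
      induction h with
      | nil => exact ⟨[], rfl⟩
      | cons z h ih =>
        obtain ⟨g, hg⟩ := ih (fun z hz => hh z (List.mem_cons_of_mem _ hz))
        cases z with
        | some a => exact ⟨a :: g, by simp [hg]⟩
        | none => exact absurd (hh _ List.mem_cons_self) (by simp)
    obtain ⟨g, rfl⟩ := key b hb
    exact ⟨g, rfl⟩
  · rintro ⟨u, rfl⟩
    rw [Language.mem_mul]
    refine ⟨[none], ⟨none, rfl, rfl⟩, u.map some, ?_, rfl⟩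
    intro z hz
    obtain ⟨a, _, rfl⟩ := List.mem_map.mp hz
    rfl

theorem mem_tauL [Finite X] {L : Language X} {w : List (Option (X ⊕ Y))} :
    w ∈ (tauL X Y).image L ↔ ∃ u ∈ L, w = none :: u.map (fun a => some (Sum.inl a)) := by
  constructor
  · rintro ⟨h, h1, h2, h3⟩
    obtain ⟨u, rfl⟩ := form_L.mp h1
    refine ⟨u, ?_, ?_⟩
    · have : (none :: u.map some).flatMap (fun z : Option X => z.toList) ∈ L := h2
      rw [List.flatMap_cons, fm1] at this
      exact this
    · rw [← h3]
      change (none :: u.map some).flatMap (fun z : Option X => [z.map (Sum.inl : X → X ⊕ Y)]) = _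
      rw [List.flatMap_cons, fm2]
      rfl
  · rintro ⟨u, hu, rfl⟩
    refine ⟨none :: u.map some, form_L.mpr ⟨u, rfl⟩, ?_, ?_⟩
    · change (none :: u.map some).flatMap (fun z : Option X => z.toList) ∈ L
      rw [List.flatMap_cons, fm1]
      exact hu
    · change (none :: u.map some).flatMap (fun z : Option X => [z.map (Sum.inl : X → X ⊕ Y)]) = _
      rw [List.flatMap_cons, fm2]
      rfl

theorem mem_tauRt [Finite Y] {M : Language Y} {w : List (Option (X ⊕ Y))} :
    w ∈ (tauRt X Y).image M ↔ ∃ v ∈ M, w = v.map (fun b => some (Sum.inr b)) := by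
  constructor
  · rintro ⟨h, _, h2, h3⟩
    have : h.flatMap (fun z : Y => [z]) ∈ M := h2
    rw [flatMap_single] at this
    exact ⟨h, this, by rw [← h3]; exact fm3 h⟩
  · rintro ⟨v, hv, rfl⟩
    refine ⟨v, trivial, ?_, fm3 v⟩
    change v.flatMap (fun z : Y => [z]) ∈ M
    rw [flatMap_single]
    exact hv

/-- disjoint union of two languages, the least upper bound in the rational order -/
def join (L : Language X) (M : Language Y) : Language (Option (X ⊕ Y)) :=
  {w | (∃ u ∈ L, w = none :: u.map (fun a => some (Sum.inl a))) ∨
    ∃ v ∈ M, w = v.map (fun b => some (Sum.inr b))}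

theorem join_eq [Finite X] [Finite Y] (L : Language X) (M : Language Y) :
    join L M = (tauL X Y).image L + (tauRt X Y).image M := by
  ext w
  rw [Language.mem_add, mem_tauL, mem_tauRt]
  rfl

theorem Geq.join [Finite X] [Finite Y] {K : Language W} {L : Language X} {M : Language Y}
    (hL : Geq K L) (hM : Geq K M) : Geq K (join L M) := by
  rw [join_eq]
  exact (hL.trans ⟨tauL X Y, rfl⟩).union (hM.trans ⟨tauRt X Y, rfl⟩)

theorem join_left [Finite X] (L : Language X) (M : Language Y) : Geq (join L M) L := by
  refine ⟨(tauL X Y).inv, ?_⟩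
  ext x
  constructor
  · rintro ⟨h, h1, h2, h3⟩
    have h4 : h.flatMap (tauL X Y).ψ ∈ join L M := h2
    have h5 : h.flatMap (tauL X Y).φ = x := h3
    obtain ⟨u, rfl⟩ := form_L.mp h1
    have h6 : (none :: u.map some).flatMap (tauL X Y).φ = u := by
      change (none :: u.map some).flatMap (fun z : Option X => z.toList) = u
      rw [List.flatMap_cons, fm1]
      rfl
    have h7 : (none :: u.map some).flatMap (tauL X Y).ψ =
        none :: u.map (fun a => some (Sum.inl a)) := by
      change (none :: u.map some).flatMap (fun z : Option X => [z.map (Sum.inl : X → X ⊕ Y)]) = _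
      rw [List.flatMap_cons, fm2]
      rfl
    rw [h6] at h5
    rw [h7] at h4
    rcases h4 with ⟨u', hu', he⟩ | ⟨v, _, he⟩
    · have h8 := (List.cons.inj he).2
      have h9 : u = u' := by
        have hinj : Function.Injective (fun a : X => (some (Sum.inl a) : Option (X ⊕ Y))) := by
          intro a b hab
          exact Sum.inl_injective (Option.some_injective _ hab)
        exact List.map_injective_iff.mpr hinj h8
      rw [← h5, h9]
      exact hu'
    · exfalso
      cases v with
      | nil => simp at he
      | cons b v => simp at he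
  · intro hx
    have h1 : none :: x.map (fun a => some (Sum.inl a)) ∈ (tauL X Y).image L :=
      mem_tauL.mpr ⟨x, hx, rfl⟩
    obtain ⟨h, hK, hL, he⟩ := h1
    refine ⟨h, hK, ?_, ?_⟩
    · change h.flatMap (tauL X Y).ψ ∈ join L M
      rw [he]
      exact Or.inl ⟨x, hx, rfl⟩
    · change h.flatMap (tauL X Y).φ = x
      obtain ⟨u, rfl⟩ := form_L.mp hK
      have h6 : (none :: u.map some).flatMap (tauL X Y).φ = u := by
        change (none :: u.map some).flatMap (fun z : Option X => z.toList) = u
        rw [List.flatMap_cons, fm1]
        rfl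
      have h7 : (none :: u.map some).flatMap (tauL X Y).ψ =
          none :: u.map (fun a => some (Sum.inl a)) := by
        change (none :: u.map some).flatMap (fun z : Option X => [z.map (Sum.inl : X → X ⊕ Y)]) = _
        rw [List.flatMap_cons, fm2]
        rfl
      rw [h7] at he
      rw [h6]
      have hinj : Function.Injective (fun a : X => (some (Sum.inl a) : Option (X ⊕ Y))) := by
        intro a b hab
        exact Sum.inl_injective (Option.some_injective _ hab)
      exact List.map_injective_iff.mpr hinj (List.cons.inj he).2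

theorem join_right [Finite Y] (L : Language X) (M : Language Y) : Geq (join L M) M := by
  have h0 : comapL (join L M) (fun z : Y => [(some (Sum.inr z) : Option (X ⊕ Y))]) = M := by
    ext y
    rw [mem_comapL, fm3]
    constructor
    · rintro (⟨u, _, he⟩ | ⟨v, hv, he⟩)
      · exfalso
        cases y with
        | nil => simp at he
        | cons b v => simp at he
      · have hinj : Function.Injective (fun a : Y => (some (Sum.inr a) : Option (X ⊕ Y))) := by
          intro a b hab
          exact Sum.inr_injective (Option.some_injective _ hab)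
        rw [List.map_injective_iff.mpr hinj he]
        exact hv
    · intro hy
      exact Or.inr ⟨y, hy, rfl⟩
  have := Geq.comap (join L M) (fun z : Y => [(some (Sum.inr z) : Option (X ⊕ Y))])
  rw [h0] at this
  exact this

theorem join_elim [Finite X] [Finite Y] {L : Language X} {M : Language Y} {N : Language V}
    (h : Geq (join L M) N) : ∃ (τ₁ : Transducer X V) (τ₂ : Transducer Y V),
      N = τ₁.image L + τ₂.image M := by
  obtain ⟨τ, rfl⟩ := h
  obtain ⟨κ₁, h₁⟩ := exists_comp' (tauL X Y) τ
  obtain ⟨κ₂, h₂⟩ := exists_comp' (tauRt X Y) τ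
  refine ⟨κ₁, κ₂, ?_⟩
  rw [join_eq, image_add, h₁, h₂]

end RCone
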