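import Pool.Agent.RCone.Comp
import Pool.Agent.RCone.Clock

/-! # The languages `H A` and Goldstine's language (helper70, MP_a8de0d_lc) -/

namespace RCone

open Language

/-- the word `a^(n_1) b a^(n_2) b ... a^(n_p) b`, where `a = false`, `b = true` -/
def enc (ns : List ℕ) : List Bool := ns.flatMap fun n => List.replicate n false ++ [true]

/-- Goldstine's language: all `a^(n_1) b ... a^(n_p) b` with `n_j ≠ j` for some `j`. -/
def goldstine : Language Bool := {w | ∃ ns : List ℕ, w = enc ns ∧ ns ≠ List.range' 1 ns.length}

theorem enc_cons (n : ℕ) (ns : List ℕ) :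
    enc (n :: ns) = List.replicate n false ++ true :: enc ns := by simp [enc]

theorem enc_append (ns ms : List ℕ) : enc (ns ++ ms) = enc ns ++ enc ms := by simp [enc]

theorem enc_injective : Function.Injective enc := by
  intro ns
  induction ns with
  | nil =>
    intro ms h
    cases ms with
    | nil => rfl
    | cons m ms => rw [enc_cons] at h; exact absurd h (by simp [enc])
  | cons n ns ih =>
    intro ms h
    cases ms with
    | nil => rw [enc_cons] at h; exact absurd h (by simp [enc])
    | cons m ms =>
      rw [enc_cons, enc_cons] at h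
      have hnm : n = m := by
        by_contra hne
        rcases lt_or_gt_of_ne hne with hlt | hlt
        · have h1 := congrArg (fun l : List Bool => l[n]?) h
          beta_reduce at h1
          rw [List.getElem?_append_right (by simp), List.getElem?_append_left (by simpa using hlt)]
            at h1
          simp [List.getElem?_replicate, hlt] at h1
        · have h1 := congrArg (fun l : List Bool => l[m]?) h
          beta_reduce at h1
          rw [List.getElem?_append_right (l₁ := List.replicate m false) (by simp),
            List.getElem?_append_left (by simpa using hlt)] at h1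
          simp [List.getElem?_replicate, hlt] at h1
      subst hnm
      have h2 := List.append_cancel_left h
      rw [ih (List.cons.inj h2).2]

theorem mem_goldstine_enc (ns : List ℕ) : enc ns ∈ goldstine ↔ ns ≠ List.range' 1 ns.length := by
  constructor
  · rintro ⟨ms, h1, h2⟩
    rw [enc_injective h1]
    exact h2
  · intro h
    exact ⟨ns, rfl, h⟩

theorem exists_enc (w : List Bool) : ∃ ns k, w = enc ns ++ List.replicate k false := by
  induction w using List.reverseRecOn with
  | nil => exact ⟨[], 0, rfl⟩
  | append_singleton w b ih =>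
    obtain ⟨ns, k, rfl⟩ := ih
    cases b with
    | false =>
      refine ⟨ns, k + 1, ?_⟩
      rw [List.replicate_succ']
      simp
    | true =>
      refine ⟨ns ++ [k], 0, ?_⟩
      rw [enc_append, enc_cons]
      simp [enc]

/-- symbols: `none` is the unit, `some l` a terminator with label `l` -/
abbrev Sym := Option (Fin 3)

section generic

variable {α : Type}

/-- labelled ruler starting with a block of length `n` -/
def rulF : ℕ → List α → List (Option α)
  | _, [] => []
  | n, l :: z => List.replicate n none ++ some l :: rulF (n + 1) z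

theorem rulF_append (n : ℕ) (z z' : List α) :
    rulF n (z ++ z') = rulF n z ++ rulF (n + z.length) z' := by
  induction z generalizing n with
  | nil => simp [rulF]
  | cons a z ih =>
    rw [List.cons_append, rulF, rulF, ih]
    simp only [List.append_assoc, List.cons_append, List.length_cons]
    congr 4
    ring

/-- labelled ruler: a block of length `i` before the label number `i` -/
def rul (z : List α) : List (Option α) := rulF 1 z

/-- labels of a word -/
def lab (y : List (Option α)) : List α := y.filterMap id

theorem lab_append (y y' : List (Option α)) : lab (y ++ y') = lab y ++ lab y' := by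
  simp [lab]

theorem lab_replicate (n : ℕ) : lab (List.replicate n (none : Option α)) = [] := by
  induction n with
  | zero => rfl
  | succ n ih => rw [List.replicate_succ]; simpa [lab] using ih

theorem lab_rulF (n : ℕ) (z : List α) : lab (rulF n z) = z := by
  induction z generalizing n with
  | nil => rfl
  | cons a z ih =>
    rw [rulF, lab_append, lab_replicate]
    have : lab (some a :: rulF (n + 1) z) = a :: lab (rulF (n + 1) z) := by simp [lab]
    rw [this, ih]
    rfl

theorem mem_lab {x : α} {y : List (Option α)} : x ∈ lab y ↔ some x ∈ y := by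
  simp [lab, List.mem_filterMap]

theorem map_rulF (n : ℕ) (z : List α) :
    (rulF n z).map Option.isSome = enc (List.range' n z.length) := by
  induction z generalizing n with
  | nil => rfl
  | cons a z ih =>
    rw [rulF, List.length_cons, List.range'_succ, enc_cons, List.map_append, List.map_cons, ih]
    simp

theorem eq_rulF (n k : ℕ) (y : List (Option α))
    (h : y.map Option.isSome = enc (List.range' n k)) : y = rulF n (lab y) := by
  induction k generalizing n y with
  | zero =>
    have : y = [] := by simpa [enc] using h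
    rw [this]
    rfl
  | succ k ih =>
    rw [List.range'_succ, enc_cons] at h
    obtain ⟨y₁, y₂, rfl, h1, h2⟩ := List.map_eq_append_iff.mp h
    have h3 : y₁ = List.replicate n none := by
      have hl : y₁.length = n := by
        have := congrArg List.length h1
        simpa using this
      rw [List.eq_replicate_iff]
      refine ⟨hl, ?_⟩
      intro g hg
      have h4 : g.isSome ∈ y₁.map Option.isSome := List.mem_map_of_mem hg
      rw [h1, List.mem_replicate] at h4
      cases g with
      | none => rfl
      | some x => simp at h4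
    obtain ⟨g, y₃, rfl, h4, h5⟩ := List.map_eq_cons_iff.mp h2
    cases g with
    | none => simp at h4
    | some x =>
      rw [h3, lab_append, lab_replicate]
      have : lab (some x :: y₃) = x :: lab y₃ := by simp [lab]
      rw [this, List.nil_append, rulF, ← ih (n + 1) y₃ h5]

theorem rulF_decomp {n : ℕ} {z : List α} {y₀ rest : List (Option α)} {l : α}
    (h : rulF n z = y₀ ++ some l :: rest) : ∃ z₀ z₁, z = z₀ ++ l :: z₁ ∧
      y₀ = rulF n z₀ ++ List.replicate (n + z₀.length) none ∧
      rest = rulF (n + z₀.length + 1) z₁ := by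
  induction z generalizing n y₀ with
  | nil => exact absurd h (by simp [rulF])
  | cons a z ih =>
    rw [rulF] at h
    have caseA : y₀ = List.replicate n none → some a :: rulF (n + 1) z = some l :: rest →
        ∃ z₀ z₁, a :: z = z₀ ++ l :: z₁ ∧
        y₀ = rulF n z₀ ++ List.replicate (n + z₀.length) none ∧
        rest = rulF (n + z₀.length + 1) z₁ := by
      intro h1 h2
      obtain ⟨h3, h4⟩ := List.cons.inj h2
      have h5 : a = l := Option.some.inj h3
      subst h5
      exact ⟨[], z, rfl, by rw [h1]; simp [rulF], by rw [← h4]; simp⟩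
    rcases List.append_eq_append_iff.mp h with ⟨c, h1, h2⟩ | ⟨c, h1, h2⟩
    · cases c with
      | nil => exact caseA (by simpa using h1) (by simpa using h2)
      | cons g c =>
        obtain ⟨h3, h4⟩ := List.cons.inj h2
        obtain ⟨z₀, z₁, e1, e2, e3⟩ := ih h4
        refine ⟨a :: z₀, z₁, by rw [e1]; rfl, ?_, ?_⟩
        · rw [h1, ← h3, e2, rulF]
          simp only [List.append_assoc, List.cons_append, List.length_cons]
          congr 4
          ring
        · rw [e3, List.length_cons]
          congr 1
          ring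
    · cases c with
      | nil => exact caseA (by simpa using h1.symm) (by simpa using h2.symm)
      | cons g c =>
        exfalso
        obtain ⟨h3, h4⟩ := List.cons.inj h2
        have h5 : g ∈ List.replicate n (none : Option α) := by rw [h1]; simp
        rw [List.mem_replicate] at h5
        rw [h5.2] at h3
        exact absurd h3 (by simp)

end generic

/-- number of labels in `y` counted by check `t` -/
def cnt (t : ℕ) (y : List Sym) : ℕ := (lab y).countP fun x => decide (t ≤ x.val + 1)

/-- the word tested by check `t` -/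
def testW (t : ℕ) (y₀ y₁ : List Sym) : List Bool :=
  y₀.map Option.isSome ++ true :: (List.replicate (cnt t y₁) false ++ [false, false, true])

/-- homomorphism of check `t` -/
def phi (t : ℕ) (z : Fin 3 × Sym) : List Bool :=
  if z.1 = 0 then [z.2.isSome]
  else if z.1 = 1 then
    match z.2 with
    | none => []
    | some x => if t ≤ x.val then [false, false, true] else if t ≤ x.val + 1 then [false] else []
  else []

def lowL (t : ℕ) (g : Sym) : Prop := ∀ x : Fin 3, g = some x → x.val < t
def highL (t : ℕ) (g : Sym) : Prop := ∃ x : Fin 3, g = some x ∧ t ≤ x.val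

/-- control language of check `t` -/
def KL (t : ℕ) : Language (Fin 3 × Sym) :=
  allL (fun z => z.1 = 0) * (oneL (fun z => z.1 = 0 ∧ highL t z.2) *
    (allL (fun z => z.1 = 1 ∧ lowL t z.2) * (oneL (fun z => z.1 = 1 ∧ highL t z.2) *
      allL (fun z => z.1 = 2))))

def tauT (t : ℕ) : Transducer Bool Sym where
  Z := Fin 3 × Sym
  finZ := inferInstance
  K := KL t
  regK := mul_regular (allL_regular _) (mul_regular (oneL_regular _)
    (mul_regular (allL_regular _) (mul_regular (oneL_regular _) (allL_regular _))))
  φ := phi t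
  ψ := fun z => [z.2]

theorem all_form (p : Fin 3) (h : List (Fin 3 × Sym)) (hh : ∀ z ∈ h, z.1 = p) :
    ∃ y : List Sym, h = y.map (fun g => (p, g)) := by
  induction h with
  | nil => exact ⟨[], rfl⟩
  | cons z h ih =>
    obtain ⟨y, hy⟩ := ih fun w hw => hh w (List.mem_cons_of_mem _ hw)
    refine ⟨z.2 :: y, ?_⟩
    rw [List.map_cons, ← hy]
    congr 1
    exact Prod.ext (hh z List.mem_cons_self) rfl

theorem flat_snd (p : Fin 3) (y : List Sym) :
    (y.map fun g => (p, g)).flatMap (fun z : Fin 3 × Sym => [z.2]) = y := by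
  induction y with
  | nil => rfl
  | cons a y ih => rw [List.map_cons, List.flatMap_cons, ih]; rfl

theorem flat_phi0 (t : ℕ) (y : List Sym) :
    (y.map fun g => ((0 : Fin 3), g)).flatMap (phi t) = y.map Option.isSome := by
  induction y with
  | nil => rfl
  | cons a y ih => rw [List.map_cons, List.flatMap_cons, ih]; simp [phi]

theorem flat_phi2 (t : ℕ) (y : List Sym) :
    (y.map fun g => ((2 : Fin 3), g)).flatMap (phi t) = [] := by
  induction y with
  | nil => rfl
  | cons a y ih => rw [List.map_cons, List.flatMap_cons, ih]; simp [phi]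

theorem flat_phi1 (t : ℕ) (y : List Sym) (hy : ∀ g ∈ y, lowL t g) :
    (y.map fun g => ((1 : Fin 3), g)).flatMap (phi t) = List.replicate (cnt t y) false := by
  induction y with
  | nil => rfl
  | cons a y ih =>
    rw [List.map_cons, List.flatMap_cons, ih fun g hg => hy g (List.mem_cons_of_mem _ hg)]
    cases a with
    | none => simp [phi, cnt, lab]
    | some x =>
      have hx : x.val < t := hy _ List.mem_cons_self x rfl
      have hx' : ¬ t ≤ x.val := by omega
      have hl : lab (some x :: y) = x :: lab y := by simp [lab]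
      by_cases h : t ≤ x.val + 1
      · have : cnt t (some x :: y) = cnt t y + 1 := by
          rw [cnt, hl, List.countP_cons_of_pos (by simpa using h)]
          rfl
        rw [this, List.replicate_succ]
        simp [phi, hx', h]
      · have : cnt t (some x :: y) = cnt t y := by
          rw [cnt, hl, List.countP_cons_of_neg (by simpa using h)]
          rfl
        rw [this]
        simp [phi, hx', h]

theorem phi_high (t : ℕ) (x : Fin 3) (hx : t ≤ x.val) :
    phi t (1, some x) = [false, false, true] := by
  simp [phi, hx]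

/-- the word of the control language -/
def ctl (y₀ : List Sym) (l : Fin 3) (y₁ : List Sym) (l' : Fin 3) (y₂ : List Sym) :
    List (Fin 3 × Sym) :=
  (y₀.map fun g => (0, g)) ++ ([(0, some l)] ++ ((y₁.map fun g => (1, g)) ++
      ([(1, some l')] ++ (y₂.map fun g => (2, g)))))

theorem ctl_snd (y₀ : List Sym) (l : Fin 3) (y₁ : List Sym) (l' : Fin 3) (y₂ : List Sym) :
    (ctl y₀ l y₁ l' y₂).flatMap (fun z : Fin 3 × Sym => [z.2]) =
      y₀ ++ some l :: (y₁ ++ some l' :: y₂) := by
  rw [ctl, List.flatMap_append, List.flatMap_append, List.flatMap_append, List.flatMap_append,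
        flat_snd, flat_snd, flat_snd]
  simp

theorem ctl_phi (t : ℕ) (y₀ : List Sym) (l : Fin 3) (y₁ : List Sym) (l' : Fin 3) (y₂ : List Sym)
    (hlow : ∀ g ∈ y₁, lowL t g) (hl' : t ≤ l'.val) :
    (ctl y₀ l y₁ l' y₂).flatMap (phi t) = testW t y₀ y₁ := by
  rw [ctl, List.flatMap_append, List.flatMap_append, List.flatMap_append, List.flatMap_append,
        flat_phi0, flat_phi1 t _ hlow, flat_phi2]
  simp only [List.flatMap_cons, List.flatMap_nil, List.append_nil, phi_high t l' hl']
  have f5 : phi t (0, some l) = [true] := by simp [phi]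
  rw [f5]
  rfl

theorem mem_KL {t : ℕ} {h : List (Fin 3 × Sym)} : h ∈ KL t ↔ ∃ y₀ l y₁ l' y₂,
    h = ctl y₀ l y₁ l' y₂ ∧ t ≤ l.val ∧ t ≤ l'.val ∧ ∀ g ∈ y₁, lowL t g := by
  constructor
  · intro hK
    obtain ⟨a0, ha0, b0, hb0, rfl⟩ := Language.mem_mul.mp hK
    obtain ⟨a1, ⟨z1, ⟨hz1, x1, hx1, hx1'⟩, rfl⟩, b1, hb1, rfl⟩ := Language.mem_mul.mp hb0
    obtain ⟨a2, ha2, b2, hb2, rfl⟩ := Language.mem_mul.mp hb1
    obtain ⟨a3, ⟨z3, ⟨hz3, x3, hx3, hx3'⟩, rfl⟩, a4, ha4, rfl⟩ := Language.mem_mul.mp hb2
    obtain ⟨y0, rfl⟩ := all_form 0 a0 ha0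
    obtain ⟨y1, rfl⟩ := all_form 1 a2 fun z hz => (ha2 z hz).1
    obtain ⟨y2, rfl⟩ := all_form 2 a4 ha4
    have f1 : z1 = (0, some x1) := Prod.ext hz1 hx1
    have f3 : z3 = (1, some x3) := Prod.ext hz3 hx3
    subst f1 f3
    refine ⟨y0, x1, y1, x3, y2, rfl, hx1', hx3', ?_⟩
    intro g hg
    exact (ha2 (1, g) (List.mem_map_of_mem hg)).2
  · rintro ⟨y₀, l, y₁, l', y₂, rfl, hl, hl', hlow⟩
    refine Language.append_mem_mul ?_ (Language.append_mem_mul ?_ (Language.append_mem_mul ?_
        (Language.append_mem_mul ?_ ?_)))
    · intro z hz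
      obtain ⟨g, _, rfl⟩ := List.mem_map.mp hz
      rfl
    · exact ⟨_, ⟨rfl, l, rfl, hl⟩, rfl⟩
    · intro z hz
      obtain ⟨g, hg, rfl⟩ := List.mem_map.mp hz
      exact ⟨rfl, hlow g hg⟩
    · exact ⟨_, ⟨rfl, l', rfl, hl'⟩, rfl⟩
    · intro z hz
      obtain ⟨g, _, rfl⟩ := List.mem_map.mp hz
      rfl

theorem mem_tauT {t : ℕ} {L : Language Bool} {y : List Sym} : y ∈ (tauT t).image L ↔
    ∃ y₀ l y₁ l' y₂, y = y₀ ++ some l :: (y₁ ++ some l' :: y₂) ∧ t ≤ l.val ∧ t ≤ l'.val ∧
      (∀ g ∈ y₁, lowL t g) ∧ testW t y₀ y₁ ∈ L := by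
  constructor
  · rintro ⟨h, hK, hL, rfl⟩
    obtain ⟨y₀, l, y₁, l', y₂, rfl, hl, hl', hlow⟩ := mem_KL.mp hK
    refine ⟨y₀, l, y₁, l', y₂, ctl_snd _ _ _ _ _, hl, hl', hlow, ?_⟩
    have h1 : (ctl y₀ l y₁ l' y₂).flatMap (phi t) ∈ L := hL
    rw [ctl_phi t _ _ _ _ _ hlow hl'] at h1
    exact h1
  · rintro ⟨y₀, l, y₁, l', y₂, rfl, hl, hl', hlow, hW⟩
    refine ⟨ctl y₀ l y₁ l' y₂, mem_KL.mpr ⟨_, _, _, _, _, rfl, hl, hl', hlow⟩, ?_,
      ctl_snd _ _ _ _ _⟩
    rw [← ctl_phi t _ l _ l' y₂ hlow hl'] at hW
    exact hW

/-- the ruler test -/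
def tauR : Transducer Bool Sym where
  Z := Sym
  finZ := inferInstance
  K := ⊤
  regK := top_regular
  φ := fun g => [g.isSome]
  ψ := fun g => [g]

theorem mem_tauR {L : Language Bool} {y : List Sym} :
    y ∈ tauR.image L ↔ y.map Option.isSome ∈ L := by
  have f1 : ∀ h : List Sym, h.flatMap (fun g => [g.isSome]) = h.map Option.isSome := by
    intro h
    induction h with
    | nil => rfl
    | cons a h ih => rw [List.flatMap_cons, ih]; rfl
  have f2 : ∀ h : List Sym, h.flatMap (fun g => [g]) = h := by
    intro h
    induction h with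
    | nil => rfl
    | cons a h ih => rw [List.flatMap_cons, ih]; rfl
  constructor
  · rintro ⟨h, _, hL, rfl⟩
    have h1 : List.flatMap (fun g : Sym => [g.isSome]) (h : List Sym) ∈ L := hL
    have h2 : List.flatMap (fun g : Sym => [g]) (h : List Sym) = h := f2 h
    have h3 : List.flatMap tauR.ψ h = (h : List Sym) := h2
    rw [h3]
    rw [f1] at h1
    exact h1
  · intro h
    refine ⟨y, trivial, ?_, f2 y⟩
    change y.flatMap (fun g : Sym => [g.isSome]) ∈ L
    rw [f1]
    exact h

theorem testW_rul (t : ℕ) (z₀ z₁ : List (Fin 3)) (n : ℕ) :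
    testW t (rulF 1 z₀ ++ List.replicate (1 + z₀.length) none)
      (rulF n z₁ ++ List.replicate (n + z₁.length) none) ∈ goldstine ↔
    z₁.countP (fun x => decide (t ≤ x.val + 1)) ≠ z₀.length := by
  have h1 : cnt t (rulF n z₁ ++ List.replicate (n + z₁.length) none) =
      z₁.countP (fun x => decide (t ≤ x.val + 1)) := by
    rw [cnt, lab_append, lab_replicate, lab_rulF, List.append_nil]
  have h2 : testW t (rulF 1 z₀ ++ List.replicate (1 + z₀.length) none)
      (rulF n z₁ ++ List.replicate (n + z₁.length) none) =
      enc (List.range' 1 (z₀.length + 1) ++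
        [z₁.countP (fun x => decide (t ≤ x.val + 1)) + 2]) := by
    rw [testW, h1, enc_append, List.range'_concat, enc_append, List.map_append, map_rulF,
      enc_cons, enc_cons]
    simp [enc, List.replicate_add]
  rw [h2, mem_goldstine_enc]
  have h3 : (List.range' 1 (z₀.length + 1) ++
        [z₁.countP (fun x => decide (t ≤ x.val + 1)) + 2]).length = z₀.length + 1 + 1 := by simp
  rw [h3, List.range'_concat (n := z₀.length + 1)]
  constructor
  · intro h hc
    apply h
    rw [hc]
    congr 2
    ring
  · intro h hc
    apply h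
    have h4 := List.append_cancel_left hc
    have h5 := (List.cons.inj h4).1
    omega

/-- a labelled ruler passes check `t` iff its label word does -/
theorem rul_mem_tauT (t : ℕ) (z : List (Fin 3)) :
    rul z ∈ (tauT t).image goldstine ↔ ¬ Chk t z := by
  rw [mem_tauT]
  constructor
  · rintro ⟨y₀, l, y₁, l', y₂, h, hl, hl', hlow, hW⟩ hC
    obtain ⟨z₀, z', e1, e2, e3⟩ := rulF_decomp (n := 1) h
    obtain ⟨z₁, z₂, e4, e5, e6⟩ := rulF_decomp e3.symm
    subst e1 e4
    rw [e2, e5, testW_rul] at hW
    apply hW
    apply hC z₀ l z₁ l' z₂ rfl hl hl'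
    intro x hx
    have h1 : some x ∈ y₁ := by
      rw [← mem_lab, e5, lab_append, lab_rulF, lab_replicate, List.append_nil]
      exact hx
    exact hlow _ h1 x rfl
  · intro hC
    unfold Chk at hC
    push Not at hC
    obtain ⟨z₀, l, z₁, l', z₂, rfl, hl, hl', hz₁, hne⟩ := hC
    refine ⟨rulF 1 z₀ ++ List.replicate (1 + z₀.length) none, l,
      rulF (1 + z₀.length + 1) z₁ ++ List.replicate (1 + z₀.length + 1 + z₁.length) none, l',
      rulF (1 + z₀.length + 1 + z₁.length + 1) z₂, ?_, hl, hl', ?_, ?_⟩
    · rw [rul, rulF_append, rulF, rulF_append, rulF]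
      simp
    · intro g hg x hx
      subst hx
      have h1 := mem_lab.mpr hg
      rw [lab_append, lab_rulF, lab_replicate, List.append_nil] at h1
      exact hz₁ x h1
    · rw [testW_rul]
      exact hne

end RCone
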