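import Pool.Agent.RCone.Crit

/-! # The linear criterion (helper70, MP_a8de0d_lc) -/

namespace RCone

open Language

variable {X Y W V : Type}

/-- below the clocked payload: the truncations have linear cost -/
theorem case_below [Finite X] [Finite Y] {L₁ : Language X} {L₂ : Language Y} {A : Set ℕ}
    (h : Geq L₂ (padL L₁ A)) : ∃ C, ∀ a ∈ A,
      GeqS (C * (T (2 * a) + 1)) C L₂ (trunc L₁ (T (2 * a))) := by
  obtain ⟨m, B, hB, hS⟩ := h.exists_sized
  refine ⟨max B ((nsh (PC X) (B + B) + 1) * m * 2), fun a ha => ?_⟩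
  have h1 := trunc_of_padL L₁ (rul_zz_not_mem ha)
  have h2 := hS.trans (h1.mono le_rfl hB)
  refine h2.mono ?_ (le_max_left _ _)
  have h3 : (rul (zz (2 * a))).length = T (2 * a) := rfl
  rw [h3]
  calc (nsh (PC X) (B + B) + 1) * (m * (T (2 * a) + 2))
      ≤ (nsh (PC X) (B + B) + 1) * (m * (2 * (T (2 * a) + 1))) := by
        gcongr
        omega
    _ = ((nsh (PC X) (B + B) + 1) * m * 2) * (T (2 * a) + 1) := by ring
    _ ≤ _ := Nat.mul_le_mul_right _ (le_max_right _ _)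

theorem excL_large (L : Language X) (A : Set ℕ) {b : ℕ} (w : List (PC X))
    (hw : T (2 * (b - 1)) < w.length) : w ∈ excL L A b := by
  rintro ⟨a, _, hab, h1, _⟩
  have h2 := congrArg List.length h1
  rw [List.length_map] at h2
  have h3 : w.length = T (2 * a) := h2
  have h4 := T_mono.monotone (show 2 * a ≤ 2 * (b - 1) by omega)
  omega

/-- above the join with the clocked payload: agreement at a very small cost -/
theorem case_above [Finite X] [Finite Y] {L₁ : Language X} {L₂ : Language Y} {x₀ : List Y}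
    (hx : x₀ ∈ L₂) {A : Set ℕ} (h : Geq (join L₂ (padL L₁ A)) L₁) (k : ℕ) :
    ∃ C N₀, ∀ b, N₀ ≤ b → b ∉ A → ∃ m, m ^ k ≤ C * (T (2 * b) + 1) ∧
      ∃ τ : Transducer Y X, Sized τ m C ∧
        ∀ x : List X, x.length ≤ T (2 * b) → (x ∈ τ.image L₂ ↔ x ∈ L₁) := by
  obtain ⟨τ, hτ⟩ := h
  obtain ⟨m₀, B₀, hB₀, hs⟩ := exists_sized τ
  obtain ⟨κ₂, hκ₂⟩ := exists_comp' (tauRt Y (PC X)) τ
  obtain ⟨N₁, hN₁⟩ := exc_pump κ₂ L₁ A
  set q := Nat.card (PC X) with hq
  obtain ⟨N₂, hN₂⟩ := growth ((q + 1) * k)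
  set B := max B₀ (x₀.length + 1) with hB
  set K := (nsh (Option (Y ⊕ PC X)) (B + B) + 1) * m₀ * 5 with hK
  refine ⟨max (K ^ k) B, max N₁ (N₂ + 1), fun b hb hbA => ?_⟩
  obtain ⟨σ, hσ, M, hM, hcard⟩ := exists_dfa_large (T (2 * (b - 1)))
    (fun w hw => excL_large L₁ A (b := b) w hw)
  have h1 : GeqS (Fintype.card σ + 3) (x₀.length + 1) L₂ (join L₂ M.accepts) := geqS_join hx M
  obtain ⟨ρ, hρ, hρi⟩ := h1
  obtain ⟨κ, hκ, hκi⟩ := exists_comp ρ τ (hρ.mono le_rfl (le_max_right B₀ _))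
    (hs.mono le_rfl (le_max_left B₀ (x₀.length + 1)))
  refine ⟨(nsh (Option (Y ⊕ PC X)) (B + B) + 1) * ((Fintype.card σ + 3) * m₀), ?_, κ,
    hκ.mono le_rfl (le_max_right _ _), ?_⟩
  · -- the size
    have h2 : Fintype.card σ + 3 ≤ 5 * 2 ^ ((q + 1) * (T (2 * (b - 1)) + 2)) := by
      have h3 : nsh (PC X) (T (2 * (b - 1))) ≤ 2 ^ ((q + 1) * (T (2 * (b - 1)) + 2)) := by
        calc nsh (PC X) (T (2 * (b - 1))) ≤ (q + 1) ^ T (2 * (b - 1)) := nsh_le _
          _ ≤ (2 ^ (q + 1)) ^ T (2 * (b - 1)) :=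
              Nat.pow_le_pow_left Nat.lt_two_pow_self.le _
          _ = 2 ^ ((q + 1) * T (2 * (b - 1))) := by rw [← pow_mul]
          _ ≤ 2 ^ ((q + 1) * (T (2 * (b - 1)) + 2)) :=
              Nat.pow_le_pow_right (by norm_num) (Nat.mul_le_mul_left _ (by omega))
      have h4 : 1 ≤ 2 ^ ((q + 1) * (T (2 * (b - 1)) + 2)) := Nat.one_le_two_pow
      omega
    have h5 : (nsh (Option (Y ⊕ PC X)) (B + B) + 1) * ((Fintype.card σ + 3) * m₀) ≤
        K * 2 ^ ((q + 1) * (T (2 * (b - 1)) + 2)) := by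
      calc (nsh (Option (Y ⊕ PC X)) (B + B) + 1) * ((Fintype.card σ + 3) * m₀)
          ≤ (nsh (Option (Y ⊕ PC X)) (B + B) + 1) *
            ((5 * 2 ^ ((q + 1) * (T (2 * (b - 1)) + 2))) * m₀) := by gcongr
        _ = K * 2 ^ ((q + 1) * (T (2 * (b - 1)) + 2)) := by rw [hK]; ring
    have hbb : 2 * (b - 1) + 2 = 2 * b := by
      have := le_max_right N₁ (N₂ + 1)
      omega
    have hgr := hN₂ (2 * (b - 1)) (by have := le_max_right N₁ (N₂ + 1); omega)
    rw [hbb] at hgr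
    calc ((nsh (Option (Y ⊕ PC X)) (B + B) + 1) * ((Fintype.card σ + 3) * m₀)) ^ k
        ≤ (K * 2 ^ ((q + 1) * (T (2 * (b - 1)) + 2))) ^ k := Nat.pow_le_pow_left h5 _
      _ = K ^ k * 2 ^ ((q + 1) * k * (T (2 * (b - 1)) + 2)) := by
          rw [mul_pow, ← pow_mul]
          congr 2
          ring
      _ ≤ K ^ k * 2 ^ E (2 * b) := by
          gcongr
          norm_num
      _ ≤ K ^ k * (T (2 * b) + 1) := by
          have := le_T (2 * b)
          gcongr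
          omega
      _ ≤ _ := Nat.mul_le_mul_right _ (le_max_left _ _)
  · intro x hx'
    rw [hκi, hρi, hM, join_eq, image_add, Language.mem_add]
    have h6 : x ∈ τ.image ((tauRt Y (PC X)).image (excL L₁ A b)) ↔
        x ∈ τ.image ((tauRt Y (PC X)).image (padL L₁ A)) := by
      rw [← hκ₂, ← hκ₂]
      exact ⟨hN₁ b ((le_max_left _ _).trans hb) hbA x hx',
        image_mono κ₂ fun w hw => padL_sub_excL hw⟩
    rw [h6, ← Language.mem_add, ← image_add, ← join_eq, hτ]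

/-- even numbers -/
def evens : Set ℕ := {n | n % 2 = 0}

theorem periodic_evens : Periodic evens := ⟨2, by norm_num, fun n => by simp [evens]⟩

/-- **The linear criterion** -/
theorem criterion [Finite X] [Finite Y] {L₁ : Language X} {L₂ : Language Y}
    (hG : Geq L₁ goldstine) (h : Geq L₁ L₂) {x₀ : List Y} (hx : x₀ ∈ L₂) :
    (∃ M : Language (Option (Y ⊕ PC X)), Between L₁ M L₂) ∨
    (∃ C, ∀ N, ∃ n, N ≤ n ∧ GeqS (C * (n + 1)) C L₂ (trunc L₁ n)) ∨
    (∀ k, ∃ C, ∀ N, ∃ n, N ≤ n ∧ ∃ m, m ^ k ≤ C * (n + 1) ∧ ∃ τ : Transducer Y X, Sized τ m C ∧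
      ∀ x : List X, x.length ≤ n → (x ∈ τ.image L₂ ↔ x ∈ L₁)) := by
  by_cases hb : Between L₁ (join L₂ (padL L₁ evens)) L₂
  · exact Or.inl ⟨_, hb⟩
  right
  have hL₁ : Geq L₁ L₁ := by
    have := Geq.comap L₁ (fun z : X => [z])
    have e : comapL L₁ (fun z : X => [z]) = L₁ := by
      ext w
      rw [mem_comapL, flatMap_single]
    rwa [e] at this
  have h1 : Geq L₁ (join L₂ (padL L₁ evens)) :=
    h.join (geq_padL hL₁ (hG.trans (goldstine_geq_H periodic_evens)))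
  have h2 : Geq (join L₂ (padL L₁ evens)) L₂ := join_left _ _
  by_cases h3 : Geq L₂ (join L₂ (padL L₁ evens))
  · left
    obtain ⟨C, hC⟩ := case_below (h3.trans (join_right L₂ (padL L₁ evens)))
    refine ⟨C, fun N => ⟨T (2 * (2 * N)), ?_, hC (2 * N) (by simp [evens])⟩⟩
    have := T_mono.id_le (2 * (2 * N))
    have h4 : 2 * (2 * N) ≤ T (2 * (2 * N)) := this
    omega
  · right
    have h4 : Geq (join L₂ (padL L₁ evens)) L₁ := by
      by_contra hcon
      exact hb ⟨⟨h1, hcon⟩, h2, h3⟩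
    intro k
    obtain ⟨C, N₀, hC⟩ := case_above hx h4 k
    refine ⟨C, fun N => ⟨T (2 * (2 * (N + N₀) + 1)), ?_, ?_⟩⟩
    · have : 2 * (2 * (N + N₀) + 1) ≤ T (2 * (2 * (N + N₀) + 1)) := T_mono.id_le _
      omega
    · exact hC (2 * (N + N₀) + 1) (by omega) (by simp [evens])

end RCone
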