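import Pool.Agent.RCone.PolyC

/-! # Linear devices (helper70, MP_a8de0d_lc) -/

namespace RCone

open Language

variable {X Y W V : Type}

/-- `R` is generated by a linear grammar with at most `m` states: each letter of an accepted word
`g` contributes a word of length at most `B` on the left and one on the right. -/
def LinDev (m B : ℕ) (R : Language X) : Prop :=
  ∃ (Z : Type) (_ : Finite Z) (σ : Type) (_ : Fintype σ) (M : DFA Z σ) (l r : Z → List X),
    Fintype.card σ ≤ m ∧ (∀ z, (l z).length ≤ B ∧ (r z).length ≤ B) ∧
    R = {x | ∃ g ∈ M.accepts, g.flatMap l ++ g.reverse.flatMap r = x}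

/-- the linear devices -/
def LinD : Dev := fun _ m B R => LinDev m B R

theorem LinD_mono : LinD.Mono := by
  rintro X m m' B B' R hm hB ⟨Z, hZ, σ, hσ, M, l, r, h1, h2, h3⟩
  exact ⟨Z, hZ, σ, hσ, M, l, r, h1.trans hm, fun z => ⟨(h2 z).1.trans hB, (h2 z).2.trans hB⟩, h3⟩

section fold

variable {Z σ : Type} [Fintype σ] (M : DFA Z σ)

open Classical in
/-- the backward automaton -/
noncomputable def chkDFA : DFA (σ × Z) (Option (Option σ)) where
  step c w := match c with
    | none => none
    | some none => if M.step w.1 w.2 ∈ M.accept then some (some w.1) else none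
    | some (some q) => if M.step w.1 w.2 = q then some (some w.1) else none
  start := some none
  accept := Set.univ

theorem chk_sound (w : List (σ × Z)) : (∀ q, (chkDFA M).eval w = some (some q) →
    M.evalFrom q (w.reverse.map Prod.snd) ∈ M.accept) ∧
    ((chkDFA M).eval w = some none → w = []) := by
  classical
  induction w using List.reverseRecOn with
  | nil =>
    refine ⟨fun q hq => ?_, fun _ => rfl⟩
    have : (some none : Option (Option σ)) = some (some q) := hq
    exact absurd this (by simp)
  | append_singleton w a ih =>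
    rw [DFA.eval_append_singleton]
    cases hc : (chkDFA M).eval w with
    | none =>
      refine ⟨fun q hq => ?_, fun hq => ?_⟩
      · exact absurd (show (none : Option (Option σ)) = _ from hq) (by simp)
      · exact absurd (show (none : Option (Option σ)) = _ from hq) (by simp)
    | some c =>
      cases c with
      | none =>
        have hw := ih.2 hc
        have he : (chkDFA M).step (some none) a =
          (if M.step a.1 a.2 ∈ M.accept then some (some a.1) else none) := rfl
        rw [he]
        constructor
        · intro q hq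
          split_ifs at hq with h1
          have h2 : a.1 = q := Option.some.inj (Option.some.inj hq)
          rw [hw, ← h2]
          exact h1
        · intro hq
          split_ifs at hq with h1
          exact absurd (Option.some.inj hq) (by simp)
      | some q₀ =>
        have hw := ih.1 q₀ hc
        have he : (chkDFA M).step (some (some q₀)) a =
          (if M.step a.1 a.2 = q₀ then some (some a.1) else none) := rfl
        rw [he]
        constructor
        · intro q hq
          split_ifs at hq with h1
          have h2 : a.1 = q := Option.some.inj (Option.some.inj hq)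
          rw [List.reverse_append, ← h2]
          change M.evalFrom a.1 (a.2 :: w.reverse.map Prod.snd) ∈ M.accept
          rw [DFA.evalFrom_cons, h1]
          exact hw
        · intro hq
          split_ifs at hq with h1
          exact absurd (Option.some.inj hq) (by simp)

theorem chk_complete (h : List Z) : ∀ p, M.evalFrom p h ∈ M.accept →
    ∃ w : List (σ × Z), w.reverse.map Prod.snd = h ∧
      ((h = [] ∧ (chkDFA M).eval w = some none) ∨ (chkDFA M).eval w = some (some p)) := by
  classical
  induction h with
  | nil => exact fun p _ => ⟨[], rfl, Or.inl ⟨rfl, rfl⟩⟩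
  | cons z h ih =>
    intro p hp
    rw [DFA.evalFrom_cons] at hp
    obtain ⟨w, e1, e2⟩ := ih (M.step p z) hp
    refine ⟨w ++ [(p, z)], by rw [List.reverse_append]; simp [e1], Or.inr ?_⟩
    rw [DFA.eval_append_singleton]
    rcases e2 with ⟨e3, e4⟩ | e4
    · rw [e4]
      have he : (chkDFA M).step (some none) (p, z) =
          (if M.step p z ∈ M.accept then some (some p) else none) := rfl
      rw [he, if_pos]
      rw [e3] at hp
      exact hp
    · rw [e4]
      have he : (chkDFA M).step (some (some (M.step p z))) (p, z) =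
          (if M.step p z = M.step p z then some (some p) else none) := rfl
      rw [he, if_pos rfl]

theorem reverse_flatMap_one {φ : Z → List W} (hφ : ∀ z, (φ z).length ≤ 1) (h : List Z) :
    h.reverse.flatMap φ = (h.flatMap φ).reverse := by
  induction h with
  | nil => rfl
  | cons z h ih =>
    have e1 : (z :: h).flatMap φ = φ z ++ h.flatMap φ := rfl
    have e2 : ([z] : List Z).flatMap φ = φ z := by simp
    rw [List.reverse_cons, List.flatMap_append, ih, e2, e1, List.reverse_append]
    congr 1
    have := hφ z
    match hz : φ z with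
    | [] => rfl
    | [a] => rfl
    | a :: b :: l => rw [hz] at this; simp at this

variable (φ : Z → List Bool)

/-- the folded automaton -/
noncomputable def foldDFA : DFA (Z ⊕ (σ × Z))
    (Option {b : List Bool // b.length ≤ 2} × σ × Option (Option σ)) where
  step s z := ((bufDFA φ (fun w : σ × Z => φ w.2) 2).step s.1 z, M.evalFrom s.2.1 (pr₁ z),
    (chkDFA M).evalFrom s.2.2 (pr₂ z))
  start := (some ⟨[], Nat.zero_le _⟩, M.start, some none)
  accept := {s | s.1 = some ⟨[], Nat.zero_le _⟩ ∧
    ((s.2.2 = some none ∧ s.2.1 ∈ M.accept) ∨ s.2.2 = some (some s.2.1))}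

theorem foldDFA_eval (g : List (Z ⊕ (σ × Z))) : (foldDFA M φ).eval g =
    ((bufDFA φ (fun w : σ × Z => φ w.2) 2).eval g, M.eval (g.flatMap pr₁),
      (chkDFA M).eval (g.flatMap pr₂)) := by
  induction g using List.reverseRecOn with
  | nil => rfl
  | append_singleton w a ih =>
    rw [DFA.eval_append_singleton, ih, DFA.eval_append_singleton]
    simp only [List.flatMap_append, List.flatMap_cons, List.flatMap_nil, List.append_nil]
    change (_, M.evalFrom (M.evalFrom M.start (w.flatMap pr₁)) (pr₁ a),
      (chkDFA M).evalFrom ((chkDFA M).evalFrom (chkDFA M).start (w.flatMap pr₂)) (pr₂ a)) =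
      (_, M.evalFrom M.start _, (chkDFA M).evalFrom (chkDFA M).start _)
    rw [DFA.evalFrom_of_append, DFA.evalFrom_of_append]

theorem fold_iff (hφ : ∀ z, (φ z).length ≤ 1) (ψ : Z → List X) (x : List X) :
    (∃ g ∈ (foldDFA M φ).accepts, g.flatMap (fun z : Z ⊕ (σ × Z) => z.elim ψ fun _ => []) ++
      g.reverse.flatMap (fun z : Z ⊕ (σ × Z) => z.elim (fun _ => []) fun w => ψ w.2) = x) ↔
      ∃ h ∈ M.accepts, h.flatMap φ ∈ palLang ∧ h.flatMap ψ = x := by
  have f1 : ∀ g : List (Z ⊕ (σ × Z)), g.flatMap (fun z : Z ⊕ (σ × Z) => z.elim ψ fun _ => []) =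
      (g.flatMap pr₁).flatMap ψ := by
    intro g
    induction g with
    | nil => rfl
    | cons z g ih =>
      rw [List.flatMap_cons, List.flatMap_cons, List.flatMap_append, ih]
      cases z with
      | inl a => simp [pr₁]
      | inr a => simp [pr₁]
  have f2 : ∀ g : List (Z ⊕ (σ × Z)),
      g.flatMap (fun z : Z ⊕ (σ × Z) => z.elim (fun _ => []) fun w => ψ w.2) =
      ((g.flatMap pr₂).map Prod.snd).flatMap ψ := by
    intro g
    induction g with
    | nil => rfl
    | cons z g ih =>
      rw [List.flatMap_cons, List.flatMap_cons, List.map_append, List.flatMap_append, ih]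
      cases z with
      | inl a => simp [pr₂]
      | inr a => simp [pr₂]
  have f3 : ∀ g : List (Z ⊕ (σ × Z)), g.reverse.flatMap (pr₂ : _ → List (σ × Z)) =
      (g.flatMap pr₂).reverse := fun g => reverse_flatMap_one (by
        rintro (z | z)
        · exact Nat.zero_le _
        · exact le_rfl) g
  have f4 : ∀ w : List (σ × Z), w.flatMap (fun w : σ × Z => φ w.2) =
      ((w.reverse.map Prod.snd).flatMap φ).reverse := by
    intro w
    rw [← reverse_flatMap_one hφ, ← List.map_reverse, List.reverse_reverse, List.flatMap_map]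
  constructor
  · rintro ⟨g, ⟨hb, hc⟩, rfl⟩
    have he := foldDFA_eval M φ g
    have hev : (foldDFA M φ).evalFrom (foldDFA M φ).start g = (foldDFA M φ).eval g := rfl
    rw [hev, he] at hb hc
    have hs := bufDFA_sound φ (fun w : σ × Z => φ w.2) 2 g _ hb
    rw [List.append_nil] at hs
    set w := g.flatMap (pr₂ : _ → List (σ × Z)) with hw
    have hacc : M.evalFrom (M.eval (g.flatMap pr₁)) (w.reverse.map Prod.snd) ∈ M.accept := by
      rcases hc with ⟨h1, h2⟩ | h1
      · have h3 := (chk_sound M w).2 h1
        rw [h3]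
        exact h2
      · exact (chk_sound M w).1 _ h1
    refine ⟨g.flatMap pr₁ ++ w.reverse.map Prod.snd, ?_, ?_, ?_⟩
    · change M.evalFrom M.start _ ∈ M.accept
      rw [DFA.evalFrom_of_append]
      exact hacc
    · refine ⟨(g.flatMap pr₁).flatMap φ, ?_⟩
      rw [List.flatMap_append, hs, f4 w, List.reverse_reverse]
    · rw [List.flatMap_append, f1, f2, f3]
  · rintro ⟨h, hK, ⟨u, hu⟩, rfl⟩
    obtain ⟨h₁, h₂, e1, e2, e3⟩ := split_one φ hφ h _ _ hu
    have hK' : M.evalFrom (M.eval h₁) h₂ ∈ M.accept := by
      have : M.evalFrom M.start h ∈ M.accept := hK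
      rw [e1, DFA.evalFrom_of_append] at this
      exact this
    obtain ⟨w, w1, w2⟩ := chk_complete M h₂ _ hK'
    have hbuf : h₁.flatMap φ = w.flatMap (fun w : σ × Z => φ w.2) := by
      rw [f4, w1, e3, e2, List.reverse_reverse]
    obtain ⟨g, g1, g2, g3⟩ := bufDFA_complete φ (fun w : σ × Z => φ w.2) 1 1 hφ
      (fun w => hφ w.2) _ h₁ w ⟨[], Nat.zero_le _⟩ le_rfl (by simpa using hbuf)
    refine ⟨g, ?_, ?_⟩
    · change (foldDFA M φ).eval g ∈ (foldDFA M φ).accept
      rw [foldDFA_eval, g1, g2]
      refine ⟨g3, ?_⟩
      rcases w2 with ⟨w3, w4⟩ | w4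
      · left
        refine ⟨w4, ?_⟩
        rw [w3] at hK'
        exact hK'
      · right
        exact w4
    · rw [f1, f2, f3, g1, g2, w1, e1, List.flatMap_append]

end fold

theorem polyBy_pal : PolyBy LinD palLang := by
  intro B
  set B' := max B 1 with hB'
  set c := nsh Bool (B' + B') + 1 with hc
  set d := nsh Bool 2 + 1 with hd
  refine ⟨d * (c * (c + 2)) + B', 2, fun X m n τ hs => ?_⟩
  obtain ⟨κ, hκ, hκi, hκφ⟩ := exists_norm τ (le_max_right B 1) (hs.mono le_rfl (le_max_left _ _))
  obtain ⟨⟨σ, hσ, M, hM, hcard⟩, hl⟩ := hκ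
  have hft : Fintype {b : List Bool // b.length ≤ 2} := Fintype.ofFinite _
  have hfin : Finite κ.Z := κ.finZ
  refine ⟨τ.image palLang, ⟨κ.Z ⊕ (σ × κ.Z), inferInstance, _, inferInstance, foldDFA M κ.φ,
    fun z => z.elim κ.ψ fun _ => [], fun z => z.elim (fun _ => []) fun w => κ.ψ w.2, ?_, ?_, ?_⟩,
    fun x _ => Iff.rfl⟩
  · rw [Fintype.card_prod, Fintype.card_prod, Fintype.card_option, Fintype.card_option,
      Fintype.card_option]
    have h1 : Fintype.card {b : List Bool // b.length ≤ 2} = nsh Bool 2 := by
      rw [nsh, Nat.card_eq_fintype_card]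
    rw [h1]
    have hcm : Fintype.card σ ≤ c * m := hcard.trans (by rw [one_mul])
    set A := m + n + 1 with hA
    have h2 : c * m ≤ c * A := Nat.mul_le_mul_left _ (by omega)
    have h3 : c * m + 1 + 1 ≤ (c + 2) * A := by
      have h5 : (c + 2) * A = c * A + 2 * A := by ring
      rw [h5]
      have hA1 : 1 ≤ A := by omega
      omega
    calc (nsh Bool 2 + 1) * (Fintype.card σ * (Fintype.card σ + 1 + 1))
        ≤ d * ((c * A) * ((c + 2) * A)) := by
          refine Nat.mul_le_mul_left _ (Nat.mul_le_mul (hcm.trans h2) (le_trans ?_ h3))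
          omega
      _ = (d * (c * (c + 2))) * A ^ 2 := by ring
      _ ≤ _ := Nat.mul_le_mul_right _ (Nat.le_add_right _ _)
  · rintro (z | z)
    · exact ⟨(hl z).2.trans (Nat.le_add_left _ _), Nat.zero_le _⟩
    · exact ⟨Nat.zero_le _, (hl z.2).2.trans (Nat.le_add_left _ _)⟩
  · ext x
    rw [← hκi]
    have h4 := fold_iff M κ.φ hκφ κ.ψ x
    constructor
    · rintro ⟨h, hK, hp, hx⟩
      rw [← hM] at hK
      exact h4.mpr ⟨h, hK, hp, hx⟩
    · intro hx
      obtain ⟨h, hK, hp, hx⟩ := h4.mp hx
      rw [hM] at hK
      exact ⟨h, hK, hp, hx⟩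

end RCone
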