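import Pool.Agent.RCone.HA

/-! # The separation theorem (helper70, MP_a8de0d_lc) -/

namespace RCone

open Language

theorem image_mono {X Y : Type} (τ : Transducer X Y) {L M : Language X} (h : ∀ x ∈ L, x ∈ M)
    {y : List Y} (hy : y ∈ τ.image L) : y ∈ τ.image M := by
  obtain ⟨g, h1, h2, h3⟩ := hy
  exact ⟨g, h1, h _ h2, h3⟩

theorem card_prefDFA (y : List Sym) :
    Fintype.card (Option (Fin (y.length + 1))) = y.length + 2 := by
  rw [Fintype.card_option, Fintype.card_fin]

/-- **Separation**: a sparser clock does not dominate a denser one. -/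
theorem not_geq {A B : Set ℕ} (hAB : ∀ n, ∃ a, n ≤ a ∧ a ∈ A ∧ a ∉ B) : ¬ Geq (H B) (H A) := by
  rintro ⟨τ, hτ⟩
  obtain ⟨c, hc⟩ := exists_pump τ
  obtain ⟨c', hc'⟩ := exists_pump τ.inv
  obtain ⟨N, hN⟩ := growth (c + c')
  obtain ⟨a, haN, haA, haB⟩ := hAB (N + 2)
  set s := 2 * a with hs
  have hs2 : s - 2 + 2 = s := by omega
  set κ := rul (zz s) with hκ
  have hκA : κ ∉ H A := rul_zz_not_mem haA
  -- the finite part below `κ`
  set y₀ := rul (zz (s - 2)) with hy₀
  set S₀ : Set ℕ := {n | ∃ b ∈ B, b < a ∧ n = T (2 * b)} with hS₀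
  have hD : ∀ x, x ∈ ((prefDFA y₀ S₀)ᶜ).accepts ↔ ¬ (x <+: y₀ ∧ x.length ∈ S₀) := by
    intro x
    rw [DFA.accepts_compl]
    exact not_congr (prefDFA_accepts y₀ S₀ x)
  have hBD : ∀ x ∈ H B, x ∈ ((prefDFA y₀ S₀)ᶜ).accepts := by
    intro x hx
    rw [hD]
    rintro ⟨h1, b, hb, hba, h2⟩
    have h3 : rul (zz (2 * b)) <+: y₀ := rul_prefix (by omega)
    have h4 : x = rul (zz (2 * b)) := by
      have h5 : x <+: rul (zz (2 * b)) := List.prefix_of_prefix_length_le h1 h3 h2.le
      exact h5.eq_of_length h2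
    rw [h4] at hx
    exact rul_zz_not_mem hb hx
  -- last block of `κ`
  obtain ⟨ini, hini⟩ : ∃ ini, zz s = ini ++ [2] := by
    have hl := (good_zz s).last
    rcases List.eq_nil_or_concat (zz s) with h | ⟨t, b, h⟩
    · rw [h] at hl; simp at hl
    · rw [h, List.concat_eq_append, List.getLast?_append] at hl
      simp only [List.getLast?_singleton, Option.some_or, Option.some.injEq] at hl
      exact ⟨t, by rw [h, hl, List.concat_eq_append]⟩
  have hlen : 1 + ini.length = 2 ^ E s := by
    have := congrArg List.length hini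
    rw [length_zz, List.length_append, List.length_singleton] at this
    omega
  have hκe : κ = rulF 1 ini ++ List.replicate (1 + ini.length) none ++ [some 2] := by
    rw [hκ, hini, rul, rulF_append, rulF, rulF]
    simp
  have hgr := hN (s - 2) (by omega)
  rw [hs2] at hgr
  have hgr' := hN s (by omega)
  have hTs : y₀.length = T (s - 2) := rfl
  have hcard : 2 ^ (c * Fintype.card (Option (Fin (y₀.length + 1)))) ≤ 1 + ini.length := by
    rw [card_prefDFA, hlen, hTs]
    apply Nat.pow_le_pow_right (by norm_num)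
    refine le_trans ?_ hgr
    exact Nat.mul_le_mul_right _ (Nat.le_add_right _ _)
  obtain ⟨i, j, hij, hj, hw⟩ := hc _ ((prefDFA y₀ S₀)ᶜ)
    (fun n => rulF 1 ini ++ List.replicate n none) (1 + ini.length) hcard
  have hw' := hw (List.replicate (1 + ini.length - j) none ++ [some 2])
  have e1 : rulF 1 ini ++ List.replicate j none ++
      (List.replicate (1 + ini.length - j) none ++ [some 2]) = κ := by
    rw [hκe, ← List.append_assoc, List.append_assoc (rulF 1 ini), ← List.replicate_add]
    congr 3
    omega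
  have e2 : rulF 1 ini ++ List.replicate i none ++
      (List.replicate (1 + ini.length - j) none ++ [some 2]) =
      rulF 1 ini ++ List.replicate (i + (1 + ini.length - j)) none ++ [some 2] := by
    rw [← List.append_assoc, List.append_assoc (rulF 1 ini), ← List.replicate_add]
  beta_reduce at hw'
  rw [e1, e2] at hw'
  have hκ'A : rulF 1 ini ++ List.replicate (i + (1 + ini.length - j)) none ++ [some 2] ∈ H A := by
    rintro ⟨z, _, hz, _⟩
    have h1 := congrArg (List.map Option.isSome) hz
    rw [rul, map_rulF, List.map_append, List.map_append, map_rulF] at h1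
    have h2 : enc (List.range' 1 ini.length ++ [i + (1 + ini.length - j)]) =
        enc (List.range' 1 z.length) := by
      rw [← h1, enc_append, enc_cons]
      simp [enc]
    have h3 := enc_injective h2
    have h4 := congrArg List.length h3
    simp only [List.length_append, List.length_range', List.length_singleton] at h4
    rw [← h4, List.range'_concat] at h3
    have h5 := List.append_cancel_left h3
    have h6 := (List.cons.inj h5).1
    omega
  have hκ'τ : rulF 1 ini ++ List.replicate (i + (1 + ini.length - j)) none ++ [some 2] ∈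
      τ.image ((prefDFA y₀ S₀)ᶜ).accepts := by
    rw [← hτ] at hκ'A
    exact image_mono τ hBD hκ'A
  obtain ⟨h, hK, hL, hψ⟩ := hw'.mp hκ'τ
  -- the preimage of `κ`
  have hout : ∀ g ∈ τ.K, g.flatMap τ.ψ = κ → g.flatMap τ.φ ∉ H B := by
    intro g hg hgψ hmem
    apply hκA
    rw [← hτ]
    exact ⟨g, hg, hmem, hgψ⟩
  obtain ⟨b, hb, hx⟩ := not_mem_H (hout h hK hψ)
  have hba : a < b := by
    by_contra hcon
    have hne : b ≠ a := fun he => haB (he ▸ hb)
    have hlt : b < a := by omega
    rw [hD] at hL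
    apply hL
    rw [hx]
    exact ⟨rul_prefix (by omega), b, hb, hlt, rfl⟩
  have hxlen : (h.flatMap τ.φ).length = T (2 * b) := by rw [hx]; rfl
  have hbig : 2 ^ (c' * Fintype.card (Option (Fin (κ.length + 1)))) ≤ (h.flatMap τ.φ).length := by
    rw [card_prefDFA, hxlen]
    calc 2 ^ (c' * (κ.length + 2)) ≤ 2 ^ E (s + 2) := by
          apply Nat.pow_le_pow_right (by norm_num)
          refine le_trans ?_ hgr'
          exact Nat.mul_le_mul_right _ (Nat.le_add_left _ _)
      _ ≤ T (s + 2) := le_T _
      _ ≤ T (2 * b) := T_mono.monotone (by omega)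
  obtain ⟨i', j', hij', hj', hw2⟩ := hc' _ (prefDFA κ {κ.length})
    (fun n => (h.flatMap τ.φ).take n) (h.flatMap τ.φ).length hbig
  have hx1 : (h.flatMap τ.φ).take i' ++ (h.flatMap τ.φ).drop i' ∈
      τ.inv.image (prefDFA κ {κ.length}).accepts := by
    rw [List.take_append_drop]
    refine ⟨h, hK, ?_, rfl⟩
    rw [prefDFA_accepts]
    have h7 : h.flatMap τ.inv.φ = κ := hψ
    rw [h7]
    exact ⟨List.prefix_refl _, rfl⟩
  obtain ⟨g, hgK, hgL, hgψ⟩ := (hw2 _).mp hx1
  have hgκ : g.flatMap τ.ψ = κ := by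
    rw [prefDFA_accepts] at hgL
    exact hgL.1.eq_of_length hgL.2
  obtain ⟨b', hb', hx'⟩ := not_mem_H (hout g hgK hgκ)
  have hgφ : g.flatMap τ.φ = (h.flatMap τ.φ).take j' ++ (h.flatMap τ.φ).drop i' := hgψ
  have hlen' : T (2 * b') = T (2 * b) + (j' - i') := by
    have h8 := congrArg List.length hgφ
    rw [hx', List.length_append, List.length_take, List.length_drop, hxlen] at h8
    rw [hxlen] at hj'
    have h9 : T (2 * b') = min j' (T (2 * b)) + (T (2 * b) - i') := h8
    rw [Nat.min_eq_left hj'] at h9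
    omega
  rw [hxlen] at hj'
  rcases le_or_gt b' b with hle | hgt
  · have h10 := T_mono.monotone (show 2 * b' ≤ 2 * b by omega)
    omega
  · have h10 := T_mono.monotone (show 2 * b + 1 ≤ 2 * b' by omega)
    have h11 := T_succ (2 * b)
    omega

end RCone
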