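import Pool.Agent.RCone.Low

/-! # Small automata for truncated one-counter languages (helper70, MP_a8de0d_lc) -/

namespace RCone

open Language

variable {X Y W V : Type}

/-- `R` is accepted by a nondeterministic automaton with at most `m` states whose transitions carry
words of length at most `B`. -/
def Nfa (m B : ℕ) (R : Language X) : Prop :=
  ∃ (Z : Type) (_ : Finite Z) (σ : Type) (_ : Fintype σ) (M : DFA Z σ) (ψ : Z → List X),
    Fintype.card σ ≤ m ∧ (∀ z, (ψ z).length ≤ B) ∧ R = {x | ∃ h ∈ M.accepts, h.flatMap ψ = x}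

theorem Nfa.mono {m B m' B' : ℕ} {R : Language X} (h : Nfa m B R) (hm : m ≤ m') (hB : B ≤ B') :
    Nfa m' B' R := by
  obtain ⟨Z, hZ, σ, hσ, M, ψ, h1, h2, h3⟩ := h
  exact ⟨Z, hZ, σ, hσ, M, ψ, h1.trans hm, fun z => (h2 z).trans hB, h3⟩

theorem hmax_mono {c c' : ℕ} (h : c ≤ c') (n B : ℕ) : hmax c n B ≤ hmax c' n B := by
  unfold hmax ntup
  gcongr

open Classical in
/-- automaton with a bounded counter -/
noncomputable def lowDFA {Z σ : Type} (M : DFA Z σ) (φ : Z → List (Fin 3)) (H : ℕ) :
    DFA Z (Option (σ × Fin (H + 1))) where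
  step s z := s.bind fun q => (runW (φ z) q.2.val).bind fun v =>
    if h : v < H + 1 then some (M.step q.1 z, ⟨v, h⟩) else none
  start := some (M.start, 0)
  accept := {s | ∃ q ∈ M.accept, s = some (q, 0)}

theorem lowDFA_sound {Z σ : Type} (M : DFA Z σ) (φ : Z → List (Fin 3)) (H : ℕ) (h : List Z)
    (q : σ × Fin (H + 1)) (he : (lowDFA M φ H).eval h = some q) :
    M.eval h = q.1 ∧ runW (h.flatMap φ) 0 = some q.2.val := by
  induction h using List.reverseRecOn generalizing q with
  | nil =>
    have h1 : (M.start, (0 : Fin (H + 1))) = q := Option.some.inj he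
    rw [← h1]
    exact ⟨rfl, rfl⟩
  | append_singleton h z ih =>
    rw [DFA.eval_append_singleton] at he
    cases hs : (lowDFA M φ H).eval h with
    | none =>
      rw [hs] at he
      exact absurd he (by simp [lowDFA])
    | some p =>
      obtain ⟨h1, h2⟩ := ih p hs
      rw [hs] at he
      have he' : ((runW (φ z) p.2.val).bind fun v =>
        if h : v < H + 1 then some (M.step p.1 z, (⟨v, h⟩ : Fin (H + 1))) else none) = some q := he
      cases hr : runW (φ z) p.2.val with
      | none =>
        rw [hr] at he'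
        exact absurd he' (by simp)
      | some v =>
        rw [hr, Option.bind_some] at he'
        split_ifs at he' with hv
        have h3 := Option.some.inj he'
        rw [← h3]
        refine ⟨?_, ?_⟩
        · rw [DFA.eval_append_singleton, h1]
        · exact val_join φ h2 (by simpa using hr)

theorem lowDFA_complete {Z σ : Type} (M : DFA Z σ) (φ : Z → List (Fin 3)) (H : ℕ) (h : List Z) :
    ∀ v, runW (h.flatMap φ) 0 = some v →
    (∀ p s, h = p ++ s → ∀ u, runW (p.flatMap φ) 0 = some u → u ≤ H) →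
    ∃ hv : v < H + 1, (lowDFA M φ H).eval h = some (M.eval h, ⟨v, hv⟩) := by
  induction h using List.reverseRecOn with
  | nil =>
    intro v hv _
    have h1 : (0 : ℕ) = v := Option.some.inj hv
    subst h1
    exact ⟨Nat.succ_pos _, rfl⟩
  | append_singleton h z ih =>
    intro v hv hall
    have hvH := hall (h ++ [z]) [] (by simp) v hv
    obtain ⟨u, hu, hu'⟩ := val_split φ hv
    obtain ⟨hlt, he⟩ := ih u hu (fun p s hps u' hu' =>
      hall p (s ++ [z]) (by rw [hps]; simp) u' hu')
    refine ⟨by omega, ?_⟩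
    rw [DFA.eval_append_singleton, DFA.eval_append_singleton, he]
    have hz : runW (φ z) u = some v := by simpa using hu'
    change ((runW (φ z) u).bind fun v =>
        if h' : v < H + 1 then some (M.step (M.eval h) z, (⟨v, h'⟩ : Fin (H + 1))) else none) = _
    rw [hz, Option.bind_some, dif_pos (by omega)]

/-- a one-counter language is, up to length `n`, accepted by a polynomial automaton -/
theorem nfa_of_counter {τ : Transducer (Fin 3) X} {m B : ℕ} (hs : Sized τ m B) (n : ℕ) :
    ∃ R : Language X, Nfa (m * (hmax m n B + 1) + 1) B R ∧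
      ∀ x : List X, x.length ≤ n → (x ∈ R ↔ x ∈ τ.image counterLang) := by
  obtain ⟨⟨σ, hσ, M, hM, hc⟩, hl⟩ := hs
  set H := hmax (Fintype.card σ) n B with hH
  refine ⟨{x | ∃ h ∈ (lowDFA M τ.φ H).accepts, h.flatMap τ.ψ = x},
    ⟨τ.Z, τ.finZ, _, inferInstance, lowDFA M τ.φ H, τ.ψ, ?_, fun z => (hl z).2, rfl⟩, ?_⟩
  · rw [Fintype.card_option, Fintype.card_prod, Fintype.card_fin]
    have := hmax_mono hc n B
    gcongr
  · intro x hx
    constructor
    · rintro ⟨h, ⟨q, hq, he⟩, rfl⟩
      obtain ⟨h1, h2⟩ := lowDFA_sound M τ.φ H h _ he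
      refine ⟨h, ?_, h2, rfl⟩
      rw [← hM]
      change M.eval h ∈ M.accept
      rw [h1]
      exact hq
    · rintro ⟨h, hK, hφ, rfl⟩
      rw [← hM] at hK
      obtain ⟨h', h1, h2, h3, h4⟩ := exists_low_run M τ.φ τ.ψ B (fun z => (hl z).1) n h.length h
        le_rfl hK hφ hx
      obtain ⟨hv, he⟩ := lowDFA_complete M τ.φ H h' 0 h2 h4
      exact ⟨h', ⟨M.eval h', h1, he⟩, h3⟩

/-- the palindromes of even length -/
def palLang : Language Bool := {x | ∃ w : List Bool, x = w ++ w.reverse}

theorem pal_lower {s B m : ℕ} {R : Language Bool} (hR : Nfa s B R)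
    (h : ∀ x : List Bool, x.length ≤ 2 * m → (x ∈ R ↔ x ∈ palLang)) : 2 ^ m ≤ s * nsh Bool B := by
  classical
  obtain ⟨Z, hZ, σ, hσ, M, ψ, h1, h2, rfl⟩ := hR
  have hft : Fintype {v : List Bool // v.length ≤ B} := Fintype.ofFinite _
  by_contra hcon
  push Not at hcon
  have hmem : ∀ w : Fin m → Bool, ∃ h₁ h₂ : List Z, ∃ v : List Bool, h₁ ++ h₂ ∈ M.accepts ∧
      h₁.flatMap ψ = List.ofFn w ++ v ∧ v.length ≤ B ∧
      (List.ofFn w).reverse = v ++ h₂.flatMap ψ := by
    intro w
    have h3 : List.ofFn w ++ (List.ofFn w).reverse ∈ palLang := ⟨_, rfl⟩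
    rw [← h _ (by rw [List.length_append, List.length_reverse, List.length_ofFn]; omega)] at h3
    obtain ⟨g, hg, hgψ⟩ := h3
    obtain ⟨h₁, h₂, v, e1, e2, e3, e4⟩ := split_out ψ B h2 g _ _ hgψ
    exact ⟨h₁, h₂, v, by rw [← e1]; exact hg, e2, e3, e4⟩
  choose h₁ h₂ v g1 g2 g3 g4 using hmem
  obtain ⟨w, w', hne, heq⟩ := Fintype.exists_ne_map_eq_of_card_lt
    (fun w : Fin m → Bool => (M.eval (h₁ w), (⟨v w, g3 w⟩ : {v : List Bool // v.length ≤ B}))) (by
      rw [Fintype.card_prod, Fintype.card_fun, Fintype.card_bool, Fintype.card_fin]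
      refine lt_of_le_of_lt ?_ hcon
      have : Fintype.card {v : List Bool // v.length ≤ B} = nsh Bool B := by
        rw [nsh, Nat.card_eq_fintype_card]
      rw [this]
      exact Nat.mul_le_mul_right _ h1)
  have hq : M.eval (h₁ w) = M.eval (h₁ w') := congrArg Prod.fst heq
  have hv : v w = v w' := congrArg (fun d => d.2.1) heq
  have hcross : h₁ w ++ h₂ w' ∈ M.accepts := by
    have h5 : M.evalFrom M.start (h₁ w' ++ h₂ w') ∈ M.accept := g1 w'
    change M.evalFrom M.start (h₁ w ++ h₂ w') ∈ M.accept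
    rw [DFA.evalFrom_of_append] at h5 ⊢
    rw [show M.evalFrom M.start (h₁ w) = M.evalFrom M.start (h₁ w') from hq]
    exact h5
  have hout : (h₁ w ++ h₂ w').flatMap ψ = List.ofFn w ++ (List.ofFn w').reverse := by
    rw [List.flatMap_append, g2, g4 w', hv, List.append_assoc]
  have h6 : List.ofFn w ++ (List.ofFn w').reverse ∈ palLang := by
    rw [← h _ (by rw [List.length_append, List.length_reverse, List.length_ofFn,
      List.length_ofFn]; omega)]
    exact ⟨_, hcross, hout⟩
  obtain ⟨u, hu⟩ := h6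
  have hlen := congrArg List.length hu
  rw [List.length_append, List.length_append, List.length_reverse, List.length_reverse,
    List.length_ofFn, List.length_ofFn] at hlen
  obtain ⟨h7, h8⟩ := List.append_inj hu (by rw [List.length_ofFn]; omega)
  have h9 := List.reverse_injective h8
  rw [← h7] at h9
  exact hne (List.ofFn_injective h9).symm

end RCone
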