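import Pool.Agent.RCone.Lin

/-! # One-counter languages have small approximations (helper70, MP_a8de0d_lc) -/

namespace RCone

open Language

variable {X Y W V : Type}

/-- one step of the counter: `0` increments, `1` decrements, `2` tests for zero -/
def run1 (a : Fin 3) (v : ℕ) : Option ℕ :=
  if a = 0 then some (v + 1) else if a = 1 then (if v = 0 then none else some (v - 1))
  else (if v = 0 then some 0 else none)

/-- the counter after a word -/
def runW : List (Fin 3) → ℕ → Option ℕ
  | [], v => some v
  | a :: w, v => (run1 a v).bind (runW w)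

/-- The words which lead the counter from `0` to `0`; the images of this language are the
one-counter languages. -/
def counterLang : Language (Fin 3) := {w | runW w 0 = some 0}

theorem runW_append (w w' : List (Fin 3)) (v : ℕ) :
    runW (w ++ w') v = (runW w v).bind (runW w') := by
  induction w generalizing v with
  | nil => rfl
  | cons a w ih =>
    simp only [List.cons_append, runW]
    cases h : run1 a v with
    | none => rfl
    | some v' =>
      simp only [Option.bind_some]
      exact ih v'

/-- far from zero the counter behaves in the same way everywhere -/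
theorem run1_shift {a : Fin 3} {v v' d : ℕ} (h : run1 a v = some v') (hd : d < v) :
    run1 a (v - d) = some (v' - d) ∧ v ≤ v' + 1 ∧ v' ≤ v + 1 := by
  unfold run1 at h ⊢
  split_ifs at h ⊢ with h1 h2 h3 h4 h5 h6 h7
  all_goals first
    | omega
    | (have h8 := Option.some.inj h; refine ⟨congrArg some ?_, ?_, ?_⟩ <;> omega)

theorem runW_shift {w : List (Fin 3)} {v v' d : ℕ} (h : runW w v = some v')
    (hd : d + w.length < v) : runW w (v - d) = some (v' - d) ∧ v ≤ v' + w.length := by
  induction w generalizing v with
  | nil =>
    have h1 : v = v' := Option.some.inj h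
    exact ⟨by rw [h1]; rfl, by rw [h1]; exact Nat.le_add_right _ _⟩
  | cons a w ih =>
    simp only [runW] at h ⊢
    rw [List.length_cons] at hd ⊢
    cases h1 : run1 a v with
    | none => rw [h1] at h; exact absurd h (by simp)
    | some u =>
      rw [h1] at h
      obtain ⟨h2, h3, h4⟩ := run1_shift (d := d) h1 (by omega)
      have h5 := ih (v := u) h (by omega)
      rw [h2]
      exact ⟨h5.1, by omega⟩

theorem runW_bound {w : List (Fin 3)} {v v' : ℕ} (h : runW w v = some v') :
    v' ≤ v + w.length ∧ v ≤ v' + w.length := by
  induction w generalizing v with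
  | nil =>
    have h1 : v = v' := Option.some.inj h
    rw [h1]
    exact ⟨Nat.le_add_right _ _, Nat.le_add_right _ _⟩
  | cons a w ih =>
    simp only [runW] at h
    rw [List.length_cons]
    cases h1 : run1 a v with
    | none => rw [h1] at h; exact absurd h (by simp)
    | some u =>
      rw [h1] at h
      have h2 := ih (v := u) h
      have h3 : u ≤ v + 1 ∧ v ≤ u + 1 := by
        unfold run1 at h1
        split_ifs at h1
        all_goals first
          | omega
          | (have h8 := Option.some.inj h1; omega)
      omega

/-- a path which stays high can be lowered -/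
theorem lower_path {Z : Type} (φ : Z → List (Fin 3)) (B : ℕ) (hB : ∀ z, (φ z).length ≤ B) (d : ℕ)
    (g : List Z) : ∀ v v', runW (g.flatMap φ) v = some v' →
      (∀ g₁ g₂, g = g₁ ++ g₂ → g₂ ≠ [] → ∀ u, runW (g₁.flatMap φ) v = some u → d + B < u) →
      d ≤ v → runW (g.flatMap φ) (v - d) = some (v' - d) ∧ d ≤ v' := by
  induction g with
  | nil =>
    intro v v' h _ hv
    have h1 : v = v' := Option.some.inj h
    exact ⟨by rw [h1]; rfl, by rw [← h1]; exact hv⟩
  | cons z g ih =>
    intro v v' h hh hv
    rw [List.flatMap_cons, runW_append] at h ⊢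
    have h0 : d + B < v := hh [] (z :: g) rfl (by simp) v rfl
    cases h1 : runW (φ z) v with
    | none => rw [h1] at h; exact absurd h (by simp)
    | some u =>
      rw [h1] at h
      have hz := hB z
      obtain ⟨h2, h3⟩ := runW_shift (d := d) h1 (by omega)
      rw [h2]
      refine ih u v' h ?_ (by omega)
      intro g₁ g₂ he hne u' hu'
      refine hh (z :: g₁) g₂ (by rw [he]; rfl) hne u' ?_
      rw [List.flatMap_cons, runW_append, h1]
      exact hu'

/-- longest initial part with a property -/
theorem longest_init {Z : Type} (P : List Z → Prop) (p : List Z) (h0 : P []) (hp : ¬ P p) :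
    ∃ a z b, p = a ++ z :: b ∧ P a ∧ ∀ b₁ b₂, z :: b = b₁ ++ b₂ → b₁ ≠ [] → ¬ P (a ++ b₁) := by
  classical
  induction p using List.reverseRecOn with
  | nil => exact absurd h0 hp
  | append_singleton p z ih =>
    by_cases hpp : P p
    · refine ⟨p, z, [], rfl, hpp, ?_⟩
      intro b₁ b₂ he hne
      have : b₁ = [z] := by
        cases b₁ with
        | nil => exact absurd rfl hne
        | cons c b₁ =>
          simp only [List.cons_append, List.cons.injEq] at he
          obtain ⟨h1, h2⟩ := he
          have h3 : b₁ = [] := (List.append_eq_nil_iff.mp h2.symm).1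
          rw [h1, h3]
      rw [this]
      exact hp
    · obtain ⟨a, y, b, h1, h2, h3⟩ := ih hpp
      refine ⟨a, y, b ++ [z], by rw [h1]; simp, h2, ?_⟩
      intro b₁ b₂ he hne
      rcases List.eq_nil_or_concat b₂ with hb | ⟨t, c, hb⟩
      · rw [hb, List.append_nil] at he
        rw [← he]
        have : a ++ y :: (b ++ [z]) = p ++ [z] := by rw [h1]; simp
        rw [this]
        exact hp
      · rw [hb, List.concat_eq_append, ← List.append_assoc, ← List.cons_append] at he
        have h4 := List.append_inj_left' he rfl
        exact h3 b₁ t h4 hne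

/-- shortest initial part with a property -/
theorem shortest_init {Z : Type} (P : List Z → Prop) (s : List Z) (h0 : ¬ P []) (hs : P s) :
    ∃ a z b, s = (a ++ [z]) ++ b ∧ P (a ++ [z]) ∧ ∀ b₁ b₂, a = b₁ ++ b₂ → ¬ P b₁ := by
  classical
  have hex : ∃ n, P (s.take n) := ⟨s.length, by rw [List.take_length]; exact hs⟩
  set n := Nat.find hex with hn
  have h1 : P (s.take n) := Nat.find_spec hex
  have h2 : ∀ k < n, ¬ P (s.take k) := fun k hk => Nat.find_min hex hk
  have hn0 : n ≠ 0 := by
    intro h
    rw [h, List.take_zero] at h1
    exact h0 h1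
  obtain ⟨k, hk⟩ : ∃ k, n = k + 1 := ⟨n - 1, by omega⟩
  have hlen : k < s.length := by
    by_contra hcon
    have h3 : s.take k = s := List.take_of_length_le (by omega)
    exact h2 k (by omega) (by rw [h3]; exact hs)
  refine ⟨s.take k, s[k], s.drop (k + 1), ?_, ?_, ?_⟩
  · rw [List.take_append_getElem hlen, List.take_append_drop]
  · rw [List.take_append_getElem hlen, ← hk]
    exact h1
  · intro b₁ b₂ he
    have h4 : b₁ = s.take b₁.length := by
      have h50 : b₁ <+: s.take k := ⟨b₂, he.symm⟩
      have h5 : b₁ <+: s := h50.trans (List.take_prefix _ _)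
      exact List.prefix_iff_eq_take.mp h5
    rw [h4]
    apply h2
    have h6 := congrArg List.length he
    rw [List.length_take, List.length_append] at h6
    omega

end RCone
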