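import Pool.Agent.RCone.GramSub

/-! # Nested palindromes (helper70, MP_a8de0d_lc) -/

namespace RCone

open Language

variable {X Y W V J J' : Type}

/-- `u d x d ũ` where `ũ` is the reversal of `u`; the marker `d` is `Sum.inr false` -/
def arm (u : List J) (x : List (J ⊕ Bool)) : List (J ⊕ Bool) :=
  u.map Sum.inl ++ Sum.inr false :: (x ++ Sum.inr false :: u.reverse.map Sum.inl)

/-- Nested pairs of palindromes: `Q 0` contains only the empty word, and `Q (k+1)` is the set of
the words `u d x d ũ c v d y d ṽ` with `x, y ∈ Q k`, where `ũ` is the reversal of `u`; the markers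
are `d = Sum.inr false` and `c = Sum.inr true`. -/
def nestPal (J : Type) : ℕ → Language (J ⊕ Bool)
  | 0 => {w | w = []}
  | k + 1 => {w | ∃ (u v : List J) (x y : List (J ⊕ Bool)), x ∈ nestPal J k ∧ y ∈ nestPal J k ∧
      w = arm u x ++ Sum.inr true :: arm v y}

theorem arm_map (f : J → J') (u : List J) (x : List (J ⊕ Bool)) :
    (arm u x).map (Sum.map f id) = arm (u.map f) (x.map (Sum.map f id)) := by
  unfold arm
  simp [List.map_append, Function.comp_def]

theorem arm_length (u : List J) (x : List (J ⊕ Bool)) :
    (arm u x).length = 2 * u.length + x.length + 2 := by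
  unfold arm
  simp only [List.length_append, List.length_map, List.length_cons, List.length_reverse]
  omega

theorem inl_split {u u' : List J} {q q' : List (J ⊕ Bool)} {a a' : Bool}
    (h : u.map Sum.inl ++ Sum.inr a :: q = u'.map Sum.inl ++ Sum.inr a' :: q') :
    u = u' ∧ q = q' := by
  induction u generalizing u' with
  | nil =>
    cases u' with
    | nil =>
      simp only [List.map_nil, List.nil_append, List.cons.injEq] at h
      exact ⟨rfl, h.2⟩
    | cons b u' => simp at h
  | cons b u ih =>
    cases u' with
    | nil => simp at h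
    | cons b' u' =>
      simp only [List.map_cons, List.cons_append, List.cons.injEq, Sum.inl.injEq] at h
      obtain ⟨h1, h2⟩ := h
      obtain ⟨h3, h4⟩ := ih h2
      exact ⟨by rw [h1, h3], h4⟩

/-- the nested palindromes form a prefix code, if they have the same shape -/
theorem nest_prefix (k : ℕ) : ∀ {s s' z z' : List (J ⊕ Bool)}, s ∈ nestPal J k → s' ∈ nestPal J k →
    s ++ z = s' ++ z' → s = s' ∧ z = z' := by
  induction k with
  | zero =>
    intro s s' z z' hs hs' h
    have h1 : s = [] := hs
    have h2 : s' = [] := hs'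
    rw [h1, h2] at h ⊢
    exact ⟨rfl, h⟩
  | succ k ih =>
    rintro s s' z z' ⟨u, v, x, y, hx, hy, rfl⟩ ⟨u', v', x', y', hx', hy', rfl⟩ h
    unfold arm at h
    simp only [List.append_assoc, List.cons_append] at h
    obtain ⟨rfl, h1⟩ := inl_split h
    obtain ⟨rfl, h2⟩ := ih hx hx' h1
    have h3 := (List.cons.inj h2).2
    have h4 := List.append_cancel_left h3
    have h5 := (List.cons.inj h4).2
    obtain ⟨rfl, h6⟩ := inl_split h5
    obtain ⟨rfl, h7⟩ := ih hy hy' h6
    have h8 := (List.cons.inj h7).2
    have h9 := List.append_cancel_left h8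
    exact ⟨rfl, h9⟩

theorem nest_map (f : J → J') (k : ℕ) : ∀ {w : List (J ⊕ Bool)}, w ∈ nestPal J k →
    w.map (Sum.map f id) ∈ nestPal J' k := by
  induction k with
  | zero =>
    intro w hw
    have h1 : w = [] := hw
    rw [h1]
    rfl
  | succ k ih =>
    rintro w ⟨u, v, x, y, hx, hy, rfl⟩
    refine ⟨u.map f, v.map f, _, _, ih hx, ih hy, ?_⟩
    rw [List.map_append, arm_map, List.map_cons, arm_map]
    rfl

/-- indices of the letters of a nested palindrome -/
def Ix (m : ℕ) : ℕ → Type
  | 0 => Empty
  | k + 1 => Bool × (Fin m ⊕ Ix m k)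

instance Ix.finite (m : ℕ) : ∀ k, Finite (Ix m k)
  | 0 => inferInstanceAs (Finite Empty)
  | k + 1 =>
    have := Ix.finite m k
    inferInstanceAs (Finite (Bool × (Fin m ⊕ Ix m k)))

/-- the indices of an outer word -/
def uIx (m k : ℕ) (s : Bool) : List (Ix m (k + 1)) :=
  (List.finRange m).map fun r => (s, Sum.inl r)

/-- inner indices -/
def inIx {m k : ℕ} (s : Bool) (i : Ix m k) : Ix m (k + 1) := (s, Sum.inr i)

/-- the pattern of a nested palindrome -/
def pat (m : ℕ) : ∀ k, List (Ix m k ⊕ Bool)
  | 0 => []
  | k + 1 => arm (uIx m k false) ((pat m k).map (Sum.map (inIx false) id)) ++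
      Sum.inr true :: arm (uIx m k true) ((pat m k).map (Sum.map (inIx true) id))

/-- the word with given letters -/
def wd {m k : ℕ} (t : Ix m k → J) : List (J ⊕ Bool) := (pat m k).map (Sum.map t id)

theorem pat_mem (m k : ℕ) : pat m k ∈ nestPal (Ix m k) k := by
  induction k with
  | zero => rfl
  | succ k ih => exact ⟨_, _, _, _, nest_map _ k ih, nest_map _ k ih, rfl⟩

theorem wd_mem {m k : ℕ} (t : Ix m k → J) : wd t ∈ nestPal J k := nest_map t k (pat_mem m k)

/-- the shape of a word -/
def sh (w : List (J ⊕ Bool)) : List (Unit ⊕ Bool) := w.map (Sum.map (fun _ => ()) id)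

theorem sh_map (f : J → J') (w : List (J ⊕ Bool)) : sh (w.map (Sum.map f id)) = sh w := by
  unfold sh
  rw [List.map_map]
  congr 1
  funext a
  cases a <;> rfl

theorem sh_append (w w' : List (J ⊕ Bool)) : sh (w ++ w') = sh w ++ sh w' := List.map_append

theorem sh_arm (u : List J) (x : List (J ⊕ Bool)) : sh (arm u x) =
    arm (List.replicate u.length ()) (sh x) := by
  unfold sh
  rw [arm_map]
  congr 1
  induction u with
  | nil => rfl
  | cons a u ih => rw [List.map_cons, ih, List.length_cons, List.replicate_succ]

theorem uIx_length (m k : ℕ) (s : Bool) : (uIx m k s).length = m := by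
  unfold uIx
  rw [List.length_map, List.length_finRange]

theorem sh_pat_succ (m k : ℕ) : sh (pat m (k + 1)) = arm (List.replicate m ()) (sh (pat m k)) ++
    Sum.inr true :: arm (List.replicate m ()) (sh (pat m k)) := by
  change sh (arm (uIx m k false) ((pat m k).map (Sum.map (inIx false) id)) ++
      ([Sum.inr true] ++ arm (uIx m k true) ((pat m k).map (Sum.map (inIx true) id)))) = _
  rw [sh_append, sh_append, sh_arm, sh_arm, sh_map, sh_map, uIx_length, uIx_length]
  rfl

theorem map_uIx {m k : ℕ} (t : Ix m (k + 1) → J) (s : Bool) :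
    (uIx m k s).map t = List.ofFn fun r => t (s, Sum.inl r) := by
  unfold uIx
  rw [List.map_map, List.ofFn_eq_map]
  rfl

/-- **a nested palindrome with the shape of the pattern is given by letters** -/
theorem exists_wd (m k : ℕ) : ∀ {w : List (J ⊕ Bool)}, w ∈ nestPal J k → sh w = sh (pat m k) →
    ∃ t : Ix m k → J, w = wd t := by
  induction k with
  | zero =>
    intro w hw _
    have h1 : w = [] := hw
    exact ⟨fun i => (i : Empty).elim, by rw [h1]; rfl⟩
  | succ k ih =>
    rintro w ⟨u, v, x, y, hx, hy, rfl⟩ h
    rw [sh_pat_succ] at h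
    have h0 : sh (arm u x ++ Sum.inr true :: arm v y) =
        arm (List.replicate u.length ()) (sh x) ++ Sum.inr true ::
          arm (List.replicate v.length ()) (sh y) := by
      change sh (arm u x ++ ([Sum.inr true] ++ arm v y)) = _
      rw [sh_append, sh_append, sh_arm, sh_arm]
      rfl
    rw [h0] at h
    unfold arm at h
    simp only [List.append_assoc, List.cons_append] at h
    obtain ⟨hu, h1⟩ := inl_split h
    have hP : sh (pat m k) ∈ nestPal Unit k := nest_map _ k (pat_mem m k)
    obtain ⟨hsx, h2⟩ := nest_prefix k (nest_map _ k hx) hP h1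
    have h3 := (List.cons.inj h2).2
    rw [hu] at h3
    have h4 := List.append_cancel_left h3
    have h5 := (List.cons.inj h4).2
    obtain ⟨hv, h6⟩ := inl_split h5
    obtain ⟨hsy, h7⟩ := nest_prefix k (nest_map _ k hy) hP h6
    have hul : u.length = m := by simpa using congrArg List.length hu
    have hvl : v.length = m := by simpa using congrArg List.length hv
    obtain ⟨t₁, rfl⟩ := ih hx hsx
    obtain ⟨t₂, rfl⟩ := ih hy hsy
    subst hul
    let t : Ix u.length (k + 1) → J := fun i => match i with
      | (false, Sum.inl r) => u.get r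
      | (true, Sum.inl r) => v.get (r.cast hvl.symm)
      | (false, Sum.inr i) => t₁ i
      | (true, Sum.inr i) => t₂ i
    refine ⟨t, ?_⟩
    have e1 : (uIx u.length k false).map t = u := by
      rw [map_uIx]
      exact List.ofFn_get u
    have e2 : (uIx u.length k true).map t = v := by
      rw [map_uIx]
      apply List.ext_getElem
      · rw [List.length_ofFn, hvl]
      · intro n h8 h9
        rw [List.getElem_ofFn]
        rfl
    have e3 : ((pat u.length k).map (Sum.map (inIx false) id)).map (Sum.map t id) = wd t₁ := by
      unfold wd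
      rw [List.map_map]
      congr 1
      funext a
      cases a <;> rfl
    have e4 : ((pat u.length k).map (Sum.map (inIx true) id)).map (Sum.map t id) = wd t₂ := by
      unfold wd
      rw [List.map_map]
      congr 1
      funext a
      cases a <;> rfl
    change _ = (arm (uIx u.length k false) ((pat u.length k).map (Sum.map (inIx false) id)) ++
      Sum.inr true :: arm (uIx u.length k true)
        ((pat u.length k).map (Sum.map (inIx true) id))).map (Sum.map t id)
    rw [List.map_append, List.map_cons, arm_map, arm_map, e1, e2, e3, e4]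
    rfl

theorem pat_length (m k : ℕ) : (pat m (k + 1)).length = 2 * (2 * m + (pat m k).length + 2) + 1 := by
  change (arm (uIx m k false) ((pat m k).map (Sum.map (inIx false) id)) ++
      Sum.inr true :: arm (uIx m k true) ((pat m k).map (Sum.map (inIx true) id))).length = _
  rw [List.length_append, List.length_cons, arm_length, arm_length, uIx_length, uIx_length,
    List.length_map, List.length_map]
  omega

theorem pat_length_le (m k : ℕ) : (pat m k).length + 5 * (m + 1) ≤ 5 * 2 ^ k * (m + 1) := by
  induction k with
  | zero => change 0 + _ ≤ _; omega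
  | succ k ih =>
    rw [pat_length, pow_succ]
    have h1 : 5 * (2 ^ k * 2) * (m + 1) = 2 * (5 * 2 ^ k * (m + 1)) := by ring
    rw [h1]
    omega

end RCone
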