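import Pool.Agent.RCone.Inline

/-! # Languages whose images have small devices (helper70, MP_a8de0d_lc) -/

namespace RCone

open Language

variable {X Y W V : Type}

/-- Devices of size `m` and label length `B` -/
abbrev Dev := ∀ X : Type, ℕ → ℕ → Language X → Prop

/-- larger devices do more -/
def Dev.Mono (D : Dev) : Prop := ∀ (X : Type) (m m' B B' : ℕ) (R : Language X), m ≤ m' → B ≤ B' →
  D X m B R → D X m' B' R

/-- For every transduction with `m` states, the image of `K` is, up to length `n`, given by a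
device of size polynomial in `m + n`. -/
def PolyBy (D : Dev) (K : Language Y) : Prop :=
  ∀ B : ℕ, ∃ C e : ℕ, ∀ (X : Type) (m n : ℕ) (τ : Transducer Y X), Sized τ m B →
    ∃ R : Language X, D X (C * (m + n + 1) ^ e) C R ∧
      ∀ x : List X, x.length ≤ n → (x ∈ R ↔ x ∈ τ.image K)

/-- For every polynomial and all large `n`, no device of the size given by the polynomial agrees
with `P` up to length `n`. -/
def Hard (D : Dev) (P : Language X) : Prop :=
  ∀ C e : ℕ, ∃ N : ℕ, ∀ n, N ≤ n → ¬ ∃ R : Language X, D X (C * (n + 1) ^ e) C R ∧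
    ∀ x : List X, x.length ≤ n → (x ∈ R ↔ x ∈ P)

theorem poly_comp (C e C' e' a : ℕ) :
    C * (C' * (a + 1) ^ e' + a + 1) ^ e ≤ (C * (C' + 1) ^ e) * (a + 1) ^ ((e' + 1) * e) := by
  have h1 : C' * (a + 1) ^ e' + a + 1 ≤ (C' + 1) * (a + 1) ^ (e' + 1) := by
    have h2 : 1 ≤ (a + 1) ^ e' := Nat.one_le_pow _ _ (Nat.succ_pos a)
    calc C' * (a + 1) ^ e' + a + 1 = C' * (a + 1) ^ e' + (a + 1) := by ring
      _ ≤ C' * ((a + 1) ^ e' * (a + 1)) + (a + 1) ^ e' * (a + 1) :=
          Nat.add_le_add (Nat.mul_le_mul_left _ (Nat.le_mul_of_pos_right _ (Nat.succ_pos a)))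
            (Nat.le_mul_of_pos_left _ h2)
      _ = _ := by ring
  calc C * (C' * (a + 1) ^ e' + a + 1) ^ e
      ≤ C * ((C' + 1) * (a + 1) ^ (e' + 1)) ^ e := Nat.mul_le_mul_left _ (Nat.pow_le_pow_left h1 _)
    _ = _ := by rw [mul_pow, ← pow_mul]; ring

theorem not_linApprox_of_hard {D : Dev} (hD : D.Mono) {K : Language Y} {P : Language X}
    (hK : PolyBy D K) (hP : Hard D P) : ¬ LinApprox K P := by
  rintro ⟨C₀, h₀⟩
  obtain ⟨C, e, hC⟩ := hK C₀
  obtain ⟨N, hN⟩ := hP (C * (C₀ + 1) ^ e + C) e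
  obtain ⟨n, hn, τ, hs, hτ⟩ := h₀ N
  obtain ⟨R, hR, hRτ⟩ := hC X _ n τ hs
  refine hN n hn ⟨R, hD _ _ _ _ _ _ ?_ (Nat.le_add_left _ _) hR, fun x hx => ?_⟩
  · have h1 : C₀ * (n + 1) + n + 1 = (C₀ + 1) * (n + 1) := by ring
    rw [h1, mul_pow]
    calc C * ((C₀ + 1) ^ e * (n + 1) ^ e) = (C * (C₀ + 1) ^ e) * (n + 1) ^ e := by ring
      _ ≤ _ := Nat.mul_le_mul_right _ (Nat.le_add_right _ _)
  · rw [hRτ x hx]
    exact hτ x hx

theorem PolyBy.of_geq [Finite Y] {D : Dev} (hD : D.Mono) {K : Language W} {L : Language Y}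
    (hK : PolyBy D K) (h : Geq K L) : PolyBy D L := by
  obtain ⟨ρ, hρ⟩ := h
  obtain ⟨m₀, B₀, _, hs₀⟩ := exists_sized ρ
  intro B
  set B' := max B₀ B with hB'
  obtain ⟨C, e, hC⟩ := hK B'
  set c := (nsh Y (B' + B') + 1) * m₀ with hc
  refine ⟨C * (c + 1) ^ e + C, e, fun X m n τ hs => ?_⟩
  obtain ⟨κ, hκ, hκi⟩ := exists_comp ρ τ (hs₀.mono le_rfl (le_max_left _ B))
    (hs.mono le_rfl (le_max_right B₀ _))
  obtain ⟨R, hR, hRτ⟩ := hC X _ n κ hκ
  refine ⟨R, hD _ _ _ _ _ _ ?_ (Nat.le_add_left _ _) hR, fun x hx => ?_⟩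
  · have h1 : (nsh Y (B' + B') + 1) * (m₀ * m) + n + 1 ≤ (c + 1) * (m + n + 1) := by
      have : (nsh Y (B' + B') + 1) * (m₀ * m) = c * m := by rw [hc]; ring
      rw [this]
      nlinarith [Nat.zero_le (c * n), Nat.zero_le c]
    calc C * ((nsh Y (B' + B') + 1) * (m₀ * m) + n + 1) ^ e
        ≤ C * ((c + 1) * (m + n + 1)) ^ e := Nat.mul_le_mul_left _ (Nat.pow_le_pow_left h1 _)
      _ = (C * (c + 1) ^ e) * (m + n + 1) ^ e := by rw [mul_pow]; ring
      _ ≤ _ := Nat.mul_le_mul_right _ (Nat.le_add_right _ _)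
  · rw [hRτ x hx, hκi, hρ]

/-- the nondeterministic automata -/
def NfaD : Dev := fun _ m B R => Nfa m B R

theorem NfaD_mono : NfaD.Mono := fun _ _ _ _ _ _ hm hB h => Nfa.mono h hm hB

/-- **Inlining**: transductions of a substitution by languages with small automata -/
theorem exists_inline [Finite W] [Finite Y] (f : Y → Language W) (hf : ∀ y, PolyBy NfaD (f y))
    (B : ℕ) : ∃ C e : ℕ, ∀ (X : Type) (m n : ℕ) (τ : Transducer W X), Sized τ m B →
      ∃ ρ : Transducer Y X, Sized ρ (C * (m + n + 1) ^ e) C ∧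
        ∀ K : Language Y, ∀ x : List X, x.length ≤ n → (x ∈ ρ.image K ↔
          x ∈ τ.image (substL K f)) := by
  classical
  have hYf : Fintype Y := Fintype.ofFinite Y
  set B' := max B 1 with hB'
  choose C₁ e₁ h₁ using fun y => hf y B'
  set C := (Finset.univ.sum C₁) with hC
  set e := (Finset.univ.sum e₁) with he
  have hCy : ∀ y, C₁ y ≤ C := fun y => Finset.single_le_sum (f := C₁) (fun _ _ => Nat.zero_le _)
    (Finset.mem_univ y)
  have hey : ∀ y, e₁ y ≤ e := fun y => Finset.single_le_sum (f := e₁) (fun _ _ => Nat.zero_le _)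
    (Finset.mem_univ y)
  set c := (nsh W (B' + B') + 1) with hc
  set y₀ := Fintype.card Y with hy₀
  refine ⟨c + c * y₀ * c * (C * (c + 1) ^ e) + 2 + max B' C, e + 2, fun X m n τ hs => ?_⟩
  obtain ⟨κ, hκ, hκi, hκφ⟩ := exists_norm τ (le_max_right B 1) (hs.mono le_rfl (le_max_left _ _))
  obtain ⟨⟨σ, hσ, M, hM, hcard⟩, hl⟩ := hκ
  have hcm : Fintype.card σ ≤ c * m := hcard.trans (by rw [one_mul])
  -- the automata of the segments
  have hseg : ∀ i : σ × Y × σ, ∃ (Zn : Type) (_ : Finite Zn) (σn : Type) (_ : Fintype σn)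
      (N : DFA Zn σn) (ψn : Zn → List X), Fintype.card σn ≤ (C * (c + 1) ^ e) * (m + n + 1) ^ e ∧
      (∀ z, (ψn z).length ≤ C) ∧ ∀ x : List X, x.length ≤ n →
        ((∃ g ∈ N.accepts, g.flatMap ψn = x) ↔ x ∈ (κ.part M i.1 i.2.2).image (f i.2.1)) := by
    rintro ⟨p, y, q⟩
    obtain ⟨R, hR, hRi⟩ := h₁ y X (c * m) n (κ.part M p q) (Transducer.part_sized hl M hcm p q)
    obtain ⟨Zn, hZn, σn, hσn, N, ψn, g1, g2, g3⟩ := hR
    refine ⟨Zn, hZn, σn, hσn, N, ψn, g1.trans ?_, fun z => (g2 z).trans (hCy y), fun x hx => ?_⟩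
    · have h2 : c * m + n + 1 ≤ (c + 1) * (m + n + 1) := by
        nlinarith [Nat.zero_le (c * n), Nat.zero_le c]
      calc C₁ y * (c * m + n + 1) ^ e₁ y
          ≤ C * ((c + 1) * (m + n + 1)) ^ e := by
            refine Nat.mul_le_mul (hCy y) ((Nat.pow_le_pow_left h2 _).trans
              (Nat.pow_le_pow_right ?_ (hey y)))
            positivity
        _ = _ := by rw [mul_pow]; ring
    · rw [← hRi x hx, g3]
      rfl
  choose Zn hZn σn hσn N ψn g1 g2 g3 using hseg
  have hfin : Finite κ.Z := κ.finZ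
  let ρ : Transducer Y X := {
    Z := ILt (σ × Y × σ) Zn {z : κ.Z // κ.φ z = []}
    finZ := inferInstance
    K := (inlDFA M (fun z => κ.φ z = []) N).accepts
    regK := ⟨_, inferInstance, inlDFA M (fun z => κ.φ z = []) N, rfl⟩
    φ := inlφ fun z => κ.φ z = []
    ψ := inlψ κ.ψ (fun z => κ.φ z = []) ψn }
  refine ⟨ρ, ⟨⟨_, inferInstance, inlDFA M (fun z => κ.φ z = []) N, rfl, ?_⟩, ?_⟩, ?_⟩
  · -- the number of states
    rw [Fintype.card_option, Fintype.card_option, Fintype.card_sum, Fintype.card_sigma]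
    set S := (C * (c + 1) ^ e) * (m + n + 1) ^ e with hS
    have h3 : ∑ i : σ × Y × σ, Fintype.card (σn i) ≤ (c * m) * (y₀ * (c * m)) * S := by
      calc ∑ i : σ × Y × σ, Fintype.card (σn i) ≤ ∑ i : σ × Y × σ, S :=
            Finset.sum_le_sum fun i _ => g1 i
        _ = Fintype.card (σ × Y × σ) * S := by
            rw [Finset.sum_const, Finset.card_univ, smul_eq_mul]
        _ ≤ _ := by
            rw [Fintype.card_prod, Fintype.card_prod]
            gcongr
    have h4 : Fintype.card σ + ∑ i : σ × Y × σ, Fintype.card (σn i) + 1 + 1 ≤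
        c * m + (c * m) * (y₀ * (c * m)) * S + 2 := by omega
    refine h4.trans ?_
    set A := m + n + 1 with hA
    have hA1 : 1 ≤ A := by omega
    have hmA : m ≤ A := by omega
    have h5 : c * m ≤ c * A ^ (e + 2) := by
      refine Nat.mul_le_mul_left _ (hmA.trans ?_)
      calc A = A ^ 1 := (pow_one A).symm
        _ ≤ A ^ (e + 2) := Nat.pow_le_pow_right hA1 (by omega)
    have h6 : (c * m) * (y₀ * (c * m)) * S ≤ (c * y₀ * c * (C * (c + 1) ^ e)) * A ^ (e + 2) := by
      calc (c * m) * (y₀ * (c * m)) * S ≤ (c * A) * (y₀ * (c * A)) * S := by gcongr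
        _ = _ := by rw [hS]; ring
    have h7 : 2 ≤ 2 * A ^ (e + 2) := Nat.le_mul_of_pos_right _ (by positivity)
    calc c * m + (c * m) * (y₀ * (c * m)) * S + 2
        ≤ c * A ^ (e + 2) + (c * y₀ * c * (C * (c + 1) ^ e)) * A ^ (e + 2) + 2 * A ^ (e + 2) := by
          omega
      _ = (c + c * y₀ * c * (C * (c + 1) ^ e) + 2) * A ^ (e + 2) := by ring
      _ ≤ _ := Nat.mul_le_mul_right _ (Nat.le_add_right _ _)
  · -- the labels
    rintro (i | ⟨i, z⟩ | z)
    · refine ⟨?_, Nat.zero_le _⟩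
      change 1 ≤ _
      have := le_max_right B 1
      have h8 : 1 ≤ max B' C := this.trans (le_max_left _ _)
      omega
    · refine ⟨Nat.zero_le _, ?_⟩
      have h8 : (ψn i z).length ≤ max B' C := (g2 i z).trans (le_max_right _ _)
      change (ψn i z).length ≤ _
      omega
    · refine ⟨Nat.zero_le _, ?_⟩
      have h8 : (κ.ψ z.1).length ≤ max B' C := ((hl z.1).2).trans (le_max_left _ _)
      change (κ.ψ z.1).length ≤ _
      omega
  · intro K x hx
    have h9 : x ∈ ρ.image K ↔ ∃ ys ∈ K, ∃ v p t, Path M.start (segL N ψn) ys v p ∧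
        (∀ z ∈ t, κ.φ z = []) ∧ M.evalFrom p t ∈ M.accept ∧ x = v ++ t.flatMap κ.ψ :=
      inl_iff M κ.ψ (fun z => κ.φ z = []) N ψn K x
    rw [h9, ← hκi, image_substL κ hκφ M hM]
    constructor
    · rintro ⟨ys, hys, v, p, t, hP, ht, hacc, rfl⟩
      rw [List.length_append] at hx
      refine ⟨ys, hys, v, p, t, hP.congr (n := n) (fun p y q w hw hwR => ?_) (by omega), ht, hacc,
        rfl⟩
      exact (g3 (p, y, q) w hw).mp hwR
    · rintro ⟨ys, hys, v, p, t, hP, ht, hacc, rfl⟩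
      rw [List.length_append] at hx
      refine ⟨ys, hys, v, p, t, hP.congr (n := n) (fun p y q w hw hwR => ?_) (by omega), ht, hacc,
        rfl⟩
      exact (g3 (p, y, q) w hw).mpr hwR

/-- **Closure under substitution** -/
theorem PolyBy.subst [Finite W] [Finite Y] {D : Dev} (hD : D.Mono) {K : Language Y}
    {f : Y → Language W} (hK : PolyBy D K) (hf : ∀ y, PolyBy NfaD (f y)) :
    PolyBy D (substL K f) := by
  intro B
  obtain ⟨C₁, e₁, h₁⟩ := exists_inline f hf B
  obtain ⟨C, e, h⟩ := hK C₁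
  refine ⟨C * (C₁ + 1) ^ e + C, (e₁ + 1) * e, fun X m n τ hs => ?_⟩
  obtain ⟨ρ, hρ, hρi⟩ := h₁ X m n τ hs
  obtain ⟨R, hR, hRi⟩ := h X _ n ρ hρ
  refine ⟨R, hD _ _ _ _ _ _ ?_ (Nat.le_add_left _ _) hR, fun x hx => ?_⟩
  · have h2 := poly_comp C e C₁ e₁ (m + n)
    have h3 : C * (C₁ * (m + n + 1) ^ e₁ + n + 1) ^ e ≤
        C * (C₁ * (m + n + 1) ^ e₁ + (m + n) + 1) ^ e :=
      Nat.mul_le_mul_left _ (Nat.pow_le_pow_left (by omega) _)
    exact (h3.trans h2).trans (Nat.mul_le_mul_right _ (Nat.le_add_right _ _))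
  · rw [hRi x hx, hρi K x hx]

theorem polyBy_counter : PolyBy NfaD counterLang := by
  intro B
  obtain ⟨C, hC⟩ : ∃ C, ∀ m n, m * (hmax m n B + 1) + 1 ≤ C * (m + n + 1) ^ 5 := by
    refine ⟨(B + 1) * ((B + 1) * (B + 1) + 2) + 2, fun m n => ?_⟩
    set A := m + n + 1 with hA
    have hA1 : 1 ≤ A := by omega
    have h1 : ntup m n B ≤ (B + 1) * (B + 1) * A ^ 4 := by
      unfold ntup
      have hm : m ≤ A := by omega
      have hn : n + 1 ≤ A := by omega
      calc m * ((n + 1) * (B + 1)) * (m * ((n + 1) * (B + 1)))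
          ≤ A * (A * (B + 1)) * (A * (A * (B + 1))) := by gcongr
        _ = _ := by ring
    have hp4 : 1 ≤ A ^ 4 := Nat.one_le_pow _ _ hA1
    have hp5 : 1 ≤ A ^ 5 := Nat.one_le_pow _ _ hA1
    have h2 : hmax m n B + 1 ≤ ((B + 1) * ((B + 1) * (B + 1) + 2) + 1) * A ^ 4 := by
      unfold hmax
      have h3 : ntup m n B + 2 ≤ ((B + 1) * (B + 1) + 2) * A ^ 4 := by
        rw [add_mul]
        omega
      calc (B + 1) * (ntup m n B + 2) + 1
          ≤ (B + 1) * (((B + 1) * (B + 1) + 2) * A ^ 4) + A ^ 4 :=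
            Nat.add_le_add (Nat.mul_le_mul_left _ h3) hp4
        _ = _ := by ring
    calc m * (hmax m n B + 1) + 1
        ≤ A * (((B + 1) * ((B + 1) * (B + 1) + 2) + 1) * A ^ 4) + A ^ 5 := by
          refine Nat.add_le_add (Nat.mul_le_mul ?_ h2) hp5
          omega
      _ = _ := by ring
  refine ⟨max C B, 5, fun X m n τ hs => ?_⟩
  obtain ⟨R, hR, hRi⟩ := nfa_of_counter hs n
  exact ⟨R, hR.mono ((hC m n).trans (Nat.mul_le_mul_right _ (le_max_left _ _)))
    (le_max_right _ _), hRi⟩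

/-- The iterated counter languages: the smallest family which contains the one-counter languages
and is closed under rational transductions and substitutions. -/
inductive IterCounter : ∀ Y : Type, Language Y → Prop
  | counter : IterCounter (Fin 3) counterLang
  | image {Y X : Type} [Finite Y] [Finite X] {L : Language Y} (τ : Transducer Y X) :
      IterCounter Y L → IterCounter X (τ.image L)
  | subst {Y W : Type} [Finite Y] [Finite W] {K : Language Y} (f : Y → Language W) :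
      IterCounter Y K → (∀ y, IterCounter W (f y)) → IterCounter W (substL K f)

theorem IterCounter.polyBy {Y : Type} {L : Language Y} (h : IterCounter Y L) :
    PolyBy NfaD L := by
  induction h with
  | counter => exact polyBy_counter
  | image τ _ ih => exact ih.of_geq NfaD_mono ⟨τ, rfl⟩
  | subst f _ _ ih ihf => exact ih.subst NfaD_mono ihf

end RCone
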