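import Pool.Agent.RCone.Sep

/-! # Which languages are pumpable (helper70, MP_a8de0d_lc) -/

namespace RCone

open Language

variable {X Y W V : Type}

/-- the words which some word of `S` completes to a word of `N` -/
def completes (N : Language X) (S : Set (List X)) : Set (List X) := {w | ∃ s ∈ S, w ++ s ∈ N}

/-- profile of an output suffix -/
def suf {Z σ : Type} (M : DFA Z σ) (φ : Z → List X) (ψ : Z → List Y) (m : ℕ) (y : List Y)
    (p : σ × {v : List Y // v.length ≤ m}) : Set (List X) :=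
  {s | ∃ g, M.evalFrom p.1 g ∈ M.accept ∧ p.2.1 ++ g.flatMap ψ = y ∧ g.flatMap φ = s}

theorem mem_image_suf {Z σ : Type} (M : DFA Z σ) (φ : Z → List X) (ψ : Z → List Y)
    (m : ℕ) (hm : ∀ z, (ψ z).length ≤ m) (N : Language X) (x y : List Y) :
    (∃ h ∈ M.accepts, h.flatMap φ ∈ N ∧ h.flatMap ψ = x ++ y) ↔
    ∃ p : σ × {v : List Y // v.length ≤ m}, ∃ h₁ : List Z, M.eval h₁ = p.1 ∧
      h₁.flatMap ψ = x ++ p.2.1 ∧ h₁.flatMap φ ∈ completes N (suf M φ ψ m y p) := by
  constructor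
  · rintro ⟨h, hK, hN, hψ⟩
    obtain ⟨h₁, h₂, v, rfl, e2, e3, e4⟩ := split_out ψ m hm h x y hψ
    refine ⟨(M.eval h₁, ⟨v, e3⟩), h₁, rfl, e2, h₂.flatMap φ, ⟨h₂, ?_, e4.symm, rfl⟩, ?_⟩
    · have : M.evalFrom M.start (h₁ ++ h₂) ∈ M.accept := hK
      rw [DFA.evalFrom_of_append] at this
      exact this
    · rw [← List.flatMap_append]
      exact hN
  · rintro ⟨p, h₁, e1, e2, s, ⟨g, g1, g2, rfl⟩, e3⟩
    refine ⟨h₁ ++ g, ?_, ?_, ?_⟩
    · change M.evalFrom M.start (h₁ ++ g) ∈ M.accept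
      rw [DFA.evalFrom_of_append]
      have : M.evalFrom M.start h₁ = p.1 := e1
      rw [this]
      exact g1
    · rw [List.flatMap_append]
      exact e3
    · rw [List.flatMap_append, e2, List.append_assoc, g2]

theorem pumpUp_of_wqo {N : Language X}
    (h : WellQuasiOrdered fun S T : Set (List X) => completes N S ⊆ completes N T) : PumpUp N := by
  intro Y _ τ c d
  obtain ⟨σ, _, M, hM⟩ := τ.regK
  have := τ.finZ
  obtain ⟨m, hm⟩ := exists_bound τ.ψ
  have : Finite {v : List Y // v.length ≤ m} := inferInstance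
  have hpre : IsPreorder (Set (List X)) (fun S T => completes N S ⊆ completes N T) :=
    { refl := fun S => subset_refl _
      trans := fun S T U h1 h2 => h1.trans h2 }
  obtain ⟨i, j, hij, hle⟩ := WellQuasiOrdered.pi
    (ι := σ × {v : List Y // v.length ≤ m}) (α := fun _ => Set (List X))
    (r := fun _ S T => completes N S ⊆ completes N T) (fun _ => h)
    (fun k => suf M τ.φ τ.ψ m (List.replicate k c ++ [d]))
  refine ⟨i, j, hij, fun x hx => ?_⟩
  rw [List.append_assoc] at hx ⊢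
  change ∃ h ∈ τ.K, _ at hx
  change ∃ h ∈ τ.K, _
  rw [← hM] at hx ⊢
  obtain ⟨p, h₁, e1, e2, e3⟩ := (mem_image_suf M τ.φ τ.ψ m hm N _ _).mp hx
  exact (mem_image_suf M τ.φ τ.ψ m hm N _ _).mpr ⟨p, h₁, e1, e2, hle p e3⟩

theorem pumpDown_of_wqo {N : Language X}
    (h : WellQuasiOrdered fun S T : Set (List X) => completes N T ⊆ completes N S) :
    PumpDown N := by
  intro Y _ τ c d
  obtain ⟨σ, _, M, hM⟩ := τ.regK
  have := τ.finZ
  obtain ⟨m, hm⟩ := exists_bound τ.ψ
  have : Finite {v : List Y // v.length ≤ m} := inferInstance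
  have hpre : IsPreorder (Set (List X)) (fun S T => completes N T ⊆ completes N S) :=
    { refl := fun S => subset_refl _
      trans := fun S T U h1 h2 => h2.trans h1 }
  obtain ⟨i, j, hij, hle⟩ := WellQuasiOrdered.pi
    (ι := σ × {v : List Y // v.length ≤ m}) (α := fun _ => Set (List X))
    (r := fun _ S T => completes N T ⊆ completes N S) (fun _ => h)
    (fun k => suf M τ.φ τ.ψ m (List.replicate k c ++ [d]))
  refine ⟨i, j, hij, fun x hx => ?_⟩
  rw [List.append_assoc] at hx ⊢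
  change ∃ h ∈ τ.K, _ at hx
  change ∃ h ∈ τ.K, _
  rw [← hM] at hx ⊢
  obtain ⟨p, h₁, e1, e2, e3⟩ := (mem_image_suf M τ.φ τ.ψ m hm N _ _).mp hx
  exact (mem_image_suf M τ.φ τ.ψ m hm N _ _).mpr ⟨p, h₁, e1, e2, hle p e3⟩

/-- a bound by a map to a well-quasi-ordered set -/
theorem wqo_of_map {α β : Type*} {r : α → α → Prop} {s : β → β → Prop} (hs : WellQuasiOrdered s)
    (F : α → β) (h : ∀ a b, s (F a) (F b) → r a b) : WellQuasiOrdered r := by
  intro f
  obtain ⟨m, n, hmn, hr⟩ := hs (F ∘ f)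
  exact ⟨m, n, hmn, h _ _ hr⟩

theorem wqo_regular {N : Language X} (h : N.IsRegular) :
    WellQuasiOrdered fun S T : Set (List X) => completes N S ⊆ completes N T := by
  obtain ⟨σ, _, M, rfl⟩ := h
  refine wqo_of_map (s := fun Q R : Set σ => Q = R) (Finite.wellQuasiOrdered _)
    (fun S => {q | ∃ s ∈ S, M.evalFrom q s ∈ M.accept}) ?_
  intro S T hST w hw
  obtain ⟨s, hs, hws⟩ := hw
  have h1 : M.eval w ∈ {q | ∃ s ∈ S, M.evalFrom q s ∈ M.accept} := by
    refine ⟨s, hs, ?_⟩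
    have : M.evalFrom M.start (w ++ s) ∈ M.accept := hws
    rwa [DFA.evalFrom_of_append] at this
  rw [hST] at h1
  obtain ⟨t, ht, h2⟩ := h1
  refine ⟨t, ht, ?_⟩
  change M.evalFrom M.start (w ++ t) ∈ M.accept
  rw [DFA.evalFrom_of_append]
  exact h2

theorem pumpUp_of_regular {N : Language X} (h : N.IsRegular) : PumpUp N :=
  pumpUp_of_wqo (wqo_regular h)

theorem PumpUp.of_geq [Finite Y] {N : Language X} {M : Language Y} [Finite X] (h : PumpUp N)
    (hg : Geq N M) : PumpUp M := by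
  obtain ⟨ρ, rfl⟩ := hg
  intro W _ τ c d
  obtain ⟨κ, hκ⟩ := exists_comp' ρ τ
  have := h W κ c d
  rwa [hκ] at this

theorem PumpDown.of_geq [Finite Y] {N : Language X} {M : Language Y} [Finite X] (h : PumpDown N)
    (hg : Geq N M) : PumpDown M := by
  obtain ⟨ρ, rfl⟩ := hg
  intro W _ τ c d
  obtain ⟨κ, hκ⟩ := exists_comp' ρ τ
  have := h W κ c d
  rwa [hκ] at this

end RCone
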