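import Pool.Agent.RCone.RankLow

/-! # Nested palindromes are hard (helper70, MP_a8de0d_lc) -/

namespace RCone

open Language

variable {X Y W V J : Type}

theorem wd_get {m k : ℕ} (t : Ix m k → J) (n : ℕ) :
    (wd t)[n]? = ((pat m k)[n]?).map (Sum.map t id) := by
  unfold wd
  rw [List.getElem?_map]

theorem get_left3 {a b d : List V} {n : ℕ} (h : n < a.length) : (a ++ b ++ d)[n]? = a[n]? := by
  rw [List.append_assoc, List.getElem?_append_left h]

theorem get_mid3 {a b d : List V} {n : ℕ} (h1 : a.length ≤ n) (h2 : n < a.length + b.length) :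
    (a ++ b ++ d)[n]? = b[n - a.length]? := by
  rw [List.append_assoc, List.getElem?_append_right h1, List.getElem?_append_left (by omega)]

theorem get_right3 {a b d : List V} {n : ℕ} (h : a.length + b.length ≤ n) :
    (a ++ b ++ d)[n]? = d[n - (a.length + b.length)]? := by
  rw [List.getElem?_append_right (by rw [List.length_append]; exact h), List.length_append]

/-- two words with the same cut agree on the letters which occur on both sides -/
theorem agree_on_br {m k : ℕ} {t t' : Ix m k → J} {α ω β α' ω' β' : List (J ⊕ Bool)}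
    (h1 : α ++ ω ++ β = wd t) (h2 : α' ++ ω' ++ β' = wd t') (hα : α.length = α'.length)
    (hω : ω.length = ω'.length) (hQ : α ++ ω' ++ β ∈ nestPal J k) :
    ∀ i ∈ Br (pat m k) α.length (α.length + ω.length), t i = t' i := by
  have hs1 : sh (α ++ ω ++ β) = sh (pat m k) := by rw [h1]; exact sh_map t _
  have hs2 : sh (α' ++ ω' ++ β') = sh (pat m k) := by rw [h2]; exact sh_map t' _
  have hshl : ∀ w : List (J ⊕ Bool), (sh w).length = w.length := fun w => List.length_map _
  have hs3 : sh (α ++ ω' ++ β) = sh (pat m k) := by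
    have h3 := hs1.trans hs2.symm
    rw [sh_append, sh_append, sh_append, sh_append, List.append_assoc, List.append_assoc] at h3
    obtain ⟨_, h4⟩ := List.append_inj h3 (by rw [hshl, hshl, hα])
    obtain ⟨h5, _⟩ := List.append_inj h4 (by rw [hshl, hshl, hω])
    rw [← hs1, sh_append, sh_append, sh_append, sh_append, h5]
  obtain ⟨t'', ht''⟩ := exists_wd m k hQ hs3
  rintro i ⟨n, n', hn, hn', hin, hout⟩
  have e1 : t'' i = t' i := by
    have h3 : (α ++ ω' ++ β)[n]? = (α' ++ ω' ++ β')[n]? := by
      rw [get_mid3 hin.1 (by omega), get_mid3 (by omega) (by omega), hα]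
    rw [ht'', h2, wd_get, wd_get, hn] at h3
    simpa using h3
  have e2 : t'' i = t i := by
    have h3 : (α ++ ω' ++ β)[n']? = (α ++ ω ++ β)[n']? := by
      by_cases hc : n' < α.length
      · rw [get_left3 hc, get_left3 hc]
      · rw [get_right3 (a := α) (b := ω') (by omega), get_right3 (a := α) (b := ω) (by omega), hω]
    rw [ht'', h1, wd_get, wd_get, hn'] at h3
    simpa using h3
  rw [← e2, e1]

/-- **Lower bound for grammars of bounded rank** -/
theorem rank_lower {k m s B b : ℕ} {R : Language (Bool ⊕ Bool)} (hR : GrDev k s B R) (hb : 1 ≤ b)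
    (hm : b * (B + 2) ≤ m)
    (h : ∀ x : List (Bool ⊕ Bool), x.length ≤ (pat m (k + 1)).length →
      (x ∈ R ↔ x ∈ nestPal Bool (k + 1))) :
    2 ^ b ≤ s * (((pat m (k + 1)).length + 1) * ((pat m (k + 1)).length + 1)) := by
  classical
  obtain ⟨N, hN, rule, rk, S, hcard, hrules, hrk, rfl⟩ := hR
  by_contra hcon
  push Not at hcon
  set π := pat m (k + 1) with hπ
  set ℓ := π.length with hℓ
  have hJ : Finite (Ix m (k + 1)) := Ix.finite m (k + 1)
  have hJf : Fintype (Ix m (k + 1)) := Fintype.ofFinite _
  have hwl : ∀ t : Ix m (k + 1) → Bool, (wd t).length = ℓ := fun t => List.length_map _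
  have hder : ∀ w : List (Bool ⊕ Bool), w.length ≤ ℓ → (DerL rule [Sum.inr S] w ↔
      w ∈ nestPal Bool (k + 1)) := fun w hw => h w hw
  -- a good word
  have hgood : ∃ t : Ix m (k + 1) → Bool, ∀ A α ω β, α ++ ω ++ β = wd t → RepL rule S A α β →
      DerL rule [Sum.inr A] ω → (Br π α.length (α.length + ω.length)).ncard < b := by
    by_contra hc
    push Not at hc
    choose A α ω β g1 g2 g3 g4 using hc
    have hlen : ∀ t, (α t).length + (ω t).length ≤ ℓ := by
      intro t
      have := congrArg List.length (g1 t)
      rw [hwl, List.length_append, List.length_append] at this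
      omega
    let key : (Ix m (k + 1) → Bool) → N × Fin (ℓ + 1) × Fin (ℓ + 1) := fun t =>
      (A t, ⟨(α t).length, by have := hlen t; omega⟩, ⟨(ω t).length, by have := hlen t; omega⟩)
    set M := Fintype.card (Ix m (k + 1)) with hM
    have hbM : b ≤ M := by
      have h1 := g4 fun _ => false
      refine h1.trans ?_
      rw [hM, ← Nat.card_eq_fintype_card, ← Set.ncard_univ]
      exact Set.ncard_le_ncard (Set.subset_univ _) (Set.toFinite _)
    have hpow : 2 ^ M = 2 ^ b * 2 ^ (M - b) := by rw [← pow_add]; congr 1; omega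
    obtain ⟨y, hy⟩ := Fintype.exists_lt_card_fiber_of_mul_lt_card (f := key) (n := 2 ^ (M - b)) (by
      rw [Fintype.card_fun, Fintype.card_bool, Fintype.card_prod, Fintype.card_prod,
        Fintype.card_fin, ← hM, hpow]
      refine Nat.mul_lt_mul_of_pos_right ?_ (by positivity)
      refine lt_of_le_of_lt ?_ hcon
      exact Nat.mul_le_mul_right _ hcard)
    set Bs := Br π y.2.1.val (y.2.1.val + y.2.2.val) with hBs
    have hne : (Finset.univ.filter fun t => key t = y).Nonempty := by
      rw [← Finset.card_pos]
      exact lt_of_le_of_lt (Nat.zero_le _) hy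
    obtain ⟨t₀, ht₀⟩ := hne
    have ht₀' : key t₀ = y := (Finset.mem_filter.mp ht₀).2
    have hBsb : b ≤ Bs.ncard := by
      have h1 := g4 t₀
      have h2 : (α t₀).length = y.2.1.val := by rw [← ht₀']
      have h3 : (ω t₀).length = y.2.2.val := by rw [← ht₀']
      rw [h2, h3] at h1
      exact h1
    have hcardc : Fintype.card ({i : Ix m (k + 1) // i ∉ Bs} → Bool) ≤ 2 ^ (M - b) := by
      rw [Fintype.card_fun, Fintype.card_bool]
      refine Nat.pow_le_pow_right (by norm_num) ?_
      have h1 : Fintype.card {i : Ix m (k + 1) // i ∉ Bs} = M - Bs.ncard := by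
        rw [Fintype.card_subtype_compl, ← hM]
        congr 1
        rw [← Nat.card_eq_fintype_card]
        rfl
      rw [h1]
      omega
    obtain ⟨t, ht, t', ht', htt, heq⟩ := Finset.exists_ne_map_eq_of_card_lt_of_maps_to
      (s := Finset.univ.filter fun t => key t = y)
      (t := (Finset.univ : Finset ({i : Ix m (k + 1) // i ∉ Bs} → Bool)))
      (f := fun t i => t i.1) (by
        rw [Finset.card_univ]
        exact lt_of_le_of_lt hcardc hy) (fun _ _ => Finset.mem_univ _)
    have hk1 : key t = y := (Finset.mem_filter.mp ht).2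
    have hk2 : key t' = y := (Finset.mem_filter.mp ht').2
    have hA : A t = A t' := by
      have := congrArg Prod.fst (hk1.trans hk2.symm)
      exact this
    have hα : (α t).length = (α t').length := by
      have := congrArg (fun q => q.2.1.val) (hk1.trans hk2.symm)
      exact this
    have hω : (ω t).length = (ω t').length := by
      have := congrArg (fun q => q.2.2.val) (hk1.trans hk2.symm)
      exact this
    have hcross : α t ++ ω t' ++ β t ∈ nestPal Bool (k + 1) := by
      rw [← hder]
      · exact g2 t _ (by rw [hA]; exact g3 t')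
      · have h1 := congrArg List.length (g1 t)
        rw [hwl, List.length_append, List.length_append] at h1
        rw [List.length_append, List.length_append]
        omega
    have hagree := agree_on_br (g1 t) (g1 t') hα hω hcross
    apply htt
    funext i
    by_cases hi : i ∈ Bs
    · apply hagree
      have h2 : (α t).length = y.2.1.val := by rw [← hk1]
      have h3 : (ω t).length = y.2.2.val := by rw [← hk1]
      rw [h2, h3]
      exact hi
    · exact congrFun heq ⟨i, hi⟩
  obtain ⟨t, ht⟩ := hgood
  have hS : DerL rule [Sum.inr S] (wd t) := (hder _ (by rw [hwl])).mpr (wd_mem t)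
  have h1 := rank_ge rule rk S (π := π) (x := wd t) hb hm hrules ht (k + 1) 0 id
    Function.injective_id ⟨[], [], by
      have : (Sum.map id id : Ix m (k + 1) ⊕ Bool → _) = id := by
        funext a
        cases a <;> rfl
      rw [this]
      simp [hπ], rfl⟩ S (wd t) hS [] [] (by simp) (by
      intro ω hω
      simpa using hω) (Nat.zero_le _) (by
      rw [hwl]
      have : (pat m (k + 1)).length = ℓ := rfl
      simp only [List.length_nil]
      omega)
  omega

/-- **Nested palindromes are hard for grammars of bounded rank** -/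
theorem hard_nest (k : ℕ) : Hard (GrD k) (nestPal Bool (k + 1)) := by
  intro C e
  set D := 5 * 2 ^ (k + 1) * (C + 3) with hD
  have hD1 : 1 ≤ D := by
    rw [hD]
    have : 1 ≤ 2 ^ (k + 1) := Nat.one_le_two_pow
    nlinarith
  obtain ⟨N, hN⟩ := exp_gt' C (e + 2) D
  refine ⟨D * (N + 1), fun n hn => ?_⟩
  rintro ⟨R, hR, hRx⟩
  set b := n / D with hbdef
  have hbN : N + 1 ≤ b := (Nat.le_div_iff_mul_le hD1).mpr (by rw [Nat.mul_comm]; exact hn)
  have hDb : D * b ≤ n := Nat.mul_div_le n D
  have hnb : n + 1 ≤ D * (b + 1) := by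
    have := Nat.lt_mul_div_succ n hD1
    exact this
  set m := b * (C + 2) with hm
  have hℓ : (pat m (k + 1)).length ≤ n := by
    have h1 := pat_length_le m (k + 1)
    have h2 : 5 * 2 ^ (k + 1) * (m + 1) ≤ 5 * 2 ^ (k + 1) * (b * (C + 3)) := by
      refine Nat.mul_le_mul_left _ ?_
      rw [hm]
      nlinarith
    have h3 : 5 * 2 ^ (k + 1) * (b * (C + 3)) = D * b := by rw [hD]; ring
    omega
  have h4 := rank_lower (b := b) (m := m) hR (by omega) le_rfl
    fun x hx => hRx x (hx.trans hℓ)
  have h5 := hN b (by omega)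
  have h6 : C * (n + 1) ^ e * (((pat m (k + 1)).length + 1) * ((pat m (k + 1)).length + 1)) ≤
      C * (D * (b + 1)) ^ (e + 2) := by
    calc C * (n + 1) ^ e * (((pat m (k + 1)).length + 1) * ((pat m (k + 1)).length + 1))
        ≤ C * (n + 1) ^ e * ((n + 1) * (n + 1)) := by gcongr
      _ = C * (n + 1) ^ (e + 2) := by ring
      _ ≤ _ := by gcongr
  exact absurd (h4.trans h6) (not_le.mpr h5)

end RCone
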