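import Pool.Agent.RCone.Patt

/-! # The rank of nested palindromes (helper70, MP_a8de0d_lc) -/

namespace RCone

open Language

variable {X Y W V J : Type}

/-- letters which occur inside and outside the interval -/
def Br (π : List (J ⊕ Bool)) (h h' : ℕ) : Set J :=
  {b | ∃ n n' : ℕ, π[n]? = some (Sum.inl b) ∧ π[n']? = some (Sum.inl b) ∧ (h ≤ n ∧ n < h') ∧
    ¬ (h ≤ n' ∧ n' < h')}

/-- mirrored letters -/
def Mir (π : List (J ⊕ Bool)) (s e m : ℕ) (u : Fin m → J) : Prop :=
  ∀ r : Fin m, π[s + r.val]? = some (Sum.inl (u r)) ∧ π[e - 1 - r.val]? = some (Sum.inl (u r))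

theorem br_of_mir [Finite J] {π : List (J ⊕ Bool)} {s e m : ℕ} {u : Fin m → J}
    (hM : Mir π s e m u) (hu : Function.Injective u) {h h' r₀ b : ℕ} (hr : r₀ + b ≤ m)
    (hx : ∀ r, r₀ ≤ r → r < r₀ + b →
      ¬ ((h ≤ s + r ∧ s + r < h') ↔ (h ≤ e - 1 - r ∧ e - 1 - r < h'))) :
    b ≤ (Br π h h').ncard := by
  let f : Fin b → J := fun i => u ⟨r₀ + i.val, by have := i.2; omega⟩
  have hf : Function.Injective f := by
    intro i i' h1
    have h2 := congrArg Fin.val (hu h1)
    exact Fin.ext (by simpa using h2)
  have h1 : Set.range f ⊆ Br π h h' := by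
    rintro _ ⟨i, rfl⟩
    have hi := i.2
    obtain ⟨h2, h3⟩ := hM ⟨r₀ + i.val, by omega⟩
    have h4 := hx (r₀ + i.val) (by omega) (by omega)
    by_cases h5 : h ≤ s + (r₀ + i.val) ∧ s + (r₀ + i.val) < h'
    · exact ⟨_, _, h2, h3, h5, fun hc => h4 ⟨fun _ => hc, fun _ => h5⟩⟩
    · have h6 : h ≤ e - 1 - (r₀ + i.val) ∧ e - 1 - (r₀ + i.val) < h' := by
        by_contra hc
        exact h4 ⟨fun h => absurd h h5, fun h => absurd h hc⟩
      exact ⟨_, _, h3, h2, h6, h5⟩
  calc b = (Set.range f).ncard := by
        rw [← Set.image_univ, Set.ncard_image_of_injective _ hf, Set.ncard_univ, Nat.card_fin]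
    _ ≤ _ := Set.ncard_le_ncard h1 (Set.toFinite _)

/-- `s` occurs in `π` at position `p` -/
def Win (π : List V) (p : ℕ) (s : List V) : Prop := ∃ L R, π = L ++ s ++ R ∧ L.length = p

theorem Win.left {π : List V} {p : ℕ} {a s : List V} (h : Win π p (a ++ s)) : Win π p a := by
  obtain ⟨L, R, h1, h2⟩ := h
  exact ⟨L, s ++ R, by rw [h1]; simp, h2⟩

theorem Win.right {π : List V} {p : ℕ} {a s : List V} (h : Win π p (a ++ s)) :
    Win π (p + a.length) s := by
  obtain ⟨L, R, h1, h2⟩ := h
  exact ⟨L ++ a, R, by rw [h1]; simp, by rw [List.length_append, h2]⟩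

theorem Win.get {π : List V} {p : ℕ} {s : List V} (h : Win π p s) {n : ℕ} (hn : n < s.length) :
    π[p + n]? = s[n]? := by
  obtain ⟨L, R, h1, h2⟩ := h
  rw [h1, List.append_assoc, List.getElem?_append_right (by omega), h2,
    List.getElem?_append_left (by omega)]
  congr 1
  omega

theorem Win.le {π : List V} {p : ℕ} {s : List V} (h : Win π p s) : p + s.length ≤ π.length := by
  obtain ⟨L, R, h1, h2⟩ := h
  rw [h1, List.length_append, List.length_append]
  omega

theorem mir_of_win {π : List (J ⊕ Bool)} {p m : ℕ} {f : Fin m → J} {x : List (J ⊕ Bool)}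
    (h : Win π p (arm (List.ofFn f) x)) : Mir π p (p + (2 * m + x.length + 2)) m f := by
  intro r
  have hr := r.2
  have hlen : (arm (List.ofFn f) x).length = 2 * m + x.length + 2 := by
    rw [arm_length, List.length_ofFn]
  constructor
  · rw [h.get (by omega)]
    unfold arm
    rw [List.getElem?_append_left (by rw [List.length_map, List.length_ofFn]; exact hr),
      List.getElem?_map, List.getElem?_ofFn, dif_pos hr]
    rfl
  · have h1 : p + (2 * m + x.length + 2) - 1 - r.val =
        p + ((m + x.length + 2) + (m - 1 - r.val)) := by omega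
    rw [h1, h.get (by omega)]
    have h2 : arm (List.ofFn f) x = ((List.ofFn f).map Sum.inl ++ Sum.inr false ::
        (x ++ [Sum.inr false])) ++ (List.ofFn f).reverse.map Sum.inl := by
      unfold arm
      simp
    have h3 : ((List.ofFn f).map Sum.inl ++ (Sum.inr false : J ⊕ Bool) ::
        (x ++ [Sum.inr false])).length = m + x.length + 2 := by
      simp only [List.length_append, List.length_map, List.length_ofFn, List.length_cons,
        List.length_nil]
      omega
    rw [h2, List.getElem?_append_right (by omega), h3]
    have h4 : m + x.length + 2 + (m - 1 - r.val) - (m + x.length + 2) = m - 1 - r.val := by omega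
    rw [h4, List.getElem?_map, List.getElem?_reverse (by rw [List.length_ofFn]; omega),
      List.length_ofFn]
    have h5 : m - 1 - (m - 1 - r.val) = r.val := by omega
    rw [h5, List.getElem?_ofFn, dif_pos hr]
    rfl

/-- a part which contains many letters of an arm -/
theorem arm_child [Finite J] {π : List (J ⊕ Bool)} {s e m B b d : ℕ} {u : Fin m → J}
    (lo : ℕ → ℕ) (hM : Mir π s e m u) (hu : Function.Injective u) (hd : d ≤ B) (hb : 1 ≤ b)
    (hm : b * (B + 2) ≤ m)
    (hlo : ∀ n, lo 0 ≤ n → n < lo d → ∃ r < d, lo r ≤ n ∧ n < lo (r + 1))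
    (h0 : lo 0 ≤ s + b) (h1 : s + m ≤ lo d) :
    ∃ r < d, lo r ≤ s + m ∧ lo r + b < lo (r + 1) ∧
      ((Br π (lo r) (lo (r + 1))).ncard < b → e < lo (r + 1) + m) := by
  have hc : ∀ i : Fin (B + 1), s + b * (i.val + 1) + b ≤ s + m := by
    intro i
    have h2 : b * (i.val + 1) + b ≤ b * (B + 2) := by
      calc b * (i.val + 1) + b = b * (i.val + 2) := by ring
        _ ≤ b * (B + 2) := Nat.mul_le_mul_left _ (by have := i.2; omega)
    omega
  have hc' : ∀ i : Fin (B + 1), lo 0 ≤ s + b * (i.val + 1) := by
    intro i
    have : b * 1 ≤ b * (i.val + 1) := Nat.mul_le_mul_left _ (by omega)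
    omega
  have hex : ∀ i : Fin (B + 1), ∃ r < d, lo r ≤ s + b * (i.val + 1) ∧
      s + b * (i.val + 1) < lo (r + 1) := fun i => hlo _ (hc' i) (by have := hc i; omega)
  choose r hr1 hr2 hr3 using hex
  obtain ⟨i, i', hne, heq⟩ := Fintype.exists_ne_map_eq_of_card_lt
    (fun i : Fin (B + 1) => (⟨r i, hr1 i⟩ : Fin d)) (by
      rw [Fintype.card_fin, Fintype.card_fin]
      omega)
  have heq' : r i = r i' := congrArg Fin.val heq
  obtain ⟨i₁, i₂, hlt, he2⟩ : ∃ i₁ i₂ : Fin (B + 1), i₁.val < i₂.val ∧ r i₁ = r i₂ := by
    rcases lt_or_gt_of_ne (fun h => hne (Fin.ext h) : i.val ≠ i'.val) with h | h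
    · exact ⟨i, i', h, heq'⟩
    · exact ⟨i', i, h, heq'.symm⟩
  have h2 : b * (i₁.val + 1) + b ≤ b * (i₂.val + 1) := by
    calc b * (i₁.val + 1) + b = b * (i₁.val + 1 + 1) := by ring
      _ ≤ _ := Nat.mul_le_mul_left _ (by omega)
  have h3 := hr2 i₁
  have h4 := hr3 i₂
  rw [← he2] at h4
  have h5 := hc i₁
  refine ⟨r i₁, hr1 i₁, by omega, by omega, fun hn => ?_⟩
  by_contra hcon
  push Not at hcon
  have h6 := br_of_mir hM hu (h := lo (r i₁)) (h' := lo (r i₁ + 1)) (r₀ := b * (i₁.val + 1))
    (b := b) (by omega) (by
      intro q hq1 hq2 hiff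
      have h7 := hiff.mp ⟨by omega, by omega⟩
      omega)
  omega

/-- words of a list of letters and variables -/
def YRel {N : Type} (F : N → Language X) : X ⊕ N → List X → Prop
  | Sum.inl a, y => y = [a]
  | Sum.inr A, y => y ∈ F A

theorem SemL.yields {N : Type} {F : N → Language X} {γ : List (X ⊕ N)} {x : List X}
    (h : SemL F γ x) : ∃ ys : List (List X), List.Forall₂ (YRel F) γ ys ∧ x = ys.flatten := by
  induction h with
  | nil => exact ⟨[], List.Forall₂.nil, rfl⟩
  | term a _ ih =>
    obtain ⟨ys, h1, rfl⟩ := ih
    exact ⟨[a] :: ys, List.Forall₂.cons rfl h1, rfl⟩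
  | @nt A γ y x hy _ ih =>
    obtain ⟨ys, h1, rfl⟩ := ih
    exact ⟨y :: ys, List.Forall₂.cons hy h1, rfl⟩

theorem sem_of_yields {N : Type} {F : N → Language X} {γ : List (X ⊕ N)} {ys : List (List X)}
    (h : List.Forall₂ (YRel F) γ ys) : SemL F γ ys.flatten := by
  induction h with
  | nil => exact SemL.nil
  | @cons s y γ ys h1 _ ih =>
    match s, h1 with
    | Sum.inl a, h1 =>
      have : y = [a] := h1
      rw [this]
      exact SemL.term a ih
    | Sum.inr A, h1 => exact SemL.nt h1 ih

theorem find_pos (ys : List (List X)) : ∀ n, n < ys.flatten.length →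
    ∃ r < ys.length, (ys.take r).flatten.length ≤ n ∧ n < (ys.take (r + 1)).flatten.length := by
  induction ys with
  | nil => intro n hn; simp at hn
  | cons y ys ih =>
    intro n hn
    by_cases h : n < y.length
    · exact ⟨0, by simp, by simp, by simpa using h⟩
    · rw [List.flatten_cons, List.length_append] at hn
      obtain ⟨r, h1, h2, h3⟩ := ih (n - y.length) (by omega)
      refine ⟨r + 1, by rw [List.length_cons]; omega, ?_, ?_⟩
      · rw [List.take_succ_cons, List.flatten_cons, List.length_append]
        omega
      · rw [List.take_succ_cons, List.flatten_cons, List.length_append]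
        omega

theorem flatten_take_succ {ys : List (List X)} {r : ℕ} (hr : r < ys.length) :
    (ys.take (r + 1)).flatten = (ys.take r).flatten ++ ys[r] := by
  rw [List.take_succ_eq_append_getElem hr, List.flatten_append]
  simp

section main

variable {N : Type} (rule : N → List (X ⊕ N) → Prop) (rk : N → ℕ) (S : N)

/-- `A` may be replaced by any of its words -/
def RepL (A : N) (α β : List X) : Prop :=
  ∀ ω, DerL rule [Sum.inr A] ω → DerL rule [Sum.inr S] (α ++ ω ++ β)

/-- **Every variable which covers a nested pattern has a large rank** -/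
theorem rank_ge [Finite J] {π : List (J ⊕ Bool)} {x : List X} {B b m : ℕ} (hb : 1 ≤ b)
    (hm : b * (B + 2) ≤ m) (hR : ∀ A γ, rule A γ → γ.length ≤ B ∧ RankOK rk A γ)
    (hgood : ∀ A α ω β, α ++ ω ++ β = x → RepL rule S A α β → DerL rule [Sum.inr A] ω →
      (Br π α.length (α.length + ω.length)).ncard < b) (k : ℕ) :
    ∀ (p : ℕ) (ι : Ix m k → J), Function.Injective ι → Win π p ((pat m k).map (Sum.map ι id)) →
    ∀ A ω, DerL rule [Sum.inr A] ω → ∀ α β, α ++ ω ++ β = x → RepL rule S A α β →
      α.length ≤ p + b → p + (pat m k).length ≤ α.length + ω.length + b → k ≤ rk A := by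
  induction k with
  | zero => intros; exact Nat.zero_le _
  | succ k ihk =>
    intro p ι hι hwin
    have hbm : b ≤ m := by
      calc b = b * 1 := (mul_one b).symm
        _ ≤ b * (B + 2) := Nat.mul_le_mul_left _ (by omega)
        _ ≤ m := hm
    set ℓ := (pat m k).length with hℓ
    have hplen : (pat m (k + 1)).length = 2 * (2 * m + ℓ + 2) + 1 := pat_length m k
    -- the two arms
    have hw : (pat m (k + 1)).map (Sum.map ι id) =
        arm (List.ofFn fun r => ι (false, Sum.inl r)) ((pat m k).map (Sum.map (ι ∘ inIx false) id))
          ++ ([Sum.inr true] ++ arm (List.ofFn fun r => ι (true, Sum.inl r))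
            ((pat m k).map (Sum.map (ι ∘ inIx true) id))) := by
      change (arm (uIx m k false) ((pat m k).map (Sum.map (inIx false) id)) ++
        Sum.inr true :: arm (uIx m k true) ((pat m k).map (Sum.map (inIx true) id))).map
          (Sum.map ι id) = _
      rw [List.map_append, List.map_cons, arm_map, arm_map, map_uIx, map_uIx, List.map_map,
        List.map_map]
      have e1 : ∀ s, (Sum.map ι id ∘ Sum.map (inIx s) id : Ix m k ⊕ Bool → J ⊕ Bool) =
          Sum.map (ι ∘ inIx s) id := by
        intro s
        funext a
        cases a <;> rfl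
      rw [e1, e1]
      rfl
    rw [hw] at hwin
    have hw1 := hwin.left
    have hw2 := hwin.right.right
    have hlen1 : (arm (List.ofFn fun r => ι (false, Sum.inl r))
        ((pat m k).map (Sum.map (ι ∘ inIx false) id))).length = 2 * m + ℓ + 2 := by
      rw [arm_length, List.length_ofFn, List.length_map]
    rw [hlen1, List.length_singleton] at hw2
    have hM1 := mir_of_win hw1
    have hM2 := mir_of_win hw2
    rw [List.length_map] at hM1 hM2
    set z := p + (2 * m + ℓ + 2) with hz
    have hinj : ∀ s, Function.Injective (fun r : Fin m => ι (s, Sum.inl r)) := by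
      intro s r r' h
      have h1 := hι h
      exact Sum.inl_injective (Prod.mk.inj h1).2
    have hinj' : ∀ s, Function.Injective (ι ∘ inIx s) := by
      intro s r r' h
      have h1 := hι h
      exact Sum.inr_injective (Prod.mk.inj h1).2
    -- the inner windows
    have hsub : ∀ (q : ℕ) (f : Fin m → J) (w : List (J ⊕ Bool)), Win π q (arm (List.ofFn f) w) →
        Win π (q + m + 1) w := by
      intro q f w h
      have h1 : arm (List.ofFn f) w = ((List.ofFn f).map Sum.inl ++ [Sum.inr false]) ++
          (w ++ (Sum.inr false :: (List.ofFn f).reverse.map Sum.inl)) := by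
        unfold arm
        simp
      rw [h1] at h
      have h2 := h.right.left
      rw [List.length_append, List.length_map, List.length_ofFn, List.length_singleton] at h2
      rw [Nat.add_assoc]
      exact h2
    have hwin1 := hsub _ _ _ hw1
    have hwin2 := hsub _ _ _ hw2
    -- induction on the derivation
    let F : N → Language X := fun A => {ω | DerL rule [Sum.inr A] ω ∧ ∀ α β, α ++ ω ++ β = x →
      RepL rule S A α β → α.length ≤ p + b → p + (pat m (k + 1)).length ≤
        α.length + ω.length + b → k + 1 ≤ rk A}
    have hF : ∀ A δ ω, rule A δ → SemL F δ ω → ω ∈ F A := by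
      intro A δ ω hr hs
      have hFder : ∀ {γ : List (X ⊕ N)} {y : List X}, SemL F γ y → DerL rule γ y :=
        fun h => h.der fun _ _ h => h.1
      refine ⟨DerL.single hr (hFder hs), ?_⟩
      intro α β hx hrep hα hω
      obtain ⟨hδB, hok1, hok2⟩ := hR A δ hr
      obtain ⟨ys, hys, rfl⟩ := hs.yields
      have hylen : δ.length = ys.length := hys.length_eq
      let lo : ℕ → ℕ := fun r => α.length + (ys.take r).flatten.length
      have hlo0 : lo 0 = α.length := by simp [lo]
      have hlod : lo δ.length = α.length + ys.flatten.length := by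
        change α.length + (ys.take δ.length).flatten.length = _
        rw [hylen, List.take_length]
      have hlo : ∀ n, lo 0 ≤ n → n < lo δ.length → ∃ r < δ.length, lo r ≤ n ∧ n < lo (r + 1) := by
        intro n h1 h2
        rw [hlo0] at h1
        rw [hlod] at h2
        obtain ⟨r, h3, h4, h5⟩ := find_pos ys (n - α.length) (by omega)
        refine ⟨r, by omega, ?_, ?_⟩
        · change α.length + (ys.take r).flatten.length ≤ n
          omega
        · change n < α.length + (ys.take (r + 1)).flatten.length
          omega
      have hlos : ∀ r (hr : r < ys.length), lo (r + 1) = lo r + ys[r].length := by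
        intro r hr
        change α.length + (ys.take (r + 1)).flatten.length =
          α.length + (ys.take r).flatten.length + ys[r].length
        rw [flatten_take_succ hr, List.length_append]
        omega
      -- children
      have hchild : ∀ r (h1 : r < δ.length) (h2 : r < ys.length) C, δ[r] = Sum.inr C →
          ys[r] ∈ F C ∧ (α ++ (ys.take r).flatten) ++ ys[r] ++
            ((ys.drop (r + 1)).flatten ++ β) = x ∧
          RepL rule S C (α ++ (ys.take r).flatten) ((ys.drop (r + 1)).flatten ++ β) := by
        intro r h1 h2 C hC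
        have h3 : YRel F δ[r] ys[r] := by
          have := hys.get h1 h2
          simpa using this
        rw [hC] at h3
        have h4 : ys.flatten = (ys.take r).flatten ++ ys[r] ++ (ys.drop (r + 1)).flatten := by
          rw [← flatten_take_succ h2, ← List.flatten_append, List.take_append_drop]
        refine ⟨h3, ?_, ?_⟩
        · rw [← hx, h4]
          simp
        · intro ω' hω'
          have h5 : δ = δ.take r ++ Sum.inr C :: δ.drop (r + 1) := by
            rw [← hC, ← List.drop_eq_getElem_cons h1, List.take_append_drop]
          have h6 : DerL rule (δ.take r) (ys.take r).flatten :=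
            hFder (sem_of_yields (List.forall₂_take r hys))
          have h7 : DerL rule (δ.drop (r + 1)) (ys.drop (r + 1)).flatten :=
            hFder (sem_of_yields (List.forall₂_drop (r + 1) hys))
          have h8 := h6.append (hω'.append h7)
          have h9 : δ.take r ++ ([Sum.inr C] ++ δ.drop (r + 1)) = δ := by
            conv_rhs => rw [h5]
            simp
          rw [h9] at h8
          have h10 := hrep _ (DerL.single hr h8)
          have h11 : α ++ (ys.take r).flatten ++ ω' ++ ((ys.drop (r + 1)).flatten ++ β) =
            α ++ ((ys.take r).flatten ++ (ω' ++ (ys.drop (r + 1)).flatten)) ++ β := by simp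
          rw [h11]
          exact h10
      have hnear : ∀ r (h1 : r < δ.length) C, δ[r] = Sum.inr C →
          (Br π (lo r) (lo (r + 1))).ncard < b := by
        intro r h1 C hC
        obtain ⟨h3, h4, h5⟩ := hchild r h1 (by omega) C hC
        have h6 := hgood C _ _ _ h4 h5 h3.1
        rw [List.length_append] at h6
        rw [hlos r (by omega)]
        exact h6
      -- the two children which contain large parts of the arms
      have hbig : ∀ r (h1 : r < δ.length), lo r + b < lo (r + 1) → ∃ C, δ[r] = Sum.inr C := by
        intro r h1 h2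
        cases hc : δ[r] with
        | inr C => exact ⟨C, rfl⟩
        | inl a =>
          exfalso
          have h3 : YRel F δ[r] ys[r] := by
            have := hys.get h1 (by omega)
            simpa using this
          rw [hc] at h3
          have h4 : ys[r] = [a] := h3
          rw [hlos r (by omega), h4, List.length_singleton] at h2
          omega
      rw [hplen] at hω
      obtain ⟨r₁, a1, a2, a3, a4⟩ := arm_child (B := B) (b := b) (d := δ.length) lo hM1
        (hinj false) hδB hb hm hlo (by omega) (by rw [hlod]; omega)
      obtain ⟨r₂, b1, b2, b3, b4⟩ := arm_child (B := B) (b := b) (d := δ.length) lo hM2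
        (hinj true) hδB hb hm hlo (by omega) (by rw [hlod]; omega)
      obtain ⟨C₁, hC₁⟩ := hbig r₁ a1 a3
      obtain ⟨C₂, hC₂⟩ := hbig r₂ b1 b3
      have hn1 := hnear r₁ a1 C₁ hC₁
      have hn2 := hnear r₂ b1 C₂ hC₂
      have a5 := a4 hn1
      have b5 := b4 hn2
      by_cases hrr : r₁ = r₂
      · subst hrr
        obtain ⟨h3, h4, h5⟩ := hchild r₁ a1 (by omega) C₁ hC₁
        have hlow : lo r₁ < p + b := by
          by_contra hcon
          push Not at hcon
          have h6 := br_of_mir hM1 (hinj false) (h := lo r₁) (h' := lo (r₁ + 1)) (r₀ := 0)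
            (b := b) (by omega) (by
              intro q hq1 hq2 hiff
              have h7 := hiff.mpr ⟨by omega, by omega⟩
              omega)
          omega
        have hhigh : z + 1 + (2 * m + ℓ + 2) < lo (r₁ + 1) + b := by
          by_contra hcon
          push Not at hcon
          have h6 := br_of_mir hM2 (hinj true) (h := lo r₁) (h' := lo (r₁ + 1)) (r₀ := 0)
            (b := b) (by omega) (by
              intro q hq1 hq2 hiff
              have h7 := hiff.mp ⟨by omega, by omega⟩
              omega)
          omega
        have h6 := h3.2 _ _ h4 h5 (by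
          rw [List.length_append]
          have : lo r₁ = α.length + (ys.take r₁).flatten.length := rfl
          omega) (by
          rw [hplen, List.length_append]
          have h7 : lo r₁ = α.length + (ys.take r₁).flatten.length := rfl
          have h8 := hlos r₁ (by omega)
          omega)
        have h7 := hok1 C₁ (by
          rw [← hC₁]
          exact List.getElem_mem _)
        omega
      · obtain ⟨h3, h4, h5⟩ := hchild r₁ a1 (by omega) C₁ hC₁
        obtain ⟨g3, g4, g5⟩ := hchild r₂ b1 (by omega) C₂ hC₂
        have i1 := ihk _ _ (hinj' false) hwin1 C₁ _ h3.1 _ _ h4 h5 (by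
          rw [List.length_append]
          have : lo r₁ = α.length + (ys.take r₁).flatten.length := rfl
          omega) (by
          rw [List.length_append]
          have h7 : lo r₁ = α.length + (ys.take r₁).flatten.length := rfl
          have h8 := hlos r₁ (by omega)
          omega)
        have i2 := ihk _ _ (hinj' true) hwin2 C₂ _ g3.1 _ _ g4 g5 (by
          rw [List.length_append]
          have : lo r₂ = α.length + (ys.take r₂).flatten.length := rfl
          omega) (by
          rw [List.length_append]
          have h7 : lo r₂ = α.length + (ys.take r₂).flatten.length := rfl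
          have h8 := hlos r₂ (by omega)
          omega)
        have hdec : ∀ (r r' : ℕ) (h1 : r < δ.length) (h2 : r' < δ.length) (C C' : N),
            r < r' → δ[r] = Sum.inr C → δ[r'] = Sum.inr C' → rk C < rk A ∨ rk C' < rk A := by
          intro r r' h1 h2 C C' hlt hC hC'
          have e1 : δ = δ.take r ++ δ[r] :: δ.drop (r + 1) := by
            rw [← List.drop_eq_getElem_cons h1, List.take_append_drop]
          have e2 : δ.drop (r + 1) = (δ.drop (r + 1)).take (r' - (r + 1)) ++
              δ[r'] :: δ.drop (r' + 1) := by
            have h3 : δ.drop r' = (δ.drop (r + 1)).drop (r' - (r + 1)) := by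
              rw [List.drop_drop]
              congr 1
              omega
            rw [← List.drop_eq_getElem_cons h2, h3, List.take_append_drop]
          rw [hC] at e1
          rw [hC'] at e2
          exact hok2 _ C _ C' _ (e1.trans (by rw [← e2]))
        rcases lt_or_gt_of_ne hrr with h | h
        · have := hdec r₁ r₂ a1 b1 C₁ C₂ h hC₁ hC₂
          omega
        · have := hdec r₂ r₁ b1 a1 C₂ C₁ h hC₂ hC₁
          omega
    intro A ω hA
    have h1 := hA.sem hF
    cases h1 with
    | nt h2 h3 =>
      cases h3
      rw [List.append_nil]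
      exact h2.2

end main

end RCone
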