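import Mathlib

/-! # Closure properties of regular languages (helper70, MP_a8de0d_lc) -/

namespace RCone

open Language

variable {α β : Type}

theorem isRegular_of_dfa {σ : Type} [Finite σ] (M : DFA α σ) : M.accepts.IsRegular := by
  have := Fintype.ofFinite σ
  exact ⟨σ, this, M, rfl⟩

/-- all words whose letters satisfy `p` -/
def allL (p : α → Prop) : Language α := {w | ∀ z ∈ w, p z}

/-- one letter words -/
def oneL (p : α → Prop) : Language α := {w | ∃ z, p z ∧ w = [z]}

theorem mem_allL {p : α → Prop} {w : List α} : w ∈ allL p ↔ ∀ z ∈ w, p z := Iff.rfl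

theorem mem_oneL {p : α → Prop} {w : List α} : w ∈ oneL p ↔ ∃ z, p z ∧ w = [z] := Iff.rfl

open Classical in
theorem allL_regular (p : α → Prop) : (allL p).IsRegular := by
  let M : DFA α Bool := ⟨fun s z => s && decide (p z), true, {true}⟩
  have h : ∀ w : List α, M.eval w = true ↔ ∀ z ∈ w, p z := by
    intro w
    induction w using List.reverseRecOn with
    | nil => simp [DFA.eval, M]
    | append_singleton w a ih =>
      rw [DFA.eval_append_singleton]
      simp only [M, Bool.and_eq_true, decide_eq_true_eq] at ih ⊢
      rw [ih]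
      simp [or_imp, forall_and]
  have : M.accepts = allL p := by
    ext w
    exact h w
  rw [← this]
  exact isRegular_of_dfa M

open Classical in
theorem oneL_regular (p : α → Prop) : (oneL p).IsRegular := by
  let M : DFA α (Fin 3) := ⟨fun s z => if s = 0 ∧ p z then 1 else 2, 0, {1}⟩
  have h0 : ∀ w : List α, M.eval w = 0 ↔ w = [] := by
    intro w
    induction w using List.reverseRecOn with
    | nil => simp [DFA.eval, M]
    | append_singleton w a ih =>
      rw [DFA.eval_append_singleton]
      constructor
      · intro h
        exfalso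
        change (if M.eval w = 0 ∧ p a then (1 : Fin 3) else 2) = 0 at h
        split_ifs at h
        all_goals exact absurd h (by decide)
      · intro h
        simp at h
  have h1 : ∀ w : List α, M.eval w = 1 ↔ ∃ z, p z ∧ w = [z] := by
    intro w
    induction w using List.reverseRecOn with
    | nil => simp [DFA.eval, M]
    | append_singleton w a _ =>
      rw [DFA.eval_append_singleton]
      change (if M.eval w = 0 ∧ p a then (1 : Fin 3) else 2) = 1 ↔ _
      constructor
      · intro h
        split_ifs at h with hc
        · exact ⟨a, hc.2, by simp [(h0 w).mp hc.1]⟩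
        · exact absurd h (by decide)
      · rintro ⟨z, hz, hw⟩
        have hw' : w = [] ∧ a = z := by
          cases w with
          | nil => simpa using hw
          | cons b w => simp at hw
        rw [if_pos ⟨(h0 w).mpr hw'.1, hw'.2 ▸ hz⟩]
  have : M.accepts = oneL p := by
    ext w
    exact h1 w
  rw [← this]
  exact isRegular_of_dfa M

theorem top_regular : (⊤ : Language α).IsRegular := by
  have h := allL_regular (α := α) (fun _ => True)
  have : allL (α := α) (fun _ => True) = (⊤ : Language α) := by
    ext w
    constructor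
    · intro _; exact Set.mem_univ w
    · intro _ z _; trivial
  rwa [this] at h

open Classical in
theorem mul_regular {L₁ L₂ : Language α} (h₁ : L₁.IsRegular) (h₂ : L₂.IsRegular) :
    (L₁ * L₂).IsRegular := by
  obtain ⟨σ₁, _, M₁, rfl⟩ := h₁
  obtain ⟨σ₂, _, M₂, rfl⟩ := h₂
  let M : DFA α (σ₁ × Set σ₂) :=
    ⟨fun s a => (M₁.step s.1 a, {q | (∃ t ∈ s.2, M₂.step t a = q) ∨
        (M₁.step s.1 a ∈ M₁.accept ∧ q = M₂.start)}),
      (M₁.start, {q | M₁.start ∈ M₁.accept ∧ q = M₂.start}),
      {s | ∃ t ∈ s.2, t ∈ M₂.accept}⟩
  have h1 : ∀ w : List α, (M.eval w).1 = M₁.eval w := by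
    intro w
    induction w using List.reverseRecOn with
    | nil => rfl
    | append_singleton w a ih =>
      rw [DFA.eval_append_singleton, DFA.eval_append_singleton, ← ih]
  have h2 : ∀ w : List α, ∀ q, q ∈ (M.eval w).2 ↔
      ∃ u v, u ++ v = w ∧ u ∈ M₁.accepts ∧ M₂.eval v = q := by
    intro w
    induction w using List.reverseRecOn with
    | nil =>
      intro q
      constructor
      · rintro ⟨h, rfl⟩
        exact ⟨[], [], rfl, h, rfl⟩
      · rintro ⟨u, v, huv, hu, rfl⟩
        obtain ⟨rfl, rfl⟩ := List.append_eq_nil_iff.mp huv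
        exact ⟨hu, rfl⟩
    | append_singleton w a ih =>
      intro q
      rw [DFA.eval_append_singleton]
      change ((∃ t ∈ (M.eval w).2, M₂.step t a = q) ∨
        (M₁.step (M.eval w).1 a ∈ M₁.accept ∧ q = M₂.start)) ↔ _
      rw [h1]
      constructor
      · rintro (⟨t, ht, rfl⟩ | ⟨h, rfl⟩)
        · obtain ⟨u, v, huv, hu, hv⟩ := (ih t).mp ht
          refine ⟨u, v ++ [a], by rw [← huv, List.append_assoc], hu, ?_⟩
          rw [DFA.eval_append_singleton, hv]
        · refine ⟨w ++ [a], [], by simp, ?_, rfl⟩
          rw [DFA.mem_accepts, DFA.eval_append_singleton]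
          exact h
      · rintro ⟨u, v, huv, hu, rfl⟩
        rcases List.eq_nil_or_concat v with rfl | ⟨v', b, rfl⟩
        · right
          refine ⟨?_, rfl⟩
          rw [List.append_nil] at huv
          subst huv
          rw [DFA.mem_accepts, DFA.eval_append_singleton] at hu
          exact hu
        · left
          rw [List.concat_eq_append, ← List.append_assoc] at huv
          obtain ⟨h3, h4⟩ := List.append_inj' huv rfl
          have h5 : b = a := by simpa using h4
          subst h5
          refine ⟨M₂.eval v', (ih _).mpr ⟨u, v', h3, hu, rfl⟩, ?_⟩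
          rw [List.concat_eq_append, DFA.eval_append_singleton]
  have : M.accepts = M₁.accepts * M₂.accepts := by
    ext w
    rw [Language.mem_mul]
    constructor
    · rintro ⟨t, ht, hacc⟩
      obtain ⟨u, v, huv, hu, hv⟩ := (h2 w t).mp ht
      exact ⟨u, hu, v, by rw [DFA.mem_accepts, hv]; exact hacc, huv⟩
    · rintro ⟨u, hu, v, hv, huv⟩
      exact ⟨M₂.eval v, (h2 w _).mpr ⟨u, v, huv, hu, rfl⟩, hv⟩
  rw [← this]
  exact isRegular_of_dfa M

/-- inverse image under a homomorphism -/
def comapL (L : Language β) (f : α → List β) : Language α := {w | w.flatMap f ∈ L}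

theorem mem_comapL {L : Language β} {f : α → List β} {w : List α} :
    w ∈ comapL L f ↔ w.flatMap f ∈ L := Iff.rfl

theorem comap_regular {L : Language β} (h : L.IsRegular) (f : α → List β) :
    (comapL L f).IsRegular := by
  obtain ⟨σ, _, M, rfl⟩ := h
  let N : DFA α σ := ⟨fun s a => M.evalFrom s (f a), M.start, M.accept⟩
  have h1 : ∀ w : List α, N.eval w = M.eval (w.flatMap f) := by
    intro w
    induction w using List.reverseRecOn with
    | nil => rfl
    | append_singleton w a ih =>
      rw [DFA.eval_append_singleton, ih]
      simp only [List.flatMap_append, List.flatMap_cons, List.flatMap_nil, List.append_nil]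
      change M.evalFrom (M.evalFrom M.start (w.flatMap f)) (f a) = M.evalFrom M.start _
      rw [DFA.evalFrom_of_append]
  have : N.accepts = comapL M.accepts f := by
    ext w
    change N.eval w ∈ N.accept ↔ M.eval (w.flatMap f) ∈ M.accept
    rw [h1]
  rw [← this]
  exact isRegular_of_dfa N

/-- counting letters modulo `p` -/
def countL (c : α → Bool) (S : Set ℕ) : Language α := {w | w.countP c ∈ S}

theorem mem_countL {c : α → Bool} {S : Set ℕ} {w : List α} :
    w ∈ countL c S ↔ w.countP c ∈ S := Iff.rfl

theorem count_regular (c : α → Bool) (S : Set ℕ) (p : ℕ) (hp : 0 < p)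
    (hS : ∀ n, n ∈ S ↔ n + p ∈ S) : (countL c S).IsRegular := by
  have : NeZero p := ⟨hp.ne'⟩
  let M : DFA α (Fin p) := ⟨fun s a => if c a then s + 1 else s, 0, {s | s.val ∈ S}⟩
  have h1 : ∀ w : List α, M.eval w = Fin.ofNat p (w.countP c) := by
    intro w
    induction w using List.reverseRecOn with
    | nil => rfl
    | append_singleton w a ih =>
      rw [DFA.eval_append_singleton, ih, List.countP_append]
      by_cases h : c a
      · simp only [M, h, if_true, List.countP_cons_of_pos, List.countP_nil]
        apply Fin.ext
        simp [Fin.val_add, Fin.ofNat]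
      · simp [M, h]
  have h2 : ∀ n k, n ∈ S ↔ n + k * p ∈ S := by
    intro n k
    induction k with
    | zero => simp
    | succ k ih => rw [ih, hS, Nat.succ_mul, ← add_assoc]
  have : M.accepts = countL c S := by
    ext w
    change (M.eval w).val ∈ S ↔ w.countP c ∈ S
    rw [h1]
    have h3 : (Fin.ofNat p (w.countP c)).val = w.countP c % p := rfl
    rw [h3, h2 (w.countP c % p) (w.countP c / p), mul_comm, Nat.mod_add_div]
  rw [← this]
  exact isRegular_of_dfa M

end RCone
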