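import Pool.Agent.RCone.Join
import Pool.Agent.RCone.Alg

/-! # Pumpable languages and the separation theorem (helper70, MP_a8de0d_lc) -/

namespace RCone

open Language

variable {X Y W V : Type}

/-- In every image of `N` the last block can be lengthened from some `i` to some `j > i`. -/
def PumpUp (N : Language X) : Prop :=
  ∀ (Y : Type) [Finite Y] (τ : Transducer X Y) (c d : Y), ∃ i j, i < j ∧ ∀ x : List Y,
    x ++ List.replicate i c ++ [d] ∈ τ.image N → x ++ List.replicate j c ++ [d] ∈ τ.image N

/-- In every image of `N` the last block can be shortened from some `j` to some `i < j`. -/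
def PumpDown (N : Language X) : Prop :=
  ∀ (Y : Type) [Finite Y] (τ : Transducer X Y) (c d : Y), ∃ i j, i < j ∧ ∀ x : List Y,
    x ++ List.replicate j c ++ [d] ∈ τ.image N → x ++ List.replicate i c ++ [d] ∈ τ.image N

theorem PumpUp.iter {N : Language X} (h : PumpUp N) [Finite Y] (τ : Transducer X Y) (c d : Y) :
    ∃ i₀ p, 0 < p ∧ ∀ k, i₀ ≤ k → ∀ t, ∀ x : List Y,
    x ++ List.replicate k c ++ [d] ∈ τ.image N →
      x ++ List.replicate (k + p * t) c ++ [d] ∈ τ.image N := by
  obtain ⟨i, j, hij, h⟩ := h Y τ c d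
  refine ⟨i, j - i, by omega, ?_⟩
  have step : ∀ k, i ≤ k → ∀ x : List Y, x ++ List.replicate k c ++ [d] ∈ τ.image N →
      x ++ List.replicate (k + (j - i)) c ++ [d] ∈ τ.image N := by
    intro k hk x hx
    have h1 := h (x ++ List.replicate (k - i) c)
    have e0 : ∀ m, x ++ List.replicate (k - i) c ++ List.replicate m c ++ [d] =
        x ++ List.replicate (k - i + m) c ++ [d] := by
      intro m
      rw [List.append_assoc x, ← List.replicate_add]
    rw [e0, e0] at h1
    have e1 : k - i + i = k := by omega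
    have e2 : k - i + j = k + (j - i) := by omega
    rw [e1, e2] at h1
    exact h1 hx
  intro k hk t
  induction t with
  | zero => intro x hx; simpa using hx
  | succ t ih =>
    intro x hx
    have h1 := step (k + (j - i) * t) (by omega) x (ih x hx)
    have e : k + (j - i) * t + (j - i) = k + (j - i) * (t + 1) := by ring
    rwa [e] at h1

theorem PumpDown.iter {N : Language X} (h : PumpDown N) [Finite Y] (τ : Transducer X Y)
    (c d : Y) : ∃ i₀ p, 0 < p ∧ ∀ k, i₀ ≤ k → ∀ t, ∀ x : List Y,
    x ++ List.replicate (k + p * t) c ++ [d] ∈ τ.image N →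
      x ++ List.replicate k c ++ [d] ∈ τ.image N := by
  obtain ⟨i, j, hij, h⟩ := h Y τ c d
  refine ⟨i, j - i, by omega, ?_⟩
  have step : ∀ k, i ≤ k → ∀ x : List Y,
      x ++ List.replicate (k + (j - i)) c ++ [d] ∈ τ.image N →
      x ++ List.replicate k c ++ [d] ∈ τ.image N := by
    intro k hk x hx
    have h1 := h (x ++ List.replicate (k - i) c)
    have e0 : ∀ m, x ++ List.replicate (k - i) c ++ List.replicate m c ++ [d] =
        x ++ List.replicate (k - i + m) c ++ [d] := by
      intro m
      rw [List.append_assoc x, ← List.replicate_add]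
    rw [e0, e0] at h1
    have e1 : k - i + i = k := by omega
    have e2 : k - i + j = k + (j - i) := by omega
    rw [e1, e2] at h1
    exact h1 hx
  intro k hk t
  induction t with
  | zero => intro x hx; simpa using hx
  | succ t ih =>
    intro x hx
    have e : k + (j - i) * (t + 1) = k + (j - i) * t + (j - i) := by ring
    rw [e] at hx
    exact ih x (step (k + (j - i) * t) (by omega) x hx)

/-- **Separation**: a sparser clock together with a pumpable language does not dominate a denser
clock. -/
theorem not_join_geq [Finite X] {N : Language X} (hN : PumpUp N ∨ PumpDown N) {A B : Set ℕ}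
    (hAB : ∀ n, ∃ a, n ≤ a ∧ a ∈ A ∧ a ∉ B) : ¬ Geq (join N (H B)) (H A) := by
  intro hgeq
  obtain ⟨τ₁, τ, hτ⟩ := join_elim hgeq
  have hsub : ∀ y, y ∈ τ.image (H B) → y ∈ H A := fun y hy => by rw [hτ]; exact Or.inr hy
  have hsub₁ : ∀ y, y ∈ τ₁.image N → y ∈ H A := fun y hy => by rw [hτ]; exact Or.inl hy
  -- the two possibilities give a common form
  obtain ⟨i₀, p, hp, hpump⟩ : ∃ i₀ p, 0 < p ∧
      ((∀ k, i₀ ≤ k → ∀ t, ∀ x : List Sym,
        x ++ List.replicate k none ++ [some 2] ∈ τ₁.image N →
          x ++ List.replicate (k + p * t) none ++ [some 2] ∈ τ₁.image N) ∨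
      (∀ k, i₀ ≤ k → ∀ t, ∀ x : List Sym,
        x ++ List.replicate (k + p * t) none ++ [some 2] ∈ τ₁.image N →
          x ++ List.replicate k none ++ [some 2] ∈ τ₁.image N)) := by
    rcases hN with h | h
    · obtain ⟨i₀, p, hp, h⟩ := h.iter τ₁ none (some 2)
      exact ⟨i₀, p, hp, Or.inl h⟩
    · obtain ⟨i₀, p, hp, h⟩ := h.iter τ₁ none (some 2)
      exact ⟨i₀, p, hp, Or.inr h⟩
  obtain ⟨c, hc⟩ := exists_pump τ
  obtain ⟨c', hc'⟩ := exists_pump τ.inv
  obtain ⟨N₀, hN₀⟩ := growth (c + c' + (p + i₀))
  obtain ⟨a, haN, haA, haB⟩ := hAB (N₀ + 2)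
  set s := 2 * a with hs
  have hs2 : s - 2 + 2 = s := by omega
  set κ := rul (zz s) with hκ
  have hκA : κ ∉ H A := rul_zz_not_mem haA
  -- the finite part below `κ`
  set y₀ := rul (zz (s - 2)) with hy₀
  set S₀ : Set ℕ := {n | ∃ b ∈ B, b < a ∧ n = T (2 * b)} with hS₀
  have hD : ∀ x, x ∈ ((prefDFA y₀ S₀)ᶜ).accepts ↔ ¬ (x <+: y₀ ∧ x.length ∈ S₀) := by
    intro x
    rw [DFA.accepts_compl]
    exact not_congr (prefDFA_accepts y₀ S₀ x)
  have hBD : ∀ x ∈ H B, x ∈ ((prefDFA y₀ S₀)ᶜ).accepts := by
    intro x hx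
    rw [hD]
    rintro ⟨h1, b, hb, hba, h2⟩
    have h3 : rul (zz (2 * b)) <+: y₀ := rul_prefix (by omega)
    have h4 : x = rul (zz (2 * b)) := by
      have h5 : x <+: rul (zz (2 * b)) := List.prefix_of_prefix_length_le h1 h3 h2.le
      exact h5.eq_of_length h2
    rw [h4] at hx
    exact rul_zz_not_mem hb hx
  -- last block of `κ`
  obtain ⟨ini, hini⟩ : ∃ ini, zz s = ini ++ [2] := by
    have hl := (good_zz s).last
    rcases List.eq_nil_or_concat (zz s) with h | ⟨t, b, h⟩
    · rw [h] at hl; simp at hl
    · rw [h, List.concat_eq_append, List.getLast?_append] at hl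
      simp only [List.getLast?_singleton, Option.some_or, Option.some.injEq] at hl
      exact ⟨t, by rw [h, hl, List.concat_eq_append]⟩
  have hlen : 1 + ini.length = 2 ^ E s := by
    have := congrArg List.length hini
    rw [length_zz, List.length_append, List.length_singleton] at this
    omega
  have hκe : κ = rulF 1 ini ++ List.replicate (1 + ini.length) none ++ [some 2] := by
    rw [hκ, hini, rul, rulF_append, rulF, rulF]
    simp
  have hgr := hN₀ (s - 2) (by omega)
  rw [hs2] at hgr
  have hgr' := hN₀ s (by omega)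
  have hTs : y₀.length = T (s - 2) := rfl
  set k := 1 + ini.length with hk
  -- number of admissible pumping steps
  set n₁ := 2 ^ (c * (T (s - 2) + 2)) with hn₁
  have hn₁k : p * n₁ + i₀ ≤ k := by
    have h1 : p + i₀ ≤ 2 ^ ((p + i₀) * (T (s - 2) + 2)) := by
      calc p + i₀ ≤ 2 ^ (p + i₀) := Nat.lt_two_pow_self.le
        _ ≤ 2 ^ ((p + i₀) * (T (s - 2) + 2)) :=
            Nat.pow_le_pow_right (by norm_num) (Nat.le_mul_of_pos_right _ (by omega))
    have h2 : 1 ≤ n₁ := Nat.one_le_two_pow
    calc p * n₁ + i₀ ≤ p * n₁ + i₀ * n₁ := by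
          have := Nat.le_mul_of_pos_right i₀ h2
          omega
      _ = n₁ * (p + i₀) := by ring
      _ ≤ n₁ * 2 ^ ((p + i₀) * (T (s - 2) + 2)) := Nat.mul_le_mul_left _ h1
      _ = 2 ^ ((c + (p + i₀)) * (T (s - 2) + 2)) := by rw [hn₁, ← pow_add]; ring_nf
      _ ≤ 2 ^ E s := by
          apply Nat.pow_le_pow_right (by norm_num)
          refine le_trans ?_ hgr
          exact Nat.mul_le_mul_right _ (by omega)
      _ = k := hlen.symm
  have hcard : 2 ^ (c * Fintype.card (Option (Fin (y₀.length + 1)))) ≤ n₁ := by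
    rw [card_prefDFA, hTs]
  obtain ⟨i, j, hij, hj, hw⟩ := hc _ ((prefDFA y₀ S₀)ᶜ)
    (fun n => rulF 1 ini ++ List.replicate (p * n) none) n₁ hcard
  have hpj : p * j ≤ p * n₁ := Nat.mul_le_mul_left _ hj
  have hpij : p * i < p * j := Nat.mul_lt_mul_of_pos_left hij hp
  -- a wrong last block
  have hwrong : ∀ k', k' ≠ k → rulF 1 ini ++ List.replicate k' none ++ [some 2] ∈ H A := by
    intro k' hk'
    rintro ⟨z, _, hz, _⟩
    have h1 := congrArg (List.map Option.isSome) hz
    rw [rul, map_rulF, List.map_append, List.map_append, map_rulF] at h1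
    have h2 : enc (List.range' 1 ini.length ++ [k']) = enc (List.range' 1 z.length) := by
      rw [← h1, enc_append, enc_cons]
      simp [enc]
    have h3 := enc_injective h2
    have h4 := congrArg List.length h3
    simp only [List.length_append, List.length_range', List.length_singleton] at h4
    rw [← h4, List.range'_concat] at h3
    have h5 := List.append_cancel_left h3
    have h6 := (List.cons.inj h5).1
    omega
  -- the words with the two blocks
  have hform : ∀ m m' : ℕ, rulF 1 ini ++ List.replicate m none ++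
      (List.replicate m' none ++ [some 2]) =
      rulF 1 ini ++ List.replicate (m + m') none ++ [some 2] := by
    intro m m'
    rw [← List.append_assoc, List.append_assoc (rulF 1 ini), ← List.replicate_add]
  have hτD : ∀ y, y ∈ τ.image (H B) → y ∈ τ.image ((prefDFA y₀ S₀)ᶜ).accepts :=
    fun y hy => image_mono τ hBD hy
  have hmain : κ ∈ τ.image ((prefDFA y₀ S₀)ᶜ).accepts := by
    rcases hpump with hup | hdown
    · -- shorten the last block
      have hw' := hw (List.replicate (k - p * j) none ++ [some 2])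
      beta_reduce at hw'
      rw [hform, hform] at hw'
      have e1 : p * j + (k - p * j) = k := by omega
      rw [e1, ← hκe] at hw'
      set k' := p * i + (k - p * j) with hk'
      have h1 := hwrong k' (by omega)
      rw [hτ] at h1
      rcases h1 with h1 | h1
      · exfalso
        have h2 := hup k' (by omega) (j - i) (rulF 1 ini) h1
        have e2 : k' + p * (j - i) = k := by
          rw [Nat.mul_sub]
          omega
        rw [e2, ← hκe] at h2
        exact hκA (hsub₁ _ h2)
      · exact hw'.mp (hτD _ h1)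
    · -- lengthen the last block
      have hw' := hw (List.replicate (k - p * i) none ++ [some 2])
      beta_reduce at hw'
      rw [hform, hform] at hw'
      have e1 : p * i + (k - p * i) = k := by omega
      rw [e1, ← hκe] at hw'
      set k' := p * j + (k - p * i) with hk'
      have h1 := hwrong k' (by omega)
      rw [hτ] at h1
      rcases h1 with h1 | h1
      · exfalso
        have e2 : k' = k + p * (j - i) := by
          rw [Nat.mul_sub]
          omega
        rw [e2] at h1
        have h2 := hdown k (by omega) (j - i) (rulF 1 ini) h1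
        rw [← hκe] at h2
        exact hκA (hsub₁ _ h2)
      · exact hw'.mpr (hτD _ h1)
  obtain ⟨h, hK, hL, hψ⟩ := hmain
  -- the preimage of `κ`
  have hout : ∀ g ∈ τ.K, g.flatMap τ.ψ = κ → g.flatMap τ.φ ∉ H B := by
    intro g hg hgψ hmem
    exact hκA (hsub _ ⟨g, hg, hmem, hgψ⟩)
  obtain ⟨b, hb, hx⟩ := not_mem_H (hout h hK hψ)
  have hba : a < b := by
    by_contra hcon
    have hne : b ≠ a := fun he => haB (he ▸ hb)
    have hlt : b < a := by omega
    rw [hD] at hL
    apply hL
    rw [hx]
    exact ⟨rul_prefix (by omega), b, hb, hlt, rfl⟩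
  have hxlen : (h.flatMap τ.φ).length = T (2 * b) := by rw [hx]; rfl
  have hbig : 2 ^ (c' * Fintype.card (Option (Fin (κ.length + 1)))) ≤ (h.flatMap τ.φ).length := by
    rw [card_prefDFA, hxlen]
    calc 2 ^ (c' * (κ.length + 2)) ≤ 2 ^ E (s + 2) := by
          apply Nat.pow_le_pow_right (by norm_num)
          refine le_trans ?_ hgr'
          exact Nat.mul_le_mul_right _ (by omega)
      _ ≤ T (s + 2) := le_T _
      _ ≤ T (2 * b) := T_mono.monotone (by omega)
  obtain ⟨i', j', hij', hj', hw2⟩ := hc' _ (prefDFA κ {κ.length})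
    (fun n => (h.flatMap τ.φ).take n) (h.flatMap τ.φ).length hbig
  have hx1 : (h.flatMap τ.φ).take i' ++ (h.flatMap τ.φ).drop i' ∈
      τ.inv.image (prefDFA κ {κ.length}).accepts := by
    rw [List.take_append_drop]
    refine ⟨h, hK, ?_, rfl⟩
    rw [prefDFA_accepts]
    have h7 : h.flatMap τ.inv.φ = κ := hψ
    rw [h7]
    exact ⟨List.prefix_refl _, rfl⟩
  obtain ⟨g, hgK, hgL, hgψ⟩ := (hw2 _).mp hx1
  have hgκ : g.flatMap τ.ψ = κ := by
    rw [prefDFA_accepts] at hgL
    exact hgL.1.eq_of_length hgL.2
  obtain ⟨b', hb', hx'⟩ := not_mem_H (hout g hgK hgκ)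
  have hgφ : g.flatMap τ.φ = (h.flatMap τ.φ).take j' ++ (h.flatMap τ.φ).drop i' := hgψ
  have hlen' : T (2 * b') = T (2 * b) + (j' - i') := by
    have h8 := congrArg List.length hgφ
    rw [hx', List.length_append, List.length_take, List.length_drop, hxlen] at h8
    rw [hxlen] at hj'
    have h9 : T (2 * b') = min j' (T (2 * b)) + (T (2 * b) - i') := h8
    rw [Nat.min_eq_left hj'] at h9
    omega
  rw [hxlen] at hj'
  rcases le_or_gt b' b with hle | hgt
  · have h10 := T_mono.monotone (show 2 * b' ≤ 2 * b by omega)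
    omega
  · have h10 := T_mono.monotone (show 2 * b + 1 ≤ 2 * b' by omega)
    have h11 := T_succ (2 * b)
    omega

end RCone
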