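import Pool.Agent.RCone.App

/-! # Substitutions and transductions, with sizes (helper70, MP_a8de0d_lc) -/

namespace RCone

open Language

variable {X Y W V : Type}

/-- The substitution: `w₁ w₂ ... w_k` with `w_i ∈ f y_i`, `y₁ ... y_k ∈ K`. -/
inductive SubstRel (f : Y → Language W) : List Y → List W → Prop
  | nil : SubstRel f [] []
  | snoc {ys : List Y} {w v : List W} {y : Y} :
      SubstRel f ys w → v ∈ f y → SubstRel f (ys ++ [y]) (w ++ v)

/-- the words obtained from a word of `K` by replacing each letter `y` by a word of `f y` -/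
def substL (K : Language Y) (f : Y → Language W) : Language W :=
  {w | ∃ ys ∈ K, SubstRel f ys w}

/-- identity transduction -/
def idT (W : Type) [Finite W] : Transducer W W where
  Z := W
  finZ := inferInstance
  K := ⊤
  regK := by
    have := allL_regular (α := W) (fun _ => True)
    convert this using 1
    ext w
    exact ⟨fun _ _ _ => trivial, fun _ => trivial⟩
  φ := fun z => [z]
  ψ := fun z => [z]

theorem idT_image [Finite W] (L : Language W) : (idT W).image L = L := by
  ext w
  constructor
  · rintro ⟨h, _, hL, rfl⟩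
    have : h.flatMap (idT W).ψ = h := flatMap_single h
    rw [this]
    have h2 : h.flatMap (idT W).φ = h := flatMap_single h
    rw [h2] at hL
    exact hL
  · intro hw
    exact ⟨w, trivial, by rw [show w.flatMap (idT W).φ = w from flatMap_single w]; exact hw,
      flatMap_single w⟩

theorem idT_sized [Finite W] : Sized (idT W) 1 1 := by
  refine ⟨⟨Unit, inferInstance, ⟨fun _ _ => (), (), Set.univ⟩, ?_, le_rfl⟩, fun z => ⟨le_rfl, le_rfl⟩⟩
  ext w
  exact ⟨fun _ => trivial, fun _ => trivial⟩

/-- a transduction can be made to read at most one letter in each step -/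
theorem exists_norm [Finite W] (τ : Transducer W X) {m B : ℕ} (hB : 1 ≤ B) (h : Sized τ m B) :
    ∃ κ : Transducer W X, Sized κ ((nsh W (B + B) + 1) * (1 * m)) B ∧
      (∀ L, κ.image L = τ.image L) ∧ ∀ z, (κ.φ z).length ≤ 1 := by
  obtain ⟨κ, h1, h2, h3⟩ := exists_comp_lab (idT W) τ (idT_sized.mono le_rfl hB) h
  refine ⟨κ, h1, fun L => ?_, h3 1 fun z => le_rfl⟩
  rw [h2, idT_image]

/-- splitting a control word at the end of an input -/
theorem split_one {Z : Type} (φ : Z → List W) (hφ : ∀ z, (φ z).length ≤ 1) (h : List Z) :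
    ∀ u v, h.flatMap φ = u ++ v → ∃ h₁ h₂, h = h₁ ++ h₂ ∧ h₁.flatMap φ = u ∧ h₂.flatMap φ = v := by
  induction h with
  | nil =>
    intro u v he
    have h1 := List.append_eq_nil_iff.mp he.symm
    exact ⟨[], [], rfl, by rw [h1.1]; rfl, by rw [h1.2]; rfl⟩
  | cons z h ih =>
    intro u v he
    rw [List.flatMap_cons] at he
    cases u with
    | nil => exact ⟨[], z :: h, rfl, rfl, by rw [List.flatMap_cons, he]; rfl⟩
    | cons a u =>
      have hz := hφ z
      cases hc : φ z with
      | nil =>
        rw [hc, List.nil_append] at he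
        obtain ⟨h₁, h₂, e1, e2, e3⟩ := ih (a :: u) v he
        exact ⟨z :: h₁, h₂, by rw [e1]; rfl, by rw [List.flatMap_cons, hc, e2]; rfl, e3⟩
      | cons b l =>
        rw [hc, List.length_cons] at hz
        have hl : l = [] := List.length_eq_zero_iff.mp (by omega)
        subst hl
        rw [hc] at he
        simp only [List.cons_append, List.nil_append, List.cons.injEq] at he
        obtain ⟨hb, he⟩ := he
        obtain ⟨h₁, h₂, e1, e2, e3⟩ := ih u v he
        exact ⟨z :: h₁, h₂, by rw [e1]; rfl, by rw [List.flatMap_cons, hc, e2, hb]; rfl, e3⟩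

/-- the transduction from state `p` to state `q` -/
def Transducer.part (τ : Transducer W X) {σ : Type} [Fintype σ] (M : DFA τ.Z σ) (p q : σ) :
    Transducer W X where
  Z := τ.Z
  finZ := τ.finZ
  K := {h | M.evalFrom p h = q}
  regK := ⟨σ, inferInstance, ⟨M.step, p, {q}⟩, rfl⟩
  φ := τ.φ
  ψ := τ.ψ

theorem Transducer.part_sized {τ : Transducer W X} {m B : ℕ} (hs : ∀ z, (τ.φ z).length ≤ B ∧
    (τ.ψ z).length ≤ B) {σ : Type} [Fintype σ] (M : DFA τ.Z σ) (hc : Fintype.card σ ≤ m)
    (p q : σ) : Sized (τ.part M p q) m B :=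
  ⟨⟨σ, inferInstance, ⟨M.step, p, {q}⟩, rfl, hc⟩, hs⟩

/-- paths with outputs in given languages -/
inductive Path {σ : Type} (s₀ : σ) (R : σ → Y → σ → Language X) : List Y → List X → σ → Prop
  | nil : Path s₀ R [] [] s₀
  | snoc {ys : List Y} {x v : List X} {y : Y} {p q : σ} :
      Path s₀ R ys x p → v ∈ R p y q → Path s₀ R (ys ++ [y]) (x ++ v) q

theorem Path.congr {σ : Type} {s₀ : σ} {R R' : σ → Y → σ → Language X} {n : ℕ}
    (hR : ∀ p y q x, x.length ≤ n → (x ∈ R p y q → x ∈ R' p y q)) {ys : List Y} {x : List X}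
    {q : σ} (h : Path s₀ R ys x q) (hx : x.length ≤ n) : Path s₀ R' ys x q := by
  induction h with
  | nil => exact Path.nil
  | snoc h1 h2 ih =>
    rw [List.length_append] at hx
    exact Path.snoc (ih (by omega)) (hR _ _ _ _ (by omega) h2)

/-- the image of a substitution -/
theorem image_substL [Finite W] {K : Language Y} {f : Y → Language W} (τ : Transducer W X)
    (hφ : ∀ z, (τ.φ z).length ≤ 1) {σ : Type} [Fintype σ] (M : DFA τ.Z σ)
    (hM : M.accepts = τ.K) (x : List X) : x ∈ τ.image (substL K f) ↔
      ∃ ys ∈ K, ∃ v p t, Path M.start (fun p y q => (τ.part M p q).image (f y)) ys v p ∧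
        (∀ z ∈ t, τ.φ z = []) ∧ M.evalFrom p t ∈ M.accept ∧ x = v ++ t.flatMap τ.ψ := by
  constructor
  · rintro ⟨h, hK, ⟨ys, hys, hr⟩, rfl⟩
    rw [← hM] at hK
    refine ⟨ys, hys, ?_⟩
    -- split off the path
    have key : ∀ (ys : List Y) (w : List W), SubstRel f ys w → ∀ h : List τ.Z,
        h.flatMap τ.φ = w → ∃ h₁ t, h = h₁ ++ t ∧ (∀ z ∈ t, τ.φ z = []) ∧
        Path M.start (fun p y q => (τ.part M p q).image (f y)) ys (h₁.flatMap τ.ψ) (M.eval h₁) := by
      intro ys w hw
      induction hw with
      | nil =>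
        intro h hh
        refine ⟨[], h, rfl, ?_, Path.nil⟩
        intro z hz
        rw [List.flatMap_eq_nil_iff] at hh
        exact hh z hz
      | @snoc ys w v y h1 h2 ih =>
        intro h hh
        obtain ⟨a, b, e1, e2, e3⟩ := split_one τ.φ hφ h _ _ hh
        obtain ⟨h₁, t, e4, e5, e6⟩ := ih a e2
        refine ⟨h, [], by simp, by simp, ?_⟩
        have e7 : h = h₁ ++ (t ++ b) := by rw [e1, e4, List.append_assoc]
        rw [e7, List.flatMap_append]
        refine Path.snoc e6 ⟨t ++ b, ?_, ?_, rfl⟩
        · change M.evalFrom (M.eval h₁) (t ++ b) = M.evalFrom M.start (h₁ ++ (t ++ b))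
          exact (DFA.evalFrom_of_append M M.start h₁ (t ++ b)).symm
        · have e8 : t.flatMap τ.φ = [] := by
            rw [List.flatMap_eq_nil_iff]
            exact e5
          change (t ++ b).flatMap τ.φ ∈ f y
          rw [List.flatMap_append, e8, List.nil_append, e3]
          exact h2
    obtain ⟨h₁, t, e1, e2, e3⟩ := key ys _ hr h rfl
    refine ⟨_, _, t, e3, e2, ?_, by rw [e1, List.flatMap_append]⟩
    have : M.evalFrom M.start h ∈ M.accept := hK
    rw [e1, DFA.evalFrom_of_append] at this
    exact this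
  · rintro ⟨ys, hys, v, p, t, hP, ht, hacc, rfl⟩
    have key : ∀ (ys : List Y) (v : List X) (p : σ),
        Path M.start (fun p y q => (τ.part M p q).image (f y)) ys v p →
        ∃ h : List τ.Z, M.eval h = p ∧ h.flatMap τ.ψ = v ∧ SubstRel f ys (h.flatMap τ.φ) := by
      intro ys v p hP
      induction hP with
      | nil => exact ⟨[], rfl, rfl, SubstRel.nil⟩
      | @snoc ys x v y p q h1 h2 ih =>
        obtain ⟨h, e1, e2, e3⟩ := ih
        obtain ⟨g, g1, g2, g3⟩ : ∃ g : List τ.Z, M.evalFrom p g = q ∧ g.flatMap τ.φ ∈ f y ∧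
          g.flatMap τ.ψ = v := h2
        refine ⟨h ++ g, ?_, ?_, ?_⟩
        · change M.evalFrom M.start (h ++ g) = q
          rw [DFA.evalFrom_of_append]
          have : M.evalFrom M.start h = p := e1
          rw [this]
          exact g1
        · rw [List.flatMap_append, e2]
          have : g.flatMap τ.ψ = v := g3
          rw [this]
        · rw [List.flatMap_append]
          exact SubstRel.snoc e3 g2
    obtain ⟨h, e1, e2, e3⟩ := key ys v p hP
    refine ⟨h ++ t, ?_, ?_, ?_⟩
    · rw [← hM]
      change M.evalFrom M.start (h ++ t) ∈ M.accept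
      rw [DFA.evalFrom_of_append]
      have : M.evalFrom M.start h = p := e1
      rw [this]
      exact hacc
    · refine ⟨ys, hys, ?_⟩
      have e8 : t.flatMap τ.φ = [] := by
        rw [List.flatMap_eq_nil_iff]
        exact ht
      rw [List.flatMap_append, e8, List.append_nil]
      exact e3
    · rw [List.flatMap_append, e2]

end RCone
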